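import Pool.Agent.Lib.MP_02f36d_nt.CF.St

/-! The main body of the fundamental set: compactness and volume. -/

noncomputable section

namespace Pool.Agent.Lib.MP_02f36d_nt.CF

open Matrix MeasureTheory

namespace Body

theorem d1_eq (h : M3 ℝ) : d1 h = h 0 0 ^ 2 + h 0 1 ^ 2 + h 0 2 ^ 2 := by
  simp [d1, dotProduct, Fin.sum_univ_three, sq]

theorem dot_eq (u v : Fin 3 → ℝ) : u ⬝ᵥ v = u 0 * v 0 + u 1 * v 1 + u 2 * v 2 := by
  simp [dotProduct, Fin.sum_univ_three]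

theorem cr_eq (a b c d : Fin 3 → ℝ) : (a ⨯₃ b) ⬝ᵥ (c ⨯₃ d) =
    (a 1 * b 2 - a 2 * b 1) * (c 1 * d 2 - c 2 * d 1) +
    (a 2 * b 0 - a 0 * b 2) * (c 2 * d 0 - c 0 * d 2) +
    (a 0 * b 1 - a 1 * b 0) * (c 0 * d 1 - c 1 * d 0) := by
  simp [cross_apply, dotProduct, Fin.sum_univ_three]

theorem lag (u v : Fin 3 → ℝ) : (v ⬝ᵥ v) * (u ⬝ᵥ u) = (u ⨯₃ v) ⬝ᵥ (u ⨯₃ v) + (v ⬝ᵥ u) ^ 2 := by
  simp only [cr_eq, dot_eq u, dot_eq v]
  ring

theorem lag2 (h : M3 ℝ) : ((h 0 ⨯₃ h 2) ⬝ᵥ (h 0 ⨯₃ h 2)) * d2 h =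
    ((h 0 ⨯₃ h 2) ⬝ᵥ (h 0 ⨯₃ h 1)) ^ 2 + d1 h * h.det ^ 2 := by
  simp only [d2, cr_eq, d1_eq, det_fin_three]
  ring

theorem c_d1 : Continuous fun h : Fin 3 → Fin 3 → ℝ => d1 (Matrix.of h) := by
  simp only [d1_eq, of_apply]
  fun_prop

theorem c_dot (i j : Fin 3) :
    Continuous fun h : Fin 3 → Fin 3 → ℝ => Matrix.of h i ⬝ᵥ Matrix.of h j := by
  simp only [dot_eq, of_apply]
  fun_prop

theorem c_cr (i j k l : Fin 3) : Continuous fun h : Fin 3 → Fin 3 → ℝ =>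
    (Matrix.of h i ⨯₃ Matrix.of h j) ⬝ᵥ (Matrix.of h k ⨯₃ Matrix.of h l) := by
  simp only [cr_eq, of_apply]
  fun_prop

theorem c_d2 : Continuous fun h : Fin 3 → Fin 3 → ℝ => d2 (Matrix.of h) := c_cr 0 1 0 1

theorem c_det : Continuous fun h : Fin 3 → Fin 3 → ℝ => (Matrix.of h).det := by
  simp only [det_fin_three, of_apply]
  fun_prop

theorem c_ent (i j : Fin 3) : Continuous fun h : Fin 3 → Fin 3 → ℝ => Matrix.of h i j := by
  simp only [of_apply]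
  fun_prop

theorem closed_D : IsClosed Dset := by
  have k := fun c : ℝ => (continuous_const : Continuous fun _ : Fin 3 → Fin 3 → ℝ => c)
  refine IsClosed.and (IsClosed.and (IsClosed.and ?_ ?_) (IsClosed.and (IsClosed.and ?_ ?_)
    (IsClosed.and ?_ (IsClosed.and (IsClosed.and ?_ ?_) (IsClosed.and ?_ ?_)))))
    (IsClosed.and ?_ ?_)
  · exact isClosed_le (k _) (c_ent 0 0)
  · exact isClosed_le (k _) (c_ent 0 1)
  · exact isClosed_le (k _) (c_dot 1 0)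
  · exact isClosed_le (c_dot 1 0) (c_d1.div_const 2)
  · exact isClosed_le (c_dot 2 0).abs (c_d1.div_const 2)
  · exact isClosed_le (k _) (c_cr 0 2 0 1)
  · exact isClosed_le (c_cr 0 2 0 1) (c_d2.div_const 2)
  · exact isClosed_le ((k 3).mul (c_d1.pow 2)) ((k 4).mul c_d2)
  · exact isClosed_le ((k 3).mul (c_d2.pow 2)) (((k 4).mul c_d1).mul (c_det.pow 2))
  · exact isClosed_le (k _) (c_det.pow 2)
  · exact isClosed_le (c_det.pow 2) (k _)

theorem rows {h : M3 ℝ} {a : ℝ} (ha : 0 < a) (ha1 : a ≤ 1) (hs : Sieg h) (hd : h.det ^ 2 ≤ 2)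
    (h1 : a ≤ d1 h) (i : Fin 3) : h i ⬝ᵥ h i ≤ 11 / a ^ 3 := by
  obtain ⟨-, ⟨s1, s2⟩, s3, ⟨s4, s5⟩, s6, s7⟩ := hs
  have p1 : 0 < d1 h := ha.trans_le h1
  have p2 : 0 < d2 h := by nlinarith
  have e1 : 3 * d2 h ^ 2 ≤ 8 * d1 h := by nlinarith
  have b1 : d1 h ≤ 2 := by
    by_contra hc
    have hc' : 2 < d1 h := not_le.1 hc
    have t1 : 3 * d1 h ≤ 2 * d2 h := by nlinarith
    have t2 : 3 < d2 h := by linarith
    nlinarith
  have b2 : d2 h ≤ 3 := by nlinarith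
  have a2 : a ^ 2 ≤ 1 := pow_le_one₀ ha.le ha1
  have a3 : a ^ 3 ≤ 1 := pow_le_one₀ ha.le ha1
  have a3' : 0 < a ^ 3 := by positivity
  have nn : ∀ v : Fin 3 → ℝ, 0 ≤ v ⬝ᵥ v := fun v => by
    rw [dot_eq]
    nlinarith [mul_self_nonneg (v 0), mul_self_nonneg (v 1), mul_self_nonneg (v 2)]
  rw [le_div_iff₀ a3']
  have l1 := lag (h 0) (h 1)
  have l2 := lag (h 0) (h 2)
  have l3 := lag2 h
  change _ * d1 h = d2 h + _ at l1
  change _ * d1 h = _ at l2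
  fin_cases i
  · change d1 h * a ^ 3 ≤ 11
    nlinarith
  · change (h 1 ⬝ᵥ h 1) * a ^ 3 ≤ 11
    have t1 : (h 1 ⬝ᵥ h 0) ^ 2 ≤ 1 := by nlinarith
    have t2 : (h 1 ⬝ᵥ h 1) * a ≤ 4 := by nlinarith [nn (h 1)]
    have t3 : 0 ≤ (h 1 ⬝ᵥ h 1) * a := mul_nonneg (nn _) ha.le
    calc _ = (h 1 ⬝ᵥ h 1) * a * a ^ 2 := by ring
      _ ≤ 11 := by nlinarith
  · change (h 2 ⬝ᵥ h 2) * a ^ 3 ≤ 11
    have t1 : (h 2 ⬝ᵥ h 0) ^ 2 ≤ 1 := by
      rw [← sq_abs]
      nlinarith [abs_nonneg (h 2 ⬝ᵥ h 0)]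
    have t2 : ((h 0 ⨯₃ h 2) ⬝ᵥ (h 0 ⨯₃ h 1)) ^ 2 ≤ 9 / 4 := by nlinarith
    have t3 : d1 h * h.det ^ 2 ≤ 4 := by nlinarith [sq_nonneg h.det]
    have t4 : 3 * a ^ 2 ≤ 4 * d2 h := by nlinarith
    have n1 := nn (h 0 ⨯₃ h 2)
    have t5 : ((h 0 ⨯₃ h 2) ⬝ᵥ (h 0 ⨯₃ h 2)) * a ^ 2 ≤ 10 := by nlinarith
    have t6 : (h 2 ⬝ᵥ h 2) * a ≤ (h 0 ⨯₃ h 2) ⬝ᵥ (h 0 ⨯₃ h 2) + 1 := by nlinarith [nn (h 2)]
    calc _ = (h 2 ⬝ᵥ h 2) * a * a ^ 2 := by ring
      _ ≤ ((h 0 ⨯₃ h 2) ⬝ᵥ (h 0 ⨯₃ h 2) + 1) * a ^ 2 := by gcongr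
      _ ≤ 11 := by nlinarith

theorem c_Phi : Continuous Phi := by
  have h1 : Continuous fun x : EE ℝ => Matrix.of x.1 := continuous_fst
  have h2 : Continuous fun x : EE ℝ => (w1 x.2).2 := by
    refine continuous_matrix fun i j => ?_
    fin_cases i <;> fin_cases j <;> simp [w1] <;> fun_prop
  have h3 : Continuous fun x : EE ℝ => (act (Matrix.of x.1) (w1 x.2)).1 :=
    (h1.matrix_mul continuous_const).matrix_mul h1.matrix_transpose
  have h4 : Continuous fun x : EE ℝ => (act (Matrix.of x.1) (w1 x.2)).2 :=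
    (h1.matrix_mul h2).matrix_mul h1.matrix_transpose
  refine Continuous.prodMk (continuous_pi fun i => continuous_pi fun j => ?_)
    (continuous_pi fun i => h4.matrix_elem i i)
  split_ifs
  · exact h3.matrix_elem i j
  · exact h4.matrix_elem i j

end Body

open Body in
theorem cpt : CptSt := by
  intro δ hδ
  refine Metric.isCompact_of_isClosed_isBounded
    (closed_D.inter (isClosed_le continuous_const (c_d1.pow 3))) ?_
  have ha : 0 < min 1 δ := lt_min one_pos hδ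
  refine (Metric.isBounded_closedBall (x := 0) (r := 11 / min 1 δ ^ 3 + 1)).subset ?_
  rintro h ⟨⟨hs, -, hd⟩, h1⟩
  have n1 : 0 ≤ d1 (Matrix.of h) := by
    rw [d1_eq]
    positivity
  have h2 : min 1 δ ≤ d1 (Matrix.of h) := by
    rcases le_total 1 (d1 (Matrix.of h)) with h3 | h3
    · exact (min_le_left _ _).trans h3
    · refine (min_le_right _ _).trans (le_trans h1 ?_)
      exact pow_le_of_le_one n1 h3 (by norm_num)
  have hr := rows ha (min_le_left _ _) hs (hd.trans (by norm_num [et])) h2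
  have hR : 0 ≤ 11 / min 1 δ ^ 3 + 1 := by positivity
  rw [mem_closedBall_zero_iff, pi_norm_le_iff_of_nonneg hR]
  intro i
  rw [pi_norm_le_iff_of_nonneg hR]
  intro j
  have h3 := hr i
  rw [dot_eq] at h3
  simp only [of_apply] at h3
  have h4 : h i j * h i j ≤ 11 / min 1 δ ^ 3 := by
    refine le_trans ?_ h3
    fin_cases j <;> simp only [Fin.zero_eta, Fin.mk_one, Fin.reduceFinMk] <;>
      nlinarith [mul_self_nonneg (h i 0), mul_self_nonneg (h i 1), mul_self_nonneg (h i 2)]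
  rw [Real.norm_eq_abs, abs_le]
  constructor <;> nlinarith [mul_self_nonneg (h i j + 1), mul_self_nonneg (h i j - 1)]

open Body in
theorem body (hM : MonSt) (hJ : JacSt) (hV : VolSt) : BodySt := by
  intro D hD hc
  obtain ⟨hP, -, hI⟩ := hM
  have hK : IsCompact (D ×ˢ Pset) := hc.prod hP
  refine ⟨hK.image c_Phi, ?_⟩
  have e0 : (0 : ℝ) < et := by norm_num [et]
  have hdet : ∀ x ∈ D ×ˢ Pset, (Matrix.of x.1).det ≠ 0 := fun x hx h => by
    have := (hD hx.1).2.1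
    rw [h] at this
    norm_num at this
  choose! J hJ1 hJ2 using hJ
  have hmeas : MeasurableSet (D ×ˢ Pset) := hK.measurableSet
  haveI : (volume : Measure (Fin 3 → Fin 3 → ℝ)).IsAddHaarMeasure :=
    Measure.pi.isAddHaarMeasure fun _ => (volume : Measure (Fin 3 → ℝ))
  haveI : (volume : Measure (EE ℝ)).IsAddHaarMeasure :=
    Measure.prod.instIsAddHaarMeasure (volume : Measure (Fin 3 → Fin 3 → ℝ))
      (volume : Measure (Fin 3 → ℝ))
  refine (addHaar_image_le_lintegral_abs_det_fderiv volume hmeas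
    (fun x hx => (hJ1 x (hdet x hx)).hasFDerivWithinAt)).trans ?_
  have hb : ∫⁻ x in D ×ˢ Pset, ENNReal.ofReal |(J x).det| ≤
      ∫⁻ x in D ×ˢ Pset, ENNReal.ofReal (8 * (1 + et) ^ 3) *
        ENNReal.ofReal (4 * x.2 2 * ((x.2 1 - x.2 0) ^ 2 + x.2 2 ^ 2)) := by
    refine setLIntegral_mono' hmeas fun x hx => ?_
    rw [← ENNReal.ofReal_mul (by positivity), hJ2 x (hdet x hx)]
    refine ENNReal.ofReal_le_ofReal ?_
    have h0 : 0 ≤ x.2 2 := hx.2.1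
    obtain ⟨-, d1', d2'⟩ := hD hx.1
    have a1 : 1 ≤ |(Matrix.of x.1).det| := by
      rw [← sq_abs] at d1'
      nlinarith [abs_nonneg (Matrix.of x.1).det]
    have a2 : |(Matrix.of x.1).det| ^ 5 ≤ (1 + et) ^ 3 := by
      calc _ ≤ |(Matrix.of x.1).det| ^ 6 := pow_le_pow_right₀ a1 (by norm_num)
        _ = ((Matrix.of x.1).det ^ 2) ^ 3 := by rw [← sq_abs]; ring
        _ ≤ _ := by gcongr
    rw [abs_of_nonneg h0]
    calc _ ≤ 32 * x.2 2 * ((x.2 1 - x.2 0) ^ 2 + x.2 2 ^ 2) * (1 + et) ^ 3 := by gcongr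
      _ = _ := by ring
  refine hb.trans ?_
  have hg : Measurable fun p : Fin 3 → ℝ =>
      ENNReal.ofReal (4 * p 2 * ((p 1 - p 0) ^ 2 + p 2 ^ 2)) := by fun_prop
  rw [Measure.volume_eq_prod, ← Measure.prod_restrict,
    lintegral_prod_mul (f := fun _ => ENNReal.ofReal (8 * (1 + et) ^ 3)) aemeasurable_const
      hg.aemeasurable, setLIntegral_const]
  calc _ ≤ ENNReal.ofReal (8 * (1 + et) ^ 3) *
        ENNReal.ofReal (2 * Real.pi ^ 2 / 27 * et * (1 + et)) * ENNReal.ofReal (1 + et) := by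
        gcongr
        exact (measure_mono hD).trans hV
    _ = _ := by
      rw [← ENNReal.ofReal_mul (by positivity), ← ENNReal.ofReal_mul (by positivity)]
      congr 1
      ring

end Pool.Agent.Lib.MP_02f36d_nt.CF
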