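import Pool.Agent.Lib.MP_02f36d_nt.CF.St

/-! Counting forms of the box in residue classes. -/

set_option autoImplicit false

noncomputable section

namespace Pool.Agent.Lib.MP_02f36d_nt.CF

open Filter Finset

namespace Box

/-- The integers of an interval in a residue class. -/
def J (u L : ℝ) (q r : ℤ) : Finset ℤ :=
  (Finset.Icc ⌈(u - r) / q⌉ ⌊(u + L - r) / q⌋).image fun k => r + q * k

theorem mem_J {u L : ℝ} {q r n : ℤ} (hq : 0 < q) :
    n ∈ J u L q r ↔ (u ≤ n ∧ (n : ℝ) ≤ u + L) ∧ q ∣ n - r := by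
  have hq' : (0 : ℝ) < q := by exact_mod_cast hq
  simp only [J, mem_image, mem_Icc, Int.ceil_le, Int.le_floor, div_le_iff₀ hq', le_div_iff₀ hq']
  constructor
  · rintro ⟨k, ⟨h1, h2⟩, rfl⟩
    refine ⟨⟨?_, ?_⟩, ⟨k, by ring⟩⟩ <;> push_cast <;> linarith
  · rintro ⟨⟨h1, h2⟩, k, hk⟩
    have : n = r + q * k := by linarith
    subst this
    push_cast at h1 h2
    exact ⟨k, ⟨by linarith, by linarith⟩, rfl⟩

theorem card_J (u L : ℝ) {q : ℤ} (r : ℤ) (hq : 0 < q) :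
    (J u L q r).card = (⌊(u + L - r) / q⌋ + 1 - ⌈(u - r) / q⌉).toNat := by
  rw [J, card_image_of_injective _ (fun a b h => ?_), Int.card_Icc]
  have h' : q * a = q * b := by simpa using h
  exact mul_left_cancel₀ hq.ne' h'

theorem card_J_le (u : ℝ) {L : ℝ} {q : ℤ} (r : ℤ) (hq : 0 < q) (hL : 0 ≤ L) :
    ((J u L q r).card : ℝ) ≤ L / q + 1 := by
  have hq' : (0 : ℝ) < q := by exact_mod_cast hq
  rw [card_J u L r hq]
  have h1 := Int.floor_le ((u + L - r) / q)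
  have h2 := Int.le_ceil ((u - r) / q)
  have h3 : (u + L - r) / q - (u - r) / q = L / q := by ring
  have h4 : 0 ≤ L / q := div_nonneg hL hq'.le
  rcases le_total 0 (⌊(u + L - r) / q⌋ + 1 - ⌈(u - r) / q⌉) with h | h
  · have : (((⌊(u + L - r) / q⌋ + 1 - ⌈(u - r) / q⌉).toNat : ℕ) : ℝ) =
        ((⌊(u + L - r) / q⌋ + 1 - ⌈(u - r) / q⌉ : ℤ) : ℝ) := by
      rw [← Int.cast_natCast, Int.toNat_of_nonneg h]
    rw [this]; push_cast; linarith
  · rw [Int.toNat_eq_zero.2 h]; push_cast; linarith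

theorem le_card_J (u L : ℝ) {q : ℤ} (r : ℤ) (hq : 0 < q) :
    L / q - 1 ≤ ((J u L q r).card : ℝ) := by
  rw [card_J u L r hq]
  have h1 := Int.sub_one_lt_floor ((u + L - r) / q)
  have h2 := Int.ceil_lt_add_one ((u - r) / q)
  have h3 : (u + L - r) / q - (u - r) / q = L / q := by ring
  have h5 : ((⌊(u + L - r) / q⌋ + 1 - ⌈(u - r) / q⌉ : ℤ) : ℝ) ≤
      (((⌊(u + L - r) / q⌋ + 1 - ⌈(u - r) / q⌉).toNat : ℕ) : ℝ) := by
    rw [← Int.cast_natCast]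
    exact_mod_cast Int.self_le_toNat _
  push_cast at h5
  linarith

/-- Two coprime congruences. -/
def J2 (u L : ℝ) (m r q s : ℤ) : Finset ℤ := (J u L m r).filter fun n => q ∣ n - s

theorem card_J2_le (u : ℝ) {L : ℝ} {m q : ℤ} (r s : ℤ) (hm : 0 < m) (hq : 0 < q)
    (hc : IsCoprime m q) (hL : 0 ≤ L) : ((J2 u L m r q s).card : ℝ) ≤ L / (m * q) + 1 := by
  have hmq : 0 < m * q := mul_pos hm hq
  have hmq' : (0 : ℝ) < m * q := by exact_mod_cast hmq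
  rcases (J2 u L m r q s).eq_empty_or_nonempty with h | ⟨n0, h0⟩
  · rw [h]; have := div_nonneg hL hmq'.le; simp; linarith
  · have hs : J2 u L m r q s ⊆ J u L (m * q) n0 := by
      intro n hn
      simp only [J2, mem_filter, mem_J hm] at hn h0
      rw [mem_J hmq]
      refine ⟨hn.1.1, hc.mul_dvd ?_ ?_⟩
      · have := hn.1.2.sub h0.1.2
        rwa [sub_sub_sub_cancel_right] at this
      · have := hn.2.sub h0.2
        rwa [sub_sub_sub_cancel_right] at this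
    have := card_J_le u n0 hmq hL
    push_cast at this
    exact le_trans (by exact_mod_cast card_le_card hs) this

theorem card_biU {α β : Type*} [DecidableEq β] (s : Finset α) (f : α → Finset β) (K : ℝ)
    (h : ∀ a ∈ s, ((f a).card : ℝ) ≤ K) : ((s.biUnion f).card : ℝ) ≤ s.card * K := by
  calc ((s.biUnion f).card : ℝ) ≤ ((∑ a ∈ s, (f a).card : ℕ) : ℝ) := by
        exact_mod_cast card_biUnion_le
    _ = ∑ a ∈ s, ((f a).card : ℝ) := by push_cast; rfl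
    _ ≤ ∑ _a ∈ s, K := sum_le_sum h
    _ = s.card * K := by simp

theorem et_pos : 0 < et := by unfold et; norm_num

theorem et_le : et ≤ 1 := by unfold et; norm_num

theorem mm_pos : 0 < mm := primorial_pos 1000

theorem mm_cop {p : ℕ} (hp : p.Prime) (h : 1000 < p) : IsCoprime (mm : ℤ) (p : ℤ) := by
  rw [Int.isCoprime_iff_gcd_eq_one, Int.gcd_natCast_natCast, Nat.gcd_comm]
  refine (Nat.Prime.coprime_iff_not_dvd hp).2 fun hd => ?_
  have := hp.dvd_primorial_iff.1 hd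
  omega

/-- The solutions of a triangular system of congruences in the box. -/
def T (l : ℝ) (m : ℤ) (f0 : Fin 4 → ℤ) (q0 q1 q2 q3 g0 : ℤ) (g1 : ℤ → ℤ) (g2 : ℤ → ℤ → ℤ)
    (g3 : ℤ → ℤ → ℤ → ℤ) : Finset (Fin 4 → ℤ) :=
  (J2 l (et * l) m (f0 0) q0 g0).biUnion fun a => (J2 0 l m (f0 1) q1 (g1 a)).biUnion fun b =>
    (J2 l l m (f0 2) q2 (g2 a b)).biUnion fun c =>
      (J2 0 l m (f0 3) q3 (g3 a b c)).image fun d => ![a, b, c, d]

theorem mem_T {l : ℝ} {m : ℕ} (hm : 0 < m) {f0 f : Fin 4 → ℤ} {q0 q1 q2 q3 g0 : ℤ} {g1 : ℤ → ℤ}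
    {g2 : ℤ → ℤ → ℤ} {g3 : ℤ → ℤ → ℤ → ℤ} (hb : InBox l f) (hc : Cong m f f0)
    (h0 : q0 ∣ f 0 - g0) (h1 : q1 ∣ f 1 - g1 (f 0)) (h2 : q2 ∣ f 2 - g2 (f 0) (f 1))
    (h3 : q3 ∣ f 3 - g3 (f 0) (f 1) (f 2)) : f ∈ T l m f0 q0 q1 q2 q3 g0 g1 g2 g3 := by
  have hm' : (0 : ℤ) < m := by exact_mod_cast hm
  obtain ⟨⟨a1, a2⟩, ⟨b1, b2⟩, ⟨c1, c2⟩, d1, d2⟩ := hb
  have b1' : (0 : ℝ) ≤ f 1 := by exact_mod_cast b1
  have d1' : (0 : ℝ) ≤ f 3 := by exact_mod_cast d1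
  simp only [T, J2, mem_biUnion, mem_image, mem_filter, mem_J hm']
  refine ⟨f 0, ⟨⟨⟨a1, by linarith⟩, hc 0⟩, h0⟩, f 1, ⟨⟨⟨b1', by linarith⟩, hc 1⟩, h1⟩,
    f 2, ⟨⟨⟨c1, by linarith⟩, hc 2⟩, h2⟩, f 3, ⟨⟨⟨d1', by linarith⟩, hc 3⟩, h3⟩, ?_⟩
  funext i; fin_cases i <;> rfl

theorem card_T {l : ℝ} (hl : 0 ≤ l) {m : ℤ} (hm : 0 < m) (f0 : Fin 4 → ℤ) {q0 q1 q2 q3 : ℤ}
    (g0 : ℤ) (g1 : ℤ → ℤ) (g2 : ℤ → ℤ → ℤ) (g3 : ℤ → ℤ → ℤ → ℤ) (p0 : 0 < q0) (p1 : 0 < q1)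
    (p2 : 0 < q2) (p3 : 0 < q3) (c0 : IsCoprime m q0) (c1 : IsCoprime m q1)
    (c2 : IsCoprime m q2) (c3 : IsCoprime m q3) :
    ((T l m f0 q0 q1 q2 q3 g0 g1 g2 g3).card : ℝ) ≤ (et * l / (m * q0) + 1) *
      ((l / (m * q1) + 1) * ((l / (m * q2) + 1) * (l / (m * q3) + 1))) := by
  have nn : ∀ q : ℤ, 0 < q → (0 : ℝ) ≤ l / (m * q) + 1 := fun q hq => by
    have : (0 : ℝ) < m * q := by exact_mod_cast mul_pos hm hq
    have := div_nonneg hl this.le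
    linarith
  refine (card_biU _ _ ((l / (m * q1) + 1) * ((l / (m * q2) + 1) * (l / (m * q3) + 1)))
    fun a _ => ?_).trans (mul_le_mul_of_nonneg_right
      (card_J2_le _ _ _ hm p0 c0 (mul_nonneg et_pos.le hl))
      (mul_nonneg (nn _ p1) (mul_nonneg (nn _ p2) (nn _ p3))))
  refine (card_biU _ _ ((l / (m * q2) + 1) * (l / (m * q3) + 1))
    fun b _ => ?_).trans (mul_le_mul_of_nonneg_right (card_J2_le _ _ _ hm p1 c1 hl)
      (mul_nonneg (nn _ p2) (nn _ p3)))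
  refine (card_biU _ _ (l / (m * q3) + 1)
    fun c _ => ?_).trans (mul_le_mul_of_nonneg_right (card_J2_le _ _ _ hm p2 c2 hl) (nn _ p3))
  exact le_trans (by exact_mod_cast card_image_le) (card_J2_le _ _ _ hm p3 c3 hl)

theorem fac {L l m q η : ℝ} (hm : 0 < m) (hq : 0 < q) (hη : 0 < η) (hL : et * l ≤ L)
    (h : m * q ≤ η * (et * l)) : L / (m * q) + 1 ≤ (1 + η) * (L / (m * q)) := by
  have hmq : 0 < m * q := mul_pos hm hq
  have : 1 ≤ η * (L / (m * q)) := by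
    rw [← mul_div_assoc, le_div_iff₀ hmq]
    nlinarith
  linarith

theorem card_T' {l η P : ℝ} (hl : 0 ≤ l) (hη : 0 < η) {m : ℤ} (hm : 0 < m) (f0 : Fin 4 → ℤ)
    {q0 q1 q2 q3 : ℤ} (g0 : ℤ) (g1 : ℤ → ℤ) (g2 : ℤ → ℤ → ℤ) (g3 : ℤ → ℤ → ℤ → ℤ)
    (Q : ℤ) (hQ : 0 < Q) (cQ : IsCoprime m Q) (d0 : q0 ∣ Q) (d1 : q1 ∣ Q) (d2 : q2 ∣ Q)
    (d3 : q3 ∣ Q) (p0 : 0 < q0) (p1 : 0 < q1) (p2 : 0 < q2) (p3 : 0 < q3)
    (hP : (q0 : ℝ) * q1 * q2 * q3 = P) (h : (m : ℝ) * Q ≤ η * (et * l)) :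
    ((T l m f0 q0 q1 q2 q3 g0 g1 g2 g3).card : ℝ) ≤
      (1 + η) ^ 4 * (et * l ^ 4 / (m : ℝ) ^ 4) / P := by
  have hm' : (0 : ℝ) < m := by exact_mod_cast hm
  have hel : et * l ≤ l := by nlinarith [et_le, et_pos]
  have key : ∀ (q : ℤ) (L : ℝ), q ∣ Q → 0 < q → et * l ≤ L →
      0 ≤ L / (m * q) + 1 ∧ L / (m * q) + 1 ≤ (1 + η) * (L / (m * q)) := fun q L hd hq hL => by
    have hq' : (0 : ℝ) < q := by exact_mod_cast hq
    have hqQ : (q : ℝ) ≤ Q := by exact_mod_cast Int.le_of_dvd hQ hd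
    have h0 : 0 ≤ L := le_trans (mul_nonneg et_pos.le hl) hL
    refine ⟨by positivity, fac hm' hq' hη hL (le_trans ?_ h)⟩
    exact mul_le_mul_of_nonneg_left hqQ hm'.le
  obtain ⟨a0, a1⟩ := key q0 (et * l) d0 p0 le_rfl
  obtain ⟨b0, b1⟩ := key q1 l d1 p1 hel
  obtain ⟨c0, c1⟩ := key q2 l d2 p2 hel
  obtain ⟨e0, e1⟩ := key q3 l d3 p3 hel
  refine (card_T hl hm f0 g0 g1 g2 g3 p0 p1 p2 p3 (cQ.of_isCoprime_of_dvd_right d0)
    (cQ.of_isCoprime_of_dvd_right d1) (cQ.of_isCoprime_of_dvd_right d2)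
    (cQ.of_isCoprime_of_dvd_right d3)).trans ?_
  refine (mul_le_mul a1 (mul_le_mul b1 (mul_le_mul c1 e1 e0 (c0.trans c1))
    (mul_nonneg c0 e0) (b0.trans b1)) (mul_nonneg b0 (mul_nonneg c0 e0)) (a0.trans a1)).trans
    (le_of_eq ?_)
  have p0' : (q0 : ℝ) ≠ 0 := by exact_mod_cast p0.ne'
  have p1' : (q1 : ℝ) ≠ 0 := by exact_mod_cast p1.ne'
  have p2' : (q2 : ℝ) ≠ 0 := by exact_mod_cast p2.ne'
  have p3' : (q3 : ℝ) ≠ 0 := by exact_mod_cast p3.ne'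
  rw [← hP]
  field_simp

theorem eta {ε : ℝ} (hε : 0 < ε) :
    ∃ η : ℝ, 0 < η ∧ η ≤ 1 ∧ (1 + η) ^ 4 ≤ 1 + ε ∧ 1 - ε ≤ (1 - η) ^ 4 := by
  refine ⟨min 1 (ε / 15), by positivity, min_le_left _ _, ?_, ?_⟩
  · have h1 : min 1 (ε / 15) ≤ 1 := min_le_left _ _
    have h2 : min 1 (ε / 15) ≤ ε / 15 := min_le_right _ _
    have h0 : 0 < min 1 (ε / 15) := by positivity
    generalize min 1 (ε / 15) = x at *
    have h3 : x ^ 2 ≤ x := by nlinarith
    have h4 : x ^ 3 ≤ x := by nlinarith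
    have h5 : x ^ 4 ≤ x := by nlinarith
    nlinarith
  · have h1 : min 1 (ε / 15) ≤ 1 := min_le_left _ _
    have h2 : min 1 (ε / 15) ≤ ε / 15 := min_le_right _ _
    have h0 : 0 < min 1 (ε / 15) := by positivity
    generalize min 1 (ε / 15) = x at *
    have := one_add_mul_le_pow (show (-2 : ℝ) ≤ -x by linarith) 4
    push_cast at this
    have e : 1 + -x = 1 - x := by ring
    rw [e] at this
    linarith

theorem lowM (m : ℕ) (hm : 0 < m) (f0 : Fin 4 → ℤ) (ε : ℝ) (hε : 0 < ε) : ∀ᶠ l : ℝ in atTop,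
    (1 - ε) * (et * l ^ 4 / (m : ℝ) ^ 4) ≤ ({f | InBox l f ∧ Cong m f f0}.ncard : ℝ) := by
  obtain ⟨η, h0, h1, -, h3⟩ := eta hε
  have hm' : (0 : ℤ) < m := by exact_mod_cast hm
  have hmr : (0 : ℝ) < m := by exact_mod_cast hm
  have he := et_pos
  filter_upwards [eventually_ge_atTop ((m : ℝ) / (η * et)), eventually_ge_atTop 0] with l hl hl0
  rw [div_le_iff₀ (by positivity)] at hl
  have hel : et * l ≤ l := by nlinarith [et_le]
  have hs : {f | InBox l f ∧ Cong m f f0} = ↑(Fintype.piFinset fun i =>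
      J (![l, 0, l, 0] i) (![et * l, l, l, l] i) m (f0 i)) := by
    ext f
    simp only [Set.mem_ofPred_eq, mem_coe, Fintype.mem_piFinset, mem_J hm', InBox, Cong,
      Fin.forall_fin_succ, ← Int.cast_nonneg_iff (R := ℝ)]
    simp only [Fin.succ_zero_eq_one, Fin.succ_one_eq_two, IsEmpty.forall_iff, and_true,
      Fin.reduceSucc, Matrix.cons_val, zero_add]
    have e1 : l + et * l = (1 + et) * l := by ring
    have e2 : l + l = 2 * l := by ring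
    rw [e1, e2]
    tauto
  rw [hs, Set.ncard_coe_finset, Fintype.card_piFinset, Fin.prod_univ_four]
  have key : ∀ (u L : ℝ) (r : ℤ), et * l ≤ L →
      (1 - η) * (L / m) ≤ ((J u L m r).card : ℝ) := fun u L r hL => by
    have := le_card_J u L r hm'
    have h4 : 1 ≤ η * (L / m) := by
      rw [← mul_div_assoc, le_div_iff₀ hmr]
      nlinarith
    push_cast at this
    linarith
  have a := key l (et * l) (f0 0) le_rfl
  have b := key 0 l (f0 1) hel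
  have c := key l l (f0 2) hel
  have d := key 0 l (f0 3) hel
  have h5 : 0 ≤ 1 - η := by linarith
  have n1 : 0 ≤ (1 - η) * (l / m) := by positivity
  have := mul_le_mul (mul_le_mul (mul_le_mul a b n1 (by positivity)) c n1 (by positivity)) d n1
    (by positivity)
  push_cast
  refine le_trans ?_ this
  have e : (1 - η) * (et * l / m) * ((1 - η) * (l / m)) * ((1 - η) * (l / m)) *
      ((1 - η) * (l / m)) = (1 - η) ^ 4 * (et * l ^ 4 / (m : ℝ) ^ 4) := by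
    field_simp
  rw [e]
  exact mul_le_mul_of_nonneg_right h3 (by positivity)

theorem smallM (m : ℕ) (hm : 0 < m) (f0 : Fin 4 → ℤ) (ε : ℝ) (hε : 0 < ε) :
    ∀ᶠ l : ℝ in atTop, ∀ p : ℕ, 0 < p → IsCoprime (m : ℤ) (p : ℤ) → (p : ℝ) ^ 4 ≤ l →
    ({f | InBox l f ∧ Cong m f f0 ∧ (Dbl p f ∨ Trip p f)}.ncard : ℝ) ≤
      (1 + ε) * (2 * (p + 1) / (p : ℝ) ^ 3) * (et * l ^ 4 / (m : ℝ) ^ 4) := by
  obtain ⟨η, h0, -, h2, -⟩ := eta hε
  have hm' : (0 : ℤ) < m := by exact_mod_cast hm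
  have hmr : (0 : ℝ) < m := by exact_mod_cast hm
  have he := et_pos
  filter_upwards [eventually_ge_atTop (((m : ℝ) / (η * et)) ^ 2), eventually_ge_atTop 0]
    with l hl hl0 p hp hc hpl
  have hp' : (0 : ℤ) < p := by exact_mod_cast hp
  have hpr : (0 : ℝ) < p := by exact_mod_cast hp
  have hQ : ((m : ℤ) : ℝ) * (((p : ℤ) ^ 2 : ℤ) : ℝ) ≤ η * (et * l) := by
    push_cast
    have s1 : (m : ℝ) / (η * et) ≤ √l := Real.le_sqrt_of_sq_le hl
    have s2 : (p : ℝ) ^ 2 ≤ √l := Real.le_sqrt_of_sq_le (by rw [← pow_mul]; exact hpl)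
    rw [div_le_iff₀ (by positivity)] at s1
    calc (m : ℝ) * (p : ℝ) ^ 2 ≤ (√l * (η * et)) * √l :=
          mul_le_mul s1 s2 (by positivity) (by positivity)
      _ = η * (et * (√l * √l)) := by ring
      _ = η * (et * l) := by rw [Real.mul_self_sqrt hl0]
  have hc2 : IsCoprime (m : ℤ) ((p : ℤ) ^ 2) := hc.pow_right
  have q2 : (0 : ℤ) < (p : ℤ) ^ 2 := by positivity
  have dp : (p : ℤ) ∣ (p : ℤ) ^ 2 := dvd_pow_self _ two_ne_zero
  set K : ℝ := (1 + η) ^ 4 * (et * l ^ 4 / ((m : ℤ) : ℝ) ^ 4) / (p : ℝ) ^ 3 with hK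
  let A : ℕ → Finset (Fin 4 → ℤ) := fun r => T l m f0 1 1 p (p ^ 2) 0 (fun _ => 0)
    (fun a b => -(3 * a * r ^ 2 + 2 * b * r)) (fun a b c => -(a * r ^ 3 + b * r ^ 2 + c * r))
  let B : Finset (Fin 4 → ℤ) := T l m f0 (p ^ 2) p 1 1 0 (fun _ => 0) (fun _ _ => 0)
    (fun _ _ _ => 0)
  let C : ℕ → Finset (Fin 4 → ℤ) := fun r => T l m f0 1 p p p 0 (fun a => -(3 * a * r))
    (fun a _ => 3 * a * r ^ 2) (fun a _ _ => -(a * r ^ 3))
  let D : Finset (Fin 4 → ℤ) := T l m f0 p p p 1 0 (fun _ => 0) (fun _ _ => 0)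
    (fun _ _ _ => 0)
  have hA : ∀ r, ((A r).card : ℝ) ≤ K := fun r =>
    card_T' hl0 h0 hm' f0 _ _ _ _ _ q2 hc2 (one_dvd _) (one_dvd _) dp dvd_rfl one_pos one_pos
      hp' q2 (by push_cast; ring) hQ
  have hB : (B.card : ℝ) ≤ K :=
    card_T' hl0 h0 hm' f0 _ _ _ _ _ q2 hc2 dvd_rfl dp (one_dvd _) (one_dvd _) q2 hp' one_pos
      one_pos (by push_cast; ring) hQ
  have hC : ∀ r, ((C r).card : ℝ) ≤ K := fun r =>
    card_T' hl0 h0 hm' f0 _ _ _ _ _ q2 hc2 (one_dvd _) dp dp dp one_pos hp' hp' hp'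
      (by push_cast; ring) hQ
  have hD : (D.card : ℝ) ≤ K :=
    card_T' hl0 h0 hm' f0 _ _ _ _ _ q2 hc2 dp dp dp (one_dvd _) hp' hp' hp' one_pos
      (by push_cast; ring) hQ
  have hs : {f | InBox l f ∧ Cong m f f0 ∧ (Dbl p f ∨ Trip p f)} ⊆
      ↑(((range p).biUnion A ∪ B) ∪ ((range p).biUnion C ∪ D)) := by
    rintro f ⟨hb, hf, h⟩
    simp only [coe_union, Set.mem_union, mem_coe, mem_biUnion, mem_range]
    rcases h with (⟨r, hr, u1, u2⟩ | ⟨u1, u2⟩) | ⟨r, hr, u1, u2, u3⟩ | ⟨u1, u2, u3⟩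
    · refine Or.inl (Or.inl ⟨r, hr, mem_T hm hb hf (one_dvd _) (one_dvd _) ?_ ?_⟩)
      · convert u2 using 1; ring
      · convert u1 using 1; simp only [ev]; ring
    · exact Or.inl (Or.inr (mem_T hm hb hf (by simpa using u1) (by simpa using u2) (one_dvd _)
        (one_dvd _)))
    · refine Or.inr (Or.inl ⟨r, hr, mem_T hm hb hf (one_dvd _) ?_ u2 ?_⟩)
      · convert u1 using 1; ring
      · convert u3 using 1; ring
    · exact Or.inr (Or.inr (mem_T hm hb hf (by simpa using u1) (by simpa using u2)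
        (by simpa using u3) (one_dvd _)))
  have h3 := Set.ncard_le_ncard hs (finite_toSet _)
  rw [Set.ncard_coe_finset] at h3
  have h4 : (((range p).biUnion A ∪ B) ∪ ((range p).biUnion C ∪ D)).card ≤
      ((range p).biUnion A).card + B.card + (((range p).biUnion C).card + D.card) :=
    (card_union_le _ _).trans (add_le_add (card_union_le _ _) (card_union_le _ _))
  have h5 := card_biU (range p) A K fun r _ => hA r
  have h6 := card_biU (range p) C K fun r _ => hC r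
  rw [card_range] at h5 h6
  have h7 : ({f | InBox l f ∧ Cong m f f0 ∧ (Dbl p f ∨ Trip p f)}.ncard : ℝ) ≤
      ((range p).biUnion A).card + B.card + (((range p).biUnion C).card + D.card) := by
    exact_mod_cast h3.trans h4
  have h8 : K ≤ (1 + ε) * (et * l ^ 4 / (m : ℝ) ^ 4) / (p : ℝ) ^ 3 := by
    rw [hK]; push_cast; gcongr
  calc _ ≤ 2 * (p + 1) * K := by linarith
    _ ≤ 2 * (p + 1) * ((1 + ε) * (et * l ^ 4 / (m : ℝ) ^ 4) / (p : ℝ) ^ 3) := by gcongr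
    _ = _ := by ring

end Box

theorem low : LowSt := fun f0 ε hε => Box.lowM mm Box.mm_pos f0 ε hε

theorem small : SmallSt := fun f0 ε hε => by
  filter_upwards [Box.smallM mm Box.mm_pos f0 ε hε] with l hl p hp h1 h2
  exact hl p hp.pos (Box.mm_cop hp h1) h2

end Pool.Agent.Lib.MP_02f36d_nt.CF
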