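import Pool.Agent.Lib.MP_02f36d_nt.CF.St

/-! Primes dividing the discriminant of a binary cubic form. -/

namespace Pool.Agent.Lib.MP_02f36d_nt.CF

namespace Cls

theorem root {k : Type} [Field k] (h2 : (2 : k) ≠ 0) (h3 : (3 : k) ≠ 0) (f : Fin 4 → k)
    (h : disc f = 0) :
    (f 0 = 0 ∧ f 1 = 0) ∨ ∃ r, ev f r 1 = 0 ∧ 3 * f 0 * r ^ 2 + 2 * f 1 * r + f 2 = 0 := by
  rw [disc] at h
  simp only [ev]
  by_cases hH : f 1 ^ 2 - 3 * f 0 * f 2 = 0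
  · by_cases ha : f 0 = 0
    · exact Or.inl ⟨ha, by simpa [ha] using hH⟩
    have hG : 27 * f 0 ^ 2 * f 3 - 9 * f 0 * f 1 * f 2 + 2 * f 1 ^ 3 = 0 :=
      pow_eq_zero_iff two_ne_zero |>.1 (by
        linear_combination 4 * (f 1 ^ 2 - 3 * f 0 * f 2) ^ 2 * hH - 27 * f 0 ^ 2 * h)
    refine Or.inr ⟨-f 1 / (3 * f 0), ?_, ?_⟩ <;> field_simp
    · linear_combination hG
    · linear_combination -hH
  · obtain ⟨r, hr⟩ : ∃ r, r * (2 * (f 1 ^ 2 - 3 * f 0 * f 2)) = 9 * f 0 * f 3 - f 1 * f 2 :=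
      ⟨_, div_mul_cancel₀ _ (mul_ne_zero h2 hH)⟩
    have a := mul_ne_zero h2 hH
    generalize hu : 2 * (f 1 ^ 2 - 3 * f 0 * f 2) = u at hr a
    refine Or.inr ⟨r, mul_left_cancel₀ (pow_ne_zero 3 a) ?_, mul_left_cancel₀ (pow_ne_zero 2 a) ?_⟩
    · rw [show u ^ 3 * (f 0 * r ^ 3 + f 1 * r ^ 2 * 1 + f 2 * r * 1 ^ 2 + f 3 * 1 ^ 3) =
        f 0 * (r * u) ^ 3 + f 1 * (r * u) ^ 2 * u + f 2 * (r * u) * u ^ 2 + f 3 * u ^ 3 by ring,
        hr, ← hu]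
      linear_combination -(27 * f 0 ^ 2 * f 3 - 9 * f 0 * f 1 * f 2 + 2 * f 1 ^ 3) * h
    · rw [show u ^ 2 * (3 * f 0 * r ^ 2 + 2 * f 1 * r + f 2) =
        3 * f 0 * (r * u) ^ 2 + 2 * f 1 * (r * u) * u + f 2 * u ^ 2 by ring, hr, ← hu]
      linear_combination -9 * f 0 * h

theorem small {p q : ℕ} (hp : 5 ≤ p) (h0 : q ≠ 0) (hq : q < 5) : (q : ZMod p) ≠ 0 := fun h =>
  absurd (Nat.le_of_dvd (Nat.pos_of_ne_zero h0) ((ZMod.natCast_eq_zero_iff _ _).1 h)) (by omega)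

theorem rootp {p : ℕ} [Fact p.Prime] (hp : 5 ≤ p) (f : Fin 4 → ℤ) (h : (p : ℤ) ∣ disc f) :
    (cst (ZMod p) f 0 = 0 ∧ cst (ZMod p) f 1 = 0) ∨ ∃ r, ev (cst (ZMod p) f) r 1 = 0 ∧
      3 * cst (ZMod p) f 0 * r ^ 2 + 2 * cst (ZMod p) f 1 * r + cst (ZMod p) f 2 = 0 :=
  root (by exact_mod_cast small (q := 2) hp two_ne_zero (by norm_num))
    (by exact_mod_cast small (q := 3) hp three_ne_zero (by norm_num)) _ (by
      simpa [disc, cst] using (ZMod.intCast_zmod_eq_zero_iff_dvd _ _).2 h)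

theorem four {p : ℕ} (hp : p.Prime) (h5 : 5 ≤ p) {u v : ℤ} (hu : ¬(p : ℤ) ∣ u)
    (h : (p : ℤ) ^ 2 ∣ 4 * u ^ 3 * v) : (p : ℤ) ^ 2 ∣ v := by
  have h1 := Nat.prime_iff_prime_int.1 hp
  refine h1.pow_dvd_of_dvd_mul_left 2 (fun a => ?_) h
  rcases h1.dvd_or_dvd a with a | a
  · exact absurd (Int.le_of_dvd (by norm_num) a) (by omega)
  · exact hu (h1.dvd_of_dvd_pow a)

theorem cubic (p : ℕ) [Fact p.Prime] : ∃ b : Fin 3 → ZMod p, ∀ x y : ZMod p,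
    x ^ 3 + b 0 * x ^ 2 * y + b 1 * x * y ^ 2 + b 2 * y ^ 3 = 0 → x = 0 ∧ y = 0 := by
  have h : ¬Function.Surjective fun u : Fin 3 → ZMod p =>
      (![u 1 - u 0, u 2 - u 0 * u 1, -(u 0 * u 2)] : Fin 3 → ZMod p) := fun h => by
    simpa using congrFun (Finite.injective_iff_surjective.2 h (a₁ := ![0, -1, 0]) (a₂ := ![1, 0, 0])
      (by simp)) 0
  obtain ⟨b, hb⟩ := not_forall.1 h
  refine ⟨b, fun x y e => ?_⟩
  by_cases hy : y = 0
  · exact ⟨by simpa [hy] using e, hy⟩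
  obtain ⟨r, rfl⟩ : ∃ r, x = r * y := ⟨x / y, (div_mul_cancel₀ _ hy).symm⟩
  have e' : r ^ 3 + b 0 * r ^ 2 + b 1 * r + b 2 = 0 :=
    mul_left_cancel₀ (pow_ne_zero 3 hy) (by linear_combination e)
  refine absurd ⟨![r, b 0 + r, b 1 + r * (b 0 + r)], funext fun i => ?_⟩ hb
  fin_cases i <;> simp
  linear_combination -e'

theorem two : ∀ a b c d : ZMod 2, (∀ x y : ZMod 2, a * x ^ 3 + b * x ^ 2 * y + c * x * y ^ 2 +
    d * y ^ 3 = 0 → x = 0 ∧ y = 0) → b ^ 2 * c ^ 2 - 4 * a * c ^ 3 - 4 * b ^ 3 * d -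
      27 * a ^ 2 * d ^ 2 + 18 * a * b * c * d ≠ 0 := by decide

theorem three : ∀ a b c d : ZMod 3, (∀ x y : ZMod 3, a * x ^ 3 + b * x ^ 2 * y + c * x * y ^ 2 +
    d * y ^ 3 = 0 → x = 0 ∧ y = 0) → b ^ 2 * c ^ 2 - 4 * a * c ^ 3 - 4 * b ^ 3 * d -
      27 * a ^ 2 * d ^ 2 + 18 * a * b * c * d ≠ 0 := by decide

end Cls

open Cls

theorem cls : ClsSt := by
  refine ⟨fun p f hp h5 h => ?_, fun p f hp hn h => ?_, ?_⟩
  · have := Fact.mk hp
    rcases rootp h5 f ((dvd_pow_self _ two_ne_zero).trans h) with ⟨a, b⟩ | ⟨r, a, b⟩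
    · obtain ⟨u, a⟩ := (ZMod.intCast_zmod_eq_zero_iff_dvd _ _).1 a
      obtain ⟨v, b⟩ := (ZMod.intCast_zmod_eq_zero_iff_dvd _ _).1 b
      by_cases c : (p : ℤ) ∣ f 2
      · exact Or.inr (Or.inr ⟨⟨u, a⟩, ⟨v, b⟩, c⟩)
      refine Or.inl (Or.inr ⟨four hp h5 c ?_, v, b⟩)
      obtain ⟨w, h⟩ := h
      rw [disc, a, b] at h
      exact ⟨v ^ 2 * f 2 ^ 2 - 4 * p * v ^ 3 * f 3 - 27 * u ^ 2 * f 3 ^ 2 + 18 * u * v * f 2 * f 3 - w,
        by rw [a]; linear_combination -h⟩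
    · obtain ⟨u, a⟩ := (ZMod.intCast_zmod_eq_zero_iff_dvd (ev f r.val 1) p).1
        (by simpa [ev, cst] using a)
      obtain ⟨v, b⟩ := (ZMod.intCast_zmod_eq_zero_iff_dvd
        (3 * f 0 * r.val ^ 2 + 2 * f 1 * r.val + f 2) p).1 (by simpa [cst] using b)
      have hr := r.val_lt
      generalize r.val = s at *
      by_cases c : (p : ℤ) ∣ f 1 + 3 * f 0 * s
      · obtain ⟨w, c⟩ := c
        rw [ev] at a
        exact Or.inr (Or.inl ⟨s, hr, ⟨w, c⟩, ⟨v - 2 * s * w, by linear_combination b - 2 * s * c⟩,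
          u - s * v + s ^ 2 * w, by linear_combination a - s * b + s ^ 2 * c⟩)
      refine Or.inl (Or.inl ⟨s, hr, four hp h5 c ?_, v, b⟩)
      obtain ⟨w, h⟩ := h
      have e : disc f = disc ![f 0, f 1 + 3 * f 0 * s, 3 * f 0 * s ^ 2 + 2 * f 1 * s + f 2,
          ev f s 1] := by
        simp [disc, ev]
        ring
      rw [e, a, b, disc] at h
      simp only [Matrix.cons_val] at h
      rw [a]
      generalize f 1 + 3 * f 0 * s = t at h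
      exact ⟨t ^ 2 * v ^ 2 - 4 * f 0 * p * v ^ 3 - 27 * f 0 ^ 2 * u ^ 2 + 18 * f 0 * t * v * u - w,
        by linear_combination -h⟩
  · have := Fact.mk hp
    by_cases h5 : 5 ≤ p
    · rcases rootp h5 f h with ⟨a, -⟩ | ⟨r, a, -⟩
      · exact one_ne_zero (hn 1 0 (by simp [ev, a])).1
      · exact one_ne_zero (hn r 1 a).2
    have h1 : disc (cst (ZMod p) f) = 0 := by
      simpa [disc, cst] using (ZMod.intCast_zmod_eq_zero_iff_dvd _ _).2 h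
    have h2 := hp.two_le
    have h4 : p ≠ 4 := by
      rintro rfl
      norm_num at hp
    rw [NoRoot] at hn
    generalize cst (ZMod p) f = g at hn h1
    simp only [ev, disc] at hn h1
    generalize g 0 = a, g 1 = b, g 2 = c, g 3 = d at hn h1
    obtain rfl | rfl : p = 2 ∨ p = 3 := by omega
    exacts [two a b c d hn h1, three a b c d hn h1]
  · have h : ∀ p : ℕ, ∃ b : Fin 3 → ℕ, p.Prime → ∀ x y : ZMod p,
        x ^ 3 + b 0 * x ^ 2 * y + b 1 * x * y ^ 2 + b 2 * y ^ 3 = 0 → x = 0 ∧ y = 0 := fun p => by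
      by_cases hp : p.Prime
      · have := Fact.mk hp
        obtain ⟨b, hb⟩ := cubic p
        exact ⟨fun i => (b i).val, fun _ => by simpa using hb⟩
      · exact ⟨0, fun a => absurd a hp⟩
    choose b hb using h
    choose c hc using fun i : Fin 3 => Subtype.exists_of_subtype (Nat.chineseRemainderOfFinset
      (fun p => b p i) id ((Finset.range 1001).filter Nat.Prime)
      (fun p hp => (Finset.mem_filter.1 hp).2.ne_zero) fun p hp q hq e =>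
        (Nat.coprime_primes (Finset.mem_filter.1 hp).2 (Finset.mem_filter.1 hq).2).2 e)
    refine ⟨![1, c 0, c 1, c 2], fun p hp h x y e => hb p hp x y ?_⟩
    have k : ∀ i, (c i : ZMod p) = b p i := fun i => (ZMod.natCast_eq_natCast_iff _ _ _).2
      (hc i p (Finset.mem_filter.2 ⟨Finset.mem_range.2 (by omega), hp⟩))
    simpa [ev, cst, k] using e

end Pool.Agent.Lib.MP_02f36d_nt.CF
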