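import Pool.Agent.Lib.MP_02f36d_nt.CF.St

/-! Integral points of a residue class in dilates of a compact set. -/

set_option autoImplicit false

noncomputable section

namespace Pool.Agent.Lib.MP_02f36d_nt.CF

open MeasureTheory Filter Metric Topology
open scoped Pointwise

namespace CntL

theorem vol_ball (x : EE ℝ) (r : ℝ) (hr : 0 < r) :
    volume (ball x r) = ENNReal.ofReal ((2 * r) ^ 12) := by
  obtain ⟨a, b⟩ := x
  rw [← ball_prod_same, Measure.volume_eq_prod, Measure.prod_prod, volume_pi_ball _ hr]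
  simp only [Real.volume_pi_ball _ hr, Fintype.card_fin, Finset.prod_const, Finset.card_univ]
  rw [← ENNReal.ofReal_pow (by positivity), ← ENNReal.ofReal_mul (by positivity)]
  congr 1
  ring

theorem sep1 (m : ℕ) (a b : ℤ) (h : (a : ZMod m) = b) (hne : a ≠ b) :
    (m : ℝ) ≤ dist (a : ℝ) (b : ℝ) := by
  have h1 := (ZMod.intCast_eq_intCast_iff_dvd_sub a b m).1 h
  have h2 := Int.le_of_dvd (abs_pos.2 (sub_ne_zero.2 hne.symm)) ((dvd_abs _ _).2 h1)
  rw [dist_comm, Real.dist_eq]
  exact_mod_cast h2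

theorem sep (m : ℕ) (x y : EE ℤ) (h : redE m x = redE m y) (hne : x ≠ y) :
    (m : ℝ) ≤ dist (cstE x) (cstE y) := by
  by_contra hlt
  rw [not_le, Prod.dist_eq, max_lt_iff] at hlt
  refine hne (Prod.ext (funext fun i => funext fun j => ?_) (funext fun i => ?_))
  · by_contra h0
    exact absurd ((sep1 m _ _ (congrFun (congrFun (congrArg Prod.fst h) i) j) h0).trans
      ((dist_le_pi_dist ((cstE x).1 i) ((cstE y).1 i) j).trans (dist_le_pi_dist _ _ i)))
      (not_le.2 hlt.1)
  · by_contra h0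
    exact absurd ((sep1 m _ _ (congrFun (congrArg Prod.snd h) i) h0).trans
      (dist_le_pi_dist (cstE x).2 (cstE y).2 i)) (not_le.2 hlt.2)

theorem haar : (volume : Measure (EE ℝ)).IsAddHaarMeasure :=
  haveI : (volume : Measure (Fin 3 → Fin 3 → ℝ)).IsAddHaarMeasure := Measure.pi.isAddHaarMeasure _
  Measure.prod.instIsAddHaarMeasure volume volume

end CntL

open CntL in
theorem cnt : CntSt := by
  intro K v hK hv m hm
  haveI := haar
  have hm0 : (0 : ℝ) < m := Nat.cast_pos.2 (Nat.pos_of_ne_zero hm)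
  have hv0 : 0 < v := ENNReal.ofReal_pos.1 (lt_of_le_of_lt bot_le hv)
  have h1 := (tendsto_measure_cthickening_of_isCompact (μ := volume) hK).eventually
    (gt_mem_nhds hv)
  obtain ⟨δ, hδ, hδ0⟩ := ((h1.filter_mono (nhdsWithin_le_nhds (s := Set.Ioi 0))).and
    self_mem_nhdsWithin).exists
  have hδ1 : 0 < δ := hδ0
  filter_upwards [eventually_ge_atTop (m / δ)] with t ht r S hS
  have ht0 : 0 < t := lt_of_lt_of_le (by positivity) ht
  have hsub : (⋃ x ∈ S, ball (cstE x) (m / 2)) ⊆ t • cthickening δ K := by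
    intro y hy
    obtain ⟨x, hx, hy⟩ := Set.mem_iUnion₂.1 hy
    obtain ⟨k, hk, e⟩ := (hS x hx).2
    refine ⟨t⁻¹ • y, mem_cthickening_of_dist_le _ k _ _ hk ?_, smul_inv_smul₀ ht0.ne' y⟩
    have e' : k = t⁻¹ • cstE x := by rw [← e]; exact (inv_smul_smul₀ ht0.ne' k).symm
    rw [e', dist_smul₀, Real.norm_eq_abs, abs_of_pos (inv_pos.2 ht0), inv_mul_le_iff₀ ht0]
    rw [div_le_iff₀ hδ1] at ht
    linarith [mem_ball.1 hy]
  have h2 := measure_mono (μ := volume) hsub
  rw [measure_biUnion_finset (fun x hx y hy hne => ball_disjoint_ball (by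
      rw [add_halves]
      exact sep m x y ((hS x hx).1.trans (hS y hy).1.symm) hne))
    (fun x _ => measurableSet_ball), Measure.addHaar_smul] at h2
  have hr : Module.finrank ℝ (EE ℝ) = 12 := by
    simp [Module.finrank_prod, Module.finrank_pi_fintype]
  simp only [vol_ball _ _ (half_pos hm0), Finset.sum_const, nsmul_eq_mul] at h2
  have h3 := h2.trans (mul_le_mul_right hδ.le _)
  rw [hr, ← ENNReal.ofReal_natCast, ← ENNReal.ofReal_mul (by positivity),
    ← ENNReal.ofReal_mul (by positivity), ENNReal.ofReal_le_ofReal_iff (by positivity),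
    abs_of_pos (by positivity), mul_div_cancel₀ _ (two_ne_zero' ℝ)] at h3
  rw [le_div_iff₀ (by positivity)]
  linarith

end Pool.Agent.Lib.MP_02f36d_nt.CF
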