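import Pool.Agent.Lib.MP_02f36d_nt.CF.Red

/-! Few orbits lie in the cusp. -/

namespace Pool.Agent.Lib.MP_02f36d_nt.CF

open Matrix Filter Red

namespace Cusp

theorem p4 {R : Type} [CommSemiring R] (n : ℕ) : (4 : R) ^ n = (2 ^ n) ^ 2 := by
  rw [← pow_mul, mul_comm, pow_mul]
  norm_num

theorem p16 {R : Type} [CommSemiring R] (n : ℕ) : (16 : R) ^ n = (4 ^ n) ^ 2 := by
  rw [← pow_mul, mul_comm, pow_mul]
  norm_num

theorem dy {a b : ℝ} (ha : 0 < a) (h : a ≤ 4 * b) : ∃ i : ℕ, b ≤ 4 ^ i * a ∧ 4 ^ i * a ≤ 4 * b := by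
  have ex : ∃ i : ℕ, b ≤ 4 ^ i * a := by
    obtain ⟨i, hi⟩ := pow_unbounded_of_one_lt (b / a) (by norm_num : (1 : ℝ) < 4)
    exact ⟨i, ((div_lt_iff₀ ha).1 hi).le⟩
  classical
  refine ⟨Nat.find ex, Nat.find_spec ex, ?_⟩
  rcases e : Nat.find ex with _ | k
  · simpa using h
  · have := Nat.find_min ex (m := k) (by omega)
    rw [pow_succ]
    linarith [not_le.1 this]

/-- the shape of the lattice is of type `i, j`. -/
def Cell (i j : ℕ) (h : M3 ℝ) : Prop :=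
  (d2 h ≤ 4 ^ i * d1 h ^ 2 ∧ 4 ^ i * d1 h ^ 2 ≤ 4 * d2 h) ∧
    (d1 h * h.det ^ 2 ≤ 4 ^ j * d2 h ^ 2 ∧ 4 ^ j * d2 h ^ 2 ≤ 4 * (d1 h * h.det ^ 2))

/-- the exponents of the three rows. -/
def ee (i j : ℕ) : Fin 3 → ℕ := ![0, i, i + j]

/-- the translation of the last row by the first. -/
def gg (n : ℕ) : M3 ℤ := !![1, 0, 0; 0, 1, 0; n, 0, 1]

theorem gg_det (n : ℕ) : (gg n).det ^ 2 = 1 := by simp [gg, det_fin_three]

theorem gg_ent (n : ℕ) (A : M3 ℤ) : (gg n * A * (gg n)ᵀ) 2 0 = n * A 0 0 + A 2 0 := by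
  simp only [mul_apply, Fin.sum_univ_three, transpose_apply]
  simp [gg]

theorem ent {H M : M3 ℝ} {X : ℝ} {e : Fin 3 → ℕ} (hX : 0 ≤ X) (hM : ∀ a b, |M a b| ≤ 3)
    (hH : ∀ k, H k ⬝ᵥ H k ≤ 6 * 4 ^ e k * X) (k l : Fin 3) :
    |(H * M * Hᵀ) k l| ≤ 162 * X * 2 ^ (e k + e l) := by
  have h1 : ∀ k a, H k a ^ 2 ≤ 6 * 4 ^ e k * X := fun k a => by
    rw [sq]
    exact (Finset.single_le_sum (f := fun a => H k a * H k a) (fun _ _ => mul_self_nonneg _)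
      (Finset.mem_univ a)).trans (hH k)
  have h2 : ∀ a b, |H k a * M a b * H l b| ≤ 18 * X * 2 ^ (e k + e l) := fun a b => by
    have h3 : |H k a * H l b| ≤ 6 * X * 2 ^ (e k + e l) := by
      refine abs_le_of_sq_le_sq ?_ (by positivity)
      have e4 : (6 * X * 2 ^ (e k + e l)) ^ 2 = 6 * 4 ^ e k * X * (6 * 4 ^ e l * X) := by
        rw [p4, p4]
        ring
      rw [e4, mul_pow]
      exact mul_le_mul (h1 k a) (h1 l b) (sq_nonneg _) (by positivity)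
    rw [mul_right_comm, abs_mul]
    refine (mul_le_mul h3 (hM a b) (abs_nonneg _) (by positivity)).trans_eq (by ring)
  simp only [mul_apply, transpose_apply, Finset.sum_mul]
  refine (Finset.abs_sum_le_sum_abs _ _).trans ((Finset.sum_le_sum fun b _ =>
    (Finset.abs_sum_le_sum_abs _ _).trans (Finset.sum_le_sum fun a _ => h2 a b)).trans_eq ?_)
  simp only [Finset.sum_const, Finset.card_univ, Fintype.card_fin, nsmul_eq_mul]
  ring

theorem rows {i j n : ℕ} {h : M3 ℝ} {X : ℝ} (hd : h.det ≠ 0) (hs : Sieg h) (hc : Cell i j h)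
    (hX : d1 h ≤ X) (hn : n < 2 ^ (i + j)) (k : Fin 3) :
    (cm (gg n) * h) k ⬝ᵥ (cm (gg n) * h) k ≤ 6 * 4 ^ ee i j k * X := by
  obtain ⟨-, ⟨b0, b1⟩, c1, ⟨q0, q1⟩, -, -⟩ := hs
  obtain ⟨⟨i1, -⟩, j1, -⟩ := hc
  have p1 := d1_pos hd
  have p2 := d2_pos hd
  have I1 : (1 : ℝ) ≤ 4 ^ i := one_le_pow₀ (by norm_num)
  have J1 : (1 : ℝ) ≤ 4 ^ j := one_le_pow₀ (by norm_num)
  have r1 : h 1 ⬝ᵥ h 1 ≤ 2 * 4 ^ i * d1 h := by
    refine le_of_mul_le_mul_right ?_ p1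
    rw [lag1]
    nlinarith [mul_le_mul_of_nonneg_right I1 (sq_nonneg (d1 h))]
  have r3 : (h 0 ⨯₃ h 2) ⬝ᵥ (h 0 ⨯₃ h 2) ≤ 2 * 4 ^ j * d2 h := by
    refine le_of_mul_le_mul_right ?_ p2
    rw [lag]
    nlinarith [mul_le_mul_of_nonneg_right J1 (sq_nonneg (d2 h))]
  have IJ : (1 : ℝ) ≤ 4 ^ i * 4 ^ j := one_le_mul_of_one_le_of_one_le I1 J1
  have r2 : h 2 ⬝ᵥ h 2 + 2 * |h 2 ⬝ᵥ h 0| ^ 2 / d1 h ≤ 3 * (4 ^ i * 4 ^ j) * d1 h := by
    refine le_of_mul_le_mul_right ?_ p1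
    have e : h 2 ⬝ᵥ h 2 * d1 h = (h 0 ⨯₃ h 2) ⬝ᵥ (h 0 ⨯₃ h 2) + |h 2 ⬝ᵥ h 0| ^ 2 := by
      rw [sq_abs, d1, cross_dot_cross, dotProduct_comm (h 0) (h 2)]
      ring
    rw [add_mul, e, div_mul_cancel₀ _ p1.ne']
    nlinarith [mul_le_mul_of_nonneg_right IJ (sq_nonneg (d1 h)), abs_nonneg (h 2 ⬝ᵥ h 0),
      mul_le_mul_of_nonneg_left i1 (zero_le_one.trans J1)]
  have n2 : (n : ℝ) ^ 2 ≤ 4 ^ i * 4 ^ j := by
    have : (n : ℝ) ≤ 2 ^ (i + j) := by exact_mod_cast hn.le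
    refine (pow_le_pow_left₀ (by positivity) this 2).trans_eq ?_
    rw [p4, p4]
    ring
  fin_cases k
  · have e : (cm (gg n) * h) 0 ⬝ᵥ (cm (gg n) * h) 0 = d1 h := by
      simp [gg, d1, mul_apply, dotProduct, Fin.sum_univ_three]
    simp only [Fin.zero_eta, e, ee, cons_val_zero]
    linarith
  · have e : (cm (gg n) * h) 1 ⬝ᵥ (cm (gg n) * h) 1 = h 1 ⬝ᵥ h 1 := by
      simp [gg, mul_apply, dotProduct, Fin.sum_univ_three]
    simp only [Fin.mk_one, e, ee, cons_val_one, cons_val_zero]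
    nlinarith [mul_le_mul_of_nonneg_left hX (zero_le_one.trans I1), mul_pos (one_pos.trans_le I1) p1]
  · have e : (cm (gg n) * h) 2 ⬝ᵥ (cm (gg n) * h) 2 =
        h 2 ⬝ᵥ h 2 + 2 * n * h 2 ⬝ᵥ h 0 + n ^ 2 * d1 h := by
      simp [gg, d1, mul_apply, dotProduct, Fin.sum_univ_three]
      ring
    have e2 : 2 * n * h 2 ⬝ᵥ h 0 ≤ |h 2 ⬝ᵥ h 0| ^ 2 / d1 h + n ^ 2 * d1 h := by
      refine le_of_mul_le_mul_right ?_ p1
      rw [add_mul, div_mul_cancel₀ _ p1.ne', sq_abs]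
      nlinarith [sq_nonneg (h 2 ⬝ᵥ h 0 - n * d1 h)]
    have e3 : 0 ≤ |h 2 ⬝ᵥ h 0| ^ 2 / d1 h := by positivity
    rw [mul_div_assoc] at r2
    simp only [Fin.reduceFinMk, e, ee, cons_val, pow_add]
    nlinarith [mul_le_mul_of_nonneg_left hX (zero_le_one.trans IJ), mul_pos (one_pos.trans_le IJ) p1,
      mul_le_mul_of_nonneg_right n2 p1.le]

theorem top {w : M3 ℤ × M3 ℤ} (hw : IrrW w) : w.1 0 0 ≠ 0 ∨ w.2 0 0 ≠ 0 := by
  by_contra h
  rw [not_or, not_not, not_not] at h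
  have := hw ![1, 0, 0] (by simp [dotProduct, mulVec, Fin.sum_univ_three, h.1])
    (by simp [dotProduct, mulVec, Fin.sum_univ_three, h.2])
  simpa using congrFun this 0

theorem bnd (hP : PairSt) (hM : MonSt) {l X : ℝ} {i j n : ℕ} {w : M3 ℤ × M3 ℤ} {h : M3 ℝ}
    (hl : 0 < l) (hX : 0 ≤ X) (eX : X ^ 3 * (16 ^ i * 4 ^ j) = 128 * l) (hw : RedW l w h)
    (hc : Cell i j h) (hn : n < 2 ^ (i + j)) (a b : Fin 3) :
    |((act (gg n) w).1 a b : ℝ)| ≤ 162 * X * 2 ^ (ee i j a + ee i j b) ∧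
      |((act (gg n) w).2 a b : ℝ)| ≤ 162 * X * 2 ^ (ee i j a + ee i j b) := by
  obtain ⟨-, -, hs, ⟨l1, l2⟩, p, hp, e⟩ := hw
  have hd : h.det ≠ 0 := fun e => by rw [e] at l1; nlinarith
  have p1 := d1_pos hd
  have p2 := d2_pos hd
  have hx : d1 h ≤ X := by
    refine le_of_pow_le_pow_left₀ three_ne_zero hX
      (le_of_mul_le_mul_right ?_ (by positivity : (0 : ℝ) < 16 ^ i * 4 ^ j))
    rw [eX]
    refine le_of_mul_le_mul_right ?_ p1
    have h1 : (4 ^ i * d1 h ^ 2) ^ 2 ≤ (4 * d2 h) ^ 2 := pow_le_pow_left₀ (by positivity) hc.1.2 2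
    have h2 : h.det ^ 2 ≤ 2 * l := by rw [et] at l2; linarith
    calc d1 h ^ 3 * (16 ^ i * 4 ^ j) * d1 h = 4 ^ j * (4 ^ i * d1 h ^ 2) ^ 2 := by
          rw [p16]; ring
      _ ≤ 4 ^ j * (4 * d2 h) ^ 2 := by gcongr
      _ ≤ 64 * (d1 h * h.det ^ 2) := by linarith [hc.2.2]
      _ ≤ 64 * (d1 h * (2 * l)) := by gcongr
      _ = _ := by ring
  have e1 : cstW (act (gg n) w) = act (cm (gg n) * h) (w1 p) := by
    rw [hP.actCst, e, act_mul]
  have hr := rows hd hs hc hx hn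
  have hp3 := hM.2.1 p hp
  constructor
  · refine (congrArg (fun x => |x.1 a b|) e1).trans_le (ent hX (fun a b => ?_) hr a b)
    fin_cases a <;> fin_cases b <;> simp [w1]
  · refine (congrArg (fun x => |x.2 a b|) e1).trans_le (ent hX (fun a b => ?_) hr a b)
    fin_cases a <;> fin_cases b <;> simp [w1, hp3]

/-- the box. -/
noncomputable def box (N : Fin 3 → Fin 3 → ℕ) : Finset (EE ℤ) :=
  (Fintype.piFinset fun a => Fintype.piFinset fun b => Finset.Icc (-(N a b : ℤ)) (N a b)) ×ˢ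
    Fintype.piFinset fun a => Finset.Icc (-(N a a : ℤ)) (N a a)

theorem box_card {N : Fin 3 → Fin 3 → ℕ} (hN : ∀ a b, 1 ≤ N a b) :
    (box N).card ≤ (∏ a, ∏ b, 3 * N a b) * ∏ a, 3 * N a a := by
  have h : ∀ a b, (Finset.Icc (-(N a b : ℤ)) (N a b)).card ≤ 3 * N a b := fun a b => by
    have := hN a b
    rw [Int.card_Icc]
    omega
  simp only [box, Finset.card_product, Fintype.card_piFinset]
  exact Nat.mul_le_mul (Finset.prod_le_prod' fun a _ => Finset.prod_le_prod' fun b _ => h a b)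
    (Finset.prod_le_prod' fun a _ => h a a)

theorem cell (hP : PairSt) (hM : MonSt) {l : ℝ} (hl : 0 < l) (i j : ℕ) (T : Finset (M3 ℤ × M3 ℤ))
    (hT : ∀ w ∈ T, ∃ h, RedW l w h ∧ Cell i j h) (hE : ∀ w ∈ T, ∀ w' ∈ T, EqW w w' → w = w') :
    (T.card : ℝ) * 2 ^ (i + j) ≤ 972 ^ 12 * 128 ^ 4 * l ^ 4 := by
  rcases T.eq_empty_or_nonempty with rfl | ⟨w0, hw0⟩
  · simp only [Finset.card_empty, Nat.cast_zero, zero_mul]
    positivity
  obtain ⟨X, hX, eX⟩ : ∃ X : ℝ, 0 ≤ X ∧ X ^ 3 * (16 ^ i * 4 ^ j) = 128 * l :=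
    ⟨(128 * l / (16 ^ i * 4 ^ j)) ^ ((3 : ℕ) : ℝ)⁻¹, by positivity, by
      rw [Real.rpow_inv_natCast_pow (by positivity) three_ne_zero]; field_simp⟩
  have h1 : 1 ≤ 162 * X := by
    obtain ⟨h, hw, hc⟩ := hT w0 hw0
    obtain ⟨h2, h3⟩ := bnd hP hM hl hX eX hw hc (n := 0) (by positivity) 0 0
    have e : act (gg 0) w0 = w0 := by
      have : gg 0 = 1 := by
        ext a b
        fin_cases a <;> fin_cases b <;> rfl
      simp [act, this]
    rw [e] at h2 h3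
    simp only [ee, cons_val_zero, add_zero, pow_zero, mul_one] at h2 h3
    rcases top hw.2.1 with h4 | h4
    · exact le_trans (by exact_mod_cast Int.one_le_abs h4) h2
    · exact le_trans (by exact_mod_cast Int.one_le_abs h4) h3
  set t := ⌈162 * X⌉₊ with ht
  have t1 : 162 * X ≤ t := Nat.le_ceil _
  have t2 : (t : ℝ) ≤ 324 * X := by linarith [Nat.ceil_lt_add_one (zero_le_one.trans h1)]
  have t3 : 1 ≤ t := by exact_mod_cast h1.trans t1
  have key : (T ×ˢ Finset.range (2 ^ (i + j))).card ≤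
      (box fun a b => t * 2 ^ (ee i j a + ee i j b)).card := by
    refine Finset.card_le_card_of_injOn (fun x => pack (act (gg x.2) x.1)) (fun x hx => ?_) ?_
    · obtain ⟨hx1, hx2⟩ := Finset.mem_product.1 (Finset.mem_coe.1 hx)
      obtain ⟨h, hw, hc⟩ := hT _ hx1
      have h2 := bnd hP hM hl hX eX hw hc (Finset.mem_range.1 hx2)
      have h3 : ∀ (y : ℤ) (k : ℕ), |(y : ℝ)| ≤ 162 * X * 2 ^ k →
          y ∈ Finset.Icc (-((t * 2 ^ k : ℕ) : ℤ)) (t * 2 ^ k : ℕ) := fun y k hy => by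
        rw [Finset.mem_Icc, ← abs_le]
        exact_mod_cast hy.trans (mul_le_mul_of_nonneg_right t1 (by positivity))
      simp only [box, Finset.coe_product, Set.mem_prod, Finset.mem_coe, Fintype.mem_piFinset, pack]
      refine ⟨fun a b => ?_, fun a => h3 _ _ (h2 a a).2⟩
      split_ifs
      exacts [h3 _ _ (h2 a b).1, h3 _ _ (h2 a b).2]
    · rintro ⟨w, n⟩ hx ⟨w', m⟩ hy e
      have hw := (Finset.mem_product.1 (Finset.mem_coe.1 hx)).1
      have hw' := (Finset.mem_product.1 (Finset.mem_coe.1 hy)).1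
      obtain ⟨h, r, -⟩ := hT _ hw
      obtain ⟨h', r', -⟩ := hT _ hw'
      have e1 := hP.packInj _ _ (hP.actSym _ _ r.1) (hP.actSym _ _ r'.1) e
      obtain rfl : w = w' :=
        hE _ hw _ hw' (hP.trans _ _ _ ⟨_, gg_det n, rfl⟩ (hP.symm _ _ ⟨_, gg_det m, e1⟩))
      have e2 := congrArg (fun x => x.1 2 0) e1
      have e3 := congrArg (fun x => x.2 2 0) e1
      simp only [act, gg_ent, add_left_inj] at e2 e3
      rcases top r.2.1 with h4 | h4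
      · rw [Nat.cast_injective (mul_right_cancel₀ h4 e2)]
      · rw [Nat.cast_injective (mul_right_cancel₀ h4 e3)]
  have k2 := key.trans (box_card fun a b => Nat.mul_pos t3 (by positivity))
  rw [Finset.card_product, Finset.card_range] at k2
  have k3 : T.card * 2 ^ (i + j) ≤ (3 * t) ^ 12 * (16 ^ i * 4 ^ j) ^ 4 := by
    refine k2.trans_eq ?_
    simp only [Fin.prod_univ_three, ee, cons_val_zero, cons_val_one, cons_val]
    rw [p16, p4, p4]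
    ring
  calc (T.card : ℝ) * 2 ^ (i + j) ≤ (3 * t) ^ 12 * (16 ^ i * 4 ^ j) ^ 4 := by exact_mod_cast k3
    _ ≤ (3 * (324 * X)) ^ 12 * (16 ^ i * 4 ^ j) ^ 4 := by gcongr
    _ = 972 ^ 12 * (X ^ 3 * (16 ^ i * 4 ^ j)) ^ 4 := by ring
    _ = _ := by rw [eX]; ring

theorem geo (U : Finset (ℕ × ℕ)) : ∑ c ∈ U, (3 / 4 : ℝ) ^ c.1 * (3 / 4) ^ c.2 ≤ 16 := by
  have h : HasSum (fun n : ℕ => (3 / 4 : ℝ) ^ n) 4 := by
    convert hasSum_geometric_of_lt_one (r := 3 / 4) (by norm_num) (by norm_num) using 1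
    norm_num
  have h2 := h.mul h (h.summable.mul_of_nonneg h.summable (fun _ => by positivity)
    fun _ => by positivity)
  exact (sum_le_hasSum U (fun _ _ => by positivity) h2).trans_eq (by norm_num)

end Cusp

open Cusp in
theorem cusp (hP : PairSt) (hM : MonSt) : CuspSt := by
  intro ε hε
  set C : ℝ := 972 ^ 12 * 128 ^ 4 with hC
  have C0 : 0 < C := by positivity
  obtain ⟨K, hK⟩ := exists_pow_lt_of_lt_one (div_pos hε (mul_pos C0 (by norm_num : (0 : ℝ) < 16)))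
    (by norm_num : (2 / 3 : ℝ) < 1)
  refine ⟨(16 ^ K)⁻¹, by positivity, fun l hl S hS hE => ?_⟩
  have h1 : ∀ w ∈ S, ∃ c : ℕ × ℕ, K ≤ c.1 + c.2 ∧ ∃ h, RedW l w h ∧ Cell c.1 c.2 h := by
    intro w hw
    obtain ⟨h, r, hd⟩ := hS w hw
    have l1 := r.2.2.2.1.1
    have h0 : h.det ≠ 0 := fun e => by rw [e] at l1; nlinarith
    have p1 := d1_pos h0
    have p2 := d2_pos h0
    obtain ⟨-, -, -, -, s1, s2⟩ := r.2.2.1
    obtain ⟨i, hi⟩ := dy (b := d2 h) (pow_pos p1 2) (by nlinarith)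
    obtain ⟨j, hj⟩ := dy (b := d1 h * h.det ^ 2) (pow_pos p2 2) (by nlinarith)
    refine ⟨(i, j), ?_, h, r, hi, hj⟩
    have h2 : (16 : ℝ) ^ K * d1 h ^ 3 < l := (lt_inv_mul_iff₀ (by positivity)).1 hd
    have h3 : l ≤ 16 ^ (i + j) * d1 h ^ 3 := by
      refine le_of_mul_le_mul_left ?_ p1
      calc d1 h * l ≤ d1 h * h.det ^ 2 := by gcongr
        _ ≤ 4 ^ j * d2 h ^ 2 := hj.1
        _ ≤ 16 ^ j * (4 ^ i * d1 h ^ 2) ^ 2 := by gcongr; exacts [by norm_num, hi.1]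
        _ = _ := by rw [pow_add, p16 i]; ring
    exact ((pow_lt_pow_iff_right₀ (by norm_num : (1 : ℝ) < 16)).1
      (lt_of_mul_lt_mul_right (h2.trans_le h3) (by positivity))).le
  choose! c hc using h1
  classical
  rw [Finset.card_eq_sum_card_image c S, Nat.cast_sum]
  have h4 : ∀ x ∈ S.image c, ((S.filter fun w => c w = x).card : ℝ) ≤
      C * l ^ 4 * (2 / 3) ^ K * ((3 / 4) ^ x.1 * (3 / 4) ^ x.2) := by
    intro x hx
    obtain ⟨w0, hw0, e0⟩ := Finset.mem_image.1 hx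
    have h5 := cell hP hM hl x.1 x.2 (S.filter fun w => c w = x)
      (fun w hw => by
        obtain ⟨h6, h7⟩ := Finset.mem_filter.1 hw
        exact h7 ▸ (hc w h6).2)
      fun w hw w' hw' => hE w (Finset.mem_filter.1 hw).1 w' (Finset.mem_filter.1 hw').1
    have h6 : (2 / 3 : ℝ) ^ (x.1 + x.2) ≤ (2 / 3) ^ K :=
      pow_le_pow_of_le_one (by norm_num) (by norm_num) (e0 ▸ (hc w0 hw0).1)
    refine le_of_mul_le_mul_right (h5.trans ?_) (by positivity : (0 : ℝ) < 2 ^ (x.1 + x.2))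
    have h7 : (2 / 3 : ℝ) ^ (x.1 + x.2) * ((3 / 4) ^ (x.1 + x.2) * 2 ^ (x.1 + x.2)) = 1 := by
      rw [← mul_pow, ← mul_pow]
      norm_num
    calc C * l ^ 4 = C * l ^ 4 * ((2 / 3) ^ (x.1 + x.2) *
          ((3 / 4) ^ (x.1 + x.2) * 2 ^ (x.1 + x.2))) := by rw [h7, mul_one]
      _ ≤ C * l ^ 4 * ((2 / 3) ^ K * ((3 / 4) ^ (x.1 + x.2) * 2 ^ (x.1 + x.2))) := by gcongr
      _ = _ := by rw [pow_add (3 / 4 : ℝ)]; ring
  refine (Finset.sum_le_sum h4).trans ?_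
  rw [← Finset.mul_sum]
  calc _ ≤ C * l ^ 4 * (ε / (C * 16)) * 16 := by gcongr; exact geo _
    _ = _ := by field_simp

end Pool.Agent.Lib.MP_02f36d_nt.CF
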