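import Pool.Agent.Lib.MP_02f36d_nt.CF.DF3

/-! The field of a form of squarefree discriminant. -/

set_option autoImplicit false

noncomputable section

namespace Pool.Agent.Lib.MP_02f36d_nt.CF

open Matrix NumberField Polynomial
open scoped IntermediateField

namespace DF1

open DF3

theorem bas {L : Type} [Field L] [NumberField L] {θ : L} {f : Fin 4 → ℤ}
    (h3 : Module.finrank ℚ L = 3) (h0 : f 0 ≠ 0) (h : ev (cst L f) θ 1 = 0)
    (hi : ∀ u v w : ℚ, (u : L) + v * θ + w * θ ^ 2 = 0 → u = 0 ∧ v = 0 ∧ w = 0)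
    (hs : Squarefree (disc f)) : Bas L θ f := by
  refine ⟨h3, h0, h, fun x => ⟨fun hx => ?_, ?_⟩⟩
  · have c : Module.Basis (Fin 3) ℤ (𝓞 L) :=
      Module.finBasisOfFinrankEq ℤ (𝓞 L) (by rw [RingOfIntegers.rank, h3])
    have e := Algebra.discr_of_matrix_vecMul (⇑c) (c.toMatrix (v3 h))
    rw [c.toMatrix_map_vecMul, dsc h3 h0 h hi] at e
    have hu : IsUnit (c.det (v3 h)) := by
      rw [c.det_apply]
      exact hs _ ⟨_, by rw [e, sq]⟩
    have hsp := (c.is_basis_iff_det.2 hu).2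
    obtain ⟨g, hg⟩ := (Submodule.mem_span_range_iff_exists_fun ℤ).1
      (hsp.ge (Submodule.mem_top (x := (⟨x, hx⟩ : 𝓞 L))))
    have e1 := congrArg (algebraMap (𝓞 L) L) hg
    simp only [Fin.sum_univ_three, zsmul_eq_mul, map_add, map_mul, map_intCast, v3_coe] at e1
    refine ⟨g 0, g 1, g 2, ?_⟩
    rw [← mul_one (g 0 : L)]
    exact e1.symm
  · rintro ⟨u, v, w, rfl⟩
    have hc : ∀ n : ℤ, IsIntegral ℤ (n : L) := fun n => isIntegral_algebraMap (x := n)
    exact ((hc u).add ((hc v).mul (int1 h))).add ((hc w).mul (int2 h))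

theorem deg {f : Fin 4 → ℤ} {ρ : ℝ} (hf : Irr f) (h : ev (cst ℝ f) ρ 1 = 0) :
    f 0 ≠ 0 ∧ IsIntegral ℚ ρ ∧ (minpoly ℚ ρ).natDegree = 3 := by
  have h0 : f 0 ≠ 0 := fun e => one_ne_zero (hf 1 0 (by simp [ev, e])).1
  have h1 : (f 0 : ℚ) ≠ 0 := Int.cast_ne_zero.2 h0
  obtain ⟨P, hP⟩ : ∃ P : ℚ[X],
      P = C (f 0 : ℚ) * X ^ 3 + C (f 1 : ℚ) * X ^ 2 + C (f 2 : ℚ) * X + C (f 3 : ℚ) := ⟨_, rfl⟩
  have hd : P.natDegree = 3 := hP ▸ natDegree_cubic h1
  have ha : aeval ρ P = 0 := by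
    rw [hP]
    simp only [map_add, map_mul, map_pow, aeval_X, map_intCast]
    exact eqn h
  have hI : Irreducible P := irreducible_of_degree_le_three_of_not_isRoot (by rw [hd]; decide)
    fun x hx => by
      rw [hP, IsRoot.def] at hx
      simp only [eval_add, eval_mul, eval_pow, eval_X, eval_C] at hx
      have hn : (x.den : ℚ) ≠ 0 := Nat.cast_ne_zero.2 x.den_nz
      have e : (x.num : ℚ) = x * x.den := (Rat.mul_den_eq_num x).symm
      have := (hf x.num x.den (by
        apply Int.cast_injective (α := ℚ)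
        simp only [ev]
        push_cast
        rw [e]
        linear_combination (x.den : ℚ) ^ 3 * hx)).2
      exact x.den_nz (by exact_mod_cast this)
  refine ⟨h0, (isAlgebraic_iff_isIntegral.1 ⟨P, hI.ne_zero, ha⟩), ?_⟩
  rw [← minpoly.eq_of_irreducible hI ha, natDegree_mul_C, hd]
  exact inv_ne_zero (leadingCoeff_ne_zero.2 hI.ne_zero)

end DF1

open DF1 in
theorem df1 : DF1St := by
  intro f ρ hf h hs
  obtain ⟨h0, hi, hd⟩ := deg hf h
  have := IntermediateField.adjoin.finiteDimensional hi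
  have hN : NumberField ℚ⟮ρ⟯ := ⟨⟩
  refine ⟨hN, bas ((IntermediateField.adjoin.finrank hi).trans hd) h0 ?_ (fun u v w e => ?_) hs⟩
  · apply Subtype.ext
    simpa [ev, cst] using h
  · have e1 : (u : ℝ) + v * ρ + w * ρ ^ 2 = 0 := by simpa using congrArg Subtype.val e
    have hz : C w * X ^ 2 + C v * X + C u = 0 := by
      by_contra hne
      have h2 := natDegree_le_natDegree (minpoly.degree_le_of_ne_zero ℚ ρ hne (by
        simp only [map_add, map_mul, map_pow, aeval_X, aeval_C, eq_ratCast]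
        linear_combination e1))
      have h3 : (C w * X ^ 2 + C v * X + C u).natDegree ≤ 2 := natDegree_quadratic_le
      omega
    have c0 := congrArg (coeff · 0) hz
    have c1 := congrArg (coeff · 1) hz
    have c2 := congrArg (coeff · 2) hz
    simp [coeff_C, coeff_X] at c0 c1 c2
    exact ⟨c0, c1, c2⟩

end Pool.Agent.Lib.MP_02f36d_nt.CF
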