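import Pool.Agent.Lib.MP_02f36d_nt.CF.St

/-! The binary cubic form of a cubic field. -/

set_option autoImplicit false

noncomputable section

namespace Pool.Agent.Lib.MP_02f36d_nt.CF

open NumberField

namespace DF2

/-- An integral basis that begins with one. -/
theorem bas (L : Type) [Field L] [NumberField L] (h : Module.finrank ℚ L = 3) :
    ∃ ω ε : 𝓞 L, (∀ x : 𝓞 L, ∃ u v w : ℤ, x = u + v * ω + w * ε) ∧
      ∀ u v w : ℤ, (u : 𝓞 L) + v * ω + w * ε = 0 → u = 0 ∧ v = 0 ∧ w = 0 := by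
  let N : Submodule ℤ (𝓞 L) := Submodule.span ℤ {1}
  have hN : ∀ x, x ∈ N ↔ ∃ u : ℤ, (u : 𝓞 L) = x := fun x => by
    simp only [N, Submodule.mem_span_singleton, zsmul_one]
  have : Module.IsTorsionFree ℤ (𝓞 L ⧸ N) := by
    refine Module.IsTorsionFree.of_smul_eq_zero fun k y hy => ?_
    obtain ⟨x, rfl⟩ := N.mkQ_surjective y
    refine (eq_or_ne k 0).imp_right fun hk => ?_
    rw [← map_zsmul, Submodule.mkQ_apply, Submodule.Quotient.mk_eq_zero, hN] at hy
    obtain ⟨j, hj⟩ := hy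
    rw [Submodule.mkQ_apply, Submodule.Quotient.mk_eq_zero, hN]
    have hk' : (k : L) ≠ 0 := by exact_mod_cast hk
    have e : (x : L) = algebraMap ℚ L (j / k) := by
      have := congrArg (algebraMap (𝓞 L) L) hj
      simp only [map_intCast, zsmul_eq_mul, map_mul] at this
      simp only [map_div₀, map_intCast]
      rw [this, eq_div_iff hk', mul_comm]
    have hi : IsIntegral ℤ ((j : ℚ) / k) := by
      have := x.isIntegral_coe
      rw [RingOfIntegers.coe_eq_algebraMap] at e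
      rwa [e, isIntegral_algebraMap_iff (algebraMap ℚ L).injective] at this
    obtain ⟨u, hu⟩ := IsIntegrallyClosed.isIntegral_iff.mp hi
    refine ⟨u, RingOfIntegers.ext ?_⟩
    rw [e, ← hu]
    simp
  have r : Module.finrank ℤ (𝓞 L ⧸ N) = 2 := by
    have h1 := N.finrank_quotient_add_finrank
    have h2 : Module.finrank ℤ N = 1 :=
      (LinearEquiv.toSpanNonzeroSingleton ℤ _ (1 : 𝓞 L) one_ne_zero).finrank_eq.symm.trans
        (Module.finrank_self ℤ)
    rw [RingOfIntegers.rank, h, h2] at h1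
    omega
  let b := Module.finBasisOfFinrankEq ℤ _ r
  obtain ⟨ω, hω⟩ := N.mkQ_surjective (b 0)
  obtain ⟨ε, hε⟩ := N.mkQ_surjective (b 1)
  have k : ∀ v w : ℤ, N.mkQ (v * ω + w * ε) = v • b 0 + w • b 1 := fun v w => by
    rw [← hω, ← hε, ← map_zsmul, ← map_zsmul, ← map_add, zsmul_eq_mul, zsmul_eq_mul]
  refine ⟨ω, ε, fun x => ?_, fun u v w h0 => ?_⟩
  · have h1 := b.sum_repr (N.mkQ x)
    rw [Fin.sum_univ_two, ← k, eq_comm, Submodule.mkQ_apply, Submodule.mkQ_apply,
      Submodule.Quotient.eq, hN] at h1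
    obtain ⟨u, hu⟩ := h1
    exact ⟨u, _, _, (eq_sub_iff_add_eq.mp hu).symm.trans (add_assoc _ _ _).symm⟩
  · have h1 : N.mkQ (v * ω + w * ε) = 0 :=
      (Submodule.Quotient.mk_eq_zero _).mpr ((hN _).mpr ⟨-u, by
        push_cast; linear_combination -h0⟩)
    rw [k] at h1
    obtain ⟨rfl, rfl⟩ := LinearIndependent.pair_iff.mp
      (by rw [show ![b 0, b 1] = b from funext (Fin.forall_fin_two.mpr ⟨rfl, rfl⟩)]
          exact b.linearIndependent : LinearIndependent ℤ ![b 0, b 1]) v w h1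
    simpa using h0

end DF2

theorem df2 : DF2St := by
  intro L _ _ h
  obtain ⟨ω₀, ε₀, sp₀, li₀⟩ := DF2.bas L h
  obtain ⟨n₀, p, q, e₀⟩ := sp₀ (ω₀ * ε₀)
  obtain ⟨ω, ε, n, sp, li, e⟩ : ∃ (ω ε : 𝓞 L) (n : ℤ),
      (∀ x : 𝓞 L, ∃ u v w : ℤ, x = u + v * ω + w * ε) ∧
      (∀ u v w : ℤ, (u : 𝓞 L) + v * ω + w * ε = 0 → u = 0 ∧ v = 0 ∧ w = 0) ∧ ω * ε = n := by
    refine ⟨ω₀ - q, ε₀ - p, n₀ + p * q, fun x => ?_, fun u v w h0 => ?_, ?_⟩
    · obtain ⟨u, v, w, rfl⟩ := sp₀ x
      exact ⟨u + v * q + w * p, v, w, by push_cast; ring⟩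
    · obtain ⟨a, rfl, rfl⟩ := li₀ (u - v * q - w * p) v w (by push_cast; linear_combination h0)
      simpa using a
    · push_cast; linear_combination e₀
  obtain ⟨m, b, a, e1⟩ := sp (ω * ω)
  obtain ⟨l, r, t, e2⟩ := sp (ε * ε)
  obtain ⟨-, a1, a2⟩ := li (b * n + a * l) (a * r - n) (m + a * t) (by
    push_cast; linear_combination (ω - b) * e - ε * e1 - a * e2)
  have ha : a ≠ 0 := by
    rintro rfl
    have hn : n = 0 := by linarith
    rw [hn, Int.cast_zero, mul_eq_zero] at e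
    rcases e with e | e
    · simpa using (li 0 1 0 (by simp [e])).2.1
    · simpa using (li 0 0 1 (by simp [e])).2.2
  have ha' : (a : L) ≠ 0 := by exact_mod_cast ha
  obtain rfl : n = a * r := by linarith
  obtain rfl : m = -(a * t) := by linarith
  have f := congrArg (algebraMap (𝓞 L) L) e
  have f1 := congrArg (algebraMap (𝓞 L) L) e1
  simp only [map_mul, map_add, map_intCast, Int.cast_mul, Int.cast_neg, map_neg] at f f1
  set W := algebraMap (𝓞 L) L ω
  set E := algebraMap (𝓞 L) L ε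
  have g1 : (a : L) * (W / a) = W := by field_simp
  have g2 : (a : L) * (W / a) ^ 2 + (-b : ℤ) * (W / a) = E - t := by
    push_cast
    field_simp
    linear_combination f1
  refine ⟨W / a, ![a, -b, t, -r], h, ha, ?_, fun x => ?_⟩
  · have g3 : W / a * E = r := by field_simp; exact f
    simp only [ev, cst, Matrix.cons_val]
    push_cast at g2 ⊢
    linear_combination W / a * g2 + g3
  · simp only [Matrix.cons_val_zero, Matrix.cons_val_one, g1, g2]
    constructor
    · intro hx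
      obtain ⟨u, v, w, hx'⟩ := sp ⟨x, hx⟩
      have := congrArg (algebraMap (𝓞 L) L) hx'
      simp only [map_mul, map_add, map_intCast, RingOfIntegers.map_mk] at this
      exact ⟨u + w * t, v, w, by push_cast; linear_combination this⟩
    · rintro ⟨u, v, w, rfl⟩
      have := (u + v * ω + w * (ε - t) : 𝓞 L).isIntegral_coe
      simpa using this

end Pool.Agent.Lib.MP_02f36d_nt.CF
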