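import Pool.Agent.Lib.MP_02f36d_nt.CF.St

/-! Consequences of the basis property. -/

set_option autoImplicit false

noncomputable section

namespace Pool.Agent.Lib.MP_02f36d_nt.CF

open Matrix NumberField Polynomial

namespace DF3

variable {L : Type} [Field L] {θ : L} {f : Fin 4 → ℤ}

theorem eqn (h : ev (cst L f) θ 1 = 0) : (f 0 : L) * θ ^ 3 + f 1 * θ ^ 2 + f 2 * θ + f 3 = 0 := by
  simpa only [ev, cst, one_pow, mul_one] using h

theorem int1 (h : ev (cst L f) θ 1 = 0) : IsIntegral ℤ (f 0 * θ : L) := by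
  refine ⟨X ^ 3 + C (f 1) * X ^ 2 + C (f 0 * f 2) * X + C (f 0 ^ 2 * f 3), by monicity!, ?_⟩
  simp only [eval₂_add, eval₂_mul, eval₂_pow, eval₂_X, eval₂_C]
  simp only [eq_intCast]
  push_cast
  linear_combination (f 0 : L) ^ 2 * eqn h

theorem int2 (h : ev (cst L f) θ 1 = 0) : IsIntegral ℤ (f 0 * θ ^ 2 + f 1 * θ : L) := by
  refine ⟨X ^ 3 + C (2 * f 2) * X ^ 2 + C (f 2 ^ 2 + f 1 * f 3) * X +
    C (f 1 * f 2 * f 3 - f 0 * f 3 ^ 2), by monicity!, ?_⟩
  simp only [eval₂_add, eval₂_mul, eval₂_pow, eval₂_X, eval₂_C]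
  simp only [eq_intCast]
  push_cast
  linear_combination ((f 0 : L) * ((f 0 * θ ^ 2 + f 1 * θ + f 2) * θ - f 3) +
    f 1 * (f 0 * θ ^ 2 + f 1 * θ + f 2)) * eqn h

/-- The three integral elements. -/
def v3 (h : ev (cst L f) θ 1 = 0) : Fin 3 → 𝓞 L := ![1, ⟨_, int1 h⟩, ⟨_, int2 h⟩]

theorem v3_coe (h : ev (cst L f) θ 1 = 0) (i : Fin 3) :
    algebraMap (𝓞 L) L (v3 h i) = ![(1 : L), f 0 * θ, f 0 * θ ^ 2 + f 1 * θ] i := by
  fin_cases i <;> rfl

variable [NumberField L]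

theorem ind (h0 : f 0 ≠ 0)
    (hi : ∀ u v w : ℚ, (u : L) + v * θ + w * θ ^ 2 = 0 → u = 0 ∧ v = 0 ∧ w = 0) :
    LinearIndependent ℚ ![(1 : L), f 0 * θ, f 0 * θ ^ 2 + f 1 * θ] := by
  refine Fintype.linearIndependent_iff.2 fun g hg => ?_
  have h1 : (f 0 : ℚ) ≠ 0 := Int.cast_ne_zero.2 h0
  obtain ⟨a, b, c⟩ := hi (g 0) (g 1 * f 0 + g 2 * f 1) (g 2 * f 0) (by
    simp only [Fin.sum_univ_three, Rat.smul_def, cons_val_zero, cons_val_one, cons_val] at hg
    push_cast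
    linear_combination hg)
  have h2 : g 2 = 0 := (mul_eq_zero.1 c).resolve_right h1
  rw [h2, zero_mul, add_zero] at b
  intro i
  fin_cases i
  exacts [a, (mul_eq_zero.1 b).resolve_right h1, h2]

theorem dsc (h3 : Module.finrank ℚ L = 3) (h0 : f 0 ≠ 0) (h : ev (cst L f) θ 1 = 0)
    (hi : ∀ u v w : ℚ, (u : L) + v * θ + w * θ ^ 2 = 0 → u = 0 ∧ v = 0 ∧ w = 0) :
    Algebra.discr ℤ (v3 h) = disc f := by
  obtain ⟨B, hB⟩ : ∃ B : Module.Basis (Fin 3) ℚ L,
      ⇑B = ![(1 : L), f 0 * θ, f 0 * θ ^ 2 + f 1 * θ] :=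
    ⟨basisOfLinearIndependentOfCardEqFinrank (ind h0 hi) (by rw [h3]; rfl),
      coe_basisOfLinearIndependentOfCardEqFinrank _ _⟩
  have b0 : B 0 = 1 := congrFun hB 0
  have b1 : B 1 = f 0 * θ := congrFun hB 1
  have b2 : B 2 = f 0 * θ ^ 2 + f 1 * θ := congrFun hB 2
  have e := eqn h
  have m0 : ∀ x, x * B 0 = x := fun x => by rw [b0, mul_one]
  have m11 : B 1 * B 1 = (-f 1 : ℚ) • B 1 + (f 0 : ℚ) • B 2 := by
    simp only [b1, b2, Rat.smul_def]
    push_cast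
    ring
  have m12 : B 1 * B 2 = (-(f 0 * f 3) : ℚ) • B 0 + (-f 2 : ℚ) • B 1 := by
    simp only [b0, b1, b2, Rat.smul_def]
    push_cast
    linear_combination (f 0 : L) * e
  have m22 : B 2 * B 2 = (-(f 1 * f 3) : ℚ) • B 0 + (-f 3 : ℚ) • B 1 + (-f 2 : ℚ) • B 2 := by
    simp only [b0, b1, b2, Rat.smul_def]
    push_cast
    linear_combination (f 0 * θ + f 1 : L) * e
  have tr : ∀ x, Algebra.trace ℚ L x =
      B.repr (x * B 0) 0 + B.repr (x * B 1) 1 + B.repr (x * B 2) 2 := fun x => by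
    rw [Algebra.trace_eq_matrix_trace B, trace_fin_three]
    simp only [Algebra.leftMulMatrix_eq_repr_mul]
  have t0 : Algebra.trace ℚ L (B 0) = 3 := by
    rw [tr, m0, mul_comm (B 0), mul_comm (B 0), m0, m0]
    simp only [B.repr_self, Finsupp.single_eq_same]
    norm_num
  have t1 : Algebra.trace ℚ L (B 1) = -f 1 := by
    rw [tr, m0, m11, m12]
    simp
  have t2 : Algebra.trace ℚ L (B 2) = -(2 * f 2) := by
    rw [tr, m0, mul_comm (B 2) (B 1), m12, m22]
    simp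
    ring
  have c : ∀ i j, ((Algebra.traceMatrix ℤ (v3 h) i j : ℤ) : ℚ) = Algebra.trace ℚ L (B i * B j) :=
    fun i j => by
    rw [Algebra.traceMatrix_apply, Algebra.traceForm_apply, Algebra.coe_trace_int, hB]
    congr 1
    fin_cases i <;> fin_cases j <;> rfl
  apply Int.cast_injective (α := ℚ)
  rw [Algebra.discr_def, det_fin_three]
  push_cast
  simp only [c, mul_comm (B 0), mul_comm (B 2) (B 1), m0, m11, m12, m22, map_add, map_smul, t0,
    t1, t2, smul_eq_mul, disc]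
  push_cast
  ring

theorem irr (h0 : f 0 ≠ 0) (h : ev (cst L f) θ 1 = 0)
    (hi : ∀ u v w : ℚ, (u : L) + v * θ + w * θ ^ 2 = 0 → u = 0 ∧ v = 0 ∧ w = 0) : Irr f := by
  intro x y hxy
  have hy : y = 0 := by
    have e1 := congrArg (Int.cast : ℤ → L) hxy
    simp only [ev] at e1
    push_cast at e1
    have e2 : ((y : L) * θ - x) * (f 0 * (y ^ 2 * θ ^ 2 + x * y * θ + x ^ 2) +
        f 1 * y * (y * θ + x) + f 2 * y ^ 2) = 0 := by
      linear_combination (y : L) ^ 3 * eqn h - e1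
    rcases mul_eq_zero.1 e2 with e3 | e3
    · exact_mod_cast (hi (-x) y 0 (by push_cast; linear_combination e3)).2.1
    · have := (hi (f 0 * x ^ 2 + f 1 * y * x + f 2 * y ^ 2) (f 0 * x * y + f 1 * y ^ 2)
        (f 0 * y ^ 2) (by push_cast; linear_combination e3)).2.2
      have h2 : f 0 * y ^ 2 = 0 := by exact_mod_cast this
      exact pow_eq_zero_iff two_ne_zero |>.1 ((mul_eq_zero.1 h2).resolve_left h0)
  subst hy
  have h2 : f 0 * x ^ 3 = 0 := by simpa [ev] using hxy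
  exact ⟨pow_eq_zero_iff three_ne_zero |>.1 ((mul_eq_zero.1 h2).resolve_left h0), rfl⟩

end DF3

open DF3 in
theorem df3 : DF3St := by
  intro L _ _ θ f ⟨h3, h0, h, hb⟩
  have hs : ∀ x : L, ∃ u v w : ℚ, x = u + v * θ + w * θ ^ 2 := fun x => by
    obtain ⟨y, hy, hi⟩ := ((IsFractionRing.isAlgebraic_iff ℤ ℚ L).2
      (Algebra.IsAlgebraic.isAlgebraic x)).exists_integral_multiple
    obtain ⟨u, v, w, e⟩ := (hb _).1 hi
    have hy' : (y : L) ≠ 0 := Int.cast_ne_zero.2 hy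
    refine ⟨u / y, (v * f 0 + w * f 1) / y, w * f 0 / y, ?_⟩
    rw [zsmul_eq_mul] at e
    push_cast
    field_simp
    linear_combination e
  have hl : LinearIndependent ℚ ![(1 : L), θ, θ ^ 2] :=
    linearIndependent_of_top_le_span_of_card_eq_finrank (fun x _ => by
      obtain ⟨u, v, w, rfl⟩ := hs x
      refine (Submodule.mem_span_range_iff_exists_fun ℚ).2 ⟨![u, v, w], ?_⟩
      simp [Fin.sum_univ_three, Rat.smul_def]) (by rw [h3]; rfl)
  have hi : ∀ u v w : ℚ, (u : L) + v * θ + w * θ ^ 2 = 0 → u = 0 ∧ v = 0 ∧ w = 0 :=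
    fun u v w e => by
    have := Fintype.linearIndependent_iff.1 hl ![u, v, w] (by
      simpa [Fin.sum_univ_three, Rat.smul_def] using e)
    exact ⟨this 0, this 1, this 2⟩
  have l1 : LinearIndependent ℤ (v3 h) := by
    refine Fintype.linearIndependent_iff.2 fun g hg i => ?_
    have e := congrArg (algebraMap (𝓞 L) L) hg
    simp only [map_sum, zsmul_eq_mul, map_mul, map_intCast, map_zero, v3_coe] at e
    have e1 := ind (f := f) (θ := θ) h0 hi
    rw [Fintype.linearIndependent_iff] at e1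
    have e2 := e1 fun i => (g i : ℚ)
    simp only [Rat.smul_def, Rat.cast_intCast, Int.cast_eq_zero] at e2
    exact e2 e i
  have l2 : ⊤ ≤ Submodule.span ℤ (Set.range (v3 h)) := fun x _ => by
    obtain ⟨u, v, w, e⟩ := (hb x).1 x.isIntegral_coe
    refine (Submodule.mem_span_range_iff_exists_fun ℤ).2 ⟨![u, v, w], RingOfIntegers.ext ?_⟩
    rw [e, ← mul_one (u : L), RingOfIntegers.coe_eq_algebraMap]
    simp only [Fin.sum_univ_three, zsmul_eq_mul, map_add, map_mul, map_intCast, v3_coe]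
    rfl
  refine ⟨?_, irr h0 h hi, hi, hs, Module.Basis.mk l1 l2, ?_, ?_, ?_⟩
  · rw [← discr_eq_discr L (Module.Basis.mk l1 l2), Module.Basis.coe_mk, dsc h3 h0 h hi]
  all_goals
    rw [Module.Basis.coe_mk]
    rfl

end Pool.Agent.Lib.MP_02f36d_nt.CF
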