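import Pool.Agent.Lib.MP_02f36d_nt.CF.St

/-! The form of a cubic field is unique up to equivalence; generation by a root. -/

set_option autoImplicit false

namespace Pool.Agent.Lib.MP_02f36d_nt.CF

open scoped IntermediateField

namespace DF4

variable {L : Type} [Field L] [NumberField L] {θ : L} {f : Fin 4 → ℤ}

theorem uniq (h3 : DF3St) (h : Bas L θ f) {u v w : ℤ}
    (e : (u : L) + v * (f 0 * θ) + w * (f 0 * θ ^ 2 + f 1 * θ) = 0) : v = 0 ∧ w = 0 := by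
  obtain ⟨-, h1, h2⟩ := (h3 L θ f h).2.2.1 u ((v * f 0 + w * f 1 : ℤ) : ℚ) ((w * f 0 : ℤ) : ℚ)
    (by push_cast; linear_combination e)
  have k2 : w = 0 := (mul_eq_zero.1 (by exact_mod_cast h2)).resolve_right h.2.1
  have k1 : v * f 0 + w * f 1 = 0 := by exact_mod_cast h1
  rw [k2, zero_mul, add_zero] at k1
  exact ⟨(mul_eq_zero.1 k1).resolve_right h.2.1, k2⟩

theorem sq (h : Bas L θ f) (x y : ℤ) :
    ((x : L) * (f 0 * θ) + y * (f 0 * θ ^ 2 + f 1 * θ)) ^ 2 =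
      -(2 * x * y * f 0 * f 3 + y ^ 2 * f 1 * f 3) +
        (-(f 1 * x ^ 2) - 2 * f 2 * x * y - f 3 * y ^ 2) * (f 0 * θ) +
        (f 0 * x ^ 2 - f 2 * y ^ 2) * (f 0 * θ ^ 2 + f 1 * θ) := by
  have e := h.2.2.1
  simp only [ev, cst] at e
  linear_combination (2 * x * y * f 0 + y ^ 2 * (f 0 * θ + f 1)) * e

theorem rep {θ' : L} {f' : Fin 4 → ℤ} (h : Bas L θ f) (h' : Bas L θ' f') :
    (∃ u v w : ℤ, (f' 0 : L) * θ' = u + v * (f 0 * θ) + w * (f 0 * θ ^ 2 + f 1 * θ)) ∧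
    ∃ u v w : ℤ, (f' 0 : L) * θ' ^ 2 + f' 1 * θ' =
      u + v * (f 0 * θ) + w * (f 0 * θ ^ 2 + f 1 * θ) :=
  ⟨(h.2.2.2 _).1 ((h'.2.2.2 _).2 ⟨0, 1, 0, by simp⟩),
    (h.2.2.2 _).1 ((h'.2.2.2 _).2 ⟨0, 0, 1, by simp⟩)⟩

end DF4

open DF4 in
theorem df4 (h3 : DF3St) : DF4St := by
  intro L _ _ θ θ' f f' h h'
  obtain ⟨⟨u1, α, β, e1⟩, u2, γ, δ, e2⟩ := rep h h'
  obtain ⟨⟨v1, α', β', e3⟩, v2, γ', δ', e4⟩ := rep h' h
  obtain ⟨a1, a2⟩ := uniq h3 h (u := v1 + α' * u1 + β' * u2) (v := α' * α + β' * γ - 1)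
    (w := α' * β + β' * δ) (by push_cast; linear_combination -e3 - α' * e1 - β' * e2)
  obtain ⟨a3, a4⟩ := uniq h3 h (u := v2 + γ' * u1 + δ' * u2) (v := γ' * α + δ' * γ)
    (w := γ' * β + δ' * δ - 1) (by push_cast; linear_combination -e4 - γ' * e1 - δ' * e2)
  have d1 : (α * δ - β * γ) * (α' * δ' - β' * γ') = 1 := by
    linear_combination (γ' * β + δ' * δ) * a1 + a4 - (γ' * α + δ' * γ) * a2
  have d2 : (α * δ - β * γ) ^ 2 = 1 := by
    rcases Int.eq_one_or_neg_one_of_mul_eq_one d1 with e | e <;> rw [e] <;> norm_num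
  refine ⟨(α * δ - β * γ) * α, (α * δ - β * γ) * γ, (α * δ - β * γ) * β, (α * δ - β * γ) * δ,
    by linear_combination ((α * δ - β * γ) ^ 4 + (α * δ - β * γ) ^ 2 + 1) * d2, fun x y => ?_⟩
  have s1 := sq h (α * x + γ * y) (β * x + δ * y)
  have s2 := sq h' x y
  rw [e2, e1] at s2
  generalize hX : α * x + γ * y = X at s1
  generalize hY : β * x + δ * y = Y at s1
  have hX' : (X : L) = α * x + γ * y := by rw [← hX]; push_cast; rfl
  have hY' : (Y : L) = β * x + δ * y := by rw [← hY]; push_cast; rfl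
  obtain ⟨b1, b2⟩ := uniq h3 h
    (u := (x * u1 + y * u2) ^ 2 - (2 * X * Y * f 0 * f 3 + Y ^ 2 * f 1 * f 3) +
      (2 * x * y * f' 0 * f' 3 + y ^ 2 * f' 1 * f' 3) -
      (-(f' 1 * x ^ 2) - 2 * f' 2 * x * y - f' 3 * y ^ 2) * u1 - (f' 0 * x ^ 2 - f' 2 * y ^ 2) * u2)
    (v := 2 * (x * u1 + y * u2) * X + (-(f 1 * X ^ 2) - 2 * f 2 * X * Y - f 3 * Y ^ 2) -
      (-(f' 1 * x ^ 2) - 2 * f' 2 * x * y - f' 3 * y ^ 2) * α - (f' 0 * x ^ 2 - f' 2 * y ^ 2) * γ)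
    (w := 2 * (x * u1 + y * u2) * Y + (f 0 * X ^ 2 - f 2 * Y ^ 2) -
      (-(f' 1 * x ^ 2) - 2 * f' 2 * x * y - f' 3 * y ^ 2) * β - (f' 0 * x ^ 2 - f' 2 * y ^ 2) * δ)
    (by
      push_cast
      rw [hX', hY'] at s1 ⊢
      linear_combination s2 - s1)
  have k : f 0 * X ^ 3 + f 1 * X ^ 2 * Y + f 2 * X * Y ^ 2 + f 3 * Y ^ 3 =
      (α * δ - β * γ) * ev f' x y := by
    have := congrArg₂ (fun a b => X * a - Y * b) b2 b1
    simp only [ev]
    subst hX hY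
    linear_combination this
  have k2 : ev f ((α * δ - β * γ) * α * x + (α * δ - β * γ) * γ * y)
      ((α * δ - β * γ) * β * x + (α * δ - β * γ) * δ * y) = (α * δ - β * γ) ^ 3 *
        (f 0 * X ^ 3 + f 1 * X ^ 2 * Y + f 2 * X * Y ^ 2 + f 3 * Y ^ 3) := by
    subst hX hY
    simp only [ev]
    ring
  rw [k2, k]
  linear_combination -(ev f' x y * ((α * δ - β * γ) ^ 2 + 1)) * d2

theorem df6 (h3 : DF3St) (hB : BasicSt) : DF6St := by
  intro L _ θ f g h ⟨α, β, γ, δ, hd, hg⟩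
  obtain ⟨-, -, li, sp, -⟩ := h3 L θ f h
  have d0 : ((α * δ - β * γ : ℤ) : ℝ) ≠ 0 := by
    have : α * δ - β * γ ≠ 0 := fun e => by simp [e] at hd
    exact_mod_cast this
  have n0 : (α : ℝ) - γ * θ ≠ 0 := fun e => by
    obtain ⟨h1, h2, -⟩ := li α (-γ) 0 (Subtype.ext (by push_cast; linear_combination e))
    have k1 : α = 0 := by exact_mod_cast h1
    have k2 : γ = 0 := by simpa using h2
    simp [k1, k2] at d0
  have e := congrArg (fun x : L => (x : ℝ)) h.2.2.1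
  simp only [ev, cst] at e
  push_cast at e d0
  have mθ := θ.2
  set t : ℝ := θ.1 with ht
  set ρ : ℝ := (δ * t - β) / (α - γ * t) with hρ
  have r1 : α * ρ + β = (α * δ - β * γ) / (α - γ * t) * t := by
    rw [hρ, div_mul_eq_mul_div, eq_div_iff n0, add_mul, mul_assoc, div_mul_cancel₀ _ n0]; ring
  have r2 : γ * ρ + δ = (α * δ - β * γ) / (α - γ * t) := by rw [hρ]; field_simp; ring
  have eg := hB.ext g ![ev f α γ,
    3 * f 0 * α ^ 2 * β + f 1 * (α ^ 2 * δ + 2 * α * β * γ) + f 2 * (2 * α * γ * δ + β * γ ^ 2) +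
      3 * f 3 * γ ^ 2 * δ,
    3 * f 0 * α * β ^ 2 + f 1 * (β ^ 2 * γ + 2 * α * β * δ) + f 2 * (2 * β * γ * δ + α * δ ^ 2) +
      3 * f 3 * γ * δ ^ 2, ev f β δ] fun x y => by
    rw [hg]
    simp only [ev, Matrix.cons_val]
    ring
  refine ⟨ρ, ?_, le_antisymm (fun x hx => ?_) ?_⟩
  · have k : ev (cst ℝ g) ρ 1 = ev (cst ℝ f) (α * ρ + β) (γ * ρ + δ) := by
      rw [eg]
      simp only [ev, cst, Matrix.cons_val]
      push_cast
      ring
    rw [k, r1, r2]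
    simp only [ev, cst]
    linear_combination ((α * δ - β * γ) / (α - γ * t)) ^ 3 * e
  · have m := IntermediateField.mem_adjoin_simple_self ℚ ρ
    have mt : t ∈ ℚ⟮ρ⟯ := by
      have : t = (α * ρ + β) / (γ * ρ + δ) := by
        rw [r1, r2, mul_div_cancel_left₀ _ (div_ne_zero d0 n0)]
      rw [this]
      exact div_mem (add_mem (mul_mem (intCast_mem _ _) m) (intCast_mem _ _))
        (add_mem (mul_mem (intCast_mem _ _) m) (intCast_mem _ _))
    obtain ⟨u, v, w, hx'⟩ := sp ⟨x, hx⟩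
    have k : x = u + v * t + w * t ^ 2 := by
      have := congrArg (fun x : L => (x : ℝ)) hx'
      push_cast at this
      exact this
    rw [k]
    exact add_mem (add_mem (SubfieldClass.ratCast_mem _ _)
      (mul_mem (SubfieldClass.ratCast_mem _ _) mt))
      (mul_mem (SubfieldClass.ratCast_mem _ _) (pow_mem mt 2))
  · exact IntermediateField.adjoin_simple_le_iff.2 (div_mem
      (sub_mem (mul_mem (intCast_mem _ _) mθ) (intCast_mem _ _))
      (sub_mem (intCast_mem _ _) (mul_mem (intCast_mem _ _) mθ)))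

end Pool.Agent.Lib.MP_02f36d_nt.CF
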