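import Pool.Agent.Lib.MP_02f36d_nt.CF.St

/-! Forms with a double root modulo `p`, uniformly in `p`. -/

set_option autoImplicit false

noncomputable section

namespace Pool.Agent.Lib.MP_02f36d_nt.CF

namespace DblL

/-- A linear substitution in a form. -/
def sub (f : Fin 4 → ℤ) (α β γ δ : ℤ) : Fin 4 → ℤ :=
  ![ev f α γ,
    3 * f 0 * α ^ 2 * β + f 1 * (α ^ 2 * δ + 2 * α * β * γ) + f 2 * (2 * α * γ * δ + β * γ ^ 2) +
      3 * f 3 * γ ^ 2 * δ,
    3 * f 0 * α * β ^ 2 + f 1 * (β ^ 2 * γ + 2 * α * β * δ) + f 2 * (2 * β * γ * δ + α * δ ^ 2) +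
      3 * f 3 * γ * δ ^ 2,
    ev f β δ]

theorem ev_sub (f : Fin 4 → ℤ) (α β γ δ x y : ℤ) :
    ev (sub f α β γ δ) x y = ev f (α * x + β * y) (γ * x + δ * y) := by
  simp only [ev, sub, Matrix.cons_val]
  ring

theorem eqv_sub (f : Fin 4 → ℤ) (α β γ δ : ℤ) (h : (α * δ - β * γ) ^ 2 = 1) :
    Eqv f (sub f α β γ δ) := ⟨α, β, γ, δ, h, ev_sub f α β γ δ⟩

/-- Normal form at a double root. -/
theorem normal (hB : BasicSt) (p : ℕ) (f : Fin 4 → ℤ) (h : Dbl p f) (h' : ¬ Trip p f) :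
    ∃ a b c d : ℤ, ¬ (p : ℤ) ∣ c ∧ Eqv f ![(p : ℤ) ^ 2 * a, p * b, c, d] := by
  rcases h with ⟨r, hr, ⟨a, ha⟩, ⟨b, hb⟩⟩ | ⟨⟨a, ha⟩, ⟨b, hb⟩⟩
  · refine ⟨a, b, 3 * f 0 * r + f 1, f 0, ?_, r, 1, 1, 0, by ring, fun x y => ?_⟩
    · rintro ⟨c, hc⟩
      refine h' (Or.inl ⟨r, hr, ⟨c, by linear_combination hc⟩, ⟨b - 2 * r * c, ?_⟩,
        ⟨p * a - r * b + r ^ 2 * c, ?_⟩⟩)
      · linear_combination hb - 2 * r * hc
      · unfold ev at ha
        linear_combination ha - r * hb + r ^ 2 * hc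
    · rw [← ha, ← hb]
      simp only [ev, Matrix.cons_val]
      ring
  · refine ⟨a, b, f 2, f 3, fun hc => h' (Or.inr ⟨⟨p * a, by rw [ha]; ring⟩, ⟨b, hb⟩, hc⟩), ?_⟩
    have : ![(p : ℤ) ^ 2 * a, p * b, f 2, f 3] = f := by
      funext i
      fin_cases i
      exacts [ha.symm, hb.symm, rfl, rfl]
    rw [this]
    exact hB.refl f

/-- The roots modulo `p`. -/
def R (p : ℕ) (g : Fin 4 → ℤ) : Finset ℕ := (Finset.range p).filter fun s => (p : ℤ) ∣ ev g s 1

theorem card_R (p : ℕ) (hp : p.Prime) (g : Fin 4 → ℤ) (hg : ¬ ∀ i, (p : ℤ) ∣ g i) :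
    (R p g).card ≤ 3 := by
  classical
  haveI := Fact.mk hp
  let P : Cubic (ZMod p) := ⟨g 0, g 1, g 2, g 3⟩
  have hP : P.toPoly ≠ 0 := by
    rw [Ne, Cubic.toPoly_eq_zero_iff]
    intro h
    refine hg fun i => (ZMod.intCast_zmod_eq_zero_iff_dvd _ _).1 ?_
    fin_cases i
    exacts [congrArg Cubic.a h, congrArg Cubic.b h, congrArg Cubic.c h, congrArg Cubic.d h]
  refine le_trans (Finset.card_le_card_of_injOn (fun s : ℕ => (s : ZMod p)) (fun s hs => ?_)
    fun s hs t ht h => ?_) (Cubic.card_roots_le (P := P))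
  · have h := (ZMod.intCast_zmod_eq_zero_iff_dvd _ _).2 (Finset.mem_filter.1 hs).2
    refine Multiset.mem_toFinset.2 ((Cubic.mem_roots_iff hP _).2 ?_)
    simpa [ev] using h
  · have h1 := Finset.mem_range.1 (Finset.mem_filter.1 hs).1
    have h2 := Finset.mem_range.1 (Finset.mem_filter.1 ht).1
    have h3 := (ZMod.natCast_eq_natCast_iff' s t p).1 h
    rwa [Nat.mod_eq_of_lt h1, Nat.mod_eq_of_lt h2] at h3

/-- The sublattices of index `p` that can occur. -/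
def J (p : ℕ) (g : Fin 4 → ℤ) : Finset (ℤ × ℤ × ℤ) :=
  insert (1, 0, (p : ℤ)) ((R p g).image fun s : ℕ => ((p : ℤ), (s : ℤ), 1))

theorem card_J (p : ℕ) (hp : p.Prime) (g : Fin 4 → ℤ) (hg : ¬ ∀ i, (p : ℤ) ∣ g i) :
    (J p g).card ≤ 4 :=
  (Finset.card_insert_le _ _).trans
    (Nat.succ_le_succ (Finset.card_image_le.trans (card_R p hp g hg)))

theorem lat (p : ℕ) (hp : p.Prime) (g F : Fin 4 → ℤ) (α β γ δ : ℤ)
    (he : (α * δ - β * γ) ^ 2 = 1)
    (h : ∀ x y, p * ev F x y = ev g (α * (p * x) + β * y) (γ * (p * x) + δ * y)) :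
    ∃ m ∈ J p g, ∃ F', Eqv F F' ∧
      ∀ x y, p * ev F' x y = ev g (m.1 * x + m.2.1 * y) (m.2.2 * y) := by
  haveI := Fact.mk hp
  obtain ⟨e, hE⟩ : ∃ e, α * δ - β * γ = e := ⟨_, rfl⟩
  rw [hE] at he
  by_cases hδ : (p : ℤ) ∣ δ
  · obtain ⟨k, hk⟩ := hδ
    refine ⟨_, Finset.mem_insert_self _ _, sub F (e * k) (-(e * β)) (-(e * γ)) (e * α * p),
      eqv_sub _ _ _ _ _ ?_, fun x y => ?_⟩
    · have : e * k * (e * α * p) - -(e * β) * -(e * γ) = e := by
        linear_combination e ^ 2 * hE + e * he - e ^ 2 * α * hk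
      rw [this, he]
    · rw [ev_sub, h]
      congr 1
      · linear_combination e * x * hE + x * he - e * α * x * hk
      · linear_combination e * p * y * hE + p * y * he - e * γ * x * hk
  · have hδ' : (δ : ZMod p) ≠ 0 := fun h0 => hδ ((ZMod.intCast_zmod_eq_zero_iff_dvd _ _).1 h0)
    set s := ((β : ZMod p) / δ).val with hs
    obtain ⟨k, hk⟩ : (p : ℤ) ∣ δ * s - β := by
      rw [← ZMod.intCast_zmod_eq_zero_iff_dvd]
      push_cast
      rw [hs, ZMod.natCast_zmod_val]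
      field_simp
      ring
    have key : ∀ x y, p * ev (sub F (e * δ) (e * k) (-(e * γ * p)) (e * (α - γ * s))) x y =
        ev g (p * x + s * y) (1 * y) := by
      intro x y
      rw [ev_sub, h]
      congr 1
      · linear_combination e * (p * x + s * y) * hE + (p * x + s * y) * he - e * α * y * hk
      · linear_combination e * y * hE + y * he - e * γ * y * hk
    refine ⟨((p : ℤ), (s : ℤ), 1), Finset.mem_insert_of_mem (Finset.mem_image_of_mem _
      (Finset.mem_filter.2 ⟨Finset.mem_range.2 (ZMod.val_lt _), ?_⟩)), _,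
      eqv_sub _ _ _ _ _ ?_, key⟩
    · have := key 0 1
      simp only [mul_zero, mul_one, zero_add] at this
      exact Dvd.intro _ this
    · have : e * δ * (e * (α - γ * s)) - e * k * -(e * γ * p) = e := by
        linear_combination e ^ 2 * hE + e * he - e ^ 2 * γ * hk
      rw [this, he]

end DblL

open DblL in
theorem dbl (hB : BasicSt) (hN : NBSt) (hM : MultSt) : DblSt := by
  classical
  obtain ⟨CN, hCN, hN⟩ := hN
  obtain ⟨CM, hM⟩ := hM
  refine ⟨CN * 110 * (4 * CM), by positivity, fun l hl p hp => ?_⟩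
  have hp0 : (0 : ℝ) < p := Nat.cast_pos.2 hp.pos
  have hpz : (p : ℤ) ≠ 0 := Nat.cast_ne_zero.2 hp.ne_zero
  obtain ⟨T, hT, hT'⟩ := hN (110 * l ^ 4 / (p : ℝ) ^ 2) (by positivity)
  let U : (Fin 4 → ℤ) → ℤ × ℤ × ℤ → Finset (Fin 4 → ℤ) := fun g m =>
    (hB.fin l).toFinset.filter fun f => ∃ F', Eqv F' f ∧
      ∀ x y, p * ev F' x y = ev g (m.1 * x + m.2.1 * y) (m.2.2 * y)
  have hU : ∀ g m, (U g m).card ≤ CM := by
    intro g m
    rcases (U g m).eq_empty_or_nonempty with h | ⟨f0, h⟩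
    · rw [h]
      exact Nat.zero_le _
    obtain ⟨-, F0, -, h0⟩ := Finset.mem_filter.1 h
    rw [← Set.ncard_coe_finset]
    refine le_trans (Set.ncard_le_ncard (fun f hf => ?_)
      ((hB.fin l).subset fun f hf => hf.1)) (hM l hl F0)
    obtain ⟨h1, F, h2, h3⟩ := Finset.mem_filter.1 hf
    have : F = F0 := hB.ext _ _ fun x y => mul_left_cancel₀ hpz ((h3 x y).trans (h0 x y).symm)
    exact ⟨(hB.fin l).mem_toFinset.1 h1, this ▸ h2⟩
  let T' := T.filter fun g => ¬ ∀ i, (p : ℤ) ∣ g i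
  have hsub : {f | InBox l f ∧ Irr f ∧ Dbl p f ∧ ¬ Trip p f} ⊆
      ↑(T'.biUnion fun g => (J p g).biUnion (U g)) := by
    rintro f ⟨h1, h2, h3, h4⟩
    obtain ⟨a, b, c, d, hc, hF⟩ := normal hB p f h3 h4
    obtain ⟨b1, b2, -⟩ := hB.box l f hl h1
    have hI := hB.eirr _ _ hF h2
    have hd : disc f = (p : ℤ) ^ 2 * disc ![a, b, c, p * d] := by
      rw [← hB.edisc _ _ hF]
      simp only [disc, Matrix.cons_val]
      ring
    have hI' : Irr ![a, b, c, p * d] := by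
      intro x y h
      have := hI x (p * y) (by
        simp only [ev, Matrix.cons_val] at h ⊢
        linear_combination (p : ℤ) ^ 2 * h)
      exact ⟨this.1, (mul_eq_zero.1 this.2).resolve_left hpz⟩
    obtain ⟨g, hg, hE⟩ := hT' _ hI' (by
      rw [hd] at b1
      exact neg_of_mul_neg_right b1 (by positivity)) (by
      rw [hd] at b2
      push_cast at b2
      rw [← neg_div, div_le_iff₀ (by positivity)]
      linarith)
    obtain ⟨α, β, γ, δ, he, hE⟩ := hB.symm _ _ hE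
    obtain ⟨m, hm, F', h5, h6⟩ := lat p hp g ![(p : ℤ) ^ 2 * a, p * b, c, d] α β γ δ he
      fun x y => by
        rw [← hE]
        simp only [ev, Matrix.cons_val]
        ring
    refine Finset.mem_coe.2 (Finset.mem_biUnion.2 ⟨g, Finset.mem_filter.2 ⟨hg, fun h0 => hc ?_⟩,
      Finset.mem_biUnion.2 ⟨m, hm, Finset.mem_filter.2 ⟨(hB.fin l).mem_toFinset.2 h1, F',
        hB.symm _ _ (hB.trans _ _ _ hF h5), h6⟩⟩⟩)
    have h7 : c = sub g α β γ δ 2 :=
      congrFun (hB.ext _ _ fun x y => (hE x y).trans (ev_sub g α β γ δ x y).symm) 2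
    obtain ⟨k0, e0⟩ := h0 0
    obtain ⟨k1, e1⟩ := h0 1
    obtain ⟨k2, e2⟩ := h0 2
    obtain ⟨k3, e3⟩ := h0 3
    refine ⟨sub ![k0, k1, k2, k3] α β γ δ 2, ?_⟩
    rw [h7]
    simp only [sub, Matrix.cons_val, e0, e1, e2, e3]
    ring
  have hcard : {f | InBox l f ∧ Irr f ∧ Dbl p f ∧ ¬ Trip p f}.ncard ≤ T.card * (4 * CM) := by
    refine (Set.ncard_le_ncard hsub (Finset.finite_toSet _)).trans ?_
    rw [Set.ncard_coe_finset]
    refine (Finset.card_biUnion_le_card_mul _ _ (4 * CM) fun g hg => ?_).trans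
      (Nat.mul_le_mul_right _ (Finset.card_filter_le _ _))
    exact (Finset.card_biUnion_le_card_mul _ _ CM fun m _ => hU g m).trans
      (Nat.mul_le_mul_right _ (card_J p hp g (Finset.mem_filter.1 hg).2))
  refine (Nat.cast_le.2 hcard).trans ?_
  push_cast
  refine (mul_le_mul_of_nonneg_right hT (by positivity)).trans (le_of_eq ?_)
  ring

end Pool.Agent.Lib.MP_02f36d_nt.CF
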