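import Pool.Agent.Lib.MP_02f36d_nt.CF.St

/-! Cubic fields of odd class number: the final count. -/

set_option autoImplicit false

noncomputable section

namespace Pool.Agent.Lib.MP_02f36d_nt.CF

open Matrix MeasureTheory Filter NumberField
open scoped IntermediateField Pointwise

namespace DensL

/-- `L` is the field of the form `f`. -/
def Q (f : Fin 4 → ℤ) (L : IntermediateField ℚ ℝ) : Prop :=
  ∃ (_ : NumberField L) (θ : L), Bas L θ f

theorem dvd_mm {p : ℕ} (hp : p.Prime) (h : p ≤ 1000) : p ∣ mm :=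
  (Nat.Prime.dvd_primorial_iff hp).2 h

theorem mm_pos : (0 : ℝ) < mm := by
  exact_mod_cast primorial_pos 1000

theorem exQ (hB : BasicSt) (h1 : DF1St) {l : ℝ} (hl : 0 < l) {f : Fin 4 → ℤ} (hf : InBox l f)
    (hi : Irr f) (hs : Squarefree (disc f)) : ∃ L, Q f L := by
  have h0 : f 0 ≠ 0 := by
    intro h
    have := hf.1.1
    rw [h] at this
    simp at this
    linarith
  obtain ⟨ρ, z, -, hz, -⟩ := hB.root f h0 (hB.box l f hl hf).1
  have hρ : ev (cst ℝ f) ρ 1 = 0 := by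
    have h := hz ρ
    simp only [sub_self, mul_zero, zero_mul] at h
    have h2 : ((ev (cst ℝ f) ρ 1 : ℝ) : ℂ) = ev (cst ℂ f) ρ 1 := by
      simp [ev, cst]
    exact_mod_cast h2.trans h
  obtain ⟨i, hb⟩ := h1 f ρ hi hρ hs
  exact ⟨_, i, _, hb⟩

/-- The forms of even class number are at most a third of the orbits. -/
theorem even_le (hPr : PairSt) (hP : ParSt) {l B : ℝ} {f0 : Fin 4 → ℤ}
    (hW : ∀ S : Finset (M3 ℤ × M3 ℤ),
      (∀ w ∈ S, Sym w ∧ IrrW w ∧ Real1 w ∧ InBox l (pif w) ∧ Cong mm (pif w) f0) →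
      (∀ w ∈ S, ∀ w' ∈ S, EqW w w' → w = w') → (S.card : ℝ) ≤ B)
    (G : Finset (Fin 4 → ℤ))
    (hG : ∀ f ∈ G, InBox l f ∧ Cong mm f f0 ∧ 0 < f 0 ∧ disc f < 0 ∧
      ∃ (L : IntermediateField ℚ ℝ) (_ : NumberField L) (θ : L), Bas L θ f ∧
        Even (classNumber L)) : 3 * (G.card : ℝ) ≤ B := by
  classical
  have hex : ∀ f : G, ∃ w : Fin 3 → M3 ℤ × M3 ℤ,
      (∀ i, Sym (w i) ∧ IrrW (w i) ∧ Real1 (w i) ∧ pif (w i) = f) ∧
      ∀ i j, EqW (w i) (w j) → i = j := by
    intro f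
    obtain ⟨-, -, h0, hd, L, i, θ, hb, he⟩ := hG f f.2
    exact hP L θ f hb h0 hd he
  choose w hw hw' using hex
  have key : ∀ x y : G × Fin 3, EqW (w x.1 x.2) (w y.1 y.2) → x = y := by
    rintro ⟨f, i⟩ ⟨g, j⟩ h
    have hfg : f = g := by
      obtain ⟨k, hk, hh⟩ := h
      have h2 := hPr.pifAct k (w f i)
      rw [hk, one_smul, ← hh, (hw f i).2.2.2, (hw g j).2.2.2] at h2
      exact (Subtype.ext h2).symm
    subst hfg
    rw [hw' f i j h]
  have hinj : Function.Injective fun x : G × Fin 3 => w x.1 x.2 := fun x y h =>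
    key x y (by simpa only [h] using hPr.refl (w y.1 y.2))
  have := hW (Finset.univ.image fun x : G × Fin 3 => w x.1 x.2) ?_ ?_
  · rw [Finset.card_image_of_injective _ hinj] at this
    simpa [mul_comm] using this
  · intro v hv
    obtain ⟨⟨f, i⟩, -, rfl⟩ := Finset.mem_image.1 hv
    obtain ⟨a, b, c, d⟩ := hw f i
    refine ⟨a, b, c, ?_, ?_⟩
    · rw [d]; exact (hG f f.2).1
    · rw [d]; exact (hG f f.2).2.1
  · intro v hv v' hv' h
    obtain ⟨x, -, rfl⟩ := Finset.mem_image.1 hv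
    obtain ⟨y, -, rfl⟩ := Finset.mem_image.1 hv'
    rw [key x y h]

/-- The count at the scale `l`. -/
theorem scale (hB : BasicSt) (hC : ClsSt) (hM : MultSt) (hV : VSt) (hW : WSt) (h1 : DF1St)
    (h3 : DF3St) (h4 : DF4St) (h5 : DF5St) (hPr : PairSt) (hP : ParSt) (hU : UpSt) :
    ∃ C : ℝ, 0 < C ∧ ∀ᶠ l : ℝ in atTop, NN l ≤ C * ((OddF (110 * l ^ 4)).ncard : ℝ) := by
  classical
  obtain ⟨f0, hf0⟩ := hC.f0
  obtain ⟨C, hC'⟩ := hM
  obtain ⟨U, hU'⟩ := hU
  refine ⟨300 * (C + 1), by positivity, ?_⟩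
  filter_upwards [hV f0 hf0, hW f0 hf0, eventually_gt_atTop 0] with l hv hw hl
  have hfin : {f | InBox l f ∧ Cong mm f f0 ∧ Squarefree (disc f)}.Finite :=
    (hB.fin l).subset fun f hf => hf.1
  set G := hfin.toFinset with hGd
  have hG : ∀ f, f ∈ G ↔ InBox l f ∧ Cong mm f f0 ∧ Squarefree (disc f) := fun f => by
    simp [hGd]
  rw [Set.ncard_eq_toFinset_card _ hfin, ← hGd] at hv
  have hnr : ∀ f ∈ G, ∀ p : ℕ, p.Prime → p ≤ 1000 → NoRoot p f := fun f hf p hp h =>
    hB.cong p mm f f0 (dvd_mm hp h) ((hG f).1 hf).2.1 (hf0 p hp h)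
  have hex : ∀ f, ∃ L, f ∈ G → Q f L := by
    intro f
    by_cases hf : f ∈ G
    · obtain ⟨L, hL⟩ := exQ hB h1 hl ((hG f).1 hf).1
        (hB.irr 2 f Nat.prime_two (hnr f hf 2 Nat.prime_two (by norm_num))) ((hG f).1 hf).2.2
      exact ⟨L, fun _ => hL⟩
    · exact ⟨⊥, fun h => absurd h hf⟩
  choose L hL using hex
  have hX : (0 : ℝ) ≤ 110 * l ^ 4 := by positivity
  have hOf : (OddF (110 * l ^ 4)).Finite := (hU' _ hX).1.subset fun K hK => by
    obtain ⟨i, a, b, c, -⟩ := hK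
    exact ⟨i, a, b, c⟩
  have he := even_le hPr hP hw (G.filter fun f => L f ∉ OddF (110 * l ^ 4)) ?_
  · have ho : (G.filter fun f => L f ∈ OddF (110 * l ^ 4)).card ≤ C * hOf.toFinset.card := by
      refine Finset.card_le_mul_card_image_of_maps_to (f := L) ?_ C ?_
      · intro f hf
        simpa using (Finset.mem_filter.1 hf).2
      · intro K _
        rcases Finset.eq_empty_or_nonempty
          ((G.filter fun f => L f ∈ OddF (110 * l ^ 4)).filter fun f => L f = K) with h | ⟨g, hg⟩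
        · simp [h]
        · refine le_trans ?_ (hC' l hl g)
          rw [← Set.ncard_coe_finset]
          refine Set.ncard_le_ncard ?_ ((hB.fin l).subset fun f hf => hf.1)
          intro f hf
          have hf' := Finset.mem_filter.1 (Finset.mem_coe.1 hf)
          have hg' := Finset.mem_filter.1 hg
          have hfG := (Finset.mem_filter.1 hf'.1).1
          have hgG := (Finset.mem_filter.1 hg'.1).1
          have q1 := hL f hfG
          have q2 := hL g hgG
          rw [hf'.2] at q1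
          rw [hg'.2] at q2
          obtain ⟨i, θ, b1⟩ := q1
          obtain ⟨j, θ', b2⟩ := q2
          exact ⟨((hG f).1 hfG).1, h4 K θ' θ g f b2 b1⟩
    have hsum := Finset.card_filter_add_card_filter_not (s := G)
      (fun f => L f ∈ OddF (110 * l ^ 4))
    rw [Set.ncard_eq_toFinset_card _ hOf]
    have ho' : ((G.filter fun f => L f ∈ OddF (110 * l ^ 4)).card : ℝ) ≤
        C * hOf.toFinset.card := by exact_mod_cast ho
    have hsum' : ((G.filter fun f => L f ∈ OddF (110 * l ^ 4)).card : ℝ) +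
        (G.filter fun f => L f ∉ OddF (110 * l ^ 4)).card = G.card := by exact_mod_cast hsum
    have hn : (0 : ℝ) ≤ hOf.toFinset.card := Nat.cast_nonneg _
    nlinarith
  · intro f hf
    obtain ⟨hfG, hno⟩ := Finset.mem_filter.1 hf
    obtain ⟨hb, hc, hs⟩ := (hG f).1 hfG
    obtain ⟨i, θ, b⟩ := hL f hfG
    have hbox := hB.box l f hl hb
    have h0 : 0 < f 0 := by
      have : (0 : ℝ) < f 0 := hl.trans_le hb.1.1
      exact_mod_cast this
    refine ⟨hb, hc, h0, hbox.1, L f, i, θ, b, ?_⟩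
    rw [← Nat.not_odd_iff_even]
    intro hodd
    have hd := (h3 _ θ f b).1
    refine hno ⟨i, b.1, hd ▸ hbox.1, hd ▸ hbox.2.1, hd ▸ hs, ?_, hodd⟩
    simpa using h5 _ θ f 17 b (by norm_num) (hnr f hfG 17 (by norm_num) (by norm_num))

end DensL

theorem dens (hB : BasicSt) (hC : ClsSt) (hM : MultSt) (hV : VSt) (hW : WSt) (h1 : DF1St)
    (h3 : DF3St) (h4 : DF4St) (h5 : DF5St) (hPr : PairSt) (hP : ParSt) (hU : UpSt) : DensSt := by
  obtain ⟨C, hC0, h⟩ := DensL.scale hB hC hM hV hW h1 h3 h4 h5 hPr hP hU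
  have hm := DensL.mm_pos
  have het : 0 < et := by norm_num [et]
  refine ⟨et / (110 * mm ^ 4 * C), by positivity, ?_⟩
  have ht : Tendsto (fun X : ℝ => √(√(X / 110))) atTop atTop :=
    Real.tendsto_sqrt_atTop.comp (Real.tendsto_sqrt_atTop.comp
      (tendsto_id.atTop_div_const (by norm_num)))
  filter_upwards [ht.eventually h, eventually_ge_atTop 0] with X hX h0
  have h4' : √(√(X / 110)) ^ 4 = X / 110 := by
    rw [show (4 : ℕ) = 2 * 2 from rfl, pow_mul, Real.sq_sqrt (Real.sqrt_nonneg _),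
      Real.sq_sqrt (by positivity)]
  rw [NN, h4', show 110 * (X / 110) = X by ring] at hX
  rw [div_mul_eq_mul_div, div_le_iff₀ (by positivity)]
  rw [div_le_iff₀ (by positivity)] at hX
  nlinarith

end Pool.Agent.Lib.MP_02f36d_nt.CF
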