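import Pool.Agent.Lib.MP_02f36d_nt.CF.St

/-! The Jacobian of the parametrisation of the real orbits. -/

set_option autoImplicit false

noncomputable section

namespace Pool.Agent.Lib.MP_02f36d_nt.CF

open Matrix

namespace JacAux

theorem hom_det (φ : M3 ℝ → ℝ) (k : ℕ) (hm : ∀ a b, φ (a * b) = φ a * φ b)
    (hd : ∀ d : Fin 3 → ℝ, φ (diagonal d) = (∏ i, d i) ^ k) (g : M3 ℝ) (hg : g.det ≠ 0) :
    φ g = g.det ^ k := by
  refine diagonal_transvection_induction_of_det_ne_zero (fun M => φ M = M.det ^ k) g hg ?_ ?_ ?_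
  · intro D _
    rw [hd, det_diagonal]
  · rintro ⟨i, j, hij, c⟩
    have h1 : φ 1 = 1 := by
      rw [← diagonal_one, hd]; simp
    have hne : φ (transvection i j c) ≠ 0 := by
      intro h0
      have := hm (transvection i j c) (transvection i j (-c))
      rw [transvection_mul_transvection_same _ _ hij, h0] at this
      simp [h1] at this
    have hsq := hm (transvection i j c) (transvection i j c)
    rw [transvection_mul_transvection_same _ _ hij] at hsq
    have hconj : diagonal (fun a => if a = i then (2 : ℝ) else 1) * transvection i j c =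
        transvection i j (c + c) * diagonal (fun a => if a = i then (2 : ℝ) else 1) := by
      clear hsq hne h1 hd hm
      ext a b
      simp only [transvection, diagonal_mul, mul_diagonal, Matrix.add_apply, one_apply, single_apply]
      by_cases ha : a = i <;> by_cases hb : b = j <;> by_cases hab : a = b <;>
        simp_all [eq_comm] <;> ring
    have h2 := congrArg φ hconj
    rw [hm, hm, hd, hsq] at h2
    have h3 : (∏ a : Fin 3, if a = i then (2 : ℝ) else 1) ^ k ≠ 0 := by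
      simp
    have h4 : φ (transvection i j c) = 1 := by
      have h5 : φ (transvection i j c) * (φ (transvection i j c) - 1) *
          (∏ a : Fin 3, if a = i then (2 : ℝ) else 1) ^ k = 0 := by linear_combination -h2
      rcases mul_eq_zero.1 h5 with h | h
      · rcases mul_eq_zero.1 h with h | h
        · exact absurd h hne
        · linarith
      · exact absurd h h3
    simp [TransvectionStruct.toMatrix, h4, det_transvection_of_ne _ _ hij]
  · intro A B _ _ hA hB
    rw [hm, hA, hB, det_mul, mul_pow]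

/-- A diagonal map of the coordinate space. -/
def dg (a : Fin 3 → Fin 3 → ℝ) (b : Fin 3 → ℝ) : EE ℝ →ₗ[ℝ] EE ℝ :=
  LinearMap.prodMap
    (LinearMap.pi fun i => (LinearMap.pi fun j =>
      (a i j • LinearMap.id : ℝ →ₗ[ℝ] ℝ).comp (LinearMap.proj j)).comp (LinearMap.proj i))
    (LinearMap.pi fun i => (b i • LinearMap.id : ℝ →ₗ[ℝ] ℝ).comp (LinearMap.proj i))

theorem det_dg (a : Fin 3 → Fin 3 → ℝ) (b : Fin 3 → ℝ) :
    (dg a b).det = (∏ i, ∏ j, a i j) * ∏ i, b i := by
  simp only [dg, LinearMap.det_prodMap, LinearMap.det_pi, LinearMap.det_smul]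
  simp

/-- Left multiplication on the first coordinate. -/
def lm (g : M3 ℝ) : EE ℝ →ₗ[ℝ] EE ℝ where
  toFun x := (fun i j => (g * Matrix.of x.1) i j, x.2)
  map_add' x y := by
    ext i j <;> simp [mul_apply, mul_add, Finset.sum_add_distrib]
  map_smul' c x := by
    ext i j <;> simp [mul_apply, Finset.mul_sum, mul_left_comm]

theorem det_lm (g : M3 ℝ) (hg : g.det ≠ 0) : (lm g).det = g.det ^ 3 := by
  refine hom_det (fun g => (lm g).det) 3 ?_ ?_ g hg
  · intro a b
    rw [← LinearMap.det_comp]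
    congr 1
    refine LinearMap.ext fun x => ?_
    have : (Matrix.of fun i j => (b * Matrix.of x.1) i j) = b * Matrix.of x.1 := rfl
    simp only [lm, LinearMap.coe_mk, AddHom.coe_mk, LinearMap.comp_apply, this, Matrix.mul_assoc]
  · intro d
    have : lm (diagonal d) = dg (fun i _ => d i) (fun _ => 1) := by
      refine LinearMap.ext fun x => ?_
      ext i j <;> simp [lm, dg]
    rw [this, det_dg]
    simp [Fin.prod_univ_three]; ring

/-- The symmetric pair with given coordinates. -/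
def unp (x : EE ℝ) : M3 ℝ × M3 ℝ :=
  (!![x.1 0 0, x.1 0 1, x.1 0 2; x.1 0 1, x.1 1 1, x.1 1 2; x.1 0 2, x.1 1 2, x.1 2 2],
    !![x.2 0, x.1 1 0, x.1 2 0; x.1 1 0, x.2 1, x.1 2 1; x.1 2 0, x.1 2 1, x.2 2])

theorem sym_unp (x : EE ℝ) : Sym (unp x) := by
  constructor <;> (ext i j; fin_cases i <;> fin_cases j <;> simp [unp])

theorem unp_pack (w : M3 ℝ × M3 ℝ) (h : Sym w) : unp (pack w) = w := by
  ext i j <;> fin_cases i <;> fin_cases j <;>
    simp [unp, pack, h.1.apply 0 1, h.1.apply 0 2, h.1.apply 1 2, h.2.apply 0 1, h.2.apply 0 2,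
      h.2.apply 1 2]

theorem sym_act (g : M3 ℝ) (w : M3 ℝ × M3 ℝ) (h : Sym w) : Sym (act g w) := by
  obtain ⟨h1, h2⟩ := h
  constructor
  · simp only [act, IsSymm, transpose_mul, transpose_transpose, h1.eq, Matrix.mul_assoc]
  · simp only [act, IsSymm, transpose_mul, transpose_transpose, h2.eq, Matrix.mul_assoc]

/-- The coordinates as a linear map. -/
def packL : (M3 ℝ × M3 ℝ) →ₗ[ℝ] EE ℝ where
  toFun := pack
  map_add' x y := by
    ext i j <;> simp only [pack, Prod.fst_add, Prod.snd_add, Pi.add_apply, Matrix.add_apply]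
    split_ifs <;> rfl
  map_smul' c x := by
    ext i j <;> simp only [pack, Prod.smul_fst, Prod.smul_snd, Pi.smul_apply, Matrix.smul_apply,
      RingHom.id_apply]
    split_ifs <;> rfl

/-- The inverse as a linear map. -/
def unpL : EE ℝ →ₗ[ℝ] (M3 ℝ × M3 ℝ) where
  toFun := unp
  map_add' x y := by
    ext i j <;> fin_cases i <;> fin_cases j <;> simp [unp]
  map_smul' c x := by
    ext i j <;> fin_cases i <;> fin_cases j <;> simp [unp]

/-- The action as a linear map. -/
def actL (g : M3 ℝ) : (M3 ℝ × M3 ℝ) →ₗ[ℝ] (M3 ℝ × M3 ℝ) where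
  toFun := act g
  map_add' x y := by simp [act, Matrix.mul_add, Matrix.add_mul]
  map_smul' c x := by simp [act]

/-- The action in coordinates. -/
def sm (g : M3 ℝ) : EE ℝ →ₗ[ℝ] EE ℝ := packL ∘ₗ actL g ∘ₗ unpL

theorem sm_apply (g : M3 ℝ) (x : EE ℝ) : sm g x = pack (act g (unp x)) := rfl

theorem det_sm (g : M3 ℝ) (hg : g.det ≠ 0) : (sm g).det = g.det ^ 8 := by
  refine hom_det (fun g => (sm g).det) 8 ?_ ?_ g hg
  · intro a b
    rw [← LinearMap.det_comp]
    congr 1
    refine LinearMap.ext fun x => ?_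
    rw [LinearMap.comp_apply, sm_apply, sm_apply, sm_apply, unp_pack _ (sym_act _ _ (sym_unp x))]
    simp [act, Matrix.mul_assoc]
  · intro d
    have : sm (diagonal d) = dg (fun i j => d i * d j) (fun i => d i * d i) := by
      refine LinearMap.ext fun x => ?_
      rw [sm_apply]
      ext i j
      · fin_cases i <;> fin_cases j <;> simp [dg, pack, act, unp] <;> ring
      · fin_cases i <;> simp [dg, pack, act, unp] <;> ring
    rw [this, det_dg]
    simp [Fin.prod_univ_three]; ring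

/-- The tangent pair at the identity. -/
def tg (p : Fin 3 → ℝ) (x : EE ℝ) : M3 ℝ × M3 ℝ :=
  (Matrix.of x.1 * (w1 p).1 + (w1 p).1 * (Matrix.of x.1)ᵀ,
    Matrix.of x.1 * (w1 p).2 + (w1 p).2 * (Matrix.of x.1)ᵀ + (w1 x.2).2)

theorem sym_tg (p : Fin 3 → ℝ) (x : EE ℝ) : Sym (tg p x) := by
  constructor <;> (ext i j; fin_cases i <;> fin_cases j <;>
    simp [tg, w1, mul_apply, Fin.sum_univ_three, vecMul, dotProduct] <;> ring)

/-- Sorting the coordinates into three blocks. -/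
def srt : EE ℝ ≃ₗ[ℝ] (Fin 2 → ℝ) × (Fin 4 → ℝ) × (Fin 6 → ℝ) where
  toFun x := (![x.1 0 0, x.2 0], ![x.1 0 1, x.1 1 0, x.1 0 2, x.1 2 0],
    ![x.1 1 1, x.1 2 2, x.1 1 2, x.1 2 1, x.2 1, x.2 2])
  invFun y := (![![y.1 0, y.2.1 0, y.2.1 2], ![y.2.1 1, y.2.2 0, y.2.2 2],
    ![y.2.1 3, y.2.2 3, y.2.2 1]], ![y.1 1, y.2.2 4, y.2.2 5])
  map_add' x y := by
    ext i <;> fin_cases i <;> simp
  map_smul' c x := by
    ext i <;> fin_cases i <;> simp
  left_inv x := by
    ext i j
    · fin_cases i <;> fin_cases j <;> simp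
    · fin_cases i <;> simp
  right_inv y := by
    ext i <;> fin_cases i <;> simp

/-- The three blocks. -/
def blk (p : Fin 3 → ℝ) : ((Fin 2 → ℝ) × (Fin 4 → ℝ) × (Fin 6 → ℝ)) →ₗ[ℝ]
    ((Fin 2 → ℝ) × (Fin 4 → ℝ) × (Fin 6 → ℝ)) :=
  LinearMap.prodMap (toLin' !![2, 0; 2 * p 0, 1])
    (LinearMap.prodMap
      (toLin' !![1, 1, 0, 0; p 1, p 0, -p 2, 0; 0, 0, -1, 1; -p 2, 0, -p 1, p 0])
      (toLin' !![2, 0, 0, 0, 0, 0; 0, -2, 0, 0, 0, 0; 0, 0, -1, 1, 0, 0;
        -p 2, -p 2, -p 1, p 1, 0, -1; 2 * p 1, 0, -2 * p 2, 0, 1, 0;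
        0, -2 * p 1, 0, -2 * p 2, -1, 0]))

theorem det_blk (p : Fin 3 → ℝ) :
    (blk p).det = 32 * p 2 * ((p 1 - p 0) ^ 2 + p 2 ^ 2) := by
  simp only [blk, LinearMap.det_prodMap, LinearMap.det_toLin']
  simp [det_succ_row_zero, Fin.sum_univ_succ, Fin.succAbove]
  ring

/-- The derivative at the identity. -/
def d1L (p : Fin 3 → ℝ) : EE ℝ →ₗ[ℝ] EE ℝ :=
  (srt.symm : _ →ₗ[ℝ] EE ℝ) ∘ₗ blk p ∘ₗ (srt.symm.symm : EE ℝ →ₗ[ℝ] _)

theorem det_d1L (p : Fin 3 → ℝ) :
    (d1L p).det = 32 * p 2 * ((p 1 - p 0) ^ 2 + p 2 ^ 2) := by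
  rw [d1L, LinearMap.det_conj, det_blk]

theorem d1L_apply (p : Fin 3 → ℝ) (x : EE ℝ) : d1L p x = pack (tg p x) := by
  have : d1L p x = srt.symm (blk p (srt x)) := rfl
  rw [this, LinearEquiv.symm_apply_eq]
  ext i <;> fin_cases i <;>
    simp [blk, srt, pack, tg, w1, mul_apply, Fin.sum_univ_succ, vecMul, dotProduct] <;> ring

theorem diff_phi : Differentiable ℝ Phi := by
  refine Differentiable.prodMk (differentiable_pi.2 fun i => differentiable_pi.2 fun j => ?_)
    (differentiable_pi.2 fun i => ?_)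
  · fin_cases i <;> fin_cases j <;>
      simp [act, w1, mul_apply, Fin.sum_univ_three] <;> fun_prop
  · fin_cases i <;> simp [act, w1, mul_apply, Fin.sum_univ_three] <;> fun_prop

theorem fderiv_phi (x v : EE ℝ) :
    fderiv ℝ Phi x (lm (Matrix.of x.1) v) = sm (Matrix.of x.1) (d1L x.2 v) := by
  set h : M3 ℝ := Matrix.of x.1 with hh
  set Y : M3 ℝ := Matrix.of v.1 with hY
  have hline : HasDerivAt (fun t : ℝ => x + t • lm h v) (lm h v) 0 := by
    simpa using ((hasDerivAt_id (0 : ℝ)).smul_const (lm h v)).const_add x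
  have h1 : HasDerivAt (fun t : ℝ => Phi (x + t • lm h v)) (fderiv ℝ Phi x (lm h v)) 0 := by
    have h0 : HasFDerivAt Phi (fderiv ℝ Phi x) (x + (0 : ℝ) • lm h v) := by
      simpa using (diff_phi x).hasFDerivAt
    exact h0.comp_hasDerivAt (0 : ℝ) hline
  have hexp : ∀ t : ℝ, Phi (x + t • lm h v) = Phi x + t • packL (act h (tg x.2 v)) +
      t ^ 2 • packL (act h (Y * (w1 x.2).1 * Yᵀ,
        Y * (w1 x.2).2 * Yᵀ + Y * (w1 v.2).2 + (w1 v.2).2 * Yᵀ)) +
      t ^ 3 • packL (act h (0, Y * (w1 v.2).2 * Yᵀ)) := by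
    intro t
    have e1 : Matrix.of (x + t • lm h v).1 = h + t • (h * Y) := by
      ext i j; simp [lm, hh, hY]
    have e2 : w1 (x + t • lm h v).2 = ((w1 x.2).1, (w1 x.2).2 + t • (w1 v.2).2) := by
      ext i j <;> fin_cases i <;> fin_cases j <;> simp [w1, lm] <;> ring
    have e3 : ∀ w, pack w = packL w := fun _ => rfl
    rw [Phi, Phi, e1, e2, e3, e3, ← map_smul, ← map_smul, ← map_smul, ← map_add, ← map_add,
      ← map_add]
    congr 1
    simp only [act, tg, ← hh, ← hY, Prod.smul_mk, Prod.mk_add_mk, transpose_add, transpose_smul,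
      transpose_mul, Matrix.add_mul, Matrix.mul_add, Matrix.smul_mul, Matrix.mul_smul,
      Matrix.mul_assoc, smul_add, Matrix.mul_zero, Matrix.zero_mul, smul_zero, Prod.mk.injEq]
    constructor <;> module
  have h2 : HasDerivAt (fun t : ℝ => Phi (x + t • lm h v)) (packL (act h (tg x.2 v))) 0 := by
    simp only [hexp]
    have a1 := ((hasDerivAt_id (0 : ℝ)).smul_const (packL (act h (tg x.2 v)))).const_add (Phi x)
    have a2 := (hasDerivAt_pow 2 (0 : ℝ)).smul_const (packL (act h (Y * (w1 x.2).1 * Yᵀ,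
        Y * (w1 x.2).2 * Yᵀ + Y * (w1 v.2).2 + (w1 v.2).2 * Yᵀ)))
    have a3 := (hasDerivAt_pow 3 (0 : ℝ)).smul_const (packL (act h (0, Y * (w1 v.2).2 * Yᵀ)))
    have := (a1.add a2).add a3
    refine HasDerivAt.congr_deriv this ?_
    simp
  rw [h1.unique h2, sm_apply, d1L_apply, unp_pack _ (sym_tg _ _)]
  rfl

end JacAux

open JacAux in
theorem jac : JacSt := by
  intro x hx
  refine ⟨fderiv ℝ Phi x, (diff_phi x).hasFDerivAt, ?_⟩
  have h1 : (fderiv ℝ Phi x : EE ℝ →ₗ[ℝ] EE ℝ) ∘ₗ lm (Matrix.of x.1) =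
      sm (Matrix.of x.1) ∘ₗ d1L x.2 := LinearMap.ext fun v => fderiv_phi x v
  have h2 := congrArg LinearMap.det h1
  rw [LinearMap.det_comp, LinearMap.det_comp, det_lm _ hx, det_sm _ hx, det_d1L] at h2
  have h3 : (fderiv ℝ Phi x).det =
      32 * x.2 2 * ((x.2 1 - x.2 0) ^ 2 + x.2 2 ^ 2) * (Matrix.of x.1).det ^ 5 := by
    apply mul_right_cancel₀ (pow_ne_zero 3 hx)
    rw [ContinuousLinearMap.det, h2]; ring
  rw [h3, abs_mul, abs_mul, abs_mul, abs_pow,
    abs_of_nonneg (show (0 : ℝ) ≤ (x.2 1 - x.2 0) ^ 2 + x.2 2 ^ 2 by positivity)]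
  norm_num

end Pool.Agent.Lib.MP_02f36d_nt.CF
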