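import Pool.Agent.Lib.MP_02f36d_nt.CF.St

/-! The fibre over an irreducible form modulo a prime. -/

set_option autoImplicit false

noncomputable section

namespace Pool.Agent.Lib.MP_02f36d_nt.CF

open Matrix Polynomial

namespace LocAux

variable {F : Type} [Field F]

/-- The matrix with rows `v`, `T v`, `T T v`. -/
def kr (T : M3 F) (v : Fin 3 → F) : M3 F := Matrix.of ![v, T *ᵥ v, T *ᵥ T *ᵥ v]

/-- The cubic relation. -/
def Rel (f : Fin 4 → F) (T : M3 F) : Prop :=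
  f 0 • (T * T * T) + f 1 • (T * T) + f 2 • T + f 3 • (1 : M3 F) = 0

theorem lead_ne {f : Fin 4 → F} (hf : ∀ x y, ev f x y = 0 → x = 0 ∧ y = 0) : f 0 ≠ 0 := by
  intro h
  have := hf 1 0 (by simp [ev, h])
  exact one_ne_zero this.1

theorem kr_det {f : Fin 4 → F} (hf : ∀ x y, ev f x y = 0 → x = 0 ∧ y = 0) {T : M3 F}
    (hT : Rel f T) {v : Fin 3 → F} (hv : v ≠ 0) : (kr T v).det ≠ 0 := by
  intro h0
  obtain ⟨u, hu, huv⟩ := exists_vecMul_eq_zero_iff.2 h0
  have ha := lead_ne hf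
  set g : F[X] := C (f 0) * X ^ 3 + C (f 1) * X ^ 2 + C (f 2) * X + C (f 3) with hg
  set q : F[X] := C (u 2) * X ^ 2 + C (u 1) * X + C (u 0) with hq
  have hdeg : g.natDegree = 3 := natDegree_cubic ha
  have hirr : Irreducible g := by
    refine irreducible_of_degree_le_three_of_not_isRoot (by simp [hdeg]) fun x hx => ?_
    have := hf x 1 (by simpa [ev, hg, IsRoot] using hx)
    exact one_ne_zero this.2
  have hq0 : q ≠ 0 := by
    intro h
    apply hu
    have h0 := congrArg (fun s => coeff s 0) h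
    have h1 := congrArg (fun s => coeff s 1) h
    have h2 := congrArg (fun s => coeff s 2) h
    simp [hq, coeff_X, coeff_C] at h0 h1 h2
    ext i; fin_cases i <;> simp [h0, h1, h2]
  have hnd : ¬ g ∣ q := by
    intro hd
    have h1 := natDegree_le_of_dvd hd hq0
    have h2 : q.natDegree ≤ 2 := natDegree_quadratic_le
    omega
  obtain ⟨r, s, hrs⟩ := hirr.coprime_iff_not_dvd.2 hnd
  have hgT : aeval T g = 0 := by
    rw [← show _ = (0 : M3 F) from hT]
    simp [hg, Algebra.algebraMap_eq_smul_one, pow_succ]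
  have hqT : aeval T q *ᵥ v = 0 := by
    rw [← huv]
    ext i
    simp [hq, Algebra.algebraMap_eq_smul_one, pow_succ, add_mulVec, smul_mulVec, kr, vecMul,
      dotProduct, Fin.sum_univ_three]
    ring
  have h1 := congrArg (fun z => aeval T z *ᵥ v) hrs
  simp only [map_add, map_mul, hgT, mul_zero, zero_add, map_one, one_mulVec, ← mulVec_mulVec,
    hqT, mulVec_zero] at h1
  exact hv h1.symm

theorem kr_mul (T M : M3 F) (v : Fin 3 → F) :
    kr T v * Mᵀ = Matrix.of ![M *ᵥ v, M *ᵥ T *ᵥ v, M *ᵥ T *ᵥ T *ᵥ v] := by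
  have key : ∀ (u : Fin 3 → F) (j : Fin 3), ∑ x, u x * M j x = (M *ᵥ u) j := by
    intro u j
    simp [mulVec, dotProduct, mul_comm]
  ext i j
  fin_cases i <;> exact key _ j

theorem cancel {K M N : M3 F} (hK : K.det ≠ 0) (h : K * Mᵀ = K * Nᵀ) : M = N := by
  have hu : IsUnit K := (isUnit_iff_isUnit_det K).2 (Ne.isUnit hK)
  exact transpose_injective (hu.mul_left_cancel h)

theorem kr_inj {f : Fin 4 → F} (hf : ∀ x y, ev f x y = 0 → x = 0 ∧ y = 0) {T T' : M3 F}
    (hT : Rel f T) (hT' : Rel f T') {v v' : Fin 3 → F} (hv : v ≠ 0)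
    (h : kr T v = kr T' v') : v = v' ∧ T = T' := by
  have h0 : v = v' := congrFun h 0
  have h1 : T *ᵥ v = T' *ᵥ v' := congrFun h 1
  have h2 : T *ᵥ T *ᵥ v = T' *ᵥ T' *ᵥ v' := congrFun h 2
  subst h0
  refine ⟨rfl, cancel (kr_det hf hT hv) ?_⟩
  have e1 := congrArg (fun M => M *ᵥ v) (show _ = (0 : M3 F) from hT)
  have e2 := congrArg (fun M => M *ᵥ v) (show _ = (0 : M3 F) from hT')
  simp only [add_mulVec, smul_mulVec, ← mulVec_mulVec, one_mulVec, zero_mulVec] at e1 e2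
  have h3 : T *ᵥ T *ᵥ T *ᵥ v = T' *ᵥ T' *ᵥ T' *ᵥ v := by
    apply smul_right_injective _ (lead_ne hf)
    rw [← h2, ← h1] at e2
    have := e1.trans e2.symm
    simp only [add_left_inj] at this
    rw [← h2]
    exact this
  rw [kr_mul, kr_mul, h3, h2, h1]

theorem cayley (T : M3 F) :
    T * T * T - T.trace • (T * T) + T.adjugate.trace • T - T.det • (1 : M3 F) = 0 := by
  ext i j
  fin_cases i <;> fin_cases j <;>
    simp [mul_apply, Fin.sum_univ_three, trace_fin_three, adjugate_fin_three, det_fin_three] <;>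
    ring

/-- Symmetric pairs over a multiple of `f`. -/
def Ov (f : Fin 4 → F) (w : M3 F × M3 F) : Prop := Sym w ∧ ∃ t : F, t ≠ 0 ∧ pif w = t • f

theorem ov_data {f : Fin 4 → F} (hf : f 0 ≠ 0) {w : M3 F × M3 F} (hw : Ov f w) :
    w.1.det ≠ 0 ∧ w.1 * (w.1⁻¹ * w.2) = w.2 ∧ Rel f (w.1⁻¹ * w.2) := by
  obtain ⟨-, t, ht, hp⟩ := hw
  have h0 : -w.1.det = t * f 0 := congrFun hp 0
  have h1 : (w.1.adjugate * w.2).trace = t * f 1 := congrFun hp 1
  have h2 : -(w.2.adjugate * w.1).trace = t * f 2 := congrFun hp 2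
  have h3 : w.2.det = t * f 3 := congrFun hp 3
  have hd : w.1.det ≠ 0 := by
    intro h
    rw [h, neg_zero] at h0
    exact mul_ne_zero ht hf h0.symm
  have hB : w.1 * (w.1⁻¹ * w.2) = w.2 := mul_nonsing_inv_cancel_left _ _ (Ne.isUnit hd)
  refine ⟨hd, hB, ?_⟩
  generalize w.1⁻¹ * w.2 = T at hB
  rw [← hB] at h1 h2 h3
  rw [← Matrix.mul_assoc, adjugate_mul, Matrix.smul_mul, Matrix.one_mul, trace_smul,
    smul_eq_mul] at h1
  rw [adjugate_mul_distrib, Matrix.mul_assoc, adjugate_mul, Matrix.mul_smul, Matrix.mul_one,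
    trace_smul, smul_eq_mul] at h2
  rw [det_mul] at h3
  apply smul_right_injective _ ht
  have hc := congrArg (fun M => (-w.1.det) • M) (cayley T)
  simp only [smul_add, smul_sub, smul_smul, smul_zero] at hc ⊢
  rw [← h0, ← h1, ← h2, ← h3, ← hc]
  module

/-- The invertible matrix attached to a pair. -/
def km (w : M3 F × M3 F) : M3 F := kr (w.1⁻¹ * w.2) (w.1 *ᵥ Pi.single 0 1)

theorem col_ne {A : M3 F} (hA : A.det ≠ 0) : A *ᵥ Pi.single 0 1 ≠ 0 := by
  intro h
  exact hA (exists_mulVec_eq_zero_iff.1 ⟨Pi.single 0 1, by simp, h⟩)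

theorem km_det {f : Fin 4 → F} (hf : ∀ x y, ev f x y = 0 → x = 0 ∧ y = 0) {w : M3 F × M3 F}
    (hw : Ov f w) : (km w).det ≠ 0 := by
  obtain ⟨h1, -, h3⟩ := ov_data (lead_ne hf) hw
  exact kr_det hf h3 (col_ne h1)

theorem km_inj {f : Fin 4 → F} (hf : ∀ x y, ev f x y = 0 → x = 0 ∧ y = 0)
    {w w' : M3 F × M3 F} (hw : Ov f w) (hw' : Ov f w') (h : km w = km w') : w = w' := by
  obtain ⟨h1, h2, h3⟩ := ov_data (lead_ne hf) hw
  obtain ⟨h1', h2', h3'⟩ := ov_data (lead_ne hf) hw'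
  obtain ⟨hv, hT⟩ := kr_inj hf h3 h3' (col_ne h1) h
  rw [← hT] at h2'
  generalize w.1⁻¹ * w.2 = T at h2 h2' h3
  have hc : ∀ z : M3 F × M3 F, Sym z → z.1 * T = z.2 → ∀ u, z.1 *ᵥ T *ᵥ u = Tᵀ *ᵥ z.1 *ᵥ u := by
    intro z hz hz2 u
    rw [mulVec_mulVec, mulVec_mulVec, hz2, ← hz.2.eq, ← hz2, transpose_mul, hz.1.eq]
  have hA : w.1 = w'.1 := by
    refine cancel (kr_det hf h3 (v := Pi.single 0 1) (by simp)) ?_
    rw [kr_mul, kr_mul]
    simp only [hc w hw.1 h2, hc w' hw'.1 h2', hv]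
  exact Prod.ext hA (by rw [← h2, ← h2', hA])

/-- Rescaling a pair. -/
def sc (t : F) (w : M3 F × M3 F) : M3 F × M3 F := t • act (diagonal ![t⁻¹, 1, 1]) w

theorem pif_smul (t : F) (w : M3 F × M3 F) : pif (t • w) = t ^ 3 • pif w := by
  ext i
  fin_cases i <;> simp [pif, adjugate_smul] <;> ring

theorem card_le [Fintype F] [DecidableEq F] (hP : PairSt) {f : Fin 4 → F}
    (hf : ∀ x y, ev f x y = 0 → x = 0 ∧ y = 0) :
    (Fintype.card F - 1) * {w : M3 F × M3 F | Sym w ∧ pif w = f}.ncard ≤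
      Nat.card (GL (Fin 3) F) := by
  have hpif : ∀ (t : F) w, t ≠ 0 → pif w = f → pif (sc t w) = t • f := by
    intro t w ht hw
    rw [sc, pif_smul, hP.pifAct, hw, smul_smul]
    congr 1
    simp [Fin.prod_univ_three]
    field_simp
  have hov : ∀ (t : Fˣ) (w : {w : M3 F × M3 F | Sym w ∧ pif w = f}), Ov f (sc (t : F) w.1) := by
    intro t w
    refine ⟨?_, t, t.ne_zero, hpif _ _ t.ne_zero w.2.2⟩
    have := hP.actSym (diagonal ![(t : F)⁻¹, 1, 1]) w.1 w.2.1
    exact ⟨this.1.smul _, this.2.smul _⟩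
  let φ : Fˣ × {w : M3 F × M3 F | Sym w ∧ pif w = f} → GL (Fin 3) F := fun x =>
    GeneralLinearGroup.mkOfDetNeZero (km (sc (x.1 : F) x.2.1)) (km_det hf (hov x.1 x.2))
  have hinj : Function.Injective φ := by
    rintro ⟨t, w⟩ ⟨s, w'⟩ h
    have h1 : sc (t : F) w.1 = sc (s : F) w'.1 :=
      km_inj hf (hov t w) (hov s w') (congrArg (fun g : GL (Fin 3) F => (g : M3 F)) h)
    have h2 := congrArg pif h1
    rw [hpif _ _ t.ne_zero w.2.2, hpif _ _ s.ne_zero w'.2.2] at h2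
    have h3 : t = s := Units.ext (mul_right_cancel₀ (lead_ne hf) (congrFun h2 0))
    subst h3
    have h4 := congrArg (act (diagonal ![(t : F), 1, 1])) (smul_right_injective _ t.ne_zero h1)
    have h5 : (diagonal ![(t : F), 1, 1] * diagonal ![(t : F)⁻¹, 1, 1] : M3 F) = 1 := by
      rw [diagonal_mul_diagonal, ← diagonal_one]
      congr 1
      ext i
      fin_cases i <;> simp
    rw [← hP.actMul, ← hP.actMul, h5] at h4
    simp only [act, Matrix.one_mul, transpose_one, Matrix.mul_one] at h4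
    exact Prod.ext rfl (Subtype.ext h4)
  have := Nat.card_le_card_of_injective φ hinj
  rwa [Nat.card_prod, Nat.card_units, Nat.card_eq_fintype_card, Nat.card_coe_set_eq] at this

end LocAux

theorem loc (hP : PairSt) : LocSt := by
  intro p f hp hf
  have := Fact.mk hp
  have h := LocAux.card_le hP (f := cst (ZMod p) f) hf
  rw [card_GL_field, ZMod.card] at h
  have h1 : 0 < p - 1 := Nat.sub_pos_of_lt hp.one_lt
  refine Nat.le_of_mul_le_mul_left (h.trans (le_of_eq ?_)) h1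
  have h2 : 1 ≤ p := hp.pos
  have h3 : 1 ≤ p ^ 2 := Nat.one_le_pow _ _ h2
  have h4 : 1 ≤ p ^ 3 := Nat.one_le_pow _ _ h2
  have h5 : p ≤ p ^ 3 := Nat.le_self_pow (by norm_num) _
  have h6 : p ^ 2 ≤ p ^ 3 := Nat.pow_le_pow_right h2 (by norm_num)
  simp only [Fin.prod_univ_three, Fin.val_zero, Fin.val_one, Fin.val_two, pow_zero, pow_one]
  zify [h2, h3, h4, h5, h6]
  ring

end Pool.Agent.Lib.MP_02f36d_nt.CF
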