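import Pool.Agent.Lib.MP_02f36d_nt.CF.St

/-! The residue classes modulo `mm` over a given form. -/

set_option autoImplicit false

noncomputable section

namespace Pool.Agent.Lib.MP_02f36d_nt.CF

open Matrix

namespace LocMAux

/-- Reduction of a pair. -/
def rd (p : ℕ) (w : M3 ℤ × M3 ℤ) : M3 (ZMod p) × M3 (ZMod p) :=
  (w.1.map fun x => (x : ZMod p), w.2.map fun x => (x : ZMod p))

theorem pif_rd (p : ℕ) (w : M3 ℤ × M3 ℤ) : pif (rd p w) = cst (ZMod p) (pif w) := by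
  ext i
  fin_cases i <;>
    simp [pif, rd, cst, det_fin_three, adjugate_fin_three, trace_fin_three,
      Fin.sum_univ_three, vecMul, dotProduct]

/-- The primes of the modulus. -/
def PP : Finset ℕ := (Finset.range 1001).filter Nat.Prime

theorem mm_eq : mm = ∏ p ∈ PP, p := rfl

theorem mm_dvd {P : Finset ℕ} (hP : ∀ p ∈ P, p.Prime) {m : ℕ} (hm : m = ∏ p ∈ P, p) {x y : ℤ}
    (h : ∀ p ∈ P, (x : ZMod p) = (y : ZMod p)) : (x : ZMod m) = (y : ZMod m) := by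
  rw [ZMod.intCast_eq_intCast_iff_dvd_sub, Int.natCast_dvd, hm]
  refine Finset.prod_primes_dvd _ (fun p hp => (hP p hp).prime) fun p hp => ?_
  rw [← Int.natCast_dvd, ← ZMod.intCast_eq_intCast_iff_dvd_sub]
  exact h p hp

theorem prod_le : ∏ p ∈ PP, ((1 - 1 / (p : ℝ) ^ 2) * (1 - 1 / (p : ℝ) ^ 3)) ≤ 5078 / 10000 := by
  have hsub : ({2, 3, 5, 7, 11, 13, 17, 19, 23, 29, 31, 37, 41, 43, 47} : Finset ℕ) ⊆ PP := by
    intro p hp
    simp only [Finset.mem_insert, Finset.mem_singleton] at hp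
    rw [PP, Finset.mem_filter, Finset.mem_range]
    rcases hp with h | h | h | h | h | h | h | h | h | h | h | h | h | h | h <;> subst h <;>
      norm_num
  have hb : ∀ p ∈ PP, ∀ k : ℕ, 0 ≤ 1 - 1 / (p : ℝ) ^ k ∧ 1 - 1 / (p : ℝ) ^ k ≤ 1 := by
    intro p hp k
    have h1 : (1 : ℝ) ≤ p := by exact_mod_cast (Finset.mem_filter.1 hp).2.pos
    have h2 : (1 : ℝ) ≤ (p : ℝ) ^ k := one_le_pow₀ h1
    have h3 : 1 / (p : ℝ) ^ k ≤ 1 := by rw [div_le_one (by linarith)]; exact h2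
    have h4 : 0 ≤ 1 / (p : ℝ) ^ k := by positivity
    constructor <;> linarith
  refine (Finset.prod_le_prod_of_subset_of_le_one hsub
    (fun p hp => mul_nonneg (hb p hp 2).1 (hb p hp 3).1)
    (fun p hp _ => mul_le_one₀ (hb p hp 2).2 (hb p hp 3).1 (hb p hp 3).2)).trans ?_
  norm_num [Finset.prod_insert]

theorem core (hL : LocSt) {P : Finset ℕ} (hP : ∀ p ∈ P, p.Prime) {m : ℕ} (hm : m = ∏ p ∈ P, p)
    (f0 : Fin 4 → ℤ) (hf0 : ∀ p ∈ P, NoRoot p f0) :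
    ∃ T : Finset (EE (ZMod m)), (T.card : ℝ) ≤
      (∏ p ∈ P, ((1 - 1 / (p : ℝ) ^ 2) * (1 - 1 / (p : ℝ) ^ 3))) * (m : ℝ) ^ 8 ∧
    ∀ w : M3 ℤ × M3 ℤ, Sym w → Cong m (pif w) f0 → redE m (pack w) ∈ T := by
  have : NeZero m := ⟨by rw [hm]; exact Finset.prod_ne_zero_iff.2 fun p hp => (hP p hp).ne_zero⟩
  let S : Set (EE (ZMod m)) :=
    {r | ∃ w : M3 ℤ × M3 ℤ, Sym w ∧ Cong m (pif w) f0 ∧ redE m (pack w) = r}
  have hS : S.Finite := Set.toFinite S
  refine ⟨hS.toFinset, ?_, fun w h1 h2 => hS.mem_toFinset.2 ⟨w, h1, h2, rfl⟩⟩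
  let β : P → Type := fun p =>
    {w : M3 (ZMod p.1) × M3 (ZMod p.1) | Sym w ∧ pif w = cst (ZMod p.1) f0}
  have hfin : ∀ p : P, Finite (β p) := fun p => by
    have : NeZero p.1 := ⟨(hP p.1 p.2).ne_zero⟩
    exact inferInstanceAs (Finite
      {w : M3 (ZMod p.1) × M3 (ZMod p.1) | Sym w ∧ pif w = cst (ZMod p.1) f0})
  choose W hW using fun r : S => r.2
  have hmem : ∀ (r : S) (p : P), Sym (rd p.1 (W r)) ∧ pif (rd p.1 (W r)) = cst (ZMod p.1) f0 := by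
    intro r p
    refine ⟨⟨(hW r).1.1.map _, (hW r).1.2.map _⟩, ?_⟩
    rw [pif_rd]
    funext i
    have h1 : (p.1 : ℤ) ∣ (m : ℤ) := by
      rw [hm]; exact_mod_cast Finset.dvd_prod_of_mem (fun p => p) p.2
    exact ((ZMod.intCast_eq_intCast_iff_dvd_sub _ _ _).2 (h1.trans ((hW r).2.1 i))).symm
  let φ : S → ∀ p, β p := fun r p => ⟨rd p.1 (W r), hmem r p⟩
  have hinj : Function.Injective φ := by
    intro r r' h
    have h1 : ∀ p ∈ P, rd p (W r) = rd p (W r') := fun p hp =>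
      congrArg Subtype.val (congrFun h ⟨p, hp⟩)
    have h2 : ∀ i j, (((W r).1 i j : ℤ) : ZMod m) = (((W r').1 i j : ℤ) : ZMod m) :=
      fun i j => mm_dvd hP hm fun p hp => congrFun (congrFun (congrArg Prod.fst (h1 p hp)) i) j
    have h3 : ∀ i j, (((W r).2 i j : ℤ) : ZMod m) = (((W r').2 i j : ℤ) : ZMod m) :=
      fun i j => mm_dvd hP hm fun p hp => congrFun (congrFun (congrArg Prod.snd (h1 p hp)) i) j
    apply Subtype.ext
    rw [← (hW r).2.2, ← (hW r').2.2]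
    ext i j
    · simp only [redE, pack]
      split_ifs
      · exact h2 i j
      · exact h3 i j
    · exact h3 i i
  have hc := Nat.card_le_card_of_injective φ hinj
  rw [Nat.card_pi, Nat.card_coe_set_eq, Set.ncard_eq_toFinset_card S hS] at hc
  have hc2 : ∏ p : P, Nat.card (β p) ≤ ∏ p : P, p.1 ^ 3 * (p.1 ^ 2 - 1) * (p.1 ^ 3 - 1) :=
    Finset.prod_le_prod' fun p _ => hL p.1 f0 (hP p.1 p.2) (hf0 p.1 p.2)
  rw [Finset.prod_coe_sort P fun p => p ^ 3 * (p ^ 2 - 1) * (p ^ 3 - 1)] at hc2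
  have hc3 : ((∏ p ∈ P, p ^ 3 * (p ^ 2 - 1) * (p ^ 3 - 1) : ℕ) : ℝ) =
      (∏ p ∈ P, ((1 - 1 / (p : ℝ) ^ 2) * (1 - 1 / (p : ℝ) ^ 3))) * (m : ℝ) ^ 8 := by
    rw [hm, Nat.cast_prod, Nat.cast_prod, ← Finset.prod_pow, ← Finset.prod_mul_distrib]
    refine Finset.prod_congr rfl fun p hp => ?_
    have h1 : 0 < p := (hP p hp).pos
    have h2 : (p : ℝ) ≠ 0 := by exact_mod_cast h1.ne'
    rw [Nat.cast_mul, Nat.cast_mul, Nat.cast_sub (Nat.one_le_pow _ _ h1),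
      Nat.cast_sub (Nat.one_le_pow _ _ h1)]
    push_cast
    field_simp
  rw [← hc3]
  exact_mod_cast hc.trans hc2

end LocMAux

open LocMAux in
theorem locM (hL : LocSt) : LocMSt := by
  intro f0 hf0
  obtain ⟨T, h1, h2⟩ := core hL (P := PP) (fun p hp => (Finset.mem_filter.1 hp).2) mm_eq f0
    fun p hp => hf0 p (Finset.mem_filter.1 hp).2
      (Nat.lt_succ_iff.1 (Finset.mem_range.1 (Finset.mem_filter.1 hp).1))
  exact ⟨T, h1.trans (mul_le_mul_of_nonneg_right prod_le (pow_nonneg (Nat.cast_nonneg _) _)), h2⟩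

end Pool.Agent.Lib.MP_02f36d_nt.CF
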