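import Pool.Agent.Lib.MP_02f36d_nt.CF.St

/-! The parameter set is compact and has small weighted volume. -/

set_option autoImplicit false

noncomputable section

namespace Pool.Agent.Lib.MP_02f36d_nt.CF

open Matrix MeasureTheory Set

namespace Mon

theorem m0 (p : Fin 3 → ℝ) : mon p 0 = -(p 0 + 2 * p 1) := rfl

theorem m1 (p : Fin 3 → ℝ) : mon p 1 = 2 * p 0 * p 1 + p 1 ^ 2 + p 2 ^ 2 := rfl

theorem m2 (p : Fin 3 → ℝ) : mon p 2 = -(p 0 * (p 1 ^ 2 + p 2 ^ 2)) := rfl

theorem root (p : Fin 3 → ℝ) :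
    p 0 ^ 3 + mon p 0 * p 0 ^ 2 + mon p 1 * p 0 + mon p 2 = 0 := by
  rw [m0, m1, m2]; ring

theorem rootb {r b c d : ℝ} (h : r ^ 3 + b * r ^ 2 + c * r + d = 0) (hb0 : 0 ≤ b) (hb : b ≤ 1)
    (hc : 1 / 2 ≤ c) (hd0 : 0 ≤ d) (hd : d ≤ 1) : -2 ≤ r ∧ r ≤ 0 := by
  constructor
  · by_contra hr
    push Not at hr
    have h1 : 0 < r ^ 2 := by nlinarith
    have h2 : r ^ 2 * (r + b) < 0 := mul_neg_of_pos_of_neg h1 (by linarith)
    have h3 : c * r < -1 := by nlinarith
    nlinarith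
  · by_contra hr
    push Not at hr
    have h1 : 0 < r ^ 3 := by positivity
    have h2 : 0 ≤ b * r ^ 2 := by positivity
    have h3 : 0 < c * r := by positivity
    linarith

theorem bd (p : Fin 3 → ℝ) (hp : p ∈ Pset) (i : Fin 3) : |p i| ≤ 3 := by
  obtain ⟨h2, ⟨hb0, hb⟩, ⟨hc0, hc⟩, hd0, hd⟩ := hp
  have he : et = 1 / 10000 := rfl
  obtain ⟨hr1, hr2⟩ := rootb (root p) hb0 hb (by linarith) hd0 hd
  rw [m0] at hb0 hb
  rw [m1] at hc
  have hx1 : -1 ≤ p 1 := by linarith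
  have hx2 : p 1 ≤ 1 := by linarith
  have hy : p 2 ≤ 3 := by
    by_contra hh
    push Not at hh
    nlinarith [sq_nonneg (p 1), mul_nonneg (neg_nonneg.2 hr2) (sub_nonneg.2 hx2)]
  fin_cases i
  · exact abs_le.2 ⟨by simp only [Fin.zero_eta]; linarith, by simp only [Fin.zero_eta]; linarith⟩
  · exact abs_le.2 ⟨by simp only [Fin.mk_one]; linarith, by simp only [Fin.mk_one]; linarith⟩
  · exact abs_le.2 ⟨by simp only [Fin.reduceFinMk]; linarith,
      by simp only [Fin.reduceFinMk]; linarith⟩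

theorem closed : IsClosed Pset := by
  have c0 : Continuous fun p : Fin 3 → ℝ => mon p 0 := by
    simp only [m0]; fun_prop
  have c1 : Continuous fun p : Fin 3 → ℝ => mon p 1 := by
    simp only [m1]; fun_prop
  have c2 : Continuous fun p : Fin 3 → ℝ => mon p 2 := by
    simp only [m2]; fun_prop
  have c3 : Continuous fun p : Fin 3 → ℝ => p 2 := by fun_prop
  exact (isClosed_le continuous_const c3).inter
    (((isClosed_le continuous_const c0).inter (isClosed_le c0 continuous_const)).inter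
      (((isClosed_le continuous_const c1).inter (isClosed_le c1 continuous_const)).inter
        ((isClosed_le continuous_const c2).inter (isClosed_le c2 continuous_const))))

theorem cpt : IsCompact Pset := by
  refine (isCompact_Icc (a := fun _ : Fin 3 => (-3 : ℝ)) (b := fun _ => 3)).of_isClosed_subset
    closed ?_
  intro p hp
  exact ⟨fun i => (abs_le.1 (bd p hp i)).1, fun i => (abs_le.1 (bd p hp i)).2⟩

theorem inj : InjOn mon Pset := by
  intro p hp q hq h
  obtain ⟨h2, ⟨hb0, hb⟩, ⟨hc0, -⟩, -⟩ := hp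
  have k2 : 0 ≤ q 2 := hq.1
  have he : et = 1 / 10000 := rfl
  have r1 := root p
  have r2 := root q
  rw [← h] at r2
  have e0 : p 0 = q 0 := by
    have h3 : (p 0 - q 0) * (p 0 ^ 2 + p 0 * q 0 + q 0 ^ 2 + mon p 0 * (p 0 + q 0) + mon p 1)
        = 0 := by linear_combination r1 - r2
    rcases mul_eq_zero.1 h3 with h4 | h4
    · linarith
    · exfalso
      nlinarith [sq_nonneg (p 0 - q 0), sq_nonneg (3 * (p 0 + q 0) + 2 * mon p 0)]
  have a0 := congrFun h 0
  have a1 := congrFun h 1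
  rw [m0, m0] at a0
  rw [m1, m1] at a1
  have e1 : p 1 = q 1 := by linarith
  have e2 : p 2 = q 2 := by
    rw [e0, e1] at a1
    have : p 2 ^ 2 = q 2 ^ 2 := by linarith
    exact (pow_left_inj₀ h2 k2 two_ne_zero).1 this
  funext i
  fin_cases i
  · exact e0
  · exact e1
  · exact e2

/-- The matrix of the derivative. -/
def DM (p : Fin 3 → ℝ) : Matrix (Fin 3) (Fin 3) ℝ :=
  !![-1, -2, 0; 2 * p 1, 2 * p 0 + 2 * p 1, 2 * p 2;
    -(p 1 ^ 2 + p 2 ^ 2), -(2 * p 0 * p 1), -(2 * p 0 * p 2)]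

/-- The derivative. -/
def DD (p : Fin 3 → ℝ) : (Fin 3 → ℝ) →L[ℝ] (Fin 3 → ℝ) :=
  LinearMap.toContinuousLinearMap (Matrix.toLin' (DM p))

theorem DD_det (p : Fin 3 → ℝ) : (DD p).det = 4 * p 2 * ((p 1 - p 0) ^ 2 + p 2 ^ 2) := by
  have h : (DD p).det = (DM p).det := by
    unfold DD ContinuousLinearMap.det
    rw [LinearMap.coe_toContinuousLinearMap, LinearMap.det_toLin']
  rw [h, Matrix.det_fin_three]
  simp [DM]
  ring

theorem DD_der (p : Fin 3 → ℝ) : HasFDerivAt mon (DD p) p := by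
  have d0 := hasFDerivAt_apply (𝕜 := ℝ) (F' := fun _ : Fin 3 => ℝ) 0 p
  have d1 := hasFDerivAt_apply (𝕜 := ℝ) (F' := fun _ : Fin 3 => ℝ) 1 p
  have d2 := hasFDerivAt_apply (𝕜 := ℝ) (F' := fun _ : Fin 3 => ℝ) 2 p
  rw [hasFDerivAt_pi']
  intro i
  fin_cases i
  · refine ((d0.add (d1.const_mul 2)).neg).congr_fderiv ?_
    ext v
    simp [DD, DM, dotProduct, Fin.sum_univ_three]
    ring
  · refine ((((d0.const_mul 2).mul d1).add (d1.pow 2)).add (d2.pow 2)).congr_fderiv ?_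
    ext v
    simp [DD, DM, dotProduct, Fin.sum_univ_three]
    ring
  · refine ((d0.mul ((d1.pow 2).add (d2.pow 2))).neg).congr_fderiv ?_
    ext v
    simp [DD, DM, dotProduct, Fin.sum_univ_three]
    ring

theorem vol : ∫⁻ p in Pset, ENNReal.ofReal (4 * p 2 * ((p 1 - p 0) ^ 2 + p 2 ^ 2)) ≤
    ENNReal.ofReal (1 + et) := by
  have hm : MeasurableSet Pset := closed.measurableSet
  have h1 := lintegral_abs_det_fderiv_eq_addHaar_image (volume : Measure (Fin 3 → ℝ)) hm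
    (fun p _ => (DD_der p).hasFDerivWithinAt) inj
  have h2 : ∫⁻ p in Pset, ENNReal.ofReal (4 * p 2 * ((p 1 - p 0) ^ 2 + p 2 ^ 2)) ≤
      ∫⁻ p in Pset, ENNReal.ofReal |(DD p).det| := by
    refine lintegral_mono fun p => ENNReal.ofReal_le_ofReal ?_
    rw [DD_det]
    exact le_abs_self _
  have h3 : mon '' Pset ⊆ Icc ![0, 1 - et, 0] ![1, 2, 1] := by
    rintro _ ⟨p, ⟨-, hb, hc, hd⟩, rfl⟩
    constructor
    · intro i
      fin_cases i
      · exact hb.1
      · exact hc.1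
      · exact hd.1
    · intro i
      fin_cases i
      · exact hb.2
      · exact hc.2
      · exact hd.2
  refine h2.trans (h1.le.trans ((measure_mono h3).trans ?_))
  rw [Real.volume_Icc_pi, Fin.prod_univ_three]
  simp
  apply le_of_eq
  congr 1
  ring

end Mon

theorem monS : MonSt := ⟨Mon.cpt, Mon.bd, Mon.vol⟩

end Pool.Agent.Lib.MP_02f36d_nt.CF
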