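import Pool.Agent.Lib.MP_02f36d_nt.CF.St

/-! A class of forms meets the box in boundedly many forms. -/

namespace Pool.Agent.Lib.MP_02f36d_nt.CF

open Complex

namespace MultA

theorem bnd {ρ s y : ℝ} (b0 : 0 ≤ -(ρ + 2 * s)) (b1 : -(ρ + 2 * s) ≤ 1)
    (c0 : 99 / 100 ≤ 2 * ρ * s + s ^ 2 + y ^ 2) (c1 : 2 * ρ * s + s ^ 2 + y ^ 2 ≤ 2)
    (d0 : 0 ≤ -(ρ * (s ^ 2 + y ^ 2))) (d1 : -(ρ * (s ^ 2 + y ^ 2)) ≤ 1) :
    1 / 2 ≤ y ^ 2 ∧ y ^ 2 ≤ 6 ∧ s ^ 2 ≤ 1 := by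
  have h1 : 1 / 2 ≤ y ^ 2 := by nlinarith [sq_nonneg (ρ - s)]
  have h2 : ρ ≤ 0 := by
    by_contra h
    nlinarith [mul_pos (not_le.1 h) (show 0 < s ^ 2 + y ^ 2 by positivity)]
  have h3 : -2 ≤ ρ := by nlinarith [sq_nonneg s]
  have h4 : s ≤ 1 := by linarith
  have h5 : -1 ≤ s := by linarith
  exact ⟨h1, by nlinarith [sq_nonneg s], by nlinarith⟩

theorem fac (hB : BasicSt) {l : ℝ} (hl : 0 < l) {f : Fin 4 → ℤ} (h : InBox l f) :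
    ∃ ρ s y : ℝ, (1 / 2 ≤ y ^ 2 ∧ y ^ 2 ≤ 6 ∧ s ^ 2 ≤ 1) ∧ f 0 ≠ 0 ∧ ∀ X Y : ℂ,
      ev (cst ℂ f) X Y = f 0 * ((X - ρ * Y) * ((X - (s + y * I) * Y) * (X - (s - y * I) * Y))) := by
  obtain ⟨⟨a0, a1⟩, ⟨b0, b1⟩, ⟨c0, c1⟩, d0, d1⟩ := id h
  have ha : (0 : ℝ) < f 0 := hl.trans_le a0
  have ha' : f 0 ≠ 0 := by exact_mod_cast ha.ne'
  obtain ⟨ρ, z, -, hz, -⟩ := hB.root f ha' (hB.box l f hl h).1
  have hq : ∀ X Y : ℂ, (X - (z.re + z.im * I) * Y) * (X - (z.re - z.im * I) * Y) =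
      (X - z.re * Y) ^ 2 + z.im ^ 2 * Y ^ 2 := fun X Y => by
    linear_combination (-(z.im * Y) ^ 2 : ℂ) * I_sq
  have hz' : ∀ x : ℂ, ev (cst ℂ f) x 1 = f 0 * ((x - ρ) * ((x - z.re) ^ 2 + z.im ^ 2)) := fun x => by
    have h1 := hq x 1
    have h2 : (z.re - z.im * I : ℂ) = starRingEnd ℂ z := by
      apply Complex.ext <;> simp
    rw [re_add_im, h2] at h1
    rw [hz]
    linear_combination (f 0 * (x - ρ) : ℂ) * h1
  have e0 := hz' 0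
  have e1 := hz' 1
  have e2 := hz' (-1)
  simp only [ev, cst] at e0 e1 e2
  have hb : (f 1 : ℂ) = f 0 * -(ρ + 2 * z.re) := by
    linear_combination (1 / 2 : ℂ) * e1 + (1 / 2 : ℂ) * e2 - e0
  have hc : (f 2 : ℂ) = f 0 * (2 * ρ * z.re + z.re ^ 2 + z.im ^ 2) := by
    linear_combination (1 / 2 : ℂ) * e1 - (1 / 2 : ℂ) * e2
  have hd : (f 3 : ℂ) = f 0 * -(ρ * (z.re ^ 2 + z.im ^ 2)) := by
    linear_combination e0
  refine ⟨ρ, z.re, z.im, ?_, ha', fun X Y => ?_⟩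
  · have hb' : (f 1 : ℝ) = f 0 * -(ρ + 2 * z.re) := by exact_mod_cast hb
    have hc' : (f 2 : ℝ) = f 0 * (2 * ρ * z.re + z.re ^ 2 + z.im ^ 2) := by exact_mod_cast hc
    have hd' : (f 3 : ℝ) = f 0 * -(ρ * (z.re ^ 2 + z.im ^ 2)) := by exact_mod_cast hd
    have b0' : (0 : ℝ) ≤ f 1 := by exact_mod_cast b0
    have d0' : (0 : ℝ) ≤ f 3 := by exact_mod_cast d0
    rw [et] at a1
    refine bnd (ρ := ρ) ?_ ?_ ?_ ?_ ?_ ?_ <;> refine le_of_mul_le_mul_left ?_ ha <;> linarith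
  · rw [hq]
    simp only [ev, cst, hb, hc, hd]
    ring

/-- The form obtained by a substitution. -/
def sub (f : Fin 4 → ℤ) (v : Fin 4 → ℤ) : Fin 4 → ℤ :=
  ![ev f (v 0) (v 2),
    3 * f 0 * v 0 ^ 2 * v 1 + f 1 * (v 0 ^ 2 * v 3 + 2 * v 0 * v 1 * v 2) +
      f 2 * (v 1 * v 2 ^ 2 + 2 * v 0 * v 2 * v 3) + 3 * f 3 * v 2 ^ 2 * v 3,
    3 * f 0 * v 0 * v 1 ^ 2 + f 1 * (v 1 ^ 2 * v 2 + 2 * v 0 * v 1 * v 3) +
      f 2 * (v 0 * v 3 ^ 2 + 2 * v 1 * v 2 * v 3) + 3 * f 3 * v 2 * v 3 ^ 2,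
    ev f (v 1) (v 3)]

theorem ev_sub (R : Type) [CommRing R] (f v : Fin 4 → ℤ) (x y : R) :
    ev (cst R (sub f v)) x y = ev (cst R f) (v 0 * x + v 1 * y) (v 2 * x + v 3 * y) := by
  simp [ev, cst, sub]
  ring

theorem ent {α β γ δ s y s' y' t : ℝ} (h : 1 / 2 ≤ y ^ 2 ∧ y ^ 2 ≤ 6 ∧ s ^ 2 ≤ 1)
    (h' : 1 / 2 ≤ y' ^ 2 ∧ y' ^ 2 ≤ 6 ∧ s' ^ 2 ≤ 1) (ht : t ^ 2 = y ^ 2)
    (hd : (α * δ - β * γ) ^ 2 = 1) (e1 : α * s' + β = s * (γ * s' + δ) - t * (γ * y'))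
    (e2 : α * y' = s * (γ * y') + t * (γ * s' + δ)) :
    |α| ≤ 14 ∧ |β| ≤ 14 ∧ |γ| ≤ 14 ∧ |δ| ≤ 14 := by
  obtain ⟨N, hN⟩ : ∃ N, N = (γ * s' + δ) ^ 2 + (γ * y') ^ 2 := ⟨_, rfl⟩
  have n0 : 0 ≤ N := hN ▸ add_nonneg (sq_nonneg _) (sq_nonneg _)
  have h1 : (α * δ - β * γ) * y' = t * N := by
    rw [hN]
    linear_combination (γ * s' + δ) * e2 - γ * y' * e1
  have h2 : y' ^ 2 = y ^ 2 * N ^ 2 := by
    have := congrArg (· ^ 2) h1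
    simp only [mul_pow, hd, ht] at this
    linarith
  have h3 : N ≤ 4 := by
    have : N ^ 2 ≤ 4 ^ 2 := by nlinarith [sq_nonneg N, h.1, h'.2.1]
    exact (abs_le_of_sq_le_sq' this (by norm_num)).2
  have h4 : (α * s' + β) ^ 2 + (α * y') ^ 2 = (s ^ 2 + y ^ 2) * N := by
    rw [e1, e2, hN, ← ht]
    ring
  have h5 : (α * s' + β) ^ 2 + (α * y') ^ 2 ≤ 28 := by nlinarith [h.2.1, h.2.2]
  have s1 : |s'| ≤ 1 := abs_le_of_sq_le_sq (by simpa using h'.2.2) zero_le_one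
  have key : ∀ a b : ℝ, (a * s' + b) ^ 2 + (a * y') ^ 2 ≤ 28 → |a| ≤ 14 ∧ |b| ≤ 14 := fun a b k => by
    have k1 : |a| ≤ 8 := abs_le_of_sq_le_sq
      (by nlinarith [sq_nonneg (a * s' + b), sq_nonneg a, h'.1]) (by norm_num)
    have k2 : |a * s' + b| ≤ 6 := abs_le_of_sq_le_sq (by nlinarith [sq_nonneg (a * y')]) (by norm_num)
    have k3 : |a * s'| ≤ 8 := by
      rw [abs_mul]
      nlinarith [abs_nonneg a, abs_nonneg s']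
    have k4 := abs_sub (a * s' + b) (a * s')
    rw [add_sub_cancel_left] at k4
    exact ⟨by linarith, by linarith⟩
  exact ⟨(key _ _ h5).1, (key _ _ h5).2, key _ _ (by linarith)⟩

theorem exT (n : ℤ) : ∃ T : Finset (Fin 4 → ℤ), ∀ v : Fin 4 → ℤ, (∀ i, |v i| ≤ n) → v ∈ T :=
  ⟨Fintype.piFinset fun _ => Finset.Icc (-n) n, fun _ h =>
    Fintype.mem_piFinset.2 fun i => Finset.mem_Icc.2 (abs_le.1 (h i))⟩

end MultA

open MultA in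
theorem mult (hB : BasicSt) : MultSt := by
  classical
  obtain ⟨T, hT⟩ := exT 14
  refine ⟨T.card, fun l hl g => ?_⟩
  rcases Set.eq_empty_or_nonempty {f | InBox l f ∧ Eqv g f} with e | ⟨f, hf, ef⟩
  · rw [e, Set.ncard_empty]
    exact Nat.zero_le _
  refine le_trans (Set.ncard_le_ncard (t := ↑(Finset.image (sub f) T)) ?_ (Finset.finite_toSet _))
    (by rw [Set.ncard_coe_finset]; exact Finset.card_image_le)
  rintro f' ⟨hf', ef'⟩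
  obtain ⟨α, β, γ, δ, hd, he⟩ := hB.trans _ _ _ (hB.symm _ _ ef) ef'
  have e1 : f' = sub f ![α, β, γ, δ] := hB.ext _ _ fun x y => (he x y).trans
    (ev_sub ℤ f ![α, β, γ, δ] x y).symm
  obtain ⟨ρ, s, y, k1, k2, k3⟩ := fac hB hl hf
  obtain ⟨ρ', s', y', k1', -, k3'⟩ := fac hB hl hf'
  have e2 := k3' (s' + y' * I) 1
  rw [e1, ev_sub, k3] at e2
  simp only [mul_one, sub_self, zero_mul, mul_zero, mul_eq_zero, Int.cast_eq_zero, k2, false_or,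
    sub_eq_zero, Matrix.cons_val] at e2
  have hd' : ((α : ℝ) * δ - β * γ) ^ 2 = 1 := by exact_mod_cast hd
  have k4 : |(α : ℝ)| ≤ 14 ∧ |(β : ℝ)| ≤ 14 ∧ |(γ : ℝ)| ≤ 14 ∧ |(δ : ℝ)| ≤ 14 := by
    rcases e2 with e2 | e2 | e2 <;> have r1 := congrArg re e2 <;> have r2 := congrArg im e2 <;>
      simp only [add_re, add_im, mul_re, mul_im, sub_re, sub_im, ofReal_re, ofReal_im, intCast_re,
        intCast_im, I_re, I_im] at r1 r2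
    · have h1 : ((α : ℝ) * δ - β * γ) * y' = 0 := by
        linear_combination (γ * s' + δ) * r2 - γ * y' * r1
      have h2 := congrArg (· ^ 2) h1
      simp only [mul_pow, hd'] at h2
      linarith [k1'.1]
    · exact ent (t := y) k1 k1' rfl hd' (by linarith) (by linarith)
    · exact ent (t := -y) k1 k1' (neg_sq y) hd' (by linarith) (by linarith)
  refine Finset.mem_coe.2 (Finset.mem_image.2 ⟨_, hT _ fun i => ?_, e1.symm⟩)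
  obtain ⟨p1, p2, p3, p4⟩ : |α| ≤ 14 ∧ |β| ≤ 14 ∧ |γ| ≤ 14 ∧ |δ| ≤ 14 := by exact_mod_cast k4
  fin_cases i
  exacts [p1, p2, p3, p4]

end Pool.Agent.Lib.MP_02f36d_nt.CF
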