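import Pool.Agent.Lib.MP_02f36d_nt.CF.St

/-! The number of classes of irreducible cubic forms of negative discriminant. -/

namespace Pool.Agent.Lib.MP_02f36d_nt.CF

open Matrix

namespace NB

/-- a linear substitution. -/
def sub {R : Type} [CommRing R] (f : Fin 4 → R) (α β γ δ : R) : Fin 4 → R :=
  ![ev f α γ, 3 * f 0 * α ^ 2 * β + f 1 * (α ^ 2 * δ + 2 * α * β * γ) +
      f 2 * (2 * α * γ * δ + β * γ ^ 2) + 3 * f 3 * γ ^ 2 * δ,
    3 * f 0 * α * β ^ 2 + f 1 * (β ^ 2 * γ + 2 * α * β * δ) +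
      f 2 * (2 * β * γ * δ + α * δ ^ 2) + 3 * f 3 * γ * δ ^ 2, ev f β δ]

theorem ev_sub {R : Type} [CommRing R] (f : Fin 4 → R) (α β γ δ x y : R) :
    ev (sub f α β γ δ) x y = ev f (α * x + β * y) (γ * x + δ * y) := by
  simp [ev, sub]
  ring

theorem cst_sub (f : Fin 4 → ℤ) (α β γ δ : ℤ) :
    cst ℂ (sub f α β γ δ) = sub (cst ℂ f) α β γ δ := by
  funext i
  fin_cases i <;> simp [cst, sub, ev]

/-- the factorisation over the reals. -/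
def Par (g : Fin 4 → ℤ) (t u v : ℝ) : Prop :=
  g 0 ≠ 0 ∧ 0 < v ∧ (g 1 : ℝ) = -(t + 2 * u * g 0) ∧
    (g 2 : ℝ) = 2 * u * t + g 0 * (u ^ 2 + v ^ 2) ∧ (g 3 : ℝ) = -(t * (u ^ 2 + v ^ 2))

/-- reduced forms. -/
def Rd (Y : ℝ) (g : Fin 4 → ℤ) (t u v : ℝ) : Prop :=
  Par g t u v ∧ |u| ≤ 1 / 2 ∧ 1 ≤ u ^ 2 + v ^ 2 ∧
    4 * v ^ 2 * ((g 0 * u - t) ^ 2 + (g 0 * v) ^ 2) ^ 2 ≤ Y

theorem redu (hB : BasicSt) {Y : ℝ} {f : Fin 4 → ℤ} (hf : Irr f) (hd : disc f < 0)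
    (hY : -Y ≤ ((disc f : ℤ) : ℝ)) : ∃ g, Eqv f g ∧ ∃ t u v, Rd Y g t u v := by
  have top : ∀ g, Irr g → g 0 ≠ 0 := fun g hg h => by simpa using (hg 1 0 (by simp [ev, h])).1
  obtain ⟨ρ, z, hz, e, -⟩ := hB.root f (top f hf) hd
  obtain ⟨k, hk⟩ := ModularGroup.exists_smul_mem_fd ⟨z, hz⟩
  set w := k • (⟨z, hz⟩ : UpperHalfPlane) with hw
  have e1 : z = ((k⁻¹ • w : UpperHalfPlane) : ℂ) := by rw [hw, inv_smul_smul]
  rw [UpperHalfPlane.coe_specialLinearGroup_apply] at e1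
  have e2 := k⁻¹.det_coe
  rw [det_fin_two] at e2
  generalize k⁻¹ = m at e1 e2
  simp only [eq_intCast, Complex.ofReal_intCast] at e1
  have D0 : (m 1 0 : ℂ) * w + m 1 1 ≠ 0 := fun h => by
    rw [h, div_zero] at e1
    simp [e1] at hz
  rw [eq_div_iff D0] at e1
  have E : Eqv f (sub f (m 0 0) (m 0 1) (m 1 0) (m 1 1)) :=
    ⟨_, _, _, _, by rw [e2]; rfl, ev_sub f _ _ _ _⟩
  have r0 : ev (cst ℂ (sub f (m 0 0) (m 0 1) (m 1 0) (m 1 1))) w 1 = 0 := by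
    have h0 := e z
    rw [cst_sub, ev_sub, mul_one, mul_one, ← e1]
    simp only [ev] at h0 ⊢
    linear_combination ((m 1 0 : ℂ) * w + m 1 1) ^ 3 * h0
  generalize sub f (m 0 0) (m 0 1) (m 1 0) (m 1 1) = g at E r0
  have g0 := top g (hB.eirr f g E hf)
  rw [← hB.edisc f g E] at hd hY
  obtain ⟨σ, x, hx, e3, e4⟩ := hB.root g g0 hd
  obtain rfl : (w : ℂ) = x := by
    have hp : 0 < (w : ℂ).im := w.im_pos
    rw [e3] at r0
    rcases mul_eq_zero.1 r0 with h | h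
    · rcases mul_eq_zero.1 h with h | h
      · rcases mul_eq_zero.1 h with h | h
        · exact absurd (by exact_mod_cast h) g0
        · rw [sub_eq_zero.1 h] at hp
          simp at hp
      · exact sub_eq_zero.1 h
    · rw [sub_eq_zero.1 h, Complex.conj_im] at hp
      linarith
  have e5 : ∀ y : ℝ, (g 0 : ℝ) * y ^ 3 + g 1 * y ^ 2 + g 2 * y + g 3 =
      g 0 * (y - σ) * ((y - (w : ℂ).re) ^ 2 + (w : ℂ).im ^ 2) := fun y => by
    have h1 := e3 y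
    have h2 : ((y : ℂ) - w) * (y - starRingEnd ℂ w) =
        (((y - (w : ℂ).re) ^ 2 + (w : ℂ).im ^ 2 : ℝ) : ℂ) := by
      apply Complex.ext <;> simp [-UpperHalfPlane.coe_re, -UpperHalfPlane.coe_im, sq] <;> ring
    rw [mul_assoc, h2] at h1
    simp only [ev, cst, mul_one, one_pow] at h1
    exact_mod_cast h1
  refine ⟨g, E, g 0 * σ, (w : ℂ).re, (w : ℂ).im, ⟨g0, hx, ?_, ?_, ?_⟩, hk.2, ?_, ?_⟩
  · linear_combination (e5 1 + e5 (-1)) / 2 - e5 0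
  · linear_combination (e5 1 - e5 (-1)) / 2
  · linear_combination e5 0
  · simpa only [Complex.normSq_apply, sq] using hk.1
  · have h3 : ‖(w : ℂ) - σ‖ ^ 4 = (((w : ℂ).re - σ) ^ 2 + (w : ℂ).im ^ 2) ^ 2 := by
      rw [show 4 = 2 * 2 by rfl, pow_mul, Complex.sq_norm, Complex.normSq_apply]
      simp [-UpperHalfPlane.coe_re, -UpperHalfPlane.coe_im, sq]
    rw [e4, h3] at hY
    linarith

theorem uniq {g : Fin 4 → ℤ} {t u v t' u' v' : ℝ} (h : Par g t u v) (h' : Par g t' u' v') :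
    u = u' := by
  obtain ⟨a0, -, b, c, d⟩ := h
  obtain ⟨-, v0, b', c', d'⟩ := h'
  have a1 : (g 0 : ℝ) ≠ 0 := by exact_mod_cast a0
  have h1 : (t - t') * ((t - g 0 * u') ^ 2 + (g 0 * v') ^ 2) = 0 := by
    linear_combination t ^ 2 * (b - b') + g 0 * t * (c - c') + (g 0 : ℝ) ^ 2 * (d - d')
  have h2 : t = t' := sub_eq_zero.1 ((mul_eq_zero.1 h1).resolve_right (by positivity))
  refine mul_right_cancel₀ a1 ?_
  linear_combination (b - b' - h2) / 2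

/-- the translation. -/
def tr (n : ℤ) (g : Fin 4 → ℤ) : Fin 4 → ℤ :=
  ![g 0, g 1 + 3 * g 0 * n, g 2 + 2 * g 1 * n + 3 * g 0 * n ^ 2,
    g 3 + g 2 * n + g 1 * n ^ 2 + g 0 * n ^ 3]

theorem tr_tr (n : ℤ) (g : Fin 4 → ℤ) : tr (-n) (tr n g) = g := by
  funext i
  fin_cases i <;> simp [tr] <;> ring

theorem tr_par (n : ℤ) {g : Fin 4 → ℤ} {t u v : ℝ} (h : Par g t u v) :
    Par (tr n g) (t - g 0 * n) (u - n) v := by
  obtain ⟨a0, v0, b, c, d⟩ := h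
  refine ⟨a0, v0, ?_, ?_, ?_⟩ <;> simp [tr, b, c, d] <;> ring

theorem bnd {g : Fin 4 → ℤ} {t u v X V : ℝ} (h : Par g t u v) (hV : 0 ≤ V) (hu : |u| ≤ 3 * V)
    (hv : v ≤ V) (ha : |(g 0 : ℝ)| ≤ 2 * X) (ht : |g 0 * u - t| ≤ X * V) (i : Fin 4) :
    |(g i : ℝ)| ≤ 70 * X * V ^ (i : ℕ) := by
  obtain ⟨-, v0, b, c, d⟩ := h
  have hX : 0 ≤ X := by linarith [abs_nonneg (g 0 : ℝ)]
  have h1 : |g 0 * u| ≤ 2 * X * (3 * V) := by rw [abs_mul]; gcongr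
  have h2 : |t| ≤ 7 * X * V := by
    have := abs_sub (g 0 * u) (g 0 * u - t)
    rw [sub_sub_cancel] at this
    linarith
  have h3 : |u ^ 2 + v ^ 2| ≤ 10 * V ^ 2 := by
    rw [abs_of_nonneg (by positivity), ← sq_abs u]
    nlinarith [abs_nonneg u]
  have p1 : 0 ≤ X * V := by positivity
  have p2 : 0 ≤ X * V ^ 2 := by positivity
  fin_cases i
  · simp only [Fin.zero_eta, pow_zero]
    linarith
  · simp only [Fin.mk_one, pow_one]
    rw [b, abs_neg, mul_assoc, mul_comm u]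
    refine (abs_add_le _ _).trans ?_
    rw [abs_mul, abs_two]
    linarith
  · simp only [Fin.reduceFinMk]
    rw [c]
    refine (abs_add_le _ _).trans ?_
    rw [abs_mul, abs_mul, abs_mul, abs_two]
    have h4 : 2 * |u| * |t| ≤ 2 * (3 * V) * (7 * X * V) := by gcongr
    have h5 : |(g 0 : ℝ)| * |u ^ 2 + v ^ 2| ≤ 2 * X * (10 * V ^ 2) := by gcongr
    linarith
  · change |(g 3 : ℝ)| ≤ 70 * X * V ^ 3
    rw [d, abs_neg, abs_mul]
    have h5 : |t| * |u ^ 2 + v ^ 2| ≤ 7 * X * V * (10 * V ^ 2) := by gcongr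
    linarith

theorem cell {Y : ℝ} (hY : 0 ≤ Y) (k : ℕ) (T : Finset (Fin 4 → ℤ))
    (hT : ∀ g ∈ T, ∃ t u v, Rd Y g t u v ∧ v ≤ 2 ^ k ∧ 2 ^ k ≤ 2 * v) :
    (T.card : ℝ) * 2 ^ k ≤ 420 ^ 4 * Y := by
  rcases T.eq_empty_or_nonempty with rfl | ⟨g0, hg0⟩
  · simp only [Finset.card_empty, Nat.cast_zero, zero_mul]
    positivity
  have V1 : (1 : ℝ) ≤ 2 ^ k := one_le_pow₀ one_le_two
  obtain ⟨X, hX, eX⟩ : ∃ X : ℝ, 0 ≤ X ∧ X ^ 4 * (2 ^ k) ^ 6 = Y :=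
    ⟨(Y / (2 ^ k) ^ 6) ^ ((4 : ℕ) : ℝ)⁻¹, by positivity, by
      rw [Real.rpow_inv_natCast_pow (by positivity) four_ne_zero]; field_simp⟩
  have h0 : ∀ g t u v, Rd Y g t u v → 2 ^ k ≤ 2 * v →
      |(g 0 : ℝ)| ≤ 2 * X ∧ |g 0 * u - t| ≤ X * 2 ^ k := by
    rintro g t u v ⟨⟨-, v0, -⟩, -, -, h⟩ hv
    have h1 : (g 0 * u - t) ^ 2 + (g 0 * v) ^ 2 ≤ (X * 2 ^ k) ^ 2 := by
      refine le_of_pow_le_pow_left₀ two_ne_zero (by positivity)
        (le_of_mul_le_mul_left ?_ (by positivity : (0 : ℝ) < (2 ^ k) ^ 2))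
      calc _ ≤ (2 * v) ^ 2 * ((g 0 * u - t) ^ 2 + (g 0 * v) ^ 2) ^ 2 := by gcongr
        _ ≤ Y := by linarith
        _ = _ := by rw [← eX]; ring
    refine ⟨?_, abs_le_of_sq_le_sq (by linarith [sq_nonneg (g 0 * v)]) (by positivity)⟩
    have h2 : |g 0 * v| ≤ X * 2 ^ k :=
      abs_le_of_sq_le_sq (by linarith [sq_nonneg (g 0 * u - t)]) (by positivity)
    rw [abs_mul, abs_of_pos v0] at h2
    refine le_of_mul_le_mul_right ?_ (one_pos.trans_le V1)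
    nlinarith [mul_le_mul_of_nonneg_left hv (abs_nonneg (g 0 : ℝ))]
  have h1 : 1 ≤ 70 * X := by
    obtain ⟨t, u, v, r, -, hv⟩ := hT g0 hg0
    have h2 : (1 : ℝ) ≤ |(g0 0 : ℝ)| := by exact_mod_cast Int.one_le_abs r.1.1
    linarith [(h0 _ _ _ _ r hv).1]
  set s := ⌈70 * X⌉₊ with hs
  have t1 : 70 * X ≤ s := Nat.le_ceil _
  have t2 : (s : ℝ) ≤ 140 * X := by linarith [Nat.ceil_lt_add_one (zero_le_one.trans h1)]
  have t3 : 1 ≤ s := by exact_mod_cast h1.trans t1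
  have key : (T ×ˢ Finset.range (2 ^ k)).card ≤ (Fintype.piFinset fun i : Fin 4 =>
      Finset.Icc (-((s * (2 ^ k) ^ (i : ℕ) : ℕ) : ℤ)) (s * (2 ^ k) ^ (i : ℕ) : ℕ)).card := by
    refine Finset.card_le_card_of_injOn (fun x => tr (2 * x.2) x.1) (fun x hx => ?_) ?_
    · obtain ⟨hx1, hx2⟩ := Finset.mem_product.1 (Finset.mem_coe.1 hx)
      obtain ⟨t, u, v, r, v1, v2⟩ := hT _ hx1
      obtain ⟨a1, a2⟩ := h0 _ _ _ _ r v2
      have n1 : (x.2 : ℝ) ≤ 2 ^ k := by exact_mod_cast (Finset.mem_range.1 hx2).le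
      have n0 : (0 : ℝ) ≤ x.2 := Nat.cast_nonneg _
      simp only [Finset.mem_coe, Fintype.mem_piFinset, Finset.mem_Icc, ← abs_le]
      intro i
      have := bnd (tr_par (2 * x.2) r.1) (by positivity) (by
        have := abs_le.1 r.2.1
        push_cast
        rw [abs_le]
        constructor <;> linarith) v1 a1 (by
        convert a2 using 2
        simp only [tr, cons_val_zero]
        ring) i
      exact_mod_cast this.trans (mul_le_mul_of_nonneg_right t1 (by positivity))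
    · rintro ⟨g, n⟩ hx ⟨g', m⟩ hy e
      obtain ⟨t, u, v, r, -⟩ := hT _ (Finset.mem_product.1 (Finset.mem_coe.1 hx)).1
      obtain ⟨t', u', v', r', -⟩ := hT _ (Finset.mem_product.1 (Finset.mem_coe.1 hy)).1
      have e0 : tr (2 * n) g = tr (2 * m) g' := e
      have e1 := uniq (tr_par (2 * n) r.1) (e0 ▸ tr_par (2 * m) r'.1)
      have b1 := abs_le.1 r.2.1
      have b2 := abs_le.1 r'.2.1
      push_cast at e1
      have n1 : n < m + 1 := by exact_mod_cast (by linarith : (n : ℝ) < m + 1)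
      have n2 : m < n + 1 := by exact_mod_cast (by linarith : (m : ℝ) < n + 1)
      obtain rfl : n = m := by omega
      rw [← tr_tr (2 * n) g, e0, tr_tr]
  rw [Finset.card_product, Finset.card_range, Fintype.card_piFinset] at key
  have k3 : T.card * 2 ^ k ≤ (3 * s) ^ 4 * (2 ^ k) ^ 6 := by
    refine key.trans ((Finset.prod_le_prod' (g := fun i : Fin 4 => 3 * (s * (2 ^ k) ^ (i : ℕ)))
      fun i _ => ?_).trans_eq ?_)
    · have : 0 < s * (2 ^ k) ^ (i : ℕ) := by positivity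
      rw [Int.card_Icc]
      omega
    · simp only [Fin.prod_univ_four, Fin.coe_ofNat_eq_mod]
      ring
  calc (T.card : ℝ) * 2 ^ k ≤ (3 * s) ^ 4 * (2 ^ k) ^ 6 := by exact_mod_cast k3
    _ ≤ (3 * (140 * X)) ^ 4 * (2 ^ k) ^ 6 := by gcongr
    _ = _ := by rw [← eX]; ring

theorem dy {v : ℝ} (h : 1 ≤ 2 * v) : ∃ k : ℕ, v ≤ 2 ^ k ∧ 2 ^ k ≤ 2 * v := by
  obtain ⟨k, h1, h2⟩ := exists_nat_pow_near h one_lt_two
  exact ⟨k, by rw [pow_succ] at h2; linarith, h1⟩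

theorem all {Y : ℝ} (hY : 0 ≤ Y) (S : Finset (Fin 4 → ℤ)) (hS : ∀ g ∈ S, ∃ t u v, Rd Y g t u v) :
    (S.card : ℝ) ≤ 2 * 420 ^ 4 * Y := by
  have h1 : ∀ g ∈ S, ∃ k : ℕ, ∃ t u v, Rd Y g t u v ∧ v ≤ 2 ^ k ∧ 2 ^ k ≤ 2 * v := fun g hg => by
    obtain ⟨t, u, v, r⟩ := hS g hg
    have := abs_le.1 r.2.1
    obtain ⟨k, hk⟩ := dy (v := v) (by nlinarith [r.1.2.1, r.2.2.1])
    exact ⟨k, t, u, v, r, hk⟩
  choose! c hc using h1
  rw [Finset.card_eq_sum_card_image c S, Nat.cast_sum]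
  have h4 : ∀ k ∈ S.image c, ((S.filter fun g => c g = k).card : ℝ) ≤ 420 ^ 4 * Y * (1 / 2) ^ k := by
    intro k _
    rw [one_div, inv_pow, ← div_eq_mul_inv, le_div_iff₀ (by positivity)]
    refine cell hY k _ fun g hg => ?_
    obtain ⟨h6, h7⟩ := Finset.mem_filter.1 hg
    exact h7 ▸ hc g h6
  refine (Finset.sum_le_sum h4).trans ?_
  rw [← Finset.mul_sum]
  calc _ ≤ 420 ^ 4 * Y * 2 := by
        gcongr
        exact sum_le_hasSum _ (fun _ _ => by positivity) hasSum_geometric_two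
    _ = _ := by ring

end NB

open NB in
theorem nb (hB : BasicSt) : NBSt := by
  refine ⟨2 * 420 ^ 4, by positivity, fun Y hY => ?_⟩
  have hf : {g | ∃ t u v, Rd Y g t u v}.Finite := by
    by_contra h
    obtain ⟨S, h1, h2⟩ := Set.Infinite.exists_subset_card_eq h (⌊2 * 420 ^ 4 * Y⌋₊ + 1)
    have h3 := all hY S fun g hg => h1 hg
    rw [h2] at h3
    push_cast at h3
    linarith [Nat.lt_floor_add_one (2 * 420 ^ 4 * Y)]
  refine ⟨hf.toFinset, all hY _ fun g hg => hf.mem_toFinset.1 hg, fun f h1 h2 h3 => ?_⟩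
  obtain ⟨g, e, r⟩ := redu hB h1 h2 h3
  exact ⟨g, hf.mem_toFinset.2 r, e⟩

end Pool.Agent.Lib.MP_02f36d_nt.CF
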