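import Pool.Agent.Lib.MP_02f36d_nt.CF.St

/-! Elementary facts on pairs of symmetric matrices. -/

set_option autoImplicit false

noncomputable section

namespace Pool.Agent.Lib.MP_02f36d_nt.CF

open Matrix

namespace PairL

variable {R : Type} [CommRing R]

theorem actMul (g k : M3 R) (w : M3 R × M3 R) : act (g * k) w = act g (act k w) := by
  simp only [act, transpose_mul, Matrix.mul_assoc]

theorem tr (g A B : M3 R) : ((g * A * gᵀ).adjugate * (g * B * gᵀ)).trace =
    g.det ^ 2 * (A.adjugate * B).trace := by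
  rw [adjugate_mul_distrib, adjugate_mul_distrib]
  calc (gᵀ.adjugate * (A.adjugate * g.adjugate) * (g * B * gᵀ)).trace
      = (A.adjugate * (g.adjugate * g) * B * (gᵀ * gᵀ.adjugate)).trace := by
        rw [Matrix.mul_assoc, trace_mul_comm]
        simp only [Matrix.mul_assoc]
    _ = _ := by
        rw [adjugate_mul, mul_adjugate, det_transpose]
        simp [sq, mul_assoc]

theorem trA (A B : M3 R) : (A.adjugate * B).trace =
    (A 1 1 * A 2 2 - A 1 2 * A 2 1) * B 0 0 + (A 0 2 * A 2 1 - A 0 1 * A 2 2) * B 1 0 +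
      (A 0 1 * A 1 2 - A 0 2 * A 1 1) * B 2 0 + (A 1 2 * A 2 0 - A 1 0 * A 2 2) * B 0 1 +
      (A 0 0 * A 2 2 - A 0 2 * A 2 0) * B 1 1 + (A 0 2 * A 1 0 - A 0 0 * A 1 2) * B 2 1 +
      (A 1 0 * A 2 1 - A 1 1 * A 2 0) * B 0 2 + (A 0 1 * A 2 0 - A 0 0 * A 2 1) * B 1 2 +
      (A 0 0 * A 1 1 - A 0 1 * A 1 0) * B 2 2 := by
  simp [adjugate_fin_three, trace_fin_three, vecMul, dotProduct, Fin.sum_univ_three]
  ring

theorem pifAct (g : M3 R) (w : M3 R × M3 R) : pif (act g w) = g.det ^ 2 • pif w := by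
  funext i
  fin_cases i <;> simp [pif, act, tr] <;> ring

theorem act_one (w : M3 R × M3 R) : act 1 w = w := by simp [act]

theorem quad (g A : M3 R) (v : Fin 3 → R) :
    v ⬝ᵥ (g * A * gᵀ) *ᵥ v = (gᵀ *ᵥ v) ⬝ᵥ A *ᵥ (gᵀ *ᵥ v) := by
  rw [← mulVec_mulVec, ← mulVec_mulVec, dotProduct_mulVec, mulVec_transpose g v]

theorem inv (g : M3 ℤ) (hg : g.det ^ 2 = 1) : (g.det • g.adjugate) * g = 1 := by
  rw [smul_mul_assoc, adjugate_mul, smul_smul, ← sq, hg, one_smul]

end PairL

open PairL in
theorem pair : PairSt where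
  pifEv w x y := by
    simp [ev, pif, det_fin_three, trA]
    ring
  pifAct := pifAct
  pifW1 p := by
    funext i
    fin_cases i <;> simp [pif, w1, mon, det_fin_three] <;> ring
  pifCst w := by
    funext i
    fin_cases i <;> simp [pif, cst, cstW, det_fin_three, trA]
  actMul := actMul
  actCst g w := by
    refine Prod.ext ?_ ?_ <;> ext i j <;> simp [act, cstW, mul_apply]
  actSym g w h := by
    refine ⟨?_, ?_⟩
    · simp only [act, IsSymm, transpose_mul, transpose_transpose, h.1.eq, Matrix.mul_assoc]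
    · simp only [act, IsSymm, transpose_mul, transpose_transpose, h.2.eq, Matrix.mul_assoc]
  packInj w w' h h' e := by
    have e1 : ∀ i j, (if i ≤ j then w.1 i j else w.2 i j) =
        if i ≤ j then w'.1 i j else w'.2 i j := fun i j =>
      congrFun (congrFun (congrArg Prod.fst e) i) j
    have e2 : ∀ i, w.2 i i = w'.2 i i := fun i => congrFun (congrArg Prod.snd e) i
    refine Prod.ext ?_ ?_ <;> ext i j
    · rcases le_total i j with hij | hij
      · simpa [hij] using e1 i j
      · rw [h.1.apply j i, h'.1.apply j i]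
        simpa [hij] using e1 j i
    · rcases lt_trichotomy i j with hij | rfl | hij
      · rw [← h.2.apply i j, ← h'.2.apply i j]
        simpa [hij.not_ge] using e1 j i
      · exact e2 i
      · simpa [hij.not_ge] using e1 i j
  refl w := ⟨1, by simp, (act_one w).symm⟩
  symm w w' := by
    rintro ⟨g, hg, rfl⟩
    refine ⟨g.det • g.adjugate, ?_, by rw [← actMul, inv g hg, act_one]⟩
    have := congrArg (fun A : M3 ℤ => A.det ^ 2) (inv g hg)
    simpa only [det_mul, mul_pow, hg, mul_one, det_one, one_pow] using this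
  trans w w' w'' := by
    rintro ⟨g, hg, rfl⟩ ⟨k, hk, rfl⟩
    exact ⟨k * g, by rw [det_mul, mul_pow, hg, hk, mul_one], (actMul k g w).symm⟩
  eirr w w' := by
    rintro ⟨g, hg, rfl⟩ hi v h1 h2
    have h := hi (gᵀ *ᵥ v) (by rw [← quad]; exact h1) (by rw [← quad]; exact h2)
    refine eq_zero_of_mulVec_eq_zero ?_ h
    rw [det_transpose]
    intro h0
    simp [h0] at hg

end Pool.Agent.Lib.MP_02f36d_nt.CF
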