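import Pool.Agent.Lib.MP_02f36d_nt.CF.St

/-! Three orbits over a field of even class number, and the upper bound for the number of fields. -/

set_option autoImplicit false

noncomputable section

namespace Pool.Agent.Lib.MP_02f36d_nt.CF

open NumberField Polynomial
open scoped IntermediateField

theorem par (h3 : DF3St) (hS : SelSt) (hA : ParASt) (hB : ParBSt) (hC : ParCSt) : ParSt := by
  intro L _ _ θ f hb h0 hd he
  obtain ⟨δ, I, h1, h2⟩ := hS L hb.1 ((h3 L θ f hb).1 ▸ hd) he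
  choose e w hli hp hs hf using fun i => hA L θ f hb (δ i) (I i) (h1 i).1 (h1 i).2.1 (h1 i).2.2.1
  have hn : ∀ i, Algebra.norm ℚ (δ i : L) = ((Ideal.absNorm (I i) : ℕ) : ℚ) ^ 2 := fun i => by
    rw [← Algebra.coe_norm_int, (h1 i).2.2.1]
    simp
  have hn0 : ∀ i, 0 < Algebra.norm ℚ (δ i : L) := fun i => by
    have : Ideal.absNorm (I i) ≠ 0 := by
      rw [Ne, Ideal.absNorm_eq_zero_iff]
      exact (h1 i).1
    rw [hn]
    positivity
  have hδ : ∀ i, (δ i : L) ≠ 0 := fun i h => by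
    have := hn0 i
    rw [h, Algebra.norm_zero] at this
    exact lt_irrefl _ this
  refine ⟨w, fun i => ⟨hs i, (hB L θ f hb _ _ _ (hδ i) (hli i) (hp i)).1 ⟨_, (hn i).trans (sq _)⟩
    (h1 i).2.2.2, hC L θ f hb h0 hd _ _ _ (hn0 i) (hp i), hf i⟩, fun i j h => h2 i j ?_⟩
  exact (hB L θ f hb _ _ _ (hδ i) (hli i) (hp i)).2 _ _ _ (hδ j) (hli j) (hp j) h

namespace UpL

/-- The real roots of a form. -/
def rts (g : Fin 4 → ℤ) : Finset ℝ :=
  (C (g 0 : ℝ) * X ^ 3 + C (g 1 : ℝ) * X ^ 2 + C (g 2 : ℝ) * X + C (g 3 : ℝ)).roots.toFinset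

theorem card_rts (g : Fin 4 → ℤ) : (rts g).card ≤ 3 :=
  (Multiset.toFinset_card_le _).trans ((card_roots' _).trans natDegree_cubic_le)

theorem mem_rts {g : Fin 4 → ℤ} (hg : Irr g) {ρ : ℝ} (h : ev (cst ℝ g) ρ 1 = 0) : ρ ∈ rts g := by
  have h0 : (g 0 : ℝ) ≠ 0 := by
    intro h0
    have h1 : g 0 = 0 := by exact_mod_cast h0
    simpa using (hg 1 0 (by simp [ev, h1])).1
  rw [rts, Multiset.mem_toFinset, mem_roots]
  · simpa [ev, cst] using h
  · intro hz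
    have := natDegree_cubic (b := (g 1 : ℝ)) (c := (g 2 : ℝ)) (d := (g 3 : ℝ)) h0
    rw [hz] at this
    simp at this

end UpL

open UpL in
theorem up (hB : BasicSt) (hN : NBSt) (h2 : DF2St) (h3 : DF3St) (h6 : DF6St) : UpSt := by
  classical
  obtain ⟨C, hC, hN⟩ := hN
  refine ⟨3 * C, fun X hX => ?_⟩
  obtain ⟨T, hT, hT'⟩ := hN X hX
  have hsub : AllF X ⊆ ((T.filter Irr).biUnion rts).image fun ρ : ℝ => ℚ⟮ρ⟯ := by
    rintro L ⟨i, a, b, c⟩
    obtain ⟨θ, f, hb⟩ := h2 L a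
    obtain ⟨hd, hi, -⟩ := h3 L θ f hb
    obtain ⟨g, hg, he⟩ := hT' f hi (hd ▸ b) (hd ▸ c)
    obtain ⟨ρ, hρ, rfl⟩ := h6 L θ f g hb he
    have hig := hB.eirr f g he hi
    exact Finset.mem_coe.2 (Finset.mem_image.2 ⟨ρ, Finset.mem_biUnion.2
      ⟨g, Finset.mem_filter.2 ⟨hg, hig⟩, mem_rts hig hρ⟩, rfl⟩)
  refine ⟨(Finset.finite_toSet _).subset hsub, ?_⟩
  have h1 := Set.ncard_le_ncard hsub (Finset.finite_toSet _)
  rw [Set.ncard_coe_finset] at h1
  have h4 : (AllF X).ncard ≤ T.card * 3 :=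
    h1.trans (Finset.card_image_le.trans ((Finset.card_biUnion_le_card_mul _ _ 3
      fun g _ => card_rts g).trans (Nat.mul_le_mul_right 3 (Finset.card_filter_le _ _))))
  have h5 : ((AllF X).ncard : ℝ) ≤ T.card * 3 := by exact_mod_cast h4
  linarith

end Pool.Agent.Lib.MP_02f36d_nt.CF
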