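import Pool.Agent.Lib.MP_02f36d_nt.CF.St

/-! Irreducibility and inequivalence of the pairs attached to classes modulo squares. -/

set_option autoImplicit false

noncomputable section

namespace Pool.Agent.Lib.MP_02f36d_nt.CF

open Matrix NumberField

namespace ParB

variable {L : Type} [Field L] [NumberField L]

omit [NumberField L] in
theorem comb_mul {θ : L} {f : Fin 4 → ℤ} {δ : L} {e : Fin 3 → L} {w : M3 ℤ × M3 ℤ}
    (h : IsPair θ f δ e w) (v v' : Fin 3 → ℤ) :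
    ∃ u : ℤ, (∑ i, (v i : L) * e i) * (∑ j, (v' j : L) * e j) =
      δ * (u + ((v ⬝ᵥ w.2 *ᵥ v' : ℤ) : L) * (f 0 * θ) +
        ((v ⬝ᵥ w.1 *ᵥ v' : ℤ) : L) * (f 0 * θ ^ 2 + f 1 * θ)) := by
  choose u hu using h
  refine ⟨∑ i, ∑ j, v i * v' j * u i j, ?_⟩
  simp only [Fin.sum_univ_three, dotProduct, mulVec]
  push_cast
  linear_combination (v 0 : L) * (v' 0 : L) * hu 0 0 + (v 0 : L) * (v' 1 : L) * hu 0 1 +
    (v 0 : L) * (v' 2 : L) * hu 0 2 + (v 1 : L) * (v' 0 : L) * hu 1 0 +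
    (v 1 : L) * (v' 1 : L) * hu 1 1 + (v 1 : L) * (v' 2 : L) * hu 1 2 +
    (v 2 : L) * (v' 0 : L) * hu 2 0 + (v 2 : L) * (v' 1 : L) * hu 2 1 +
    (v 2 : L) * (v' 2 : L) * hu 2 2

theorem irr {θ : L} {f : Fin 4 → ℤ} {δ : L} {e : Fin 3 → L} {w : M3 ℤ × M3 ℤ}
    (h3 : Module.finrank ℚ L = 3) (hδ : δ ≠ 0) (he : LinearIndependent ℚ e)
    (h : IsPair θ f δ e w) (hN : IsSquare (Algebra.norm ℚ δ)) (hs : ¬ IsSquare δ) : IrrW w := by
  intro v h1 h2
  obtain ⟨u, hu⟩ := comb_mul h v v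
  rw [h1, h2] at hu
  simp only [Int.cast_zero, zero_mul, add_zero] at hu
  set x : L := ∑ i, (v i : L) * e i with hx
  by_cases hx0 : x = 0
  · have := Fintype.linearIndependent_iff.mp he (fun i => (v i : ℚ)) (by
      rw [← hx0, hx]
      refine Finset.sum_congr rfl fun i _ => ?_
      rw [Algebra.smul_def]; simp)
    funext i
    exact_mod_cast this i
  exfalso
  apply hs
  have hu0 : (u : L) ≠ 0 := by
    intro h0
    rw [h0, mul_zero] at hu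
    exact hx0 (mul_self_eq_zero.mp hu)
  have hu0' : (u : ℚ) ≠ 0 := by
    intro h0
    apply hu0
    have : u = 0 := by exact_mod_cast h0
    simp [this]
  obtain ⟨n, hn⟩ := hN
  have hn0 : n ≠ 0 := by
    intro h0
    rw [h0, mul_zero] at hn
    exact hδ (Algebra.norm_eq_zero_iff.mp hn)
  have hnu : Algebra.norm ℚ (u : L) = (u : ℚ) ^ 3 := by
    have : (u : L) = algebraMap ℚ L (u : ℚ) := by simp
    rw [this, Algebra.norm_algebraMap, h3]
  have hnorm := congrArg (Algebra.norm ℚ) hu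
  rw [map_mul, map_mul, hn, hnu] at hnorm
  set t : ℚ := Algebra.norm ℚ x / (n * u) with ht
  have htt : t * t = u := by
    rw [ht]; field_simp; linear_combination hnorm
  have htL : (t : L) * (t : L) = (u : L) := by
    have := congrArg (fun q : ℚ => (q : L)) htt
    simpa using this
  have ht0 : (t : L) ≠ 0 := by
    intro h0
    rw [h0, mul_zero] at htL
    exact hu0 htL.symm
  refine ⟨x / t, ?_⟩
  field_simp
  linear_combination (-1 : L) * hu + δ * htL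

theorem sq_of_map {θ δ δ' : L} (hδ : δ ≠ 0) (hδ' : δ' ≠ 0)
    (hind : ∀ u v w : ℚ, (u : L) + v * θ + w * θ ^ 2 = 0 → u = 0 ∧ v = 0 ∧ w = 0)
    (hsp : ∀ x : L, ∃ u v w : ℚ, x = u + v * θ + w * θ ^ 2) (ψ : L →ₗ[ℚ] L)
    (hψ : ∀ x y, ∃ r : ℚ, ψ x * ψ y * δ⁻¹ - x * y * δ'⁻¹ = r) : IsSquare (δ * δ') := by
  have key : ∀ r s : ℚ, θ ^ 2 ≠ r + s * θ := by
    intro r s h
    have := (hind r s (-1) (by push_cast; linear_combination -h)).2.2
    norm_num at this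
  have hinj : Function.Injective ψ := by
    rw [injective_iff_map_eq_zero]
    intro x hx
    by_contra hx0
    obtain ⟨r, hr⟩ := hψ x (θ ^ 2 * δ' * x⁻¹)
    apply key (-r) 0
    rw [hx] at hr
    have e1 : x * (θ ^ 2 * δ' * x⁻¹) * δ'⁻¹ = θ ^ 2 := by field_simp
    rw [e1] at hr
    push_cast
    linear_combination -hr
  have hsurj : Function.Surjective ψ := LinearMap.injective_iff_surjective.mp hinj
  have hcomm : ∀ x, ψ (θ * x) = θ * ψ x := by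
    intro x
    by_contra hne
    have hc : ψ (θ * x) - θ * ψ x ≠ 0 := sub_ne_zero.mpr hne
    obtain ⟨y, hy⟩ := hsurj (θ ^ 2 * δ * (ψ (θ * x) - θ * ψ x)⁻¹)
    obtain ⟨r, hr⟩ := hψ x y
    obtain ⟨s, hs⟩ := hψ (θ * x) y
    apply key s (-r)
    have e1 : (ψ (θ * x) - θ * ψ x) * ψ y * δ⁻¹ = θ ^ 2 := by rw [hy]; field_simp
    push_cast
    linear_combination -e1 + hs - θ * hr
  have hlin : ∀ x, ψ x = ψ 1 * x := by
    intro x
    obtain ⟨u, v, w, rfl⟩ := hsp x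
    have e1 : ψ θ = θ * ψ 1 := by simpa using hcomm 1
    have e2 : ψ (θ ^ 2) = θ ^ 2 * ψ 1 := by
      rw [sq, hcomm θ, e1]; ring
    have e3 : ((u : L) + v * θ + w * θ ^ 2) = u • (1 : L) + v • θ + w • θ ^ 2 := by
      simp [Algebra.smul_def]
    rw [e3, map_add, map_add, map_smul, map_smul, map_smul, e1, e2]
    simp only [Algebra.smul_def, eq_ratCast]
    ring
  have hc : ψ 1 * ψ 1 * δ⁻¹ - δ'⁻¹ = 0 := by
    by_contra hne
    obtain ⟨r, hr⟩ := hψ 1 (θ ^ 2 * (ψ 1 * ψ 1 * δ⁻¹ - δ'⁻¹)⁻¹)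
    apply key r 0
    rw [hlin (θ ^ 2 * _)] at hr
    have e1 : (ψ 1 * ψ 1 * δ⁻¹ - δ'⁻¹) * (θ ^ 2 * (ψ 1 * ψ 1 * δ⁻¹ - δ'⁻¹)⁻¹) = θ ^ 2 := by
      rw [mul_comm, mul_assoc, inv_mul_cancel₀ hne, mul_one]
    push_cast
    linear_combination hr - e1
  refine ⟨ψ 1 * δ', ?_⟩
  have e1 : δ * δ⁻¹ = 1 := mul_inv_cancel₀ hδ
  have e2 : δ' * δ'⁻¹ = 1 := mul_inv_cancel₀ hδ'
  linear_combination (-(δ * δ' * δ')) * hc + (ψ 1 * ψ 1 * δ' * δ') * e1 - (δ * δ') * e2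

theorem entry (g A : M3 ℤ) (i j : Fin 3) : (g * A * gᵀ) i j = g i ⬝ᵥ A *ᵥ g j := by
  simp only [Matrix.mul_apply, Matrix.transpose_apply, Fin.sum_univ_three, dotProduct, mulVec]
  ring

end ParB

open ParB in
theorem parB (h3 : DF3St) : ParBSt := by
  intro L _ _ θ f hb δ e w hδ he hp
  refine ⟨fun hN hs => irr hb.1 hδ he hp hN hs, ?_⟩
  rintro δ' e' w' hδ' he' hp' ⟨g, -, rfl⟩
  obtain ⟨-, -, hind, hsp, -⟩ := h3 L θ f hb
  let b : Module.Basis (Fin 3) ℚ L :=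
    basisOfLinearIndependentOfCardEqFinrank he' (by rw [hb.1]; simp)
  have hbe : ∀ i, b i = e' i := fun i => by simp [b]
  let ψ : L →ₗ[ℚ] L := b.constr ℚ fun i => ∑ k, (g i k : L) * e k
  have hψe : ∀ i, ψ (b i) = ∑ k, (g i k : L) * e k := fun i => by simp [ψ]
  refine sq_of_map hδ hδ' hind hsp ψ ?_
  have base : ∀ i j, ∃ r : ℚ, ψ (b i) * ψ (b j) * δ⁻¹ - b i * b j * δ'⁻¹ = r := by
    intro i j
    obtain ⟨u, hu⟩ := comb_mul hp (g i) (g j)
    obtain ⟨u', hu'⟩ := hp' i j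
    refine ⟨u - u', ?_⟩
    rw [hψe, hψe, hbe, hbe, hu, hu']
    simp only [act, entry]
    push_cast
    field_simp
    ring
  choose r hr using base
  intro x y
  refine ⟨∑ i, ∑ j, b.repr x i * b.repr y j * r i j, ?_⟩
  have hx := b.sum_repr x
  have hy := b.sum_repr y
  generalize b.repr x = cx at hx ⊢
  generalize b.repr y = cy at hy ⊢
  subst hx hy
  simp only [Fin.sum_univ_three, map_add, map_smul]
  simp only [Algebra.smul_def, eq_ratCast]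
  push_cast
  linear_combination (cx 0 : L) * (cy 0 : L) * hr 0 0 + (cx 0 : L) * (cy 1 : L) * hr 0 1 +
    (cx 0 : L) * (cy 2 : L) * hr 0 2 + (cx 1 : L) * (cy 0 : L) * hr 1 0 +
    (cx 1 : L) * (cy 1 : L) * hr 1 1 + (cx 1 : L) * (cy 2 : L) * hr 1 2 +
    (cx 2 : L) * (cy 0 : L) * hr 2 0 + (cx 2 : L) * (cy 1 : L) * hr 2 1 +
    (cx 2 : L) * (cy 2 : L) * hr 2 2

end Pool.Agent.Lib.MP_02f36d_nt.CF
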