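import Pool.Agent.Lib.MP_02f36d_nt.CF.St

/-! The pair of an element of positive norm lies in the real orbit of a standard pair. -/

set_option autoImplicit false

noncomputable section

namespace Pool.Agent.Lib.MP_02f36d_nt.CF

open Matrix NumberField

namespace ParC

theorem alg (a ρ b u A B k : ℝ) (z Q : ℂ) (ha : 0 < a) (hz : 0 < z.im)
    (hb : b = -(a * (ρ + 2 * z.re)))
    (h1 : k * (a * ((z.re - ρ) ^ 2 + z.im ^ 2)) = u + B * (a * ρ) + A * (a * ρ ^ 2 + b * ρ))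
    (h2 : Q * ((a : ℂ) * (z - ρ) * (z.im * Complex.I)) =
      (u : ℂ) + B * (a * z) + A * (a * z ^ 2 + b * z)) :
    A = k + Q.re ∧ B = ρ * k + (z.re * Q.re - z.im * Q.im) := by
  have E1 := congrArg Complex.re h2
  have E2 := congrArg Complex.im h2
  simp [pow_two] at E1 E2
  have hD : 0 < a * ((z.re - ρ) ^ 2 + z.im ^ 2) * z.im := by positivity
  subst hb
  constructor
  · have : (A - (k + Q.re)) * (a * ((z.re - ρ) ^ 2 + z.im ^ 2) * z.im) = 0 := by
      linear_combination (-z.im) * h1 - (z.re - ρ) * E2 + z.im * E1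
    rcases mul_eq_zero.mp this with h | h
    · linarith
    · exact absurd h hD.ne'
  · have : (B - (ρ * k + (z.re * Q.re - z.im * Q.im))) *
        (a * ((z.re - ρ) ^ 2 + z.im ^ 2) * z.im) = 0 := by
      linear_combination (-z.im * ρ) * h1 - z.re * ((z.re - ρ) * E2 - z.im * E1) +
        z.im * (-(z.re - ρ) * E1 - z.im * E2)
    rcases mul_eq_zero.mp this with h | h
    · linarith
    · exact absurd h hD.ne'

theorem emb (L : Type) [Field L] [NumberField L] (θ : L) (h3 : Module.finrank ℚ L = 3)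
    (hs : ∀ x : L, ∃ u v w : ℚ, x = u + v * θ + w * θ ^ 2) (ρ : ℝ) (z : ℂ) (hz : 0 < z.im)
    (hr : ∀ σ : L →ₐ[ℚ] ℂ, σ θ = ρ ∨ σ θ = z ∨ σ θ = starRingEnd ℂ z) :
    ∃ σ τ : L →ₐ[ℚ] ℂ, σ θ = ρ ∧ τ θ = z ∧ (∀ x, σ x = ((σ x).re : ℂ)) ∧
      ∀ x, ((Algebra.norm ℚ x : ℚ) : ℂ) = σ x * (τ x * starRingEnd ℂ (τ x)) := by
  classical
  have hinj : Function.Injective fun σ : L →ₐ[ℚ] ℂ => σ θ := by
    intro σ τ h
    have h' : σ θ = τ θ := h
    ext x
    obtain ⟨u, v, w, rfl⟩ := hs x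
    simp [h']
  have hcard : Fintype.card (L →ₐ[ℚ] ℂ) = 3 := by rw [AlgHom.card, h3]
  have hsub : (Finset.univ.image fun σ : L →ₐ[ℚ] ℂ => σ θ) ⊆ {(ρ : ℂ), z, starRingEnd ℂ z} := by
    intro y hy
    obtain ⟨σ, -, rfl⟩ := Finset.mem_image.mp hy
    simpa using hr σ
  have heq : (Finset.univ.image fun σ : L →ₐ[ℚ] ℂ => σ θ) = {(ρ : ℂ), z, starRingEnd ℂ z} := by
    apply Finset.eq_of_subset_of_card_le hsub
    rw [Finset.card_image_of_injective _ hinj, Finset.card_univ, hcard]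
    exact Finset.card_le_three
  have ex : ∀ y ∈ ({(ρ : ℂ), z, starRingEnd ℂ z} : Finset ℂ), ∃ σ : L →ₐ[ℚ] ℂ, σ θ = y := by
    intro y hy
    rw [← heq] at hy
    obtain ⟨σ, -, h⟩ := Finset.mem_image.mp hy
    exact ⟨σ, h⟩
  obtain ⟨σ, hσ⟩ := ex ρ (by simp)
  obtain ⟨τ, hτ⟩ := ex z (by simp)
  obtain ⟨κ, hκ⟩ := ex (starRingEnd ℂ z) (by simp)
  have n1 : σ ≠ τ := by
    intro h
    have : (ρ : ℂ) = z := by rw [← hσ, h, hτ]
    have := congrArg Complex.im this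
    simp at this
    linarith
  have n2 : σ ≠ κ := by
    intro h
    have : (ρ : ℂ) = starRingEnd ℂ z := by rw [← hσ, h, hκ]
    have := congrArg Complex.im this
    simp at this
    linarith
  have n3 : τ ≠ κ := by
    intro h
    have : z = starRingEnd ℂ z := by rw [← hκ, ← h, hτ]
    have := congrArg Complex.im this
    simp at this
    linarith
  have hu : (Finset.univ : Finset (L →ₐ[ℚ] ℂ)) = {σ, τ, κ} := by
    ext s
    simp only [Finset.mem_univ, Finset.mem_insert, Finset.mem_singleton, true_iff]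
    rcases hr s with h | h | h
    · exact Or.inl (hinj (h.trans hσ.symm))
    · exact Or.inr (Or.inl (hinj (h.trans hτ.symm)))
    · exact Or.inr (Or.inr (hinj (h.trans hκ.symm)))
  refine ⟨σ, τ, hσ, hτ, ?_, ?_⟩
  · intro x
    obtain ⟨u, v, w, rfl⟩ := hs x
    have : σ (u + v * θ + w * θ ^ 2) = (((u : ℝ) + (v : ℝ) * ρ + (w : ℝ) * ρ ^ 2 : ℝ) : ℂ) := by
      simp [hσ]
    rw [this, Complex.ofReal_re]
  · intro x
    have hn := Algebra.norm_eq_prod_embeddings ℚ ℂ x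
    have hk : κ x = starRingEnd ℂ (τ x) := by
      obtain ⟨u, v, w, rfl⟩ := hs x
      simp [hκ, hτ]
    rw [hu, Finset.prod_insert (by simp [n1, n2]), Finset.prod_insert (by simp [n3]),
      Finset.prod_singleton, hk] at hn
    simpa using hn

end ParC

theorem parC (h3 : DF3St) (hB : BasicSt) : ParCSt := by
  intro L _ _ θ f hBas ha hd δ e w hN hp
  obtain ⟨-, -, -, hs, -⟩ := h3 L θ f hBas
  obtain ⟨ρ, z, hz, hf, -⟩ := hB.root f ha.ne' hd
  have haR : (0 : ℝ) < (f 0 : ℝ) := by exact_mod_cast ha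
  have haC : ((f 0 : ℤ) : ℂ) ≠ 0 := by exact_mod_cast ha.ne'
  have hr : ∀ σ : L →ₐ[ℚ] ℂ, σ θ = ρ ∨ σ θ = z ∨ σ θ = starRingEnd ℂ z := by
    intro σ
    have h0 := congrArg σ hBas.2.2.1
    have h1 : ev (cst ℂ f) (σ θ) 1 = 0 := by simpa [ev, cst] using h0
    rw [hf] at h1
    simp only [mul_eq_zero, sub_eq_zero] at h1
    tauto
  obtain ⟨σ, τ, hσ, hτ, hre, hnorm⟩ := ParC.emb L θ hBas.1 hs ρ z hz hr
  have hb : ((f 1 : ℤ) : ℝ) = -((f 0 : ℝ) * (ρ + 2 * z.re)) := by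
    have e0 := hf 0
    have e1 := hf 1
    have e2 := hf (-1)
    simp only [ev, cst] at e0 e1 e2
    have e3 : ((f 1 : ℤ) : ℂ) = -((f 0 : ℂ) * (ρ + (z + starRingEnd ℂ z))) := by
      linear_combination (1 / 2 : ℂ) * e1 + (1 / 2 : ℂ) * e2 - e0
    rw [Complex.add_conj] at e3
    exact_mod_cast e3
  have hn := hnorm δ
  rw [hre δ, Complex.mul_conj] at hn
  have hn' : ((Algebra.norm ℚ δ : ℚ) : ℝ) = (σ δ).re * Complex.normSq (τ δ) := by
    exact_mod_cast hn
  have hNR : (0 : ℝ) < ((Algebra.norm ℚ δ : ℚ) : ℝ) := by exact_mod_cast hN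
  rw [hn'] at hNR
  have hτ0 : τ δ ≠ 0 := by
    intro h
    rw [h] at hNR
    simp at hNR
  have hr0 : 0 < (σ δ).re :=
    (mul_pos_iff_of_pos_right (Complex.normSq_pos.mpr hτ0)).mp hNR
  have hD : 0 < (f 0 : ℝ) * ((z.re - ρ) ^ 2 + z.im ^ 2) := by positivity
  have hE : ((f 0 : ℝ) : ℂ) * (z - ρ) * (z.im * Complex.I) ≠ 0 := by
    refine mul_ne_zero (mul_ne_zero (by exact_mod_cast ha.ne') ?_)
      (mul_ne_zero (by exact_mod_cast hz.ne') Complex.I_ne_zero)
    intro h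
    have := congrArg Complex.im h
    simp at this
    linarith
  obtain ⟨t, ht⟩ : ∃ t : ℝ, t * t = ((σ δ).re * ((f 0 : ℝ) * ((z.re - ρ) ^ 2 + z.im ^ 2)))⁻¹ :=
    ⟨Real.sqrt _, Real.mul_self_sqrt (by positivity)⟩
  obtain ⟨s, hs2⟩ : ∃ s : ℂ,
      (τ δ * (((f 0 : ℝ) : ℂ) * (z - ρ) * (z.im * Complex.I)))⁻¹ = s * s :=
    IsAlgClosed.exists_eq_mul_self _
  have main : ∀ i j, ((w.1 i j : ℤ) : ℝ) = (t * (σ (e i)).re) * (t * (σ (e j)).re) +
      ((s * τ (e i)) * (s * τ (e j))).re ∧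
      ((w.2 i j : ℤ) : ℝ) = ρ * ((t * (σ (e i)).re) * (t * (σ (e j)).re)) +
        (z.re * ((s * τ (e i)) * (s * τ (e j))).re - z.im * ((s * τ (e i)) * (s * τ (e j))).im) := by
    intro i j
    obtain ⟨u, hu⟩ := hp i j
    have u1 := congrArg σ hu
    have u2 := congrArg τ hu
    simp only [map_mul, map_add, map_pow, map_intCast, hσ, hτ] at u1 u2
    rw [hre (e i), hre (e j), hre δ] at u1
    have u1' : (σ (e i)).re * (σ (e j)).re = (σ δ).re * ((u : ℝ) + (w.2 i j : ℝ) * ((f 0 : ℝ) * ρ) +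
        (w.1 i j : ℝ) * ((f 0 : ℝ) * ρ ^ 2 + (f 1 : ℝ) * ρ)) := by
      exact_mod_cast u1
    refine ParC.alg (f 0) ρ (f 1) u (w.1 i j) (w.2 i j) _ z _ haR hz hb ?_ ?_
    · have : t * (σ (e i)).re * (t * (σ (e j)).re) = (t * t) * ((σ (e i)).re * (σ (e j)).re) := by
        ring
      rw [this, ht, u1']
      field_simp
    · have : s * τ (e i) * (s * τ (e j)) = (s * s) * (τ (e i) * τ (e j)) := by ring
      rw [this, ← hs2, u2]
      generalize ((f 0 : ℝ) : ℂ) * (z - ρ) * (z.im * Complex.I) = E at hE ⊢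
      push_cast
      field_simp
  refine ⟨Matrix.of fun i => ![t * (σ (e i)).re, (s * τ (e i)).re, (s * τ (e i)).im],
    ![ρ, z.re, z.im], hz.le, ?_⟩
  refine Prod.ext ?_ ?_
  · ext i j
    have := (main i j).1
    rw [Complex.mul_re] at this
    simp only [cstW, act, w1, Matrix.map_apply, Matrix.mul_apply, Fin.sum_univ_three,
      Matrix.transpose_apply, Matrix.of_apply]
    rw [this]
    generalize (s * τ (e i)).re = a1, (s * τ (e i)).im = a2, (s * τ (e j)).re = b1,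
      (s * τ (e j)).im = b2
    simp
    ring
  · ext i j
    have := (main i j).2
    rw [Complex.mul_re, Complex.mul_im (s * τ (e i))] at this
    simp only [cstW, act, w1, Matrix.map_apply, Matrix.mul_apply, Fin.sum_univ_three,
      Matrix.transpose_apply, Matrix.of_apply]
    rw [this]
    generalize (s * τ (e i)).re = a1, (s * τ (e i)).im = a2, (s * τ (e j)).re = b1,
      (s * τ (e j)).im = b2
    simp
    ring

end Pool.Agent.Lib.MP_02f36d_nt.CF
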