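import Pool.Agent.Lib.MP_02f36d_nt.CF.St

/-! Reduction theory for lattices of rank three. -/

namespace Pool.Agent.Lib.MP_02f36d_nt.CF

open Matrix Filter

namespace Red

/-- an integral matrix read over the reals. -/
abbrev cm (g : M3 ℤ) : M3 ℝ := g.map fun x => (x : ℝ)

theorem cm_mul (g k : M3 ℤ) : cm (g * k) = cm g * cm k :=
  Matrix.map_mul (f := Int.castRingHom ℝ)

theorem cm_det (g : M3 ℤ) : (cm g).det = g.det := ((Int.castRingHom ℝ).map_det g).symm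

/-- the square of the length of a lattice vector. -/
noncomputable def Q (M : M3 ℝ) (x : Fin 3 → ℤ) : ℝ :=
  ((fun i => (x i : ℝ)) ᵥ* M) ⬝ᵥ ((fun i => (x i : ℝ)) ᵥ* M)

theorem fin {M : M3 ℝ} (hM : M.det ≠ 0) (C : ℝ) : {x | Q M x ≤ C}.Finite := by
  obtain ⟨N, hN⟩ := exists_nat_ge ((C + 1) * ∑ i, ∑ j, |M⁻¹ j i|)
  refine (Set.finite_Icc (fun _ : Fin 3 => -(N : ℤ)) fun _ => (N : ℤ)).subset fun x hx => ?_
  set y := (fun i => (x i : ℝ)) ᵥ* M with hy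
  have hx' : y 0 * y 0 + y 1 * y 1 + y 2 * y 2 ≤ C := by
    simpa only [Set.mem_ofPred_eq, Q, dotProduct, Fin.sum_univ_three] using hx
  have h1 : ∀ j, |y j| ≤ C + 1 := fun j => by
    have : y j * y j ≤ C := by
      fin_cases j <;> simp only [Fin.zero_eta, Fin.mk_one, Fin.reduceFinMk] <;>
        nlinarith [mul_self_nonneg (y 0), mul_self_nonneg (y 1), mul_self_nonneg (y 2)]
    rw [abs_le]
    constructor <;> nlinarith [sq_nonneg (y j + 1), sq_nonneg (y j - 1), mul_self_nonneg (y j)]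
  have h2 : ∀ i, |x i| ≤ N := fun i => by
    have e : (x i : ℝ) = ∑ j, y j * M⁻¹ j i := by
      have : y ᵥ* M⁻¹ = fun i => (x i : ℝ) := by
        rw [hy, vecMul_vecMul, mul_nonsing_inv _ hM.isUnit, vecMul_one]
      exact (congrFun this i).symm
    have : |(x i : ℝ)| ≤ N := by
      rw [e]
      refine (Finset.abs_sum_le_sum_abs _ _).trans (le_trans ?_ hN)
      have h0 : 0 ≤ C + 1 := (abs_nonneg _).trans (h1 0)
      refine le_trans ?_ (mul_le_mul_of_nonneg_left (Finset.single_le_sum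
        (f := fun i => ∑ j, |M⁻¹ j i|) (fun _ _ => by positivity) (Finset.mem_univ i)) h0)
      rw [Finset.mul_sum]
      exact Finset.sum_le_sum fun j _ => by
        rw [abs_mul]; exact mul_le_mul_of_nonneg_right (h1 j) (abs_nonneg _)
    exact_mod_cast this
  exact ⟨fun i => (abs_le.1 (h2 i)).1, fun i => (abs_le.1 (h2 i)).2⟩

theorem least {M : M3 ℝ} (hM : M.det ≠ 0) {A : Set (Fin 3 → ℤ)} (hA : A.Nonempty) :
    ∃ x ∈ A, ∀ y ∈ A, Q M x ≤ Q M y := by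
  refine Tendsto.exists_within_forall_le hA (tendsto_atTop.2 fun C => ?_)
  exact (fin hM C).subset fun x hx => (not_le.1 (show ¬ C ≤ Q M x from hx)).le

theorem d1_eq (g : M3 ℤ) (h : M3 ℝ) : d1 (cm g * h) = Q h (g 0) := rfl

theorem d2_eq (g : M3 ℤ) (h : M3 ℝ) : d2 (cm g * h) = Q h.adjugateᵀ (g 0 ⨯₃ g 1) := by
  have : (cm g * h) 0 ⨯₃ (cm g * h) 1 = (fun i => ((g 0 ⨯₃ g 1) i : ℝ)) ᵥ* h.adjugateᵀ := by
    funext i
    fin_cases i <;>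
      simp [cross_apply, vecMul, dotProduct, mul_apply, Fin.sum_univ_three, adjugate_fin_three] <;>
      ring
  rw [d2, this, Q]

theorem mini {h : M3 ℝ} (hh : h.det ≠ 0) : ∃ g : M3 ℤ, g.det ^ 2 = 1 ∧
    (∀ k : M3 ℤ, k.det ^ 2 = 1 → d1 (cm g * h) ≤ d1 (cm k * h)) ∧
    ∀ k : M3 ℤ, k.det ^ 2 = 1 → k 0 = g 0 → d2 (cm g * h) ≤ d2 (cm k * h) := by
  obtain ⟨_, ⟨g0, hg0, rfl⟩, h1⟩ := least hh
    (A := (fun g : M3 ℤ => g 0) '' {g | g.det ^ 2 = 1}) ⟨_, 1, by simp, rfl⟩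
  obtain ⟨_, ⟨g, ⟨hg, e⟩, rfl⟩, h2⟩ := least (M := h.adjugateᵀ)
    (by rw [det_transpose, det_adjugate]; exact pow_ne_zero _ hh)
    (A := (fun g : M3 ℤ => g 0 ⨯₃ g 1) '' {g | g.det ^ 2 = 1 ∧ g 0 = g0 0}) ⟨_, g0, ⟨hg0, rfl⟩, rfl⟩
  refine ⟨g, hg, fun k hk => ?_, fun k hk e' => ?_⟩
  · rw [d1_eq, d1_eq, e]
    exact h1 _ ⟨k, hk, rfl⟩
  · rw [d2_eq, d2_eq]
    exact h2 _ ⟨k, ⟨hk, e'.trans e⟩, rfl⟩

theorem rnd (x : ℝ) {d : ℝ} (hd : 0 < d) : ∃ a : ℤ, |x + a * d| ≤ d / 2 := by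
  refine ⟨-round (x / d), ?_⟩
  have e : x + (-round (x / d) : ℤ) * d = (x / d - round (x / d)) * d := by
    push_cast
    field_simp
    ring
  rw [e, abs_mul, abs_of_pos hd]
  nlinarith [abs_sub_round (x / d)]

theorem sgn (x : ℝ) : ∃ e : ℤ, (e = 1 ∨ e = -1) ∧ (e : ℝ) * x = |x| := by
  rcases le_total 0 x with h | h
  · exact ⟨1, .inl rfl, by simp [abs_of_nonneg h]⟩
  · exact ⟨-1, .inr rfl, by simp [abs_of_nonpos h]⟩

theorem lag (H : M3 ℝ) : (H 0 ⨯₃ H 2) ⬝ᵥ (H 0 ⨯₃ H 2) * d2 H =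
    ((H 0 ⨯₃ H 2) ⬝ᵥ (H 0 ⨯₃ H 1)) ^ 2 + d1 H * H.det ^ 2 := by
  simp [d1, d2, cross_apply, dotProduct, Fin.sum_univ_three, det_fin_three]
  ring

theorem lag1 (H : M3 ℝ) : H 1 ⬝ᵥ H 1 * d1 H = d2 H + (H 1 ⬝ᵥ H 0) ^ 2 := by
  rw [d2, d1, cross_dot_cross, dotProduct_comm (H 0) (H 1)]
  ring

theorem nn (x : Fin 3 → ℝ) : 0 ≤ x ⬝ᵥ x := Finset.sum_nonneg fun _ _ => mul_self_nonneg _

theorem d2_pos {H : M3 ℝ} (hH : H.det ≠ 0) : 0 < d2 H := by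
  refine (nn _).lt_of_ne fun e => hH ?_
  have h0 := dotProduct_self_eq_zero.1 e.symm
  have h1 : H.det = H 2 ⬝ᵥ (H 0 ⨯₃ H 1) := by
    simp [cross_apply, dotProduct, Fin.sum_univ_three, det_fin_three]
    ring
  rw [h1, h0, dotProduct_zero]

theorem d1_pos {H : M3 ℝ} (hH : H.det ≠ 0) : 0 < d1 H := by
  refine (nn _).lt_of_ne fun e => ?_
  have h1 := lag1 H
  have h2 : d1 H = 0 := e.symm
  rw [h2] at h1
  nlinarith [d2_pos hH, sq_nonneg (H 1 ⬝ᵥ H 0)]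

theorem size {H : M3 ℝ} (hH : H.det ≠ 0) : ∃ u : M3 ℤ, u.det ^ 2 = 1 ∧ u 0 = ![1, 0, 0] ∧
    d2 (cm u * H) = d2 H ∧
    (0 ≤ (cm u * H) 1 ⬝ᵥ (cm u * H) 0 ∧ (cm u * H) 1 ⬝ᵥ (cm u * H) 0 ≤ d1 H / 2) ∧
    |(cm u * H) 2 ⬝ᵥ (cm u * H) 0| ≤ d1 H / 2 ∧
    (0 ≤ ((cm u * H) 0 ⨯₃ (cm u * H) 2) ⬝ᵥ ((cm u * H) 0 ⨯₃ (cm u * H) 1) ∧
      ((cm u * H) 0 ⨯₃ (cm u * H) 2) ⬝ᵥ ((cm u * H) 0 ⨯₃ (cm u * H) 1) ≤ d2 H / 2) := by
  obtain ⟨a, ha⟩ := rnd (H 1 ⬝ᵥ H 0) (d1_pos hH)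
  obtain ⟨b, hb⟩ := rnd ((H 0 ⨯₃ H 2) ⬝ᵥ (H 0 ⨯₃ H 1)) (d2_pos hH)
  obtain ⟨c, hc⟩ := rnd (H 2 ⬝ᵥ H 0 + b * H 1 ⬝ᵥ H 0) (d1_pos hH)
  obtain ⟨s, hs, es⟩ := sgn (H 1 ⬝ᵥ H 0 + a * d1 H)
  obtain ⟨t, ht, et⟩ := sgn ((H 0 ⨯₃ H 2) ⬝ᵥ (H 0 ⨯₃ H 1) + b * d2 H)
  let u : M3 ℤ := !![1, 0, 0; s * a, s, 0; s * t * c, s * t * b, s * t]
  have e1 : (cm u * H) 1 ⬝ᵥ (cm u * H) 0 = s * (H 1 ⬝ᵥ H 0 + a * d1 H) := by
    simp [u, d1, mul_apply, dotProduct, Fin.sum_univ_three]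
    ring
  have e2 : (cm u * H) 2 ⬝ᵥ (cm u * H) 0 = s * t * (H 2 ⬝ᵥ H 0 + b * H 1 ⬝ᵥ H 0 + c * d1 H) := by
    simp [u, d1, mul_apply, dotProduct, Fin.sum_univ_three]
    ring
  have e3 : ((cm u * H) 0 ⨯₃ (cm u * H) 2) ⬝ᵥ ((cm u * H) 0 ⨯₃ (cm u * H) 1) =
      s ^ 2 * (t * ((H 0 ⨯₃ H 2) ⬝ᵥ (H 0 ⨯₃ H 1) + b * d2 H)) := by
    simp [u, d2, cross_apply, mul_apply, dotProduct, Fin.sum_univ_three]
    ring
  have e4 : d2 (cm u * H) = s ^ 2 * d2 H := by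
    simp [u, d2, cross_apply, mul_apply, dotProduct, Fin.sum_univ_three]
    ring
  have s2 : (s : ℝ) ^ 2 = 1 := by rcases hs with rfl | rfl <;> norm_num
  refine ⟨u, ?_, ?_, by rw [e4, s2, one_mul], ?_, ?_, ?_⟩
  · rcases hs with rfl | rfl <;> rcases ht with rfl | rfl <;> simp [u, det_fin_three]
  · rfl
  · rw [e1, es]
    exact ⟨abs_nonneg _, ha⟩
  · rw [e2]
    rcases hs with rfl | rfl <;> rcases ht with rfl | rfl <;> simpa [-neg_add_rev] using hc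
  · rw [e3, s2, one_mul, et]
    exact ⟨abs_nonneg _, hb⟩

theorem row0 {u : M3 ℤ} (hu : u 0 = ![1, 0, 0]) (g : M3 ℤ) : (u * g) 0 = g 0 := by
  funext j
  simp [mul_apply, Fin.sum_univ_three, hu]

theorem flip (H : M3 ℝ) {s t : ℤ} (hs : s = 1 ∨ s = -1) (ht : t = 1 ∨ t = -1) (i j : Fin 3) :
    (H * diagonal ![(s : ℝ), t, t]) i ⬝ᵥ (H * diagonal ![(s : ℝ), t, t]) j = H i ⬝ᵥ H j := by
  rcases hs with rfl | rfl <;> rcases ht with rfl | rfl <;>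
    simp [dotProduct, Fin.sum_univ_three, mul_diagonal]

theorem fixw {s t : ℤ} (hs : s = 1 ∨ s = -1) (ht : t = 1 ∨ t = -1) (p : Fin 3 → ℝ) :
    act (diagonal ![(s : ℝ), t, t]) (w1 p) = w1 p := by
  refine Prod.ext ?_ ?_ <;> ext i j <;> rcases hs with rfl | rfl <;> rcases ht with rfl | rfl <;>
    fin_cases i <;> fin_cases j <;> simp [act, w1, mul_diagonal, diagonal_mul]

theorem act_mul (g k : M3 ℝ) (w : M3 ℝ × M3 ℝ) : act (g * k) w = act g (act k w) := by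
  simp only [act, transpose_mul, mul_assoc]

end Red

open Red in
theorem red : RedSt := by
  intro h hh
  obtain ⟨g, hg, m1, m2⟩ := mini hh
  have dm : ∀ k : M3 ℤ, k.det ^ 2 = 1 → (cm k * h).det ^ 2 = h.det ^ 2 := fun k hk => by
    rw [det_mul, cm_det, mul_pow, ← Int.cast_pow, hk, Int.cast_one, one_mul]
  have hH : (cm g * h).det ≠ 0 := fun e => hh (by simpa [e] using (dm g hg).symm)
  obtain ⟨u, hu, u0, e2, hb, hc, hd⟩ := size hH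
  have hk : (u * g).det ^ 2 = 1 := by rw [det_mul, mul_pow, hu, hg, one_mul]
  rw [← mul_assoc, ← cm_mul] at e2 hb hc hd
  have e1 : d1 (cm (u * g) * h) = d1 (cm g * h) := by rw [d1_eq, d1_eq, row0 u0]
  rw [← e1] at hb hc m1
  rw [← e2] at hd m2
  rw [← row0 u0 g] at m2
  generalize u * g = k at *
  set H := cm k * h with hHk
  have hH' : H.det ≠ 0 := fun e => hh (by simpa [← hHk, e] using (dm k hk).symm)
  have p1 := d1_pos hH'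
  have p2 := d2_pos hH'
  have l1 : d1 H ≤ H 1 ⬝ᵥ H 1 := by
    have := m1 (!![0, 1, 0; 1, 0, 0; 0, 0, 1] * k) (by rw [det_mul, mul_pow, hk]; simp [det_fin_three])
    rw [cm_mul, mul_assoc, ← hHk] at this
    convert this using 1
    simp [d1, mul_apply, dotProduct, Fin.sum_univ_three]
  have l2 : d2 H ≤ (H 0 ⨯₃ H 2) ⬝ᵥ (H 0 ⨯₃ H 2) := by
    have := m2 (!![1, 0, 0; 0, 0, 1; 0, 1, 0] * k)
      (by rw [det_mul, mul_pow, hk]; simp [det_fin_three]) (row0 rfl k)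
    rw [cm_mul, mul_assoc, ← hHk] at this
    convert this using 1
    simp [d2, cross_apply, mul_apply, dotProduct, Fin.sum_univ_three]
  have he : 3 * d1 H ^ 2 ≤ 4 * d2 H := by nlinarith [lag1 H, hb.1, hb.2]
  have hf : 3 * d2 H ^ 2 ≤ 4 * d1 H * H.det ^ 2 := by nlinarith [lag H, hd.1, hd.2]
  obtain ⟨s, hs, es⟩ := sgn (H 0 0)
  obtain ⟨t, ht, et⟩ := sgn (H 0 1)
  have fl := flip H hs ht
  have dd : (H * diagonal ![(s : ℝ), t, t]).det ^ 2 = H.det ^ 2 := by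
    rcases hs with rfl | rfl <;> rcases ht with rfl | rfl <;> simp [Fin.prod_univ_three]
  refine ⟨k, H * diagonal ![(s : ℝ), t, t], hk, ?_, dd.trans (dm k hk), fun p => ?_⟩
  · simp only [Sieg, d1, d2, cross_dot_cross, fl, dd] at hb hc hd he hf ⊢
    refine ⟨⟨?_, ?_⟩, hb, hc, hd, he, hf⟩
    · simp [mul_diagonal, mul_comm (H 0 0), es]
    · simp [mul_diagonal, mul_comm (H 0 1), et]
  · rw [act_mul, fixw hs ht, hHk, act_mul]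

end Pool.Agent.Lib.MP_02f36d_nt.CF
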