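import Pool.Agent.Lib.MP_02f36d_nt.CF.St

/-! Three independent classes modulo squares in a cubic field of even class number. -/

set_option autoImplicit false

namespace Pool.Agent.Lib.MP_02f36d_nt.CF

open NumberField

namespace Sel

variable {L : Type} [Field L] [NumberField L]

omit [NumberField L] in
theorem sq_int {z : 𝓞 L} (h : IsSquare (z : L)) : IsSquare z := by
  obtain ⟨x, hx⟩ := h
  have hi : IsIntegral ℤ x := IsIntegral.of_pow two_pos (by rw [sq, ← hx]; exact z.2)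
  exact ⟨⟨x, hi⟩, RingOfIntegers.coe_injective hx⟩

theorem norm_neg (h3 : Module.finrank ℚ L = 3) (z : 𝓞 L) :
    Algebra.norm ℤ (-z) = -Algebra.norm ℤ z := by
  have h : Algebra.norm ℤ (algebraMap ℤ (𝓞 L) (-1)) = -1 := by
    rw [Algebra.norm_algebraMap, RingOfIntegers.rank, h3]
    norm_num
  rw [← neg_one_mul z, map_mul, show (-1 : 𝓞 L) = algebraMap ℤ (𝓞 L) (-1) by simp, h, neg_one_mul]

theorem unit (h3 : Module.finrank ℚ L = 3) :
    ∃ ε : (𝓞 L)ˣ, Algebra.norm ℤ (ε : 𝓞 L) = 1 ∧ ¬ IsSquare (ε : 𝓞 L) := by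
  classical
  have h1 := InfinitePlace.card_add_two_mul_card_eq_rank L
  have hr : 0 < Units.rank L := by
    rw [Units.rank, InfinitePlace.card_eq_nrRealPlaces_add_nrComplexPlaces]
    omega
  let i : Fin (Units.rank L) := ⟨0, hr⟩
  have key : ∀ ζ : Units.torsion L, ¬ IsSquare (((ζ : (𝓞 L)ˣ) * Units.fundSystem L i :
      (𝓞 L)ˣ) : 𝓞 L) := by
    rintro ζ ⟨x, hx⟩
    have hu : IsUnit x := isUnit_of_mul_isUnit_left (hx ▸ Units.isUnit _)
    obtain ⟨x, rfl⟩ := hu
    have hx' : (ζ : (𝓞 L)ˣ) * Units.fundSystem L i = x * x := Units.ext hx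
    obtain ⟨⟨η, n⟩, e, -⟩ := Units.exist_unique_eq_mul_prod L x
    obtain ⟨p, -, hp⟩ := Units.exist_unique_eq_mul_prod L (x * x)
    have a1 := hp (η * η, n + n) (by
      beta_reduce
      conv_lhs => rw [e]
      simp only [Pi.add_apply, zpow_add, Finset.prod_mul_distrib, Subgroup.coe_mul]
      exact mul_mul_mul_comm _ _ _ _)
    have a2 := hp (ζ, Pi.single i 1) (by
      beta_reduce
      rw [← hx', Finset.prod_eq_single i (fun j _ hj => by simp [hj]) (by simp)]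
      simp)
    have a3 := congrFun (congrArg Prod.snd (a1.trans a2.symm)) i
    simp only [Pi.add_apply, Pi.single_eq_same] at a3
    omega
  have hm : (-1 : (𝓞 L)ˣ) ∈ Units.torsion L :=
    isOfFinOrder_iff_pow_eq_one.2 ⟨2, two_pos, by simp⟩
  rcases Int.isUnit_iff.1 ((Units.fundSystem L i).isUnit.map (Algebra.norm ℤ)) with h | h
  · exact ⟨_, h, by simpa using key 1⟩
  · refine ⟨-Units.fundSystem L i, ?_, by simpa using key ⟨-1, hm⟩⟩
    rw [Units.val_neg, norm_neg h3, h, neg_neg]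

theorem eq_of_sq {I J : Ideal (𝓞 L)} (hI : I ≠ ⊥) (h : I * I = J * J) : I = J := by
  classical
  have hJ : J ≠ ⊥ := fun e => mul_ne_zero hI hI (by rw [h, e]; simp)
  have h1 := congrArg UniqueFactorizationMonoid.normalizedFactors h
  rw [UniqueFactorizationMonoid.normalizedFactors_mul hI hI,
    UniqueFactorizationMonoid.normalizedFactors_mul hJ hJ] at h1
  rw [← Ideal.prod_normalizedFactors_eq_self hI, ← Ideal.prod_normalizedFactors_eq_self hJ]
  congr 1
  ext P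
  have := congrArg (Multiset.count P) h1
  rw [Multiset.count_add, Multiset.count_add] at this
  omega

theorem cls (h3 : Module.finrank ℚ L = 3) (he : Even (classNumber L)) :
    ∃ (δ : 𝓞 L) (J : Ideal (𝓞 L)), J ≠ ⊥ ∧ J * J = Ideal.span {δ} ∧
      Algebra.norm ℤ δ = (Ideal.absNorm J : ℤ) ^ 2 ∧ ¬ J.IsPrincipal := by
  have : Fact (Nat.Prime 2) := ⟨Nat.prime_two⟩
  obtain ⟨c, hc⟩ := exists_prime_orderOf_dvd_card (G := ClassGroup (𝓞 L)) 2 he.two_dvd
  obtain ⟨⟨J, hJ⟩, rfl⟩ := ClassGroup.mk0_surjective c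
  have h1 : ClassGroup.mk0 (⟨J * J, mul_mem hJ hJ⟩ : nonZeroDivisors (Ideal (𝓞 L))) = 1 := by
    rw [← pow_orderOf_eq_one (ClassGroup.mk0 ⟨J, hJ⟩), hc, sq, ← map_mul]
    rfl
  obtain ⟨δ, hδ⟩ := (ClassGroup.mk0_eq_one_iff _).1 h1
  have h2 : ¬ J.IsPrincipal := fun h => by
    rw [(ClassGroup.mk0_eq_one_iff hJ).2 h, orderOf_one] at hc
    omega
  have h4 : (Algebra.norm ℤ δ).natAbs = Ideal.absNorm J ^ 2 := by
    rw [← Ideal.absNorm_span_singleton, sq, ← map_mul]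
    exact congrArg _ hδ.symm
  have h5 := nonZeroDivisors.ne_zero hJ
  rcases Int.natAbs_eq (Algebra.norm ℤ δ) with h | h
  · exact ⟨δ, J, h5, hδ, by rw [h, h4]; simp, h2⟩
  · refine ⟨-δ, J, h5, by rw [Ideal.span_singleton_neg]; exact hδ, ?_, h2⟩
    rw [norm_neg h3, h, h4]
    simp

end Sel

open Sel in
theorem sel : SelSt := by
  intro L _ _ h3 _ he
  obtain ⟨ε, e1, e2⟩ := unit h3
  obtain ⟨δ, J, j1, j2, j3, j4⟩ := cls h3 he
  have hs : ∀ u : (𝓞 L)ˣ, Ideal.span {δ * u} = Ideal.span {δ} := fun u =>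
    Ideal.span_singleton_mul_right_unit u.isUnit δ
  have k1 : ∀ u : (𝓞 L)ˣ, ¬ IsSquare ((δ * u : 𝓞 L) : L) := fun u h => by
    obtain ⟨x, hx⟩ := sq_int h
    refine j4 ⟨x, eq_of_sq (J := Ideal.span {x}) j1 ?_⟩
    rw [j2, ← hs u, hx, Ideal.span_singleton_mul_span_singleton]
  have k2 : ¬ IsSquare ((ε : 𝓞 L) : L) := fun h => e2 (sq_int h)
  have d0 : (δ : L) ≠ 0 := fun h => k1 1 ⟨0, by simp [h]⟩
  have k3 : ¬ IsSquare (((ε : 𝓞 L) : L) * δ) := fun h => k1 ε (by push_cast; rwa [mul_comm])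
  have k4 : ¬ IsSquare (((ε : 𝓞 L) : L) * ((δ * ε : 𝓞 L) : L)) := fun h => k1 (ε * ε) (by
    push_cast at h ⊢
    rwa [mul_left_comm] at h)
  have k5 : ¬ IsSquare ((δ : L) * ((δ * ε : 𝓞 L) : L)) := by
    rintro ⟨x, hx⟩
    refine k2 ⟨x / δ, ?_⟩
    push_cast at hx
    field_simp
    linear_combination hx
  refine ⟨![ε, δ, δ * ε], ![⊤, J, J], fun i => ?_, fun i j h => ?_⟩
  · fin_cases i
    · refine ⟨top_ne_bot, ?_, by simpa using e1, k2⟩
      simp [Ideal.span_singleton_eq_top.2 ε.isUnit]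
    · exact ⟨j1, j2, j3, by simpa using k1 1⟩
    · refine ⟨j1, j2.trans (hs ε).symm, ?_, k1 ε⟩
      change Algebra.norm ℤ (δ * ε) = _
      rw [map_mul, e1, mul_one]
      exact j3
  · fin_cases i <;> fin_cases j <;>
      first
      | rfl
      | exact absurd h k3
      | exact absurd h k4
      | exact absurd h k5
      | exact absurd h (by rw [mul_comm] at k3; exact k3)
      | exact absurd h (by rw [mul_comm] at k4; exact k4)
      | exact absurd h (by rw [mul_comm] at k5; exact k5)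

end Pool.Agent.Lib.MP_02f36d_nt.CF
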