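import Pool.Agent.Lib.MP_02f36d_nt.CF.Box

/-! Triple roots at large primes. -/

set_option autoImplicit false

noncomputable section

namespace Pool.Agent.Lib.MP_02f36d_nt.CF

open Filter Finset Box

namespace TripL

open Classical in
/-- The large prime divisors of a small integer. -/
def P (l : ℝ) (N : ℤ) : Finset ℕ :=
  N.natAbs.primeFactors.filter fun p => l < (p : ℝ) ^ 4 ∧ |(N : ℝ)| ≤ 7 * l ^ 2

theorem mem_P {l : ℝ} {N : ℤ} {p : ℕ} (hp : p.Prime) (hd : (p : ℤ) ∣ N) (h0 : N ≠ 0)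
    (hl : l < (p : ℝ) ^ 4) (hN : |(N : ℝ)| ≤ 7 * l ^ 2) : p ∈ P l N :=
  mem_filter.2 ⟨Nat.mem_primeFactors.2 ⟨hp, Int.natCast_dvd.1 hd, Int.natAbs_ne_zero.2 h0⟩, hl, hN⟩

theorem card_P {l : ℝ} (hl : 2401 < l) (N : ℤ) : ((P l N).card : ℝ) ≤ 8 := by
  by_contra hc
  have h9 : 9 ≤ (P l N).card := by
    have : (8 : ℝ) < (P l N).card := not_le.1 hc
    exact_mod_cast this
  obtain ⟨p, hp⟩ : (P l N).Nonempty := card_pos.1 (by omega)
  obtain ⟨hp1, -, hN⟩ := mem_filter.1 hp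
  have h0 : N.natAbs ≠ 0 := (Nat.mem_primeFactors.1 hp1).2.2
  have h1 : ∏ q ∈ P l N, q ≤ N.natAbs := Nat.le_of_dvd (Nat.pos_of_ne_zero h0)
    ((prod_dvd_prod_of_subset _ _ _ (filter_subset _ _)).trans (Nat.prod_primeFactors_dvd _))
  have h2 : ∏ q ∈ P l N, (q : ℝ) ≤ 7 * l ^ 2 := by
    refine le_trans ?_ hN
    rw [← Int.cast_abs, Int.abs_eq_natAbs, Int.cast_natCast, ← Nat.cast_prod]
    exact Nat.cast_le.2 h1
  have h3 : l ^ (P l N).card ≤ (∏ q ∈ P l N, (q : ℝ)) ^ 4 := by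
    rw [← prod_pow, ← prod_const]
    exact prod_le_prod (fun _ _ => by linarith) fun q hq => (mem_filter.1 hq).2.1.le
  have h4 : l ^ 9 ≤ l ^ (P l N).card := pow_le_pow_right₀ (by linarith) h9
  have h5 : (∏ q ∈ P l N, (q : ℝ)) ^ 4 ≤ (7 * l ^ 2) ^ 4 := by gcongr
  have h6 : 0 < l ^ 8 := by positivity
  have h7 : l ^ 9 = l * l ^ 8 := by ring
  have h8 : (7 * l ^ 2) ^ 4 = 2401 * l ^ 8 := by ring
  nlinarith

open Classical in
/-- A solution of the congruence for the last coefficient. -/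
def g (p : ℕ) (a b c : ℤ) : ℤ :=
  if h : ∃ d : ℤ, (p : ℤ) ∣ 27 * a ^ 2 * d - 9 * a * b * c + 2 * b ^ 3 then h.choose else 0

theorem dvd_g {p : ℕ} (hp : p.Prime) (h3 : 3 < p) {a b c d : ℤ} (ha : ¬ (p : ℤ) ∣ a)
    (h : (p : ℤ) ∣ 27 * a ^ 2 * d - 9 * a * b * c + 2 * b ^ 3) : (p : ℤ) ∣ d - g p a b c := by
  have e : ∃ d : ℤ, (p : ℤ) ∣ 27 * a ^ 2 * d - 9 * a * b * c + 2 * b ^ 3 := ⟨d, h⟩
  have h1 := e.choose_spec
  have h2 : g p a b c = e.choose := dif_pos e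
  rw [← h2] at h1
  have hq := Nat.prime_iff_prime_int.1 hp
  have h4 : (p : ℤ) ∣ 3 ^ 3 * (a ^ 2 * (d - g p a b c)) := by
    have e' : 3 ^ 3 * (a ^ 2 * (d - g p a b c)) = 27 * a ^ 2 * d - 9 * a * b * c + 2 * b ^ 3 -
      (27 * a ^ 2 * g p a b c - 9 * a * b * c + 2 * b ^ 3) := by ring
    rw [e']
    exact dvd_sub h h1
  rcases hq.dvd_or_dvd h4 with h5 | h5
  · have := Int.le_of_dvd (by norm_num) (hq.dvd_of_dvd_pow h5)
    omega
  · exact (hq.dvd_or_dvd h5).resolve_left fun h6 => ha (hq.dvd_of_dvd_pow h6)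

end TripL

open TripL in
theorem trip (hB : BasicSt) : TripSt := by
  intro ε hε
  obtain ⟨η, h0, hη⟩ : ∃ η : ℝ, 0 < η ∧ 128 * η = ε := ⟨ε / 128, by positivity, by ring⟩
  filter_upwards [eventually_gt_atTop 2401, eventually_ge_atTop ((2 / η) ^ 4),
    eventually_ge_atTop (2 / η)] with l hl h1 h2
  have l0 : 0 < l := by linarith
  have c1 : ∀ u : ℝ, ((J u l 1 0).card : ℝ) ≤ 2 * l := fun u => by
    have := card_J_le u 0 one_pos l0.le
    push_cast at this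
    linarith
  have c2 : ∀ (N : ℤ) (r : ℤ), ∀ p ∈ P l N, ((J 0 l p r).card : ℝ) ≤ η * l := fun N r p hp => by
    obtain ⟨a, b, -⟩ := mem_filter.1 hp
    have p0 := (Nat.prime_of_mem_primeFactors a).pos
    have p1 : (0 : ℝ) < p := by exact_mod_cast p0
    have := card_J_le 0 r (show (0 : ℤ) < p by exact_mod_cast p0) l0.le
    push_cast at this
    have e : 2 / η ≤ p := le_of_pow_le_pow_left₀ four_ne_zero p1.le (h1.trans b.le)
    rw [div_le_iff₀ h0] at e h2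
    have : l / p ≤ η * l / 2 := by
      rw [div_le_iff₀ p1]
      nlinarith
    linarith
  let S1 : Finset (Fin 4 → ℤ) := (J l l 1 0).biUnion fun a => (P l a).biUnion fun p =>
    (J 0 l p 0).biUnion fun b => (J l l 1 0).biUnion fun c =>
      (J 0 l 1 0).image fun d => ![a, b, c, d]
  let S2 : Finset (Fin 4 → ℤ) := (J l l 1 0).biUnion fun a => (J 0 l 1 0).biUnion fun b =>
    (J l l 1 0).biUnion fun c => (P l (b ^ 2 - 3 * a * c)).biUnion fun p =>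
      (J 0 l p (g p a b c)).image fun d => ![a, b, c, d]
  have k1 : (S1.card : ℝ) ≤ 2 * l * (8 * (η * l * (2 * l * (2 * l)))) := by
    refine (card_biU _ _ (8 * (η * l * (2 * l * (2 * l)))) fun a _ => ?_).trans
      (by gcongr; exact c1 _)
    refine (card_biU _ _ (η * l * (2 * l * (2 * l))) fun p hp => ?_).trans
      (by gcongr; exact card_P hl _)
    refine (card_biU _ _ (2 * l * (2 * l)) fun b _ => ?_).trans (by gcongr; exact c2 _ _ p hp)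
    refine (card_biU _ _ (2 * l) fun c _ => ?_).trans (by gcongr; exact c1 _)
    exact le_trans (Nat.cast_le.2 card_image_le) (c1 _)
  have k2 : (S2.card : ℝ) ≤ 2 * l * (2 * l * (2 * l * (8 * (η * l)))) := by
    refine (card_biU _ _ (2 * l * (2 * l * (8 * (η * l)))) fun a _ => ?_).trans
      (by gcongr; exact c1 _)
    refine (card_biU _ _ (2 * l * (8 * (η * l))) fun b _ => ?_).trans (by gcongr; exact c1 _)
    refine (card_biU _ _ (8 * (η * l)) fun c _ => ?_).trans (by gcongr; exact c1 _)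
    refine (card_biU _ _ (η * l) fun p hp => ?_).trans (by gcongr; exact card_P hl _)
    exact le_trans (Nat.cast_le.2 card_image_le) (c2 _ _ p hp)
  have hs : {f | InBox l f ∧ ∃ p : ℕ, p.Prime ∧ l < (p : ℝ) ^ 4 ∧ Trip p f} ⊆ ↑(S1 ∪ S2) := by
    rintro f ⟨hb, p, hp, hpl, ht⟩
    obtain ⟨-, -, H1, H2⟩ := hB.box l f l0 hb
    obtain ⟨⟨a1, a2⟩, ⟨b1, b2⟩, ⟨c1, c2⟩, d1, d2⟩ := hb
    have b1' : (0 : ℝ) ≤ f 1 := by exact_mod_cast b1
    have d1' : (0 : ℝ) ≤ f 3 := by exact_mod_cast d1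
    have a3 : (f 0 : ℝ) ≤ l + l := by nlinarith [et_le]
    have p0 : (0 : ℤ) < p := by exact_mod_cast hp.pos
    have ef : ![f 0, f 1, f 2, f 3] = f := by funext i; fin_cases i <;> rfl
    have mA : f 0 ∈ J l l 1 0 := (mem_J one_pos).2 ⟨⟨a1, a3⟩, one_dvd _⟩
    have mC : f 2 ∈ J l l 1 0 := (mem_J one_pos).2 ⟨⟨c1, by linarith⟩, one_dvd _⟩
    rw [coe_union, Set.mem_union, mem_coe, mem_coe]
    by_cases ha : (p : ℤ) ∣ f 0
    · left
      have hb : (p : ℤ) ∣ f 1 := by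
        rcases ht with ⟨r, -, u, -⟩ | ⟨-, u, -⟩
        · exact (dvd_add_left ((ha.mul_left 3).mul_right _)).1 u
        · exact u
      have a0 : (0 : ℝ) < f 0 := by linarith
      refine mem_biUnion.2 ⟨f 0, mA, mem_biUnion.2 ⟨p, mem_P hp ha ?_ hpl ?_, mem_biUnion.2
        ⟨f 1, (mem_J p0).2 ⟨⟨b1', by linarith⟩, by simpa using hb⟩, mem_biUnion.2 ⟨f 2, mC,
          mem_image.2 ⟨f 3, (mem_J one_pos).2 ⟨⟨d1', by linarith⟩, one_dvd _⟩, ef⟩⟩⟩⟩⟩
      · exact_mod_cast a0.ne'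
      · rw [abs_of_pos a0]; nlinarith
    · right
      obtain ⟨r, -, ⟨x, u1⟩, ⟨y, u2⟩, z, u3⟩ := ht.resolve_right fun h => ha h.1
      have e1 : f 1 = p * x - 3 * f 0 * r := by linarith
      have e2 : f 2 = p * y + 3 * f 0 * r ^ 2 := by linarith
      have e3 : f 3 = p * z - f 0 * r ^ 3 := by linarith
      have p3 : 3 < p := by
        by_contra h
        have h' : (p : ℝ) ≤ 3 := by exact_mod_cast not_lt.1 h
        have : (p : ℝ) ^ 4 ≤ 3 ^ 4 := by gcongr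
        linarith
      refine mem_biUnion.2 ⟨f 0, mA, mem_biUnion.2 ⟨f 1,
        (mem_J one_pos).2 ⟨⟨b1', by linarith⟩, one_dvd _⟩, mem_biUnion.2 ⟨f 2, mC, mem_biUnion.2
          ⟨p, mem_P hp ?_ H1.ne hpl ?_, mem_image.2 ⟨f 3, (mem_J p0).2 ⟨⟨d1', by linarith⟩,
            dvd_g hp p3 ha ?_⟩, ef⟩⟩⟩⟩⟩
      · exact ⟨p * x ^ 2 - 6 * x * f 0 * r - 3 * f 0 * y, by rw [e1, e2]; ring⟩
      · have : ((f 1 ^ 2 - 3 * f 0 * f 2 : ℤ) : ℝ) < 0 := by exact_mod_cast H1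
        rw [abs_of_neg this]; linarith
      · exact ⟨27 * f 0 ^ 2 * z - 9 * f 0 * (p * x * y + 3 * x * f 0 * r ^ 2 - 3 * f 0 * r * y) +
          2 * (p ^ 2 * x ^ 3 - 9 * p * x ^ 2 * f 0 * r + 27 * x * f 0 ^ 2 * r ^ 2),
          by rw [e1, e2, e3]; ring⟩
  have h3 := Set.ncard_le_ncard hs (finite_toSet _)
  rw [Set.ncard_coe_finset] at h3
  have h4 : ({f | InBox l f ∧ ∃ p : ℕ, p.Prime ∧ l < (p : ℝ) ^ 4 ∧ Trip p f}.ncard : ℝ) ≤
      S1.card + S2.card := by exact_mod_cast h3.trans (card_union_le _ _)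
  calc _ ≤ 2 * l * (8 * (η * l * (2 * l * (2 * l)))) + 2 * l * (2 * l * (2 * l * (8 * (η * l)))) :=
        by linarith
    _ = _ := by rw [← hη]; ring

end Pool.Agent.Lib.MP_02f36d_nt.CF
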