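import Pool.Agent.Lib.MP_02f36d_nt.CF.St

/-! Most forms of the class have squarefree discriminant. -/

set_option autoImplicit false

noncomputable section

namespace Pool.Agent.Lib.MP_02f36d_nt.CF

open Filter Finset

namespace VL

theorem tele (N : ℕ) : ∑ n ∈ Ioc 1000 (1000 + N), (2 * ((n : ℝ) + 1) / (n : ℝ) ^ 3) ≤
    2 / 1000 - 2 / (1000 + N : ℝ) := by
  induction N with
  | zero => simp
  | succ N ih =>
    rw [← add_assoc, Finset.sum_Ioc_succ_top (by omega)]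
    have h0 : (0 : ℝ) ≤ N := Nat.cast_nonneg N
    have : 2 * (((1000 + N + 1 : ℕ) : ℝ) + 1) / ((1000 + N + 1 : ℕ) : ℝ) ^ 3 ≤
        2 / (1000 + N : ℝ) - 2 / (1000 + (N + 1 : ℕ) : ℝ) := by
      push_cast
      rw [div_sub_div _ _ (by positivity) (by positivity), div_le_div_iff₀ (by positivity)
        (by positivity)]
      nlinarith [mul_nonneg h0 h0, mul_nonneg h0 (mul_nonneg h0 h0)]
    linarith

theorem ex_prime {d : ℤ} (h : ¬ Squarefree d) : ∃ p : ℕ, p.Prime ∧ (p : ℤ) ^ 2 ∣ d := by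
  rw [← Int.squarefree_natAbs, Nat.squarefree_iff_prime_squarefree] at h
  push Not at h
  obtain ⟨p, hp, hd⟩ := h
  refine ⟨p, hp, ?_⟩
  rw [← Int.dvd_natAbs, sq]
  exact_mod_cast hd

theorem ncard_biUnion {α : Type} (s : Finset ℕ) (A : ℕ → Set α) :
    (⋃ p ∈ s, A p).ncard ≤ ∑ p ∈ s, (A p).ncard := Finset.set_ncard_biUnion_le s A

theorem mm_pos : (0 : ℝ) < mm := by exact_mod_cast primorial_pos 1000

theorem dvd_mm {p : ℕ} (hp : p.Prime) (h : p ≤ 1000) : p ∣ mm :=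
  (Nat.Prime.dvd_primorial_iff hp).2 h

end VL

attribute [local irreducible] mm

open VL in
theorem vmain (hB : BasicSt) (hC : ClsSt) (hL : LowSt) (hS : SmallSt) (hT : TripSt)
    (hD : DblSt) : VSt := by
  classical
  intro f0 hf0
  have het : 0 < et := by norm_num [et]
  have hm := mm_pos
  have hm4 : (0 : ℝ) < (mm : ℝ) ^ 4 := pow_pos hm 4
  obtain ⟨C, hC0, hD'⟩ := hD
  set η : ℝ := 1 / 2000 * et / (mm : ℝ) ^ 4 with hη
  have hη0 : 0 < η := div_pos (by positivity) hm4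
  obtain ⟨K, hK⟩ := exists_nat_ge (2 * C / η)
  filter_upwards [hL f0 (1 / 2000) (by norm_num), hS f0 (1 / 2000) (by norm_num), hT η hη0,
    eventually_gt_atTop 0, eventually_ge_atTop ((K : ℝ) ^ 4)] with l h1 h2 h3 hl hKl
  obtain ⟨N, hN⟩ := exists_nat_ge (110 * l ^ 4)
  have hNN : 0 ≤ NN l := div_nonneg (by positivity) hm4.le
  have hηl : η * l ^ 4 = 1 / 2000 * NN l := by rw [hη, NN]; ring
  set P1 := (Ioc 1000 (1000 + N)).filter fun p : ℕ => p.Prime ∧ (p : ℝ) ^ 4 ≤ l with hP1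
  set P2 := (Ioo K (N + 1)).filter fun p : ℕ => p.Prime with hP2
  set G := {f | InBox l f ∧ Cong mm f f0 ∧ Squarefree (disc f)} with hG
  set A := ⋃ p ∈ P1, {f | InBox l f ∧ Cong mm f f0 ∧ (Dbl p f ∨ Trip p f)} with hA
  set B := {f | InBox l f ∧ ∃ p : ℕ, p.Prime ∧ l < (p : ℝ) ^ 4 ∧ Trip p f} with hBd
  set D := ⋃ p ∈ P2, {f | InBox l f ∧ Irr f ∧ Dbl p f ∧ ¬ Trip p f} with hDd
  have hsub : {f | InBox l f ∧ Cong mm f f0} ⊆ G ∪ A ∪ B ∪ D := by
    rintro f ⟨hb, hc⟩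
    by_cases hs : Squarefree (disc f)
    · exact Or.inl (Or.inl (Or.inl ⟨hb, hc, hs⟩))
    have hnr : ∀ p : ℕ, p.Prime → p ≤ 1000 → NoRoot p f := fun p hp h =>
      hB.cong p mm f f0 (dvd_mm hp h) hc (hf0 p hp h)
    obtain ⟨p, hp, hd⟩ := ex_prime hs
    have hp1 : 1000 < p := not_le.1 fun h =>
      hC.sep p f hp (hnr p hp h) ((dvd_pow_self _ two_ne_zero).trans hd)
    have hbox := hB.box l f hl hb
    have hpN : p ≤ N := by
      have a1 : (p : ℤ) ^ 2 ≤ -disc f := Int.le_of_dvd (by linarith [hbox.1]) (dvd_neg.2 hd)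
      have a2 : (p : ℝ) ^ 2 ≤ -((disc f : ℤ) : ℝ) := by exact_mod_cast a1
      have a3 : (1000 : ℝ) < p := by exact_mod_cast hp1
      have a4 : (p : ℝ) ≤ N := by nlinarith [hbox.2.1]
      exact_mod_cast a4
    have hcl := hC.cls p f hp (by omega) hd
    by_cases hsm : (p : ℝ) ^ 4 ≤ l
    · refine Or.inl (Or.inl (Or.inr ?_))
      exact Set.mem_biUnion (x := p) (by simp [hP1, hp, hp1, hsm]; omega) ⟨hb, hc, hcl⟩
    by_cases ht : Trip p f
    · exact Or.inl (Or.inr ⟨hb, p, hp, not_le.1 hsm, ht⟩)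
    have hKp : K < p := by
      have : (K : ℝ) ^ 4 < (p : ℝ) ^ 4 := hKl.trans_lt (not_le.1 hsm)
      exact_mod_cast lt_of_pow_lt_pow_left₀ 4 (Nat.cast_nonneg p) this
    refine Or.inr (Set.mem_biUnion (x := p) (by simp [hP2, hp, hKp]; omega) ?_)
    exact ⟨hb, hB.irr 2 f Nat.prime_two (hnr 2 Nat.prime_two (by norm_num)),
      hcl.resolve_right ht, ht⟩
  have hfin : (G ∪ A ∪ B ∪ D).Finite := by
    refine (hB.fin l).subset ?_
    rintro f (((h | h) | h) | h)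
    · exact h.1
    · obtain ⟨p, -, h⟩ := Set.mem_iUnion₂.1 h
      exact h.1
    · exact h.1
    · obtain ⟨p, -, h⟩ := Set.mem_iUnion₂.1 h
      exact h.1
  have hle : {f | InBox l f ∧ Cong mm f f0}.ncard ≤ G.ncard + A.ncard + B.ncard + D.ncard :=
    (Set.ncard_le_ncard hsub hfin).trans ((Set.ncard_union_le _ _).trans (Nat.add_le_add_right
      ((Set.ncard_union_le _ _).trans (Nat.add_le_add_right (Set.ncard_union_le _ _) _)) _))
  have hle' : ({f | InBox l f ∧ Cong mm f f0}.ncard : ℝ) ≤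
      G.ncard + A.ncard + B.ncard + D.ncard := by exact_mod_cast hle
  have hA' : (A.ncard : ℝ) ≤ (1 + 1 / 2000) * (2 / 1000) * NN l := by
    refine (Nat.cast_le.2 (ncard_biUnion P1 _)).trans ?_
    rw [Nat.cast_sum]
    refine (Finset.sum_le_sum fun p hp => h2 p (mem_filter.1 hp).2.1
      (mem_Ioc.1 (mem_filter.1 hp).1).1 (mem_filter.1 hp).2.2).trans ?_
    rw [← Finset.sum_mul, ← Finset.mul_sum]
    refine mul_le_mul_of_nonneg_right (mul_le_mul_of_nonneg_left ?_ (by norm_num)) hNN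
    refine (Finset.sum_le_sum_of_subset_of_nonneg (filter_subset _ _)
      fun p _ _ => by positivity).trans ((tele N).trans ?_)
    have : (0 : ℝ) ≤ 2 / (1000 + N : ℝ) := by positivity
    linarith
  have hD2 : (D.ncard : ℝ) ≤ η * l ^ 4 := by
    refine (Nat.cast_le.2 (ncard_biUnion P2 _)).trans ?_
    rw [Nat.cast_sum]
    refine (Finset.sum_le_sum fun p hp => hD' l hl p (mem_filter.1 hp).2).trans ?_
    simp only [div_eq_mul_inv]
    rw [← Finset.mul_sum]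
    have a1 : ∑ p ∈ P2, ((p : ℝ) ^ 2)⁻¹ ≤ 2 / (K + 1) :=
      (Finset.sum_le_sum_of_subset_of_nonneg (filter_subset _ _)
        fun p _ _ => by positivity).trans (sum_Ioo_inv_sq_le K (N + 1))
    have a2 : C * (2 / (K + 1)) ≤ η := by
      rw [div_le_iff₀ hη0] at hK
      rw [← mul_div_assoc, div_le_iff₀ (by positivity)]
      nlinarith
    calc C * l ^ 4 * ∑ p ∈ P2, ((p : ℝ) ^ 2)⁻¹ ≤ C * l ^ 4 * (2 / (K + 1)) :=
          mul_le_mul_of_nonneg_left a1 (by positivity)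
      _ = C * (2 / (K + 1)) * l ^ 4 := by ring
      _ ≤ η * l ^ 4 := mul_le_mul_of_nonneg_right a2 (by positivity)
  linarith

end Pool.Agent.Lib.MP_02f36d_nt.CF
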