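import Pool.Agent.Lib.MP_02f36d_nt.CF.St

/-! The volume of the Siegel set. -/

set_option autoImplicit false

noncomputable section

namespace Pool.Agent.Lib.MP_02f36d_nt.CF

open Matrix MeasureTheory Set Real

namespace Vol

abbrev V3 := Fin 3 → ℝ

theorem mp3 (α : Type) [MeasureSpace α] [SigmaFinite (volume : Measure α)] :
    MeasurePreserving (fun h : Fin 3 → α => (h 0, h 1, h 2)) volume volume :=
  ((MeasurePreserving.id volume).prod (volume_preserving_finTwoArrow α)).comp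
    (volume_preserving_piFinSuccAbove (fun _ : Fin 3 => α) 0)

theorem disc_le (R : ℝ) (hR : 0 ≤ R) :
    volume {p : ℝ × ℝ | p.1 ^ 2 + p.2 ^ 2 ≤ R} = ENNReal.ofReal (π * R) := by
  rw [← Complex.volume_preserving_equiv_real_prod.measure_preimage_equiv]
  have : Complex.measurableEquivRealProd ⁻¹' {p : ℝ × ℝ | p.1 ^ 2 + p.2 ^ 2 ≤ R} =
      Metric.closedBall 0 √R := by
    ext z
    simp [Complex.norm_eq_sqrt_sq_add_sq, Real.sqrt_le_sqrt_iff hR]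
  rw [this, Complex.volume_closedBall, ← ENNReal.ofReal_pow (sqrt_nonneg _), sq_sqrt hR,
    ← ENNReal.ofReal_coe_nnreal, NNReal.coe_real_pi, ← ENNReal.ofReal_mul hR, mul_comm]

theorem disc_lt (R : ℝ) (hR : 0 ≤ R) :
    volume {p : ℝ × ℝ | p.1 ^ 2 + p.2 ^ 2 < R} = ENNReal.ofReal (π * R) := by
  rw [← Complex.volume_preserving_equiv_real_prod.measure_preimage_equiv]
  have : Complex.measurableEquivRealProd ⁻¹' {p : ℝ × ℝ | p.1 ^ 2 + p.2 ^ 2 < R} =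
      Metric.ball 0 √R := by
    ext z
    have h0 : 0 ≤ z.re ^ 2 + z.im ^ 2 := by positivity
    simp [Complex.norm_eq_sqrt_sq_add_sq, Real.sqrt_lt_sqrt_iff h0]
  rw [this, Complex.volume_ball, ← ENNReal.ofReal_pow (sqrt_nonneg _), sq_sqrt hR,
    ← ENNReal.ofReal_coe_nnreal, NNReal.coe_real_pi, ← ENNReal.ofReal_mul hR, mul_comm]

theorem ann (R1 R2 : ℝ) (h1 : 0 ≤ R1) :
    volume {p : ℝ × ℝ | R1 ≤ p.1 ^ 2 + p.2 ^ 2 ∧ p.1 ^ 2 + p.2 ^ 2 ≤ R2} ≤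
      ENNReal.ofReal (π * (R2 - R1)) := by
  rcases le_or_gt R1 R2 with h | h
  · have : {p : ℝ × ℝ | R1 ≤ p.1 ^ 2 + p.2 ^ 2 ∧ p.1 ^ 2 + p.2 ^ 2 ≤ R2} =
        {p : ℝ × ℝ | p.1 ^ 2 + p.2 ^ 2 ≤ R2} \ {p : ℝ × ℝ | p.1 ^ 2 + p.2 ^ 2 < R1} := by
      ext p
      simp [and_comm]
    have hs : {p : ℝ × ℝ | p.1 ^ 2 + p.2 ^ 2 < R1} ⊆ {p : ℝ × ℝ | p.1 ^ 2 + p.2 ^ 2 ≤ R2} :=
      fun p hp => le_trans (le_of_lt hp) h
    have hm : MeasurableSet {p : ℝ × ℝ | p.1 ^ 2 + p.2 ^ 2 < R1} :=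
      measurableSet_lt (by fun_prop) (by fun_prop)
    rw [this, measure_sdiff hs hm.nullMeasurableSet
      (by rw [disc_lt _ h1]; exact ENNReal.ofReal_ne_top), disc_le _ (h1.trans h), disc_lt _ h1,
      ← ENNReal.ofReal_sub _ (by positivity), mul_sub]
  · have : {p : ℝ × ℝ | R1 ≤ p.1 ^ 2 + p.2 ^ 2 ∧ p.1 ^ 2 + p.2 ^ 2 ≤ R2} = ∅ :=
      eq_empty_of_forall_notMem fun p hp => absurd (hp.1.trans hp.2) (not_le.2 h)
    rw [this, measure_empty]
    exact bot_le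

theorem pre (M : M3 ℝ) (hM : 0 < M.det) (B : Set V3) :
    volume {v : V3 | M *ᵥ v ∈ B} = ENNReal.ofReal M.det⁻¹ * volume B := by
  have h := Measure.addHaar_preimage_linearMap (volume : Measure V3) (f := Matrix.toLin' M)
    (by rw [LinearMap.det_toLin']; exact hM.ne') B
  rw [LinearMap.det_toLin', abs_of_pos (inv_pos.2 hM)] at h
  rw [← h]
  rfl

/-- The conditions on the last row. -/
def SA (e : ℝ) (a b : V3) : Set V3 :=
  {c | |c ⬝ᵥ a| ≤ a ⬝ᵥ a / 2 ∧ 0 ≤ (a ⨯₃ c) ⬝ᵥ (a ⨯₃ b) ∧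
    (a ⨯₃ c) ⬝ᵥ (a ⨯₃ b) ≤ (a ⨯₃ b) ⬝ᵥ (a ⨯₃ b) / 2 ∧ 1 ≤ ((a ⨯₃ b) ⬝ᵥ c) ^ 2 ∧
    ((a ⨯₃ b) ⬝ᵥ c) ^ 2 ≤ 1 + e}

/-- The conditions on the middle row. -/
def SB (t : ℝ) (a : V3) : Set V3 :=
  {b | 0 < a ⬝ᵥ a ∧ 0 < (a ⨯₃ b) ⬝ᵥ (a ⨯₃ b) ∧ 0 ≤ b ⬝ᵥ a ∧ b ⬝ᵥ a ≤ a ⬝ᵥ a / 2 ∧
    3 * (a ⬝ᵥ a) ^ 2 ≤ 4 * ((a ⨯₃ b) ⬝ᵥ (a ⨯₃ b)) ∧ (a ⨯₃ b) ⬝ᵥ (a ⨯₃ b) ≤ t * √(a ⬝ᵥ a)}

theorem rowA (e : ℝ) (he : 0 ≤ e) (a b : V3) (h1 : 0 < a ⬝ᵥ a) (h2 : 0 < (a ⨯₃ b) ⬝ᵥ (a ⨯₃ b)) :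
    volume (SA e a b) ≤ ENNReal.ofReal (e / 2) := by
  set p := a ⬝ᵥ a with hp
  set q := (a ⨯₃ b) ⬝ᵥ (a ⨯₃ b) with hq
  let M : M3 ℝ := Matrix.of ![a, p • b - (a ⬝ᵥ b) • a, a ⨯₃ b]
  have hM : M.det = p * q := by
    simp [M, hp, hq, det_fin_three, cross_apply, vec3_dotProduct]
    ring
  have hsub : SA e a b ⊆ {v : V3 | M *ᵥ v ∈ Icc ![-(p / 2), 0, 1] ![p / 2, q / 2, 1 + e / 2] ∪
      Icc ![-(p / 2), 0, -(1 + e / 2)] ![p / 2, q / 2, -1]} := by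
    rintro c ⟨c1, c2, c3, c4, c5⟩
    have m0 : (M *ᵥ c) 0 = c ⬝ᵥ a := dotProduct_comm _ _
    have m1 : (M *ᵥ c) 1 = (a ⨯₃ c) ⬝ᵥ (a ⨯₃ b) := by
      show (p • b - (a ⬝ᵥ b) • a) ⬝ᵥ c = _
      rw [cross_dot_cross, sub_dotProduct, smul_dotProduct, smul_dotProduct, dotProduct_comm b c,
        dotProduct_comm a c]
      rfl
    have m2 : (M *ᵥ c) 2 = (a ⨯₃ b) ⬝ᵥ c := rfl
    rw [← m0, abs_le] at c1
    rw [← m1] at c2 c3
    rw [← m2] at c4 c5
    have c6 : |(M *ᵥ c) 2| ≤ 1 + e / 2 := abs_le_of_sq_le_sq' (by nlinarith) (by linarith) |> abs_le.2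
    rw [abs_le] at c6
    rcases le_total 0 ((M *ᵥ c) 2) with h | h
    · left
      have : 1 ≤ (M *ᵥ c) 2 := by nlinarith
      constructor <;> intro i <;> fin_cases i <;> simp <;> linarith
    · right
      have : (M *ᵥ c) 2 ≤ -1 := by nlinarith
      constructor <;> intro i <;> fin_cases i <;> simp <;> linarith
  refine (measure_mono hsub).trans ?_
  rw [pre M (by rw [hM]; positivity), hM]
  refine (mul_le_mul_right (measure_union_le _ _) _).trans ?_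
  simp only [Real.volume_Icc_pi, Fin.prod_univ_three, Matrix.cons_val]
  rw [← ENNReal.ofReal_mul (by linarith), ← ENNReal.ofReal_mul (by nlinarith),
    ← ENNReal.ofReal_mul (by nlinarith), ← ENNReal.ofReal_add (by nlinarith [mul_pos h1 h2])
    (by nlinarith [mul_pos h1 h2]), ← ENNReal.ofReal_mul (by positivity)]
  apply ENNReal.ofReal_le_ofReal
  apply le_of_eq
  field_simp
  ring

theorem unit_perp (a : V3) : ∃ u : V3, a ⬝ᵥ u = 0 ∧ u ⬝ᵥ u = 1 := by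
  by_cases h : a 0 ^ 2 + a 1 ^ 2 = 0
  · refine ⟨![1, 0, 0], ?_, ?_⟩
    · have : a 0 = 0 := by nlinarith [sq_nonneg (a 0), sq_nonneg (a 1)]
      simp only [vec3_dotProduct, Matrix.cons_val, this]
      ring
    · simp [vec3_dotProduct]
  · have hm : 0 < a 0 ^ 2 + a 1 ^ 2 := lt_of_le_of_ne (by positivity) (Ne.symm h)
    have hs := sq_sqrt hm.le
    have hs0 := sqrt_pos.2 hm
    refine ⟨![-a 1 / √(a 0 ^ 2 + a 1 ^ 2), a 0 / √(a 0 ^ 2 + a 1 ^ 2), 0], ?_, ?_⟩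
    · simp only [vec3_dotProduct, Matrix.cons_val]
      ring
    · simp only [vec3_dotProduct, Matrix.cons_val]
      field_simp
      linarith

theorem rowB (t : ℝ) (a : V3) :
    volume (SB t a) ≤ ENNReal.ofReal (π / 2 * (t - 3 / 4 * √(a ⬝ᵥ a) ^ 3)) := by
  rcases (SB t a).eq_empty_or_nonempty with h | ⟨b0, h1, -⟩
  · rw [h, measure_empty]
    exact bot_le
  obtain ⟨u, hu, huu⟩ := unit_perp a
  set p := a ⬝ᵥ a with hp
  set r := √p with hr
  have hr0 : 0 < r := sqrt_pos.2 h1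
  have hr2 : r ^ 2 = p := sq_sqrt h1.le
  let M : M3 ℝ := Matrix.of ![a, r • u, a ⨯₃ u]
  have hM : M.det = r * p := by
    have : M.det = r * ((a ⨯₃ u) ⬝ᵥ (a ⨯₃ u)) := by
      simp [M, det_fin_three, cross_apply, vec3_dotProduct]
      ring
    rw [this, cross_dot_cross, hu, huu, ← hp]
    ring
  have hsub : SB t a ⊆ {v : V3 | M *ᵥ v ∈ (fun h : Fin 3 → ℝ => (h 0, h 1, h 2)) ⁻¹'
      (Icc 0 (p / 2) ×ˢ {y : ℝ × ℝ | 3 / 4 * p ^ 2 ≤ y.1 ^ 2 + y.2 ^ 2 ∧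
        y.1 ^ 2 + y.2 ^ 2 ≤ t * r})} := by
    rintro b ⟨-, -, c1, c2, c3, c4⟩
    have m0 : (M *ᵥ b) 0 = b ⬝ᵥ a := dotProduct_comm _ _
    have m1 : (M *ᵥ b) 1 = r * (u ⬝ᵥ b) := smul_dotProduct r u b
    have m2 : (M *ᵥ b) 2 = (a ⨯₃ u) ⬝ᵥ b := rfl
    have g : ((a ⨯₃ u) ⬝ᵥ b) ^ 2 = (u ⬝ᵥ u) * ((a ⨯₃ b) ⬝ᵥ (a ⨯₃ b)) - (a ⬝ᵥ a) * (u ⬝ᵥ b) ^ 2 -
        (a ⬝ᵥ u) * ((a ⬝ᵥ u) * (b ⬝ᵥ b) - 2 * (u ⬝ᵥ b) * (a ⬝ᵥ b)) := by
      simp only [cross_apply, vec3_dotProduct, Matrix.cons_val]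
      ring
    have k : (M *ᵥ b) 1 ^ 2 + (M *ᵥ b) 2 ^ 2 = (a ⨯₃ b) ⬝ᵥ (a ⨯₃ b) := by
      rw [m1, m2, g, hu, huu, mul_pow, hr2]
      ring
    refine ⟨⟨?_, ?_⟩, ?_, ?_⟩
    · exact c1.trans m0.ge
    · exact m0.le.trans c2
    · show _ ≤ (M *ᵥ b) 1 ^ 2 + (M *ᵥ b) 2 ^ 2
      rw [k]
      linarith
    · show (M *ᵥ b) 1 ^ 2 + (M *ᵥ b) 2 ^ 2 ≤ _
      rw [k]
      exact c4
  refine (measure_mono hsub).trans ?_
  have hm : MeasurableSet {y : ℝ × ℝ | 3 / 4 * p ^ 2 ≤ y.1 ^ 2 + y.2 ^ 2 ∧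
      y.1 ^ 2 + y.2 ^ 2 ≤ t * r} := by measurability
  rw [pre M (by rw [hM]; positivity), hM, (mp3 ℝ).measure_preimage
    (measurableSet_Icc.prod hm).nullMeasurableSet,
    Measure.volume_eq_prod, Measure.prod_prod, Real.volume_Icc]
  refine (mul_le_mul_right (mul_le_mul_right (ann _ _ (by positivity)) _) _).trans ?_
  rw [← ENNReal.ofReal_mul (by linarith), ← ENNReal.ofReal_mul (by positivity)]
  apply ENNReal.ofReal_le_ofReal
  apply le_of_eq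
  rw [← hr2]
  field_simp
  ring

theorem half (A : Set V3) (hA : MeasurableSet A) (i : Fin 3)
    (h : ∀ x ∈ A, (fun j => if j = i then -x j else x j) ∈ A) :
    2 * volume (A ∩ {x | 0 ≤ x i}) ≤ volume A := by
  have hf : MeasurePreserving (fun (x : V3) j => if j = i then -x j else x j) volume volume :=
    volume_preserving_pi (f := fun (j : Fin 3) (y : ℝ) => if j = i then -y else y) fun j => by
      by_cases hj : j = i
      · simpa [hj] using Measure.measurePreserving_neg (volume : Measure ℝ)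
      · simp only [hj, if_false]
        exact MeasurePreserving.id (volume : Measure ℝ)
  have hN : MeasurableSet (A ∩ {x | x i < 0}) := hA.inter (measurableSet_lt (by fun_prop) (by fun_prop))
  have e1 : volume (A ∩ {x | 0 ≤ x i}) ≤ volume (A ∩ {x | 0 < x i}) := by
    have : A ∩ {x | 0 ≤ x i} ⊆ (A ∩ {x | 0 < x i}) ∪ {x | x i = 0} := by
      rintro x ⟨h1, h2⟩
      rcases lt_or_eq_of_le (show 0 ≤ x i from h2) with h3 | h3
      · exact Or.inl ⟨h1, h3⟩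
      · exact Or.inr h3.symm
    refine (measure_mono this).trans ((measure_union_le _ _).trans ?_)
    rw [show volume {x : V3 | x i = 0} = 0 from Measure.pi_hyperplane _ i 0, add_zero]
  have e2 : volume (A ∩ {x | 0 < x i}) ≤ volume (A ∩ {x | x i < 0}) := by
    rw [← hf.measure_preimage hN.nullMeasurableSet]
    refine measure_mono fun x hx => ⟨h x hx.1, ?_⟩
    simpa using hx.2
  have e3 : volume (A ∩ {x | 0 < x i}) + volume (A ∩ {x | x i < 0}) ≤ volume A := by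
    rw [← measure_union _ hN]
    · exact measure_mono (union_subset inter_subset_left inter_subset_left)
    · exact disjoint_left.2 fun x h1 h2 => lt_asymm (show 0 < x i from h1.2) h2.2
  rw [two_mul]
  exact (add_le_add e1 (e1.trans e2)).trans e3

theorem ball3 (c : ℝ) :
    volume {a : V3 | √(a ⬝ᵥ a) ^ 3 < c} ≤ ENNReal.ofReal (4 * (π / 3 * c)) := by
  rcases le_or_gt c 0 with hc | hc
  · have : {a : V3 | √(a ⬝ᵥ a) ^ 3 < c} = ∅ :=
      eq_empty_of_forall_notMem fun a ha => absurd (lt_of_lt_of_le ha hc) (not_lt.2 (by positivity))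
    rw [this, measure_empty]
    exact bot_le
  obtain ⟨r, hr0, hr⟩ : ∃ r : ℝ, 0 ≤ r ∧ r ^ 3 = c :=
    ⟨c ^ (((3 : ℕ) : ℝ)⁻¹), by positivity, Real.rpow_inv_natCast_pow hc.le (by norm_num)⟩
  have : {a : V3 | √(a ⬝ᵥ a) ^ 3 < c} ⊆
      (WithLp.toLp 2 : V3 → EuclideanSpace ℝ (Fin 3)) ⁻¹' Metric.ball 0 r := by
    intro a ha
    have h1 : √(a ⬝ᵥ a) < r := lt_of_pow_lt_pow_left₀ 3 hr0 (by rw [hr]; exact ha)
    simpa [EuclideanSpace.norm_eq, dotProduct, sq] using h1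
  refine (measure_mono this).trans ?_
  rw [(PiLp.volume_preserving_toLp (Fin 3)).measure_preimage
    Metric.isOpen_ball.measurableSet.nullMeasurableSet, EuclideanSpace.volume_ball_fin_three,
    ← ENNReal.ofReal_pow hr0, hr, ← ENNReal.ofReal_mul hc.le]
  apply ENNReal.ofReal_le_ofReal
  apply le_of_eq
  ring

theorem cont_r : Continuous fun a : V3 => √(a ⬝ᵥ a) := by
  simp only [vec3_dotProduct]
  fun_prop

theorem quarter (c : ℝ) : volume ({a : V3 | √(a ⬝ᵥ a) ^ 3 < c} ∩ {a | 0 ≤ a 0 ∧ 0 ≤ a 1}) ≤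
    ENNReal.ofReal (π / 3 * c) := by
  have hA : MeasurableSet {a : V3 | √(a ⬝ᵥ a) ^ 3 < c} :=
    measurableSet_lt (cont_r.pow 3).measurable measurable_const
  have fl : ∀ (i : Fin 3) (x : V3), (fun j => if j = i then -x j else x j) ⬝ᵥ
      (fun j => if j = i then -x j else x j) = x ⬝ᵥ x := by
    intro i x
    refine Finset.sum_congr rfl fun j _ => ?_
    by_cases hj : j = i <;> simp [hj]
  have h0 := half _ hA 0 fun x hx => by simpa only [mem_ofPred_eq, fl] using hx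
  have h1 := half _ (hA.inter (measurableSet_le (f := fun _ => (0 : ℝ)) (g := fun x : V3 => x 0)
    (by fun_prop) (by fun_prop))) 1 fun x hx =>
    ⟨by simpa only [mem_ofPred_eq, fl] using hx.1, by simpa using hx.2⟩
  have h2 := ((mul_le_mul_right h1 2).trans h0).trans (ball3 c)
  rw [ENNReal.ofReal_mul (by norm_num), ← mul_assoc, inter_assoc,
    show (2 : ENNReal) * 2 = ENNReal.ofReal 4 by norm_num] at h2
  exact (ENNReal.mul_le_mul_iff_right (by norm_num) ENNReal.ofReal_ne_top).1 h2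

theorem tri (α β : ℝ) (hα : 0 ≤ α) (hβ : 0 < β) :
    ∫⁻ s in Ioi (0 : ℝ), ENNReal.ofReal (α - β * s) ≤ ENNReal.ofReal (α ^ 2 / (2 * β)) := by
  have h0 : 0 ≤ α / β := by positivity
  have hs : Ioi (0 : ℝ) ⊆ Ioc 0 (α / β) ∪ Ioi (α / β) := fun s hs =>
    (le_or_gt s (α / β)).imp (fun h => ⟨hs, h⟩) id
  refine (lintegral_mono_set hs).trans ((lintegral_union_le _ _ _).trans ?_)
  have z : ∫⁻ s in Ioi (α / β), ENNReal.ofReal (α - β * s) = 0 := by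
    refine setLIntegral_eq_zero measurableSet_Ioi fun s hs => ?_
    have := (div_lt_iff₀ hβ).1 (show α / β < s from hs)
    exact ENNReal.ofReal_of_nonpos (by linarith)
  rw [z, add_zero, ← ofReal_integral_eq_lintegral_ofReal
    ((by fun_prop : Continuous fun s : ℝ => α - β * s).integrableOn_Icc.mono_set Ioc_subset_Icc_self),
    ← intervalIntegral.integral_of_le h0]
  · apply ENNReal.ofReal_le_ofReal
    apply le_of_eq
    rw [intervalIntegral.integral_sub (by simp) ((by fun_prop : Continuous fun s : ℝ =>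
      β * s).intervalIntegrable _ _), intervalIntegral.integral_const_mul, integral_id]
    simp only [intervalIntegral.integral_const, smul_eq_mul]
    field_simp
    ring
  · refine (ae_restrict_iff' measurableSet_Ioc).2 (Filter.Eventually.of_forall fun s hs => ?_)
    have := (le_div_iff₀ hβ).1 hs.2
    show 0 ≤ α - β * s
    linarith

theorem rowC (t : ℝ) (ht : 0 ≤ t) : ∫⁻ a in {a : V3 | 0 ≤ a 0 ∧ 0 ≤ a 1},
    ENNReal.ofReal (π / 2 * (t - 3 / 4 * √(a ⬝ᵥ a) ^ 3)) ≤ ENNReal.ofReal (π ^ 2 * t ^ 2 / 9) := by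
  have hc : Continuous fun a : V3 => max (π / 2 * (t - 3 / 4 * √(a ⬝ᵥ a) ^ 3)) 0 := by
    have := cont_r
    fun_prop
  refine (lintegral_mono fun a => ENNReal.ofReal_le_ofReal (le_max_left _ 0)).trans ?_
  rw [lintegral_eq_lintegral_meas_lt (f := fun a : V3 =>
    max (π / 2 * (t - 3 / 4 * √(a ⬝ᵥ a) ^ 3)) 0) _
    (Filter.Eventually.of_forall fun a => le_max_right _ _) hc.aemeasurable]
  have hπ := pi_pos
  refine le_trans (setLIntegral_mono' measurableSet_Ioi fun s hs => ?_)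
    ((tri (4 * π * t / 9) (8 / 9) (by positivity) (by norm_num)).trans (le_of_eq ?_))
  · rw [Measure.restrict_apply (measurableSet_lt measurable_const hc.measurable)]
    refine le_trans (measure_mono (inter_subset_inter_left _ fun a ha => ?_))
      ((quarter (4 / 3 * (t - 2 * s / π))).trans (le_of_eq ?_))
    · have h1 : s < π / 2 * (t - 3 / 4 * √(a ⬝ᵥ a) ^ 3) :=
        (lt_max_iff.1 ha).resolve_right (not_lt.2 (le_of_lt hs))
      have h2 : 2 * s / π < t - 3 / 4 * √(a ⬝ᵥ a) ^ 3 := by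
        rw [div_lt_iff₀ hπ]
        linarith
      show √(a ⬝ᵥ a) ^ 3 < _
      linarith
    · congr 1
      field_simp
      ring
  · congr 1
    ring

theorem mSB (t : ℝ) : MeasurableSet {z : V3 × V3 | z.2 ∈ SB t z.1} := by
  simp only [SB, mem_ofPred_eq, cross_apply, vec3_dotProduct, Matrix.cons_val]
  measurability

theorem mSA (e : ℝ) : MeasurableSet {z : V3 × V3 × V3 | z.2.2 ∈ SA e z.1 z.2.1} := by
  simp only [SA, mem_ofPred_eq, cross_apply, vec3_dotProduct, Matrix.cons_val]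
  measurability

end Vol

open Vol in
theorem vol : VolSt := by
  have he : (0 : ℝ) < et := by unfold et; norm_num
  set t := √(4 * (1 + et) / 3) with ht
  have ht2 : t ^ 2 = 4 * (1 + et) / 3 := sq_sqrt (by positivity)
  have ht0 : 0 ≤ t := sqrt_nonneg _
  have hQ : MeasurableSet {a : V3 | 0 ≤ a 0 ∧ 0 ≤ a 1} := by measurability
  let D : Set (V3 × V3 × V3) := {z | z.1 ∈ {a : V3 | 0 ≤ a 0 ∧ 0 ≤ a 1} ∧ z.2.1 ∈ SB t z.1 ∧
    z.2.2 ∈ SA et z.1 z.2.1}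
  have hD : MeasurableSet D := (hQ.preimage measurable_fst).inter
    (((mSB t).preimage (f := fun z : V3 × V3 × V3 => (z.1, z.2.1)) (by fun_prop)).inter (mSA et))
  have hsub : Dset ⊆ (fun h : Fin 3 → V3 => (h 0, h 1, h 2)) ⁻¹' D := by
    rintro h ⟨⟨s1, ⟨s2, s3⟩, s4, ⟨s5, s6⟩, s7, s8⟩, s9, s10⟩
    have hdet : (Matrix.of h).det = (h 0 ⨯₃ h 1) ⬝ᵥ h 2 := by
      simp only [det_fin_three, cross_apply, vec3_dotProduct, Matrix.cons_val, of_apply]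
      ring
    have p0 : 0 ≤ h 0 ⬝ᵥ h 0 := Finset.sum_nonneg fun i _ => mul_self_nonneg _
    have q0 : 0 ≤ (h 0 ⨯₃ h 1) ⬝ᵥ (h 0 ⨯₃ h 1) := Finset.sum_nonneg fun i _ => mul_self_nonneg _
    have q1 : 0 < (h 0 ⨯₃ h 1) ⬝ᵥ (h 0 ⨯₃ h 1) := by
      refine lt_of_le_of_ne q0 fun h0 => ?_
      rw [hdet, dotProduct_self_eq_zero.1 h0.symm, zero_dotProduct] at s9
      norm_num at s9
    change 3 * ((h 0 ⨯₃ h 1) ⬝ᵥ (h 0 ⨯₃ h 1)) ^ 2 ≤ 4 * (h 0 ⬝ᵥ h 0) * (Matrix.of h).det ^ 2 at s8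
    have s11 : ((h 0 ⨯₃ h 1) ⬝ᵥ (h 0 ⨯₃ h 1)) ^ 2 ≤ (t * √(h 0 ⬝ᵥ h 0)) ^ 2 := by
      rw [mul_pow, ht2, sq_sqrt p0]
      nlinarith
    have p1 : 0 < h 0 ⬝ᵥ h 0 := by
      refine lt_of_le_of_ne p0 fun h0 => ?_
      rw [← h0] at s8
      nlinarith
    exact ⟨s1, ⟨p1, q1, s2, s3, s7, (abs_le_of_sq_le_sq' s11 (by positivity)).2⟩, s4, s5, s6, hdet ▸ s9,
      hdet ▸ s10⟩
  refine (measure_mono hsub).trans ?_
  rw [(mp3 V3).measure_preimage hD.nullMeasurableSet, Measure.volume_eq_prod,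
    Measure.prod_apply hD]
  have key : ∀ a : V3, volume (Prod.mk a ⁻¹' D) ≤ {a : V3 | 0 ≤ a 0 ∧ 0 ≤ a 1}.indicator
      (fun a => ENNReal.ofReal (et / 2) *
        ENNReal.ofReal (π / 2 * (t - 3 / 4 * √(a ⬝ᵥ a) ^ 3))) a := by
    intro a
    by_cases ha : a ∈ {a : V3 | 0 ≤ a 0 ∧ 0 ≤ a 1}
    · have hB : MeasurableSet (SB t a) := (mSB t).preimage (measurable_prodMk_left (x := a))
      rw [indicator_of_mem ha, Measure.volume_eq_prod,
        Measure.prod_apply (hD.preimage measurable_prodMk_left)]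
      refine le_trans (lintegral_mono (g := (SB t a).indicator fun _ => ENNReal.ofReal (et / 2))
        fun b => ?_) ?_
      · by_cases hb : b ∈ SB t a
        · rw [indicator_of_mem hb]
          exact (measure_mono fun c hc => hc.2.2).trans (rowA et he.le a b hb.1 hb.2.1)
        · have : Prod.mk b ⁻¹' (Prod.mk a ⁻¹' D) = ∅ :=
            eq_empty_of_forall_notMem fun c hc => hb hc.2.1
          simp only [this, measure_empty]
          exact bot_le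
      · rw [lintegral_indicator_const hB]
        exact mul_le_mul_right (rowB t a) _
    · have : Prod.mk a ⁻¹' D = ∅ := eq_empty_of_forall_notMem fun c hc => ha hc.1
      rw [this, measure_empty]
      exact bot_le
  refine (lintegral_mono key).trans ?_
  rw [lintegral_indicator hQ, lintegral_const_mul' _ _ ENNReal.ofReal_ne_top]
  refine (mul_le_mul_right (rowC t ht0) _).trans ?_
  rw [← ENNReal.ofReal_mul (by positivity), ht2]
  apply le_of_eq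
  congr 1
  ring

end Pool.Agent.Lib.MP_02f36d_nt.CF
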