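import Pool.Agent.Lib.MP_02f36d_nt.CF.St

/-! The number of orbits of pairs over the box. -/

set_option autoImplicit false

noncomputable section

namespace Pool.Agent.Lib.MP_02f36d_nt.CF

open Matrix MeasureTheory Filter
open scoped Pointwise

namespace WL

theorem et_pos : 0 < et := by norm_num [et]

theorem mm_pos : (0 : ℝ) < mm := by
  exact_mod_cast primorial_pos 1000

/-- Every pair over the box is equivalent to a reduced one. -/
theorem reduce (hP : PairSt) (hR : RedSt) {l : ℝ} (hl : 0 < l) {w : M3 ℤ × M3 ℤ} (hs : Sym w)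
    (hi : IrrW w) (hr : Real1 w) (hb : InBox l (pif w)) :
    ∃ w', EqW w w' ∧ pif w' = pif w ∧ ∃ h, RedW l w' h := by
  obtain ⟨h, p, hp, hw⟩ := hr
  have h1 : cst ℝ (pif w) = h.det ^ 2 • ![1, mon p 0, mon p 1, mon p 2] := by
    rw [← hP.pifCst, hw, hP.pifAct, hP.pifW1]
  have e0 : ((pif w 0 : ℤ) : ℝ) = h.det ^ 2 := by simpa [cst] using congrFun h1 0
  have e1 : ((pif w 1 : ℤ) : ℝ) = h.det ^ 2 * mon p 0 := by simpa [cst] using congrFun h1 1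
  have e2 : ((pif w 2 : ℤ) : ℝ) = h.det ^ 2 * mon p 1 := by simpa [cst] using congrFun h1 2
  have e3 : ((pif w 3 : ℤ) : ℝ) = h.det ^ 2 * mon p 2 := by simpa [cst] using congrFun h1 3
  obtain ⟨⟨a1, a2⟩, ⟨b1, b2⟩, ⟨c1, c2⟩, ⟨g1, g2⟩⟩ := hb
  have b1' : (0 : ℝ) ≤ ((pif w 1 : ℤ) : ℝ) := by exact_mod_cast b1
  have g1' : (0 : ℝ) ≤ ((pif w 3 : ℤ) : ℝ) := by exact_mod_cast g1
  rw [e0] at a1 a2
  rw [e1] at b1' b2
  rw [e2] at c1 c2
  rw [e3] at g1' g2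
  have hd : 0 < h.det ^ 2 := hl.trans_le a1
  have hd0 : h.det ≠ 0 := by
    intro h0
    simp [h0] at hd
  have het := et_pos
  have hpP : p ∈ Pset := by
    refine ⟨hp, ⟨?_, ?_⟩, ⟨?_, ?_⟩, ⟨?_, ?_⟩⟩
    · exact nonneg_of_mul_nonneg_right b1' hd
    · exact le_of_mul_le_mul_left (by linarith) hd
    · refine le_of_mul_le_mul_left ?_ hd
      have h1 : (0 : ℝ) ≤ 1 - et := by norm_num [et]
      have := mul_le_mul_of_nonneg_right a2 h1
      nlinarith [mul_pos hl (mul_pos het het)]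
    · exact le_of_mul_le_mul_left (by linarith) hd
    · exact nonneg_of_mul_nonneg_right g1' hd
    · exact le_of_mul_le_mul_left (by linarith) hd
  obtain ⟨g, h', hg, hS, hdet, hact⟩ := hR h hd0
  have he : EqW w (act g w) := ⟨g, hg, rfl⟩
  refine ⟨act g w, he, by rw [hP.pifAct, hg, one_smul], h', hP.actSym g w hs, hP.eirr _ _ he hi,
    hS, ⟨hdet ▸ a1, hdet ▸ a2⟩, p, hpP, ?_⟩
  rw [hP.actCst, hw, hact]

theorem d1_smul (s : ℝ) (h : M3 ℝ) : d1 (s • h) = s ^ 2 * d1 h := by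
  simp [d1, dotProduct, Fin.sum_univ_three]; ring

theorem d2_smul (s : ℝ) (h : M3 ℝ) : d2 (s • h) = s ^ 4 * d2 h := by
  simp [d2, dotProduct, Fin.sum_univ_three, cross_apply]; ring

theorem sieg_smul {s : ℝ} (hs : 0 < s) {h : M3 ℝ} (H : Sieg h) : Sieg (s • h) := by
  obtain ⟨⟨a1, a2⟩, ⟨b1, b2⟩, c, ⟨e1, e2⟩, f, g⟩ := H
  have h2 : 0 < s ^ 2 := by positivity
  have h4 : 0 < s ^ 4 := by positivity
  have k1 : ∀ i j, (s • h) i ⬝ᵥ (s • h) j = s ^ 2 * (h i ⬝ᵥ h j) := fun i j => by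
    simp [dotProduct, Fin.sum_univ_three]; ring
  have k2 : ((s • h) 0 ⨯₃ (s • h) 2) ⬝ᵥ ((s • h) 0 ⨯₃ (s • h) 1) =
      s ^ 4 * ((h 0 ⨯₃ h 2) ⬝ᵥ (h 0 ⨯₃ h 1)) := by
    simp [dotProduct, Fin.sum_univ_three, cross_apply]; ring
  refine ⟨⟨mul_nonneg hs.le a1, mul_nonneg hs.le a2⟩, ⟨?_, ?_⟩, ?_, ⟨?_, ?_⟩, ?_, ?_⟩
  · rw [k1]; positivity
  · rw [k1, d1_smul]; nlinarith
  · rw [k1, d1_smul, abs_mul, abs_of_pos h2]; nlinarith
  · rw [k2]; positivity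
  · rw [k2, d2_smul]; nlinarith
  · rw [d1_smul, d2_smul]; nlinarith
  · rw [d1_smul, d2_smul, det_smul]
    have := mul_le_mul_of_nonneg_left g (show (0 : ℝ) ≤ s ^ 8 by positivity)
    simp only [Fintype.card_fin]
    nlinarith

theorem cstE_pack (w : M3 ℤ × M3 ℤ) : cstE (pack w) = pack (cstW w) := by
  refine Prod.ext ?_ ?_
  · funext i j
    simp only [cstE, pack, cstW, map_apply]
    split_ifs <;> rfl
  · rfl

theorem pack_smul (s : ℝ) (h : M3 ℝ) (w : M3 ℝ × M3 ℝ) :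
    pack (act (s • h) w) = s ^ 2 • pack (act h w) := by
  have k : ∀ A : M3 ℝ, s • h * A * (s • h)ᵀ = s ^ 2 • (h * A * hᵀ) := fun A => by
    simp [smul_smul, sq]
  refine Prod.ext ?_ ?_
  · funext i j
    simp only [pack, act, k, Prod.smul_fst, Pi.smul_apply, Matrix.smul_apply]
    split_ifs <;> rfl
  · funext i
    simp only [pack, act, k, Prod.smul_snd, Pi.smul_apply, Matrix.smul_apply]

/-- A reduced pair away from the cusp lies in the dilated body. -/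
theorem mem_body {s δ : ℝ} (hs : 0 < s) {w : M3 ℤ × M3 ℤ} {h : M3 ℝ} (H : RedW (s ^ 6) w h)
    (hδ : δ * s ^ 6 ≤ d1 h ^ 3) :
    cstE (pack w) ∈ s ^ 2 • Phi '' {h ∈ Dset | δ ≤ d1 (Matrix.of h) ^ 3} ×ˢ Pset := by
  obtain ⟨-, -, hS, ⟨a1, a2⟩, p, hp, hw⟩ := H
  have h6 : 0 < s ^ 6 := by positivity
  have hdet : (s⁻¹ • h).det ^ 2 = h.det ^ 2 / s ^ 6 := by
    rw [det_smul]; simp only [Fintype.card_fin]; field_simp
  have hd1 : d1 (s⁻¹ • h) ^ 3 = d1 h ^ 3 / s ^ 6 := by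
    rw [d1_smul]; field_simp
  refine ⟨Phi (s⁻¹ • h, p), ⟨(s⁻¹ • h, p), ⟨⟨⟨sieg_smul (inv_pos.2 hs) hS, ?_, ?_⟩, ?_⟩, hp⟩, rfl⟩,
    ?_⟩
  · change 1 ≤ (s⁻¹ • h).det ^ 2
    rw [hdet, le_div_iff₀ h6]; linarith
  · change (s⁻¹ • h).det ^ 2 ≤ 1 + et
    rw [hdet, div_le_iff₀ h6]; exact a2
  · change δ ≤ d1 (s⁻¹ • h) ^ 3
    rw [hd1, le_div_iff₀ h6]; exact hδ
  · change s ^ 2 • pack (act (s⁻¹ • h) (w1 p)) = _
    rw [← pack_smul, smul_smul, mul_inv_cancel₀ hs.ne', one_smul, cstE_pack, hw]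

theorem const_lt : 16 * Real.pi ^ 2 / 27 * et * (1 + et) ^ 5 < 5853 / 1000 * et := by
  have h := Real.pi_lt_d4
  have h0 := Real.pi_pos
  have h2 : Real.pi ^ 2 < 98697 / 10000 := by nlinarith
  simp only [et]
  nlinarith

end WL

open WL in
theorem wmain (hP : PairSt) (hR : RedSt) (hK : CptSt) (hB : BodySt) (hC : CntSt) (hCu : CuspSt)
    (hL : LocMSt) : WSt := by
  classical
  intro f0 hf0
  have het := et_pos
  have hm := mm_pos
  obtain ⟨T, hT, hT'⟩ := hL f0 hf0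
  obtain ⟨δ, hδ, hcusp⟩ := hCu (2 / 1000 * et / mm ^ 4) (by positivity)
  obtain ⟨hc, hv⟩ := hB _ (Set.sep_subset _ _) (hK δ hδ)
  have hcnt := hC _ (5853 / 1000 * et) hc
    (hv.trans_lt ((ENNReal.ofReal_lt_ofReal_iff (by positivity)).2 const_lt)) mm
    (primorial_pos 1000).ne'
  have ht : Tendsto (fun l : ℝ => (l ^ (1 / 6 : ℝ)) ^ 2) atTop atTop :=
    (tendsto_pow_atTop two_ne_zero).comp (tendsto_rpow_atTop (by norm_num))
  filter_upwards [ht.eventually hcnt, eventually_gt_atTop 0] with l hcn hl S hS hne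
  have hs : 0 < l ^ (1 / 6 : ℝ) := Real.rpow_pos_of_pos hl _
  have hs6 : (l ^ (1 / 6 : ℝ)) ^ 6 = l := by
    rw [← Real.rpow_natCast, ← Real.rpow_mul hl.le]; norm_num
  generalize l ^ (1 / 6 : ℝ) = s at hs hs6 hcn
  subst hs6
  have hex : ∀ w, ∃ w', w ∈ S → EqW w w' ∧ pif w' = pif w ∧ ∃ h, RedW (s ^ 6) w' h := by
    intro w
    by_cases hw : w ∈ S
    · obtain ⟨a, b, c, d, -⟩ := hS w hw
      obtain ⟨w', h⟩ := reduce hP hR hl a b c d
      exact ⟨w', fun _ => h⟩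
    · exact ⟨w, fun h => absurd h hw⟩
  choose ρ hρ using hex
  have key : ∀ w ∈ S, ∀ w' ∈ S, EqW (ρ w) (ρ w') → w = w' := fun w hw w' hw' h =>
    hne w hw w' hw' (hP.trans _ _ _ (hP.trans _ _ _ (hρ w hw).1 h) (hP.symm _ _ (hρ w' hw').1))
  have hcard : (S.image ρ).card = S.card := Finset.card_image_of_injOn fun w hw w' hw' h =>
    key w hw w' hw' (h ▸ hP.refl _)
  set S' := S.image ρ with hS'
  have hne' : ∀ w ∈ S', ∀ w' ∈ S', EqW w w' → w = w' := by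
    intro w hw w' hw' h
    obtain ⟨v, hv, rfl⟩ := Finset.mem_image.1 hw
    obtain ⟨v', hv', rfl⟩ := Finset.mem_image.1 hw'
    rw [key v hv v' hv' h]
  have hmem : ∀ w ∈ S', Cong mm (pif w) f0 ∧ ∃ h, RedW (s ^ 6) w h := by
    intro w hw
    obtain ⟨v, hv, rfl⟩ := Finset.mem_image.1 hw
    exact ⟨(hρ v hv).2.1 ▸ (hS v hv).2.2.2.2, (hρ v hv).2.2⟩
  have hsum := Finset.card_filter_add_card_filter_not (s := S')
    (fun w => ∃ h, RedW (s ^ 6) w h ∧ d1 h ^ 3 < δ * s ^ 6)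
  have h1 := hcusp (s ^ 6) hl (S'.filter fun w => ∃ h, RedW (s ^ 6) w h ∧ d1 h ^ 3 < δ * s ^ 6)
    (fun w hw => (Finset.mem_filter.1 hw).2)
    (fun w hw w' hw' => hne' w (Finset.mem_filter.1 hw).1 w' (Finset.mem_filter.1 hw').1)
  set S2 := S'.filter fun w => ¬ ∃ h, RedW (s ^ 6) w h ∧ d1 h ^ 3 < δ * s ^ 6 with hS2
  have hS2m : ∀ w ∈ S2, Sym w ∧ redE mm (pack w) ∈ T ∧
      cstE (pack w) ∈ s ^ 2 • Phi '' {h ∈ Dset | δ ≤ d1 (Matrix.of h) ^ 3} ×ˢ Pset := by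
    intro w hw
    obtain ⟨hw1, hw2⟩ := Finset.mem_filter.1 hw
    obtain ⟨hc, h, hh⟩ := hmem w hw1
    exact ⟨hh.1, hT' w hh.1 hc, mem_body hs hh (not_lt.1 fun hlt => hw2 ⟨h, hh, hlt⟩)⟩
  have hc2 : (S2.image pack).card = S2.card := Finset.card_image_of_injOn fun w hw w' hw' h =>
    hP.packInj w w' (hS2m w hw).1 (hS2m w' hw').1 h
  have hfib := Finset.card_eq_sum_card_fiberwise (f := redE mm) (s := S2.image pack) (t := T)
    (by
      intro x hx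
      obtain ⟨w, hw, rfl⟩ := Finset.mem_image.1 (Finset.mem_coe.1 hx)
      exact (hS2m w hw).2.1)
  have h2 : (S2.card : ℝ) ≤ T.card * (5853 / 1000 * et * (s ^ 2) ^ 12 / (mm : ℝ) ^ 12) := by
    rw [← hc2, hfib, Nat.cast_sum, ← nsmul_eq_mul]
    refine Finset.sum_le_card_nsmul _ _ _ fun r _ => hcn r _ fun x hx => ?_
    obtain ⟨hx1, hx2⟩ := Finset.mem_filter.1 hx
    obtain ⟨w, hw, rfl⟩ := Finset.mem_image.1 hx1
    exact ⟨hx2, (hS2m w hw).2.2⟩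
  have h3 := h2.trans (mul_le_mul_of_nonneg_right hT
    (div_nonneg (by positivity) (pow_pos hm _).le))
  have e1 : 2 / 1000 * et / (mm : ℝ) ^ 4 * (s ^ 6) ^ 4 = 2 / 1000 * NN (s ^ 6) := by
    rw [NN]; field_simp
  have e2 : 5078 / 10000 * (mm : ℝ) ^ 8 * (5853 / 1000 * et * (s ^ 2) ^ 12 / (mm : ℝ) ^ 12) =
      5078 / 10000 * (5853 / 1000) * NN (s ^ 6) := by
    rw [NN]; field_simp
  have hN : 0 ≤ NN (s ^ 6) := div_nonneg (by positivity) (pow_pos hm _).le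
  rw [e1] at h1
  rw [e2] at h3
  rw [← hcard, ← hsum, Nat.cast_add]
  linarith

end Pool.Agent.Lib.MP_02f36d_nt.CF
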