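import Pool.Agent.Lib.MP_02f36d_nt.CF.Basic
import Pool.Agent.Lib.MP_02f36d_nt.CF.Body
import Pool.Agent.Lib.MP_02f36d_nt.CF.Box
import Pool.Agent.Lib.MP_02f36d_nt.CF.Cls
import Pool.Agent.Lib.MP_02f36d_nt.CF.Cnt
import Pool.Agent.Lib.MP_02f36d_nt.CF.Cusp
import Pool.Agent.Lib.MP_02f36d_nt.CF.DF1
import Pool.Agent.Lib.MP_02f36d_nt.CF.DF2
import Pool.Agent.Lib.MP_02f36d_nt.CF.DF3
import Pool.Agent.Lib.MP_02f36d_nt.CF.DF4
import Pool.Agent.Lib.MP_02f36d_nt.CF.DF5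
import Pool.Agent.Lib.MP_02f36d_nt.CF.Dbl
import Pool.Agent.Lib.MP_02f36d_nt.CF.Dens
import Pool.Agent.Lib.MP_02f36d_nt.CF.Jac
import Pool.Agent.Lib.MP_02f36d_nt.CF.Loc
import Pool.Agent.Lib.MP_02f36d_nt.CF.LocM
import Pool.Agent.Lib.MP_02f36d_nt.CF.Mon
import Pool.Agent.Lib.MP_02f36d_nt.CF.Mult
import Pool.Agent.Lib.MP_02f36d_nt.CF.NB
import Pool.Agent.Lib.MP_02f36d_nt.CF.Pair
import Pool.Agent.Lib.MP_02f36d_nt.CF.Par
import Pool.Agent.Lib.MP_02f36d_nt.CF.ParA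
import Pool.Agent.Lib.MP_02f36d_nt.CF.ParB
import Pool.Agent.Lib.MP_02f36d_nt.CF.ParC
import Pool.Agent.Lib.MP_02f36d_nt.CF.Red
import Pool.Agent.Lib.MP_02f36d_nt.CF.Sel
import Pool.Agent.Lib.MP_02f36d_nt.CF.Trip
import Pool.Agent.Lib.MP_02f36d_nt.CF.VMain
import Pool.Agent.Lib.MP_02f36d_nt.CF.Vol
import Pool.Agent.Lib.MP_02f36d_nt.CF.WMain

/-! Cubic fields of odd class number: assembly. -/

set_option autoImplicit false

namespace Pool.Agent.Lib.MP_02f36d_nt.CF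

theorem upAll : UpSt := up basic (nb basic) df2 df3 (df6 df3 basic)

theorem vAll : VSt :=
  vmain basic cls low small (trip basic) (dbl basic (nb basic) (mult basic))

theorem wAll : WSt :=
  wmain pair red cpt (body monS jac vol) cnt (cusp pair monS) (locM (loc pair))

theorem parAll : ParSt := par df3 sel (parA df3 basic pair) (parB df3) (parC df3 basic)

theorem densAll : DensSt :=
  dens basic cls (mult basic) vAll wAll df1 df3 (df4 df3) (df5 df3 basic) pair parAll upAll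

end Pool.Agent.Lib.MP_02f36d_nt.CF
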