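import Pool.Agent.Lib.MP_02f36d_nt.CF.St

/-! Elementary facts on binary cubic forms. -/

set_option autoImplicit false

noncomputable section

namespace Pool.Agent.Lib.MP_02f36d_nt.CF

namespace BasicAux

theorem ext' (f g : Fin 4 → ℤ) (h : ∀ x y : ℤ, ev f x y = ev g x y) : f = g := by
  have h0 := h 1 0
  have h1 := h 0 1
  have h2 := h 1 1
  have h3 := h 1 (-1)
  simp only [ev] at h0 h1 h2 h3
  ext i
  fin_cases i <;> simp <;> linarith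

/-- The coefficients after a substitution. -/
def sub (f : Fin 4 → ℤ) (α β γ δ : ℤ) : Fin 4 → ℤ :=
  ![ev f α γ,
    3 * f 0 * α ^ 2 * β + f 1 * (α ^ 2 * δ + 2 * α * β * γ) + f 2 * (β * γ ^ 2 + 2 * α * γ * δ) +
      3 * f 3 * γ ^ 2 * δ,
    3 * f 0 * α * β ^ 2 + f 1 * (β ^ 2 * γ + 2 * α * β * δ) + f 2 * (α * δ ^ 2 + 2 * β * γ * δ) +
      3 * f 3 * γ * δ ^ 2,
    ev f β δ]

theorem ev_sub (f : Fin 4 → ℤ) (α β γ δ x y : ℤ) :
    ev (sub f α β γ δ) x y = ev f (α * x + β * y) (γ * x + δ * y) := by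
  simp [ev, sub]; ring

theorem disc_sub (f : Fin 4 → ℤ) (α β γ δ : ℤ) :
    disc (sub f α β γ δ) = ((α * δ - β * γ) ^ 2) ^ 3 * disc f := by
  simp [disc, ev, sub]; ring

theorem real_root (a b c d : ℝ) (ha : a ≠ 0) : ∃ ρ : ℝ, a * ρ ^ 3 + b * ρ ^ 2 + c * ρ + d = 0 := by
  suffices h : ∀ b c d : ℝ, ∃ ρ : ℝ, ρ ^ 3 + b * ρ ^ 2 + c * ρ + d = 0 by
    obtain ⟨ρ, hρ⟩ := h (b / a) (c / a) (d / a)
    refine ⟨ρ, ?_⟩
    have : a * ρ ^ 3 + b * ρ ^ 2 + c * ρ + d = a * (ρ ^ 3 + b / a * ρ ^ 2 + c / a * ρ + d / a) := by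
      field_simp
    rw [this, hρ, mul_zero]
  intro b c d
  set R : ℝ := 1 + |b| + |c| + |d| with hR
  have hb := abs_nonneg b
  have hc := abs_nonneg c
  have hd := abs_nonneg d
  have hb1 := abs_le.1 (le_refl |b|)
  have hc1 := abs_le.1 (le_refl |c|)
  have hd1 := abs_le.1 (le_refl |d|)
  have h1 : 1 ≤ R := by linarith
  have h2 : R ≤ R ^ 2 := by nlinarith
  have h3 : R ^ 3 = R ^ 2 + |b| * R ^ 2 + |c| * R ^ 2 + |d| * R ^ 2 := by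
    rw [pow_succ' R 2]; nth_rewrite 1 [hR]; ring
  have h4 : |c| * R ≤ |c| * R ^ 2 := mul_le_mul_of_nonneg_left h2 hc
  have h5 : |d| * 1 ≤ |d| * R ^ 2 := mul_le_mul_of_nonneg_left (by linarith) hd
  have hcont : ContinuousOn (fun ρ : ℝ => ρ ^ 3 + b * ρ ^ 2 + c * ρ + d) (Set.Icc (-R) R) := by
    fun_prop
  obtain ⟨ρ, -, hρ⟩ := intermediate_value_Icc (show -R ≤ R by linarith) hcont
    (show (0 : ℝ) ∈ Set.Icc _ _ from ⟨by nlinarith, by nlinarith⟩)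
  exact ⟨ρ, hρ⟩

theorem root (f : Fin 4 → ℤ) (h0 : f 0 ≠ 0) (hd : disc f < 0) : ∃ (ρ : ℝ) (z : ℂ), 0 < z.im ∧
    (∀ x : ℂ, ev (cst ℂ f) x 1 = f 0 * (x - ρ) * (x - z) * (x - starRingEnd ℂ z)) ∧
    ((disc f : ℤ) : ℝ) = -(4 * (f 0 : ℝ) ^ 4 * z.im ^ 2 * ‖z - ρ‖ ^ 4) := by
  have ha : (f 0 : ℝ) ≠ 0 := by exact_mod_cast h0
  obtain ⟨ρ, hρ⟩ := real_root (f 0) (f 1) (f 2) (f 3) ha
  obtain ⟨u, hu⟩ : ∃ u : ℝ, (f 1 : ℝ) = f 0 * (u - ρ) := ⟨f 1 / f 0 + ρ, by field_simp; ring⟩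
  obtain ⟨v, hv⟩ : ∃ v : ℝ, (f 2 : ℝ) = f 0 * (v - ρ * u) :=
    ⟨f 2 / f 0 + ρ * u, by field_simp; ring⟩
  have hw : (f 3 : ℝ) = -(f 0 * ρ * v) := by
    rw [hu, hv] at hρ; linear_combination hρ
  have hD : ((disc f : ℤ) : ℝ) =
      -((f 0 : ℝ) ^ 4 * (ρ ^ 2 + u * ρ + v) ^ 2 * (4 * v - u ^ 2)) := by
    simp only [disc]
    push_cast
    rw [hu, hv, hw]; ring
  have hpos : 0 < 4 * v - u ^ 2 := by
    by_contra hc
    have h1 : ((disc f : ℤ) : ℝ) < 0 := by exact_mod_cast hd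
    have h2 : 0 ≤ (f 0 : ℝ) ^ 4 * (ρ ^ 2 + u * ρ + v) ^ 2 := by positivity
    have h3 := mul_nonpos_of_nonneg_of_nonpos h2 (not_lt.1 hc)
    linarith
  obtain ⟨s, hs0, hs⟩ : ∃ s : ℝ, 0 < s ∧ 4 * s ^ 2 = 4 * v - u ^ 2 :=
    ⟨√(4 * v - u ^ 2) / 2, by have := Real.sqrt_pos.2 hpos; linarith, by
      rw [div_pow, Real.sq_sqrt hpos.le]; ring⟩
  refine ⟨ρ, (-u / 2 : ℝ) + s * Complex.I, by simpa using hs0, fun x => ?_, ?_⟩
  · have e1 := congrArg (fun t : ℝ => (t : ℂ)) hu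
    have e2 := congrArg (fun t : ℝ => (t : ℂ)) hv
    have e3 := congrArg (fun t : ℝ => (t : ℂ)) hw
    have e4 := congrArg (fun t : ℝ => (t : ℂ)) hs
    simp only [ev, cst, map_add, map_mul, Complex.conj_ofReal, Complex.conj_I]
    push_cast at e1 e2 e3 e4 ⊢
    rw [e1, e2, e3]
    linear_combination (-(f 0 : ℂ) * (x - ρ) / 4) * e4 +
      (f 0 : ℂ) * (x - ρ) * (s : ℂ) ^ 2 * Complex.I_sq
  · have e5 : ‖((-u / 2 : ℝ) : ℂ) + s * Complex.I - ρ‖ ^ 2 = ρ ^ 2 + u * ρ + v := by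
      rw [Complex.sq_norm, Complex.normSq_apply]
      simp
      linear_combination (1 / 4) * hs
    have e6 : (((-u / 2 : ℝ) : ℂ) + s * Complex.I).im = s := by simp
    have e7 : ∀ t : ℝ, t ^ 4 = (t ^ 2) ^ 2 := fun t => by ring
    rw [hD, e6, e7 ‖_‖, e5, ← hs]
    ring

theorem box (l : ℝ) (f : Fin 4 → ℤ) (hl : 0 < l) (h : InBox l f) :
    disc f < 0 ∧ -(110 * l ^ 4) ≤ ((disc f : ℤ) : ℝ) ∧
    (f 1 ^ 2 - 3 * f 0 * f 2 < 0 ∧ -(7 * l ^ 2) ≤ ((f 1 ^ 2 - 3 * f 0 * f 2 : ℤ) : ℝ)) := by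
  obtain ⟨⟨a1, a2⟩, ⟨b1, b2⟩, ⟨c1, c2⟩, d1, d2⟩ := h
  have b1' : (0 : ℝ) ≤ f 1 := by exact_mod_cast b1
  have d1' : (0 : ℝ) ≤ f 3 := by exact_mod_cast d1
  have a3 : (f 0 : ℝ) ≤ 11 / 10 * l := by
    rw [et] at a2; linarith
  have a0 : (0 : ℝ) ≤ f 0 := by linarith
  have c0 : (0 : ℝ) ≤ f 2 := by linarith
  have hH : f 1 ^ 2 - 3 * f 0 * f 2 < 0 := by
    have h1 : (f 1 : ℝ) ^ 2 ≤ l ^ 2 := by gcongr
    have h2 : l * l ≤ (f 0 : ℝ) * f 2 := by gcongr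
    have h3 : (f 1 : ℝ) ^ 2 - 3 * f 0 * f 2 < 0 := by nlinarith
    exact_mod_cast h3
  refine ⟨?_, ?_, hH, ?_⟩
  · by_contra hc
    have e : 27 * f 0 ^ 2 * disc f = 4 * (f 1 ^ 2 - 3 * f 0 * f 2) ^ 3 -
        (2 * f 1 ^ 3 - 9 * f 0 * f 1 * f 2 + 27 * f 0 ^ 2 * f 3) ^ 2 := by
      simp only [disc]; ring
    have h1 : (f 1 ^ 2 - 3 * f 0 * f 2) ^ 3 < 0 := Odd.pow_neg (by decide) hH
    have h2 : 0 ≤ 27 * f 0 ^ 2 * disc f := mul_nonneg (by positivity) (not_lt.1 hc)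
    have h3 := sq_nonneg (2 * f 1 ^ 3 - 9 * f 0 * f 1 * f 2 + 27 * f 0 ^ 2 * f 3)
    linarith
  · simp only [disc]
    push_cast
    have h1 : (f 0 : ℝ) * f 2 ^ 3 ≤ 11 / 10 * l * (2 * l) ^ 3 := by gcongr
    have h2 : (f 1 : ℝ) ^ 3 * f 3 ≤ l ^ 3 * l := by gcongr
    have h3 : (f 0 : ℝ) ^ 2 * f 3 ^ 2 ≤ (11 / 10 * l) ^ 2 * l ^ 2 := by gcongr
    have h4 : (0 : ℝ) ≤ f 1 ^ 2 * f 2 ^ 2 := by positivity
    have h5 : (0 : ℝ) ≤ f 0 * f 1 * f 2 * f 3 := by positivity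
    have h6 : 0 < l ^ 4 := by positivity
    nlinarith
  · push_cast
    have h1 : (f 0 : ℝ) * f 2 ≤ 11 / 10 * l * (2 * l) := by gcongr
    nlinarith [sq_nonneg (f 1 : ℝ), sq_nonneg l]

theorem fin (l : ℝ) : {f | InBox l f}.Finite := by
  obtain ⟨N, hN⟩ := exists_int_gt (2 * |l|)
  refine (Set.finite_Icc (fun _ : Fin 4 => -N) (fun _ => N)).subset ?_
  rintro f ⟨⟨a1, a2⟩, ⟨b1, b2⟩, ⟨c1, c2⟩, d1, d2⟩
  have b1' : (0 : ℝ) ≤ f 1 := by exact_mod_cast b1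
  have d1' : (0 : ℝ) ≤ f 3 := by exact_mod_cast d1
  rw [et] at a2
  have h1 := abs_le.1 (le_refl |l|)
  have h2 := abs_nonneg l
  have key : ∀ i, -(N : ℝ) ≤ f i ∧ (f i : ℝ) ≤ N := by
    simp only [Fin.forall_fin_succ, IsEmpty.forall_iff, and_true]
    refine ⟨⟨?_, ?_⟩, ⟨?_, ?_⟩, ⟨?_, ?_⟩, ?_, ?_⟩
    · linarith
    · linarith
    · change _ ≤ (f 1 : ℝ); linarith
    · change (f 1 : ℝ) ≤ _; linarith
    · change _ ≤ (f 2 : ℝ); linarith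
    · change (f 2 : ℝ) ≤ _; linarith
    · change _ ≤ (f 3 : ℝ); linarith
    · change (f 3 : ℝ) ≤ _; linarith
  exact ⟨fun i => by exact_mod_cast (key i).1, fun i => by exact_mod_cast (key i).2⟩

theorem irr (p : ℕ) (f : Fin 4 → ℤ) (hp : p.Prime) (h : NoRoot p f) : Irr f := by
  intro x y hxy
  by_contra hne
  have hg : 0 < Int.gcd x y := Int.gcd_pos_iff.2 (by tauto)
  obtain ⟨x', y', hc, hx, hy⟩ := Int.exists_gcd_one hg
  have h1 : ev f x' y' * (Int.gcd x y : ℤ) ^ 3 = 0 := by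
    rw [← hxy]
    generalize (Int.gcd x y : ℤ) = g at hx hy
    rw [hx, hy]
    simp only [ev]; ring
  have h2 : ev f x' y' = 0 :=
    (mul_eq_zero.1 h1).resolve_right (pow_ne_zero _ (by exact_mod_cast hg.ne'))
  have h3 := h x' y' (by
    have := congrArg (fun t : ℤ => (t : ZMod p)) h2
    simpa [ev, cst] using this)
  rw [ZMod.intCast_zmod_eq_zero_iff_dvd, ZMod.intCast_zmod_eq_zero_iff_dvd] at h3
  have h4 := Int.dvd_gcd h3.1 h3.2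
  rw [hc] at h4
  exact hp.one_lt.ne' (Nat.dvd_one.1 h4)

end BasicAux

open BasicAux in
theorem basic : BasicSt where
  ext := ext'
  refl f := ⟨1, 0, 0, 1, by norm_num, fun x y => by simp⟩
  symm f g := by
    rintro ⟨α, β, γ, δ, hD, h⟩
    refine ⟨δ * (α * δ - β * γ), -β * (α * δ - β * γ), -γ * (α * δ - β * γ),
      α * (α * δ - β * γ), ?_, fun x y => ?_⟩
    · calc _ = ((α * δ - β * γ) ^ 2) ^ 3 := by ring
        _ = 1 := by rw [hD, one_pow]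
    · rw [h]
      congr 1
      · linear_combination (-x) * hD
      · linear_combination (-y) * hD
  trans f g k := by
    rintro ⟨α, β, γ, δ, hD, h⟩ ⟨α', β', γ', δ', hD', h'⟩
    refine ⟨α * α' + β * γ', α * β' + β * δ', γ * α' + δ * γ', γ * β' + δ * δ', ?_, fun x y => ?_⟩
    · calc _ = (α * δ - β * γ) ^ 2 * (α' * δ' - β' * γ') ^ 2 := by ring
        _ = 1 := by rw [hD, hD', one_mul]
    · rw [h', h]
      congr 1 <;> ring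
  edisc f g := by
    rintro ⟨α, β, γ, δ, hD, h⟩
    rw [ext' g (sub f α β γ δ) fun x y => by rw [h, ev_sub], disc_sub, hD, one_pow, one_mul]
  eirr f g := by
    rintro ⟨α, β, γ, δ, hD, h⟩ hf x y hxy
    obtain ⟨h1, h2⟩ := hf _ _ (h x y ▸ hxy)
    constructor
    · linear_combination (-x) * hD + (α * δ - β * γ) * (δ * h1 - β * h2)
    · linear_combination (-y) * hD + (α * δ - β * γ) * (α * h2 - γ * h1)
  irr := irr
  cong p m f g hpm hc hg := by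
    have : cst (ZMod p) f = cst (ZMod p) g := funext fun i =>
      ((ZMod.intCast_eq_intCast_iff_dvd_sub _ _ _).2
        ((Int.natCast_dvd_natCast.2 hpm).trans (hc i))).symm
    rw [NoRoot, this]
    exact hg
  box := box
  fin := fin
  root := root

end Pool.Agent.Lib.MP_02f36d_nt.CF
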