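import Pool.Agent.Lib.MP_02f36d_nt.CF.St

/-! A prime modulo which the form has no root is inert. -/

set_option autoImplicit false

noncomputable section

namespace Pool.Agent.Lib.MP_02f36d_nt.CF

open NumberField Polynomial

namespace DF5

theorem irr {k : Type} [Field k] (b c d : k) (h : ∀ r : k, r ^ 3 + b * r ^ 2 + c * r + d ≠ 0) :
    Irreducible (X ^ 3 + C b * X ^ 2 + C c * X + C d : k[X]) := by
  have hd : (X ^ 3 + C b * X ^ 2 + C c * X + C d : k[X]).natDegree = 3 := by compute_degree!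
  refine irreducible_of_degree_le_three_of_not_isRoot (by rw [hd]; simp) fun r hr => h r ?_
  simpa using hr

/-- A nontrivial ring generated by a root of an irreducible cubic is a domain. -/
theorem dom {k Q : Type} [Field k] [CommRing Q] [Nontrivial Q] (φ : k →+* Q) (b c d : k)
    (h : ∀ r : k, r ^ 3 + b * r ^ 2 + c * r + d ≠ 0) (w : Q)
    (hw : w ^ 3 + φ b * w ^ 2 + φ c * w + φ d = 0)
    (hs : ∀ x : Q, ∃ u v t : k, x = φ u + φ v * w + φ t * w ^ 2) : IsDomain Q := by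
  have : Fact (Irreducible (X ^ 3 + C b * X ^ 2 + C c * X + C d : k[X])) := ⟨irr b c d h⟩
  let ψ : AdjoinRoot (X ^ 3 + C b * X ^ 2 + C c * X + C d : k[X]) →+* Q :=
    AdjoinRoot.lift φ w (by simpa [eval₂_add, eval₂_mul, eval₂_pow] using hw)
  have hsurj : Function.Surjective ψ := fun x => by
    obtain ⟨u, v, t, rfl⟩ := hs x
    refine ⟨AdjoinRoot.of _ u + AdjoinRoot.of _ v * AdjoinRoot.root _ +
      AdjoinRoot.of _ t * AdjoinRoot.root _ ^ 2, ?_⟩
    simp [ψ]
  exact (RingEquiv.ofBijective ψ ⟨ψ.injective, hsurj⟩).symm.toMulEquiv.isDomain _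

end DF5

theorem df5 (h3 : DF3St) (_hB : BasicSt) : DF5St := by
  intro L _ _ θ f p hB hp hN
  obtain ⟨-, -, -, -, b, hb0, hb1, hb2⟩ := h3 L θ f hB
  have : Fact p.Prime := ⟨hp⟩
  have h0 : b 0 = 1 := by
    apply RingOfIntegers.coe_injective
    simpa using hb0
  have hroot : (f 0 : L) * θ ^ 3 + f 1 * θ ^ 2 + f 2 * θ + f 3 = 0 := by
    simpa [ev, cst] using hB.2.2.1
  have h1 : b 1 ^ 3 + f 1 * b 1 ^ 2 + f 0 * f 2 * b 1 + f 0 ^ 2 * f 3 = 0 := by
    apply RingOfIntegers.coe_injective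
    have e : algebraMap (𝓞 L) L (b 1) = f 0 * θ := hb1
    simp only [map_add, map_mul, map_pow, map_intCast, map_zero, e]
    linear_combination (f 0 : L) ^ 2 * hroot
  have h2 : (f 0 : 𝓞 L) * b 2 = b 1 ^ 2 + f 1 * b 1 := by
    apply RingOfIntegers.coe_injective
    have e : algebraMap (𝓞 L) L (b 1) = f 0 * θ := hb1
    have e' : algebraMap (𝓞 L) L (b 2) = f 0 * θ ^ 2 + f 1 * θ := hb2
    simp only [map_add, map_mul, map_pow, map_intCast, e, e']
    ring
  have hne : Ideal.span {(p : 𝓞 L)} ≠ ⊤ := by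
    rw [Ne, Ideal.span_singleton_eq_top]
    intro hu
    obtain ⟨x, hx⟩ := hu.exists_right_inv
    have h4 := congrArg (fun y => b.repr y 0) hx
    rw [← h0, ← nsmul_eq_mul] at h4
    simp only [map_nsmul, Finsupp.smul_apply, Module.Basis.repr_self,
      Finsupp.single_eq_same] at h4
    rw [nsmul_eq_mul] at h4
    have h5 : (p : ℤ) ∣ 1 := ⟨_, h4.symm⟩
    exact hp.one_lt.ne' (Nat.dvd_one.1 (by exact_mod_cast h5))
  have := Ideal.Quotient.nontrivial_iff.2 hne
  have hp0 : ((p : ℕ) : 𝓞 L ⧸ Ideal.span {(p : 𝓞 L)}) = 0 := by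
    rw [← map_natCast (Ideal.Quotient.mk _), Ideal.Quotient.eq_zero_iff_mem]
    exact Ideal.subset_span rfl
  let φ : ZMod p →+* 𝓞 L ⧸ Ideal.span {(p : 𝓞 L)} := ZMod.castHom (ringChar.dvd hp0) _
  have ha : (f 0 : ZMod p) ≠ 0 := fun h => by
    have := (hN 1 0 (by simp [ev, cst, h])).1
    exact one_ne_zero this
  let π := Ideal.Quotient.mk (Ideal.span {(p : 𝓞 L)})
  rw [← Ideal.Quotient.isDomain_iff_prime]
  refine DF5.dom φ (f 1) (f 0 * f 2) (f 0 ^ 2 * f 3) (fun r hr => ?_) (π (b 1)) ?_ fun x => ?_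
  · refine ha (hN r (f 0) ?_).2
    simp only [ev, cst]
    linear_combination (f 0 : ZMod p) * hr
  · have := congrArg π h1
    simpa only [map_add, map_mul, map_pow, map_intCast, map_zero] using this
  · obtain ⟨x, rfl⟩ := Ideal.Quotient.mk_surjective x
    have h4 := congrArg π h2
    have h5 := congrArg π (b.sum_repr x)
    have h6 : φ (f 0 : ZMod p)⁻¹ * (f 0 : 𝓞 L ⧸ Ideal.span {(p : 𝓞 L)}) = 1 := by
      rw [← map_intCast φ, ← map_mul, inv_mul_cancel₀ ha, map_one]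
    simp only [Fin.sum_univ_three, h0, zsmul_eq_mul, map_add, map_mul, map_pow, map_intCast,
      map_one] at h4 h5
    refine ⟨b.repr x 0, b.repr x 1 + b.repr x 2 * (f 0 : ZMod p)⁻¹ * f 1,
      b.repr x 2 * (f 0 : ZMod p)⁻¹, ?_⟩
    simp only [map_add, map_mul, map_intCast]
    change π x = _
    linear_combination (-1 : _) * h5 + (b.repr x 2 : _) * φ (f 0 : ZMod p)⁻¹ * h4 -
      (b.repr x 2 : _) * π (b 2) * h6

end Pool.Agent.Lib.MP_02f36d_nt.CF
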