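import Pool.Agent.Lib.MP_02f36d_nt.CF.All

/-! Cubic fields of odd class number with prescribed inert primes. -/

set_option autoImplicit false

noncomputable section

namespace Pool.Agent.Lib.MP_02f36d_nt.CF

open Matrix MeasureTheory Filter NumberField
open scoped IntermediateField Pointwise

namespace Gen

/-- The expected number of forms of the box in one residue class. -/
def NG (m : ℕ) (l : ℝ) : ℝ := et * l ^ 4 / (m : ℝ) ^ 4

/-- Fields of squarefree discriminant and odd class number with the primes of `m` inert. -/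
def OddG (m : ℕ) (X : ℝ) : Set (IntermediateField ℚ ℝ) :=
  {L | ∃ _ : NumberField L, Module.finrank ℚ L = 3 ∧ discr L < 0 ∧ -X ≤ discr L ∧
    Squarefree (discr L) ∧ (∀ p : ℕ, p.Prime → p ∣ m → (Ideal.span {(p : 𝓞 L)}).IsPrime) ∧
    Odd (classNumber L)}

theorem f0G {P : Finset ℕ} (hP : ∀ p ∈ P, p.Prime) : ∃ f, ∀ p ∈ P, NoRoot p f := by
  have h : ∀ p : ℕ, ∃ b : Fin 3 → ℕ, p.Prime → ∀ x y : ZMod p,
      x ^ 3 + b 0 * x ^ 2 * y + b 1 * x * y ^ 2 + b 2 * y ^ 3 = 0 → x = 0 ∧ y = 0 := fun p => by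
    by_cases hp : p.Prime
    · have := Fact.mk hp
      obtain ⟨b, hb⟩ := Cls.cubic p
      exact ⟨fun i => (b i).val, fun _ => by simpa using hb⟩
    · exact ⟨0, fun a => absurd a hp⟩
  choose b hb using h
  choose c hc using fun i : Fin 3 => Subtype.exists_of_subtype (Nat.chineseRemainderOfFinset
    (fun p => b p i) id P (fun p hp => (hP p hp).ne_zero) fun p hp q hq e =>
      (Nat.coprime_primes (hP p hp) (hP q hq)).2 e)
  refine ⟨![1, c 0, c 1, c 2], fun p hp x y e => hb p (hP p hp) x y ?_⟩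
  have k : ∀ i, (c i : ZMod p) = b p i := fun i => (ZMod.natCast_eq_natCast_iff _ _ _).2
    (hc i p hp)
  simpa [ev, cst, k] using e

theorem prodG {P : Finset ℕ} (hP : ∀ p ∈ P, p.Prime) (h : LocMAux.PP ⊆ P) :
    ∏ p ∈ P, ((1 - 1 / (p : ℝ) ^ 2) * (1 - 1 / (p : ℝ) ^ 3)) ≤ 5078 / 10000 := by
  have hb : ∀ p ∈ P, ∀ k : ℕ, 0 ≤ 1 - 1 / (p : ℝ) ^ k ∧ 1 - 1 / (p : ℝ) ^ k ≤ 1 := by
    intro p hp k
    have h1 : (1 : ℝ) ≤ p := by exact_mod_cast (hP p hp).pos
    have h2 : (1 : ℝ) ≤ (p : ℝ) ^ k := one_le_pow₀ h1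
    have h3 : 1 / (p : ℝ) ^ k ≤ 1 := by rw [div_le_one (by linarith)]; exact h2
    have h4 : 0 ≤ 1 / (p : ℝ) ^ k := by positivity
    constructor <;> linarith
  exact (Finset.prod_le_prod_of_subset_of_le_one h
    (fun p hp => mul_nonneg (hb p hp 2).1 (hb p hp 3).1)
    (fun p hp _ => mul_le_one₀ (hb p hp 2).2 (hb p hp 3).1 (hb p hp 3).2)).trans LocMAux.prod_le

open VL Finset in
theorem vG {m : ℕ} (hm0 : 0 < m) (h1000 : ∀ p : ℕ, p.Prime → p ≤ 1000 → p ∣ m) {f0 : Fin 4 → ℤ}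
    (hf0 : ∀ p : ℕ, p.Prime → p ∣ m → NoRoot p f0) : ∀ᶠ l : ℝ in atTop, 995 / 1000 * NG m l ≤
      ({f | InBox l f ∧ Cong m f f0 ∧ Squarefree (disc f)}.ncard : ℝ) := by
  classical
  have hB := basic
  have hC := cls
  have hT := trip basic
  have hD := dbl basic (nb basic) (mult basic)
  have het : 0 < et := by norm_num [et]
  have hm : (0 : ℝ) < m := by exact_mod_cast hm0
  have hm4 : (0 : ℝ) < (m : ℝ) ^ 4 := pow_pos hm 4
  obtain ⟨C, hC0, hD'⟩ := hD
  set η : ℝ := 1 / 2000 * et / (m : ℝ) ^ 4 with hη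
  have hη0 : 0 < η := div_pos (by positivity) hm4
  obtain ⟨K, hK⟩ := exists_nat_ge (2 * C / η)
  filter_upwards [Box.lowM m hm0 f0 (1 / 2000) (by norm_num),
    Box.smallM m hm0 f0 (1 / 2000) (by norm_num), hT η hη0,
    eventually_gt_atTop 0, eventually_ge_atTop ((K : ℝ) ^ 4)] with l h1 h2 h3 hl hKl
  rw [← NG] at h1 h2
  obtain ⟨N, hN⟩ := exists_nat_ge (110 * l ^ 4)
  have hNN : 0 ≤ NG m l := div_nonneg (by positivity) hm4.le
  have hηl : η * l ^ 4 = 1 / 2000 * NG m l := by rw [hη, NG]; ring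
  set P1 := (Ioc 1000 (1000 + N)).filter fun p : ℕ => p.Prime ∧ ¬ p ∣ m ∧ (p : ℝ) ^ 4 ≤ l
    with hP1
  set P2 := (Ioo K (N + 1)).filter fun p : ℕ => p.Prime with hP2
  set G := {f | InBox l f ∧ Cong m f f0 ∧ Squarefree (disc f)} with hG
  set A := ⋃ p ∈ P1, {f | InBox l f ∧ Cong m f f0 ∧ (Dbl p f ∨ Trip p f)} with hA
  set B := {f | InBox l f ∧ ∃ p : ℕ, p.Prime ∧ l < (p : ℝ) ^ 4 ∧ Trip p f} with hBd
  set D := ⋃ p ∈ P2, {f | InBox l f ∧ Irr f ∧ Dbl p f ∧ ¬ Trip p f} with hDd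
  have hsub : {f | InBox l f ∧ Cong m f f0} ⊆ G ∪ A ∪ B ∪ D := by
    rintro f ⟨hb, hc⟩
    by_cases hs : Squarefree (disc f)
    · exact Or.inl (Or.inl (Or.inl ⟨hb, hc, hs⟩))
    have hnr : ∀ p : ℕ, p.Prime → p ∣ m → NoRoot p f := fun p hp h =>
      hB.cong p m f f0 h hc (hf0 p hp h)
    obtain ⟨p, hp, hd⟩ := ex_prime hs
    have hp0 : ¬ p ∣ m := fun h =>
      hC.sep p f hp (hnr p hp h) ((dvd_pow_self _ two_ne_zero).trans hd)
    have hp1 : 1000 < p := not_le.1 fun h => hp0 (h1000 p hp h)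
    have hbox := hB.box l f hl hb
    have hpN : p ≤ N := by
      have a1 : (p : ℤ) ^ 2 ≤ -disc f := Int.le_of_dvd (by linarith [hbox.1]) (dvd_neg.2 hd)
      have a2 : (p : ℝ) ^ 2 ≤ -((disc f : ℤ) : ℝ) := by exact_mod_cast a1
      have a3 : (1000 : ℝ) < p := by exact_mod_cast hp1
      have a4 : (p : ℝ) ≤ N := by nlinarith [hbox.2.1]
      exact_mod_cast a4
    have hcl := hC.cls p f hp (by omega) hd
    by_cases hsm : (p : ℝ) ^ 4 ≤ l
    · refine Or.inl (Or.inl (Or.inr ?_))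
      exact Set.mem_biUnion (x := p) (by simp [hP1, hp, hp0, hp1, hsm]; omega) ⟨hb, hc, hcl⟩
    by_cases ht : Trip p f
    · exact Or.inl (Or.inr ⟨hb, p, hp, not_le.1 hsm, ht⟩)
    have hKp : K < p := by
      have : (K : ℝ) ^ 4 < (p : ℝ) ^ 4 := hKl.trans_lt (not_le.1 hsm)
      exact_mod_cast lt_of_pow_lt_pow_left₀ 4 (Nat.cast_nonneg p) this
    refine Or.inr (Set.mem_biUnion (x := p) (by simp [hP2, hp, hKp]; omega) ?_)
    exact ⟨hb, hB.irr 2 f Nat.prime_two (hnr 2 Nat.prime_two (h1000 2 Nat.prime_two (by norm_num))),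
      hcl.resolve_right ht, ht⟩
  have hfin : (G ∪ A ∪ B ∪ D).Finite := by
    refine (hB.fin l).subset ?_
    rintro f (((h | h) | h) | h)
    · exact h.1
    · obtain ⟨p, -, h⟩ := Set.mem_iUnion₂.1 h
      exact h.1
    · exact h.1
    · obtain ⟨p, -, h⟩ := Set.mem_iUnion₂.1 h
      exact h.1
  have hle : {f | InBox l f ∧ Cong m f f0}.ncard ≤ G.ncard + A.ncard + B.ncard + D.ncard :=
    (Set.ncard_le_ncard hsub hfin).trans ((Set.ncard_union_le _ _).trans (Nat.add_le_add_right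
      ((Set.ncard_union_le _ _).trans (Nat.add_le_add_right (Set.ncard_union_le _ _) _)) _))
  have hle' : ({f | InBox l f ∧ Cong m f f0}.ncard : ℝ) ≤
      G.ncard + A.ncard + B.ncard + D.ncard := by exact_mod_cast hle
  have hA' : (A.ncard : ℝ) ≤ (1 + 1 / 2000) * (2 / 1000) * NG m l := by
    refine (Nat.cast_le.2 (ncard_biUnion P1 _)).trans ?_
    rw [Nat.cast_sum]
    refine (Finset.sum_le_sum fun p hp => h2 p (mem_filter.1 hp).2.1.pos
      (Nat.isCoprime_iff_coprime.2 (((mem_filter.1 hp).2.1.coprime_iff_not_dvd).2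
        (mem_filter.1 hp).2.2.1).symm) (mem_filter.1 hp).2.2.2).trans ?_
    rw [← Finset.sum_mul, ← Finset.mul_sum]
    refine mul_le_mul_of_nonneg_right (mul_le_mul_of_nonneg_left ?_ (by norm_num)) hNN
    refine (Finset.sum_le_sum_of_subset_of_nonneg (filter_subset _ _)
      fun p _ _ => by positivity).trans ((tele N).trans ?_)
    have : (0 : ℝ) ≤ 2 / (1000 + N : ℝ) := by positivity
    linarith
  have hD2 : (D.ncard : ℝ) ≤ η * l ^ 4 := by
    refine (Nat.cast_le.2 (ncard_biUnion P2 _)).trans ?_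
    rw [Nat.cast_sum]
    refine (Finset.sum_le_sum fun p hp => hD' l hl p (mem_filter.1 hp).2).trans ?_
    simp only [div_eq_mul_inv]
    rw [← Finset.mul_sum]
    have a1 : ∑ p ∈ P2, ((p : ℝ) ^ 2)⁻¹ ≤ 2 / (K + 1) :=
      (Finset.sum_le_sum_of_subset_of_nonneg (filter_subset _ _)
        fun p _ _ => by positivity).trans (sum_Ioo_inv_sq_le K (N + 1))
    have a2 : C * (2 / (K + 1)) ≤ η := by
      rw [div_le_iff₀ hη0] at hK
      rw [← mul_div_assoc, div_le_iff₀ (by positivity)]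
      nlinarith
    calc C * l ^ 4 * ∑ p ∈ P2, ((p : ℝ) ^ 2)⁻¹ ≤ C * l ^ 4 * (2 / (K + 1)) :=
          mul_le_mul_of_nonneg_left a1 (by positivity)
      _ = C * (2 / (K + 1)) * l ^ 4 := by ring
      _ ≤ η * l ^ 4 := mul_le_mul_of_nonneg_right a2 (by positivity)
  linarith

open WL in
theorem wG {m : ℕ} (hm0 : 0 < m) {f0 : Fin 4 → ℤ} {T : Finset (EE (ZMod m))}
    (hT : (T.card : ℝ) ≤ 5078 / 10000 * (m : ℝ) ^ 8)
    (hT' : ∀ w : M3 ℤ × M3 ℤ, Sym w → Cong m (pif w) f0 → redE m (pack w) ∈ T) :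
    ∀ᶠ l : ℝ in atTop, ∀ S : Finset (M3 ℤ × M3 ℤ),
      (∀ w ∈ S, Sym w ∧ IrrW w ∧ Real1 w ∧ InBox l (pif w) ∧ Cong m (pif w) f0) →
      (∀ w ∈ S, ∀ w' ∈ S, EqW w w' → w = w') → (S.card : ℝ) ≤ 2975 / 1000 * NG m l := by
  classical
  have hP := pair
  have hR := red
  have hK := cpt
  have hB := body monS jac vol
  have hC := cnt
  have hCu := cusp pair monS
  have het := et_pos
  have hm : (0 : ℝ) < m := by exact_mod_cast hm0
  obtain ⟨δ, hδ, hcusp⟩ := hCu (2 / 1000 * et / m ^ 4) (by positivity)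
  obtain ⟨hc, hv⟩ := hB _ (Set.sep_subset _ _) (hK δ hδ)
  have hcnt := hC _ (5853 / 1000 * et) hc
    (hv.trans_lt ((ENNReal.ofReal_lt_ofReal_iff (by positivity)).2 const_lt)) m
    hm0.ne'
  have ht : Tendsto (fun l : ℝ => (l ^ (1 / 6 : ℝ)) ^ 2) atTop atTop :=
    (tendsto_pow_atTop two_ne_zero).comp (tendsto_rpow_atTop (by norm_num))
  filter_upwards [ht.eventually hcnt, eventually_gt_atTop 0] with l hcn hl S hS hne
  have hs : 0 < l ^ (1 / 6 : ℝ) := Real.rpow_pos_of_pos hl _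
  have hs6 : (l ^ (1 / 6 : ℝ)) ^ 6 = l := by
    rw [← Real.rpow_natCast, ← Real.rpow_mul hl.le]; norm_num
  generalize l ^ (1 / 6 : ℝ) = s at hs hs6 hcn
  subst hs6
  have hex : ∀ w, ∃ w', w ∈ S → EqW w w' ∧ pif w' = pif w ∧ ∃ h, RedW (s ^ 6) w' h := by
    intro w
    by_cases hw : w ∈ S
    · obtain ⟨a, b, c, d, -⟩ := hS w hw
      obtain ⟨w', h⟩ := reduce hP hR hl a b c d
      exact ⟨w', fun _ => h⟩
    · exact ⟨w, fun h => absurd h hw⟩
  choose ρ hρ using hex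
  have key : ∀ w ∈ S, ∀ w' ∈ S, EqW (ρ w) (ρ w') → w = w' := fun w hw w' hw' h =>
    hne w hw w' hw' (hP.trans _ _ _ (hP.trans _ _ _ (hρ w hw).1 h) (hP.symm _ _ (hρ w' hw').1))
  have hcard : (S.image ρ).card = S.card := Finset.card_image_of_injOn fun w hw w' hw' h =>
    key w hw w' hw' (h ▸ hP.refl _)
  set S' := S.image ρ with hS'
  have hne' : ∀ w ∈ S', ∀ w' ∈ S', EqW w w' → w = w' := by
    intro w hw w' hw' h
    obtain ⟨v, hv, rfl⟩ := Finset.mem_image.1 hw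
    obtain ⟨v', hv', rfl⟩ := Finset.mem_image.1 hw'
    rw [key v hv v' hv' h]
  have hmem : ∀ w ∈ S', Cong m (pif w) f0 ∧ ∃ h, RedW (s ^ 6) w h := by
    intro w hw
    obtain ⟨v, hv, rfl⟩ := Finset.mem_image.1 hw
    exact ⟨(hρ v hv).2.1 ▸ (hS v hv).2.2.2.2, (hρ v hv).2.2⟩
  have hsum := Finset.card_filter_add_card_filter_not (s := S')
    (fun w => ∃ h, RedW (s ^ 6) w h ∧ d1 h ^ 3 < δ * s ^ 6)
  have h1 := hcusp (s ^ 6) hl (S'.filter fun w => ∃ h, RedW (s ^ 6) w h ∧ d1 h ^ 3 < δ * s ^ 6)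
    (fun w hw => (Finset.mem_filter.1 hw).2)
    (fun w hw w' hw' => hne' w (Finset.mem_filter.1 hw).1 w' (Finset.mem_filter.1 hw').1)
  set S2 := S'.filter fun w => ¬ ∃ h, RedW (s ^ 6) w h ∧ d1 h ^ 3 < δ * s ^ 6 with hS2
  have hS2m : ∀ w ∈ S2, Sym w ∧ redE m (pack w) ∈ T ∧
      cstE (pack w) ∈ s ^ 2 • Phi '' {h ∈ Dset | δ ≤ d1 (Matrix.of h) ^ 3} ×ˢ Pset := by
    intro w hw
    obtain ⟨hw1, hw2⟩ := Finset.mem_filter.1 hw
    obtain ⟨hc, h, hh⟩ := hmem w hw1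
    exact ⟨hh.1, hT' w hh.1 hc, mem_body hs hh (not_lt.1 fun hlt => hw2 ⟨h, hh, hlt⟩)⟩
  have hc2 : (S2.image pack).card = S2.card := Finset.card_image_of_injOn fun w hw w' hw' h =>
    hP.packInj w w' (hS2m w hw).1 (hS2m w' hw').1 h
  have hfib := Finset.card_eq_sum_card_fiberwise (f := redE m) (s := S2.image pack) (t := T)
    (by
      intro x hx
      obtain ⟨w, hw, rfl⟩ := Finset.mem_image.1 (Finset.mem_coe.1 hx)
      exact (hS2m w hw).2.1)
  have h2 : (S2.card : ℝ) ≤ T.card * (5853 / 1000 * et * (s ^ 2) ^ 12 / (m : ℝ) ^ 12) := by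
    rw [← hc2, hfib, Nat.cast_sum, ← nsmul_eq_mul]
    refine Finset.sum_le_card_nsmul _ _ _ fun r _ => hcn r _ fun x hx => ?_
    obtain ⟨hx1, hx2⟩ := Finset.mem_filter.1 hx
    obtain ⟨w, hw, rfl⟩ := Finset.mem_image.1 hx1
    exact ⟨hx2, (hS2m w hw).2.2⟩
  have h3 := h2.trans (mul_le_mul_of_nonneg_right hT
    (div_nonneg (by positivity) (pow_pos hm _).le))
  have e1 : 2 / 1000 * et / (m : ℝ) ^ 4 * (s ^ 6) ^ 4 = 2 / 1000 * NG m (s ^ 6) := by
    rw [NG]; field_simp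
  have e2 : 5078 / 10000 * (m : ℝ) ^ 8 * (5853 / 1000 * et * (s ^ 2) ^ 12 / (m : ℝ) ^ 12) =
      5078 / 10000 * (5853 / 1000) * NG m (s ^ 6) := by
    rw [NG]; field_simp
  have hN : 0 ≤ NG m (s ^ 6) := div_nonneg (by positivity) (pow_pos hm _).le
  rw [e1] at h1
  rw [e2] at h3
  rw [← hcard, ← hsum, Nat.cast_add]
  linarith

/-- The forms of even class number are at most a third of the orbits. -/
theorem even_le (hPr : PairSt) (hP : ParSt) {m : ℕ} {l B : ℝ} {f0 : Fin 4 → ℤ}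
    (hW : ∀ S : Finset (M3 ℤ × M3 ℤ),
      (∀ w ∈ S, Sym w ∧ IrrW w ∧ Real1 w ∧ InBox l (pif w) ∧ Cong m (pif w) f0) →
      (∀ w ∈ S, ∀ w' ∈ S, EqW w w' → w = w') → (S.card : ℝ) ≤ B)
    (G : Finset (Fin 4 → ℤ))
    (hG : ∀ f ∈ G, InBox l f ∧ Cong m f f0 ∧ 0 < f 0 ∧ disc f < 0 ∧
      ∃ (L : IntermediateField ℚ ℝ) (_ : NumberField L) (θ : L), Bas L θ f ∧
        Even (classNumber L)) : 3 * (G.card : ℝ) ≤ B := by
  classical
  have hex : ∀ f : G, ∃ w : Fin 3 → M3 ℤ × M3 ℤ,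
      (∀ i, Sym (w i) ∧ IrrW (w i) ∧ Real1 (w i) ∧ pif (w i) = f) ∧
      ∀ i j, EqW (w i) (w j) → i = j := by
    intro f
    obtain ⟨-, -, h0, hd, L, i, θ, hb, he⟩ := hG f f.2
    exact hP L θ f hb h0 hd he
  choose w hw hw' using hex
  have key : ∀ x y : G × Fin 3, EqW (w x.1 x.2) (w y.1 y.2) → x = y := by
    rintro ⟨f, i⟩ ⟨g, j⟩ h
    have hfg : f = g := by
      obtain ⟨k, hk, hh⟩ := h
      have h2 := hPr.pifAct k (w f i)
      rw [hk, one_smul, ← hh, (hw f i).2.2.2, (hw g j).2.2.2] at h2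
      exact (Subtype.ext h2).symm
    subst hfg
    rw [hw' f i j h]
  have hinj : Function.Injective fun x : G × Fin 3 => w x.1 x.2 := fun x y h =>
    key x y (by simpa only [h] using hPr.refl (w y.1 y.2))
  have := hW (Finset.univ.image fun x : G × Fin 3 => w x.1 x.2) ?_ ?_
  · rw [Finset.card_image_of_injective _ hinj] at this
    simpa [mul_comm] using this
  · intro v hv
    obtain ⟨⟨f, i⟩, -, rfl⟩ := Finset.mem_image.1 hv
    obtain ⟨a, b, c, d⟩ := hw f i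
    refine ⟨a, b, c, ?_, ?_⟩
    · rw [d]; exact (hG f f.2).1
    · rw [d]; exact (hG f f.2).2.1
  · intro v hv v' hv' h
    obtain ⟨x, -, rfl⟩ := Finset.mem_image.1 hv
    obtain ⟨y, -, rfl⟩ := Finset.mem_image.1 hv'
    rw [key x y h]

open DensL in
/-- The count at the scale `l`. -/
theorem scale {P : Finset ℕ} (hP' : ∀ p ∈ P, p.Prime) (hP2 : LocMAux.PP ⊆ P) {m : ℕ}
    (hm : m = ∏ p ∈ P, p) :
    ∃ C : ℝ, 0 < C ∧ ∀ᶠ l : ℝ in atTop, NG m l ≤ C * ((OddG m (110 * l ^ 4)).ncard : ℝ) := by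
  classical
  have hB := basic
  have h1 := df1
  have h3 := df3
  have h4 := df4 df3
  have h5 := df5 df3 basic
  have hPr := pair
  have hP := parAll
  have hm0 : 0 < m := hm ▸ Finset.prod_pos fun p hp => (hP' p hp).pos
  have h1000 : ∀ p : ℕ, p.Prime → p ≤ 1000 → p ∣ m := fun p hp h => hm ▸
    Finset.dvd_prod_of_mem _ (hP2 (Finset.mem_filter.2 ⟨Finset.mem_range.2 (by omega), hp⟩))
  obtain ⟨f0, hf⟩ := f0G hP'
  have hf0 : ∀ p : ℕ, p.Prime → p ∣ m → NoRoot p f0 := fun p hp h => by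
    obtain ⟨q, hq, e⟩ := (Prime.dvd_finsetProd_iff hp.prime _).1 (hm ▸ h)
    exact hf p ((Nat.prime_dvd_prime_iff_eq hp (hP' q hq)).1 e ▸ hq)
  obtain ⟨T, hT, hT'⟩ := LocMAux.core (loc pair) hP' hm f0 hf
  replace hT := hT.trans (mul_le_mul_of_nonneg_right (prodG hP' hP2) (by positivity))
  obtain ⟨C, hC'⟩ := mult basic
  obtain ⟨U, hU'⟩ := upAll
  refine ⟨300 * (C + 1), by positivity, ?_⟩
  filter_upwards [vG hm0 h1000 hf0, wG hm0 hT hT', eventually_gt_atTop 0] with l hv hw hl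
  have hfin : {f | InBox l f ∧ Cong m f f0 ∧ Squarefree (disc f)}.Finite :=
    (hB.fin l).subset fun f hf => hf.1
  set G := hfin.toFinset with hGd
  have hG : ∀ f, f ∈ G ↔ InBox l f ∧ Cong m f f0 ∧ Squarefree (disc f) := fun f => by
    simp [hGd]
  rw [Set.ncard_eq_toFinset_card _ hfin, ← hGd] at hv
  have hnr : ∀ f ∈ G, ∀ p : ℕ, p.Prime → p ∣ m → NoRoot p f := fun f hf p hp h =>
    hB.cong p m f f0 h ((hG f).1 hf).2.1 (hf0 p hp h)
  have hex : ∀ f, ∃ L, f ∈ G → Q f L := by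
    intro f
    by_cases hf : f ∈ G
    · obtain ⟨L, hL⟩ := exQ hB h1 hl ((hG f).1 hf).1
        (hB.irr 2 f Nat.prime_two (hnr f hf 2 Nat.prime_two (h1000 2 Nat.prime_two (by norm_num)))) ((hG f).1 hf).2.2
      exact ⟨L, fun _ => hL⟩
    · exact ⟨⊥, fun h => absurd h hf⟩
  choose L hL using hex
  have hX : (0 : ℝ) ≤ 110 * l ^ 4 := by positivity
  have hOf : (OddG m (110 * l ^ 4)).Finite := (hU' _ hX).1.subset fun K hK => by
    obtain ⟨i, a, b, c, -⟩ := hK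
    exact ⟨i, a, b, c⟩
  have he := even_le hPr hP hw (G.filter fun f => L f ∉ OddG m (110 * l ^ 4)) ?_
  · have ho : (G.filter fun f => L f ∈ OddG m (110 * l ^ 4)).card ≤ C * hOf.toFinset.card := by
      refine Finset.card_le_mul_card_image_of_maps_to (f := L) ?_ C ?_
      · intro f hf
        simpa using (Finset.mem_filter.1 hf).2
      · intro K _
        rcases Finset.eq_empty_or_nonempty
          ((G.filter fun f => L f ∈ OddG m (110 * l ^ 4)).filter fun f => L f = K) with h | ⟨g, hg⟩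
        · simp [h]
        · refine le_trans ?_ (hC' l hl g)
          rw [← Set.ncard_coe_finset]
          refine Set.ncard_le_ncard ?_ ((hB.fin l).subset fun f hf => hf.1)
          intro f hf
          have hf' := Finset.mem_filter.1 (Finset.mem_coe.1 hf)
          have hg' := Finset.mem_filter.1 hg
          have hfG := (Finset.mem_filter.1 hf'.1).1
          have hgG := (Finset.mem_filter.1 hg'.1).1
          have q1 := hL f hfG
          have q2 := hL g hgG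
          rw [hf'.2] at q1
          rw [hg'.2] at q2
          obtain ⟨i, θ, b1⟩ := q1
          obtain ⟨j, θ', b2⟩ := q2
          exact ⟨((hG f).1 hfG).1, h4 K θ' θ g f b2 b1⟩
    have hsum := Finset.card_filter_add_card_filter_not (s := G)
      (fun f => L f ∈ OddG m (110 * l ^ 4))
    rw [Set.ncard_eq_toFinset_card _ hOf]
    have ho' : ((G.filter fun f => L f ∈ OddG m (110 * l ^ 4)).card : ℝ) ≤
        C * hOf.toFinset.card := by exact_mod_cast ho
    have hsum' : ((G.filter fun f => L f ∈ OddG m (110 * l ^ 4)).card : ℝ) +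
        (G.filter fun f => L f ∉ OddG m (110 * l ^ 4)).card = G.card := by exact_mod_cast hsum
    have hn : (0 : ℝ) ≤ hOf.toFinset.card := Nat.cast_nonneg _
    nlinarith
  · intro f hf
    obtain ⟨hfG, hno⟩ := Finset.mem_filter.1 hf
    obtain ⟨hb, hc, hs⟩ := (hG f).1 hfG
    obtain ⟨i, θ, b⟩ := hL f hfG
    have hbox := hB.box l f hl hb
    have h0 : 0 < f 0 := by
      have : (0 : ℝ) < f 0 := hl.trans_le hb.1.1
      exact_mod_cast this
    refine ⟨hb, hc, h0, hbox.1, L f, i, θ, b, ?_⟩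
    rw [← Nat.not_odd_iff_even]
    intro hodd
    have hd := (h3 _ θ f b).1
    exact hno ⟨i, b.1, hd ▸ hbox.1, hd ▸ hbox.2.1, hd ▸ hs,
      fun p hp h => h5 _ θ f p b hp (hnr f hfG p hp h), hodd⟩

end Gen

open Gen in
/-- Linearly many fields have odd class number and the primes of `n` inert. -/
theorem densG {n : ℕ} (hn : n ≠ 0) :
    ∃ c : ℝ, 0 < c ∧ ∀ᶠ X : ℝ in atTop, c * X ≤ ((OddG n X).ncard : ℝ) := by
  classical
  have hP : ∀ p ∈ LocMAux.PP ∪ n.primeFactors, p.Prime := fun p hp =>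
    (Finset.mem_union.1 hp).elim (fun h => (Finset.mem_filter.1 h).2) Nat.prime_of_mem_primeFactors
  obtain ⟨m, hm⟩ : ∃ m, m = ∏ p ∈ LocMAux.PP ∪ n.primeFactors, p := ⟨_, rfl⟩
  obtain ⟨C, hC0, h⟩ := scale hP Finset.subset_union_left hm
  have hm0 : (0 : ℝ) < m := by
    exact_mod_cast (hm ▸ Finset.prod_pos fun p hp => (hP p hp).pos : 0 < m)
  have hd : ∀ p : ℕ, p.Prime → p ∣ n → p ∣ m := fun p hp h => hm ▸
    Finset.dvd_prod_of_mem _ (Finset.mem_union_right _ (Nat.mem_primeFactors.2 ⟨hp, h, hn⟩))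
  clear hm
  obtain ⟨U, hU⟩ := upAll
  have het : 0 < et := by norm_num [et]
  refine ⟨et / (110 * m ^ 4 * C), by positivity, ?_⟩
  have ht : Tendsto (fun X : ℝ => √(√(X / 110))) atTop atTop :=
    Real.tendsto_sqrt_atTop.comp (Real.tendsto_sqrt_atTop.comp
      (tendsto_id.atTop_div_const (by norm_num)))
  filter_upwards [ht.eventually h, eventually_ge_atTop 0] with X hX h0
  have h4' : √(√(X / 110)) ^ 4 = X / 110 := by
    rw [show (4 : ℕ) = 2 * 2 from rfl, pow_mul, Real.sq_sqrt (Real.sqrt_nonneg _),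
      Real.sq_sqrt (by positivity)]
  rw [NG, h4', show 110 * (X / 110) = X by ring] at hX
  have hle : ((OddG m X).ncard : ℝ) ≤ (OddG n X).ncard := by
    refine Nat.cast_le.2 (Set.ncard_le_ncard ?_ ((hU X h0).1.subset ?_))
    · rintro L ⟨i, a, b, c, d, e, f⟩
      exact ⟨i, a, b, c, d, fun p hp h => e p hp (hd p hp h), f⟩
    · rintro L ⟨i, a, b, c, -⟩
      exact ⟨i, a, b, c⟩
  refine le_trans ?_ hle
  rw [div_mul_eq_mul_div, div_le_iff₀ (by positivity)]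
  rw [div_le_iff₀ (by positivity)] at hX
  nlinarith

end Pool.Agent.Lib.MP_02f36d_nt.CF
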