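import Pool.Agent.Lib.MP_02f36d_nt.CF.St

/-! The pair of symmetric matrices of a square root of a principal ideal. -/

set_option autoImplicit false

noncomputable section

namespace Pool.Agent.Lib.MP_02f36d_nt.CF

open Matrix NumberField

namespace ParAL

/-- The standard pair of a form. -/
def w0 (f : Fin 4 → ℤ) : M3 ℤ × M3 ℤ :=
  (!![0, 0, 1; 0, f 0, 0; 1, 0, -f 2], !![0, 1, 0; 1, -f 1, -f 2; 0, -f 2, -f 3])

/-- The constant terms of the multiplication table. -/
def u0 (f : Fin 4 → ℤ) : M3 ℤ := !![1, 0, 0; 0, 0, -(f 0 * f 3); 0, -(f 0 * f 3), -(f 1 * f 3)]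

theorem ev_w0 (f : Fin 4 → ℤ) (x y : ℤ) : -(x • (w0 f).1 - y • (w0 f).2).det = ev f x y := by
  simp [w0, det_fin_three, ev]
  ring

variable {L : Type} [Field L]

theorem table {θ : L} {f : Fin 4 → ℤ} (hθ : ev (cst L f) θ 1 = 0)
    (b : Module.Basis (Fin 3) ℤ (𝓞 L)) (h0 : (b 0 : L) = 1) (h1 : (b 1 : L) = f 0 * θ)
    (h2 : (b 2 : L) = f 0 * θ ^ 2 + f 1 * θ) (k l : Fin 3) :
    b k * b l = u0 f k l • b 0 + (w0 f).2 k l • b 1 + (w0 f).1 k l • b 2 := by
  simp only [ev, cst, one_pow, mul_one] at hθ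
  have h0' : algebraMap (𝓞 L) L (b 0) = 1 := h0
  have h1' : algebraMap (𝓞 L) L (b 1) = f 0 * θ := h1
  have h2' : algebraMap (𝓞 L) L (b 2) = f 0 * θ ^ 2 + f 1 * θ := h2
  apply FaithfulSMul.algebraMap_injective (𝓞 L) L
  fin_cases k <;> fin_cases l <;> simp [u0, w0, h0', h1', h2']
  · ring
  · linear_combination (f 0 : L) * hθ
  · linear_combination (f 0 : L) * hθ
  · linear_combination ((f 0 : L) * θ + f 1) * hθ

end ParAL

open ParAL in
theorem parA (h3 : DF3St) (hB : BasicSt) (hP : PairSt) : ParASt := by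
  classical
  intro L _ _ θ f hb δ I hI hII hN
  obtain ⟨-, -, -, -, b, h0, h1, h2⟩ := h3 L θ f hb
  have ht := table hb.2.2.1 b h0 h1 h2
  let bI : Module.Basis (Fin 3) ℤ I := Ideal.selfBasis b I hI
  have hN0 : (Ideal.absNorm I : ℤ) ≠ 0 := by
    simpa [Ideal.absNorm_eq_zero_iff] using hI
  have hδ : δ ≠ 0 := by
    rintro rfl
    rw [Algebra.norm_zero] at hN
    exact pow_ne_zero 2 hN0 hN.symm
  have hδI : δ ∈ I := Ideal.mul_le_left (hII ▸ Ideal.mem_span_singleton_self δ)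
  have hc : ∀ i j, ∃ c : 𝓞 L, c * δ = bI i * bI j := fun i j =>
    Ideal.mem_span_singleton'.1 (hII ▸ Ideal.mul_mem_mul (bI i).2 (bI j).2)
  choose c hc using hc
  have hcs : ∀ i j, c i j = c j i := fun i j =>
    mul_right_cancel₀ hδ (by rw [hc, hc, mul_comm])
  let g : M3 ℤ := Matrix.of fun i l => b.repr (bI i) l
  let h : M3 ℤ := Matrix.of fun k i => bI.repr ⟨δ * b k, I.mul_mem_right _ hδI⟩ i
  have e1 : ∀ k, δ * b k = ∑ i, h k i • (bI i : 𝓞 L) := fun k => by
    have := congrArg (fun x : I => (x : 𝓞 L)) (bI.sum_repr ⟨δ * b k, I.mul_mem_right _ hδI⟩)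
    simp only [AddSubmonoidClass.coe_finsetSum] at this
    exact this.symm
  have e2 : ∀ j, (bI j : 𝓞 L) = ∑ l, g j l • b l := fun j => (b.sum_repr _).symm
  have e3 : ∀ k j, ∑ i, h k i • c i j = ∑ l, g j l • (b k * b l) := fun k j => by
    apply mul_right_cancel₀ hδ
    calc (∑ i, h k i • c i j) * δ = (∑ i, h k i • (bI i : 𝓞 L)) * bI j := by
          simp only [Finset.sum_mul, smul_mul_assoc, hc]
      _ = (b k * ∑ l, g j l • b l) * δ := by rw [← e1, ← e2]; ring
      _ = _ := by simp only [Finset.mul_sum, mul_smul_comm]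
  have hg : g.det ^ 2 = (Ideal.absNorm I : ℤ) ^ 2 := by
    rw [← Ideal.natAbs_det_basis_change b I bI, Int.natAbs_sq, Module.Basis.det_apply,
      ← det_transpose]
    rfl
  have hhg : h * g = (Algebra.leftMulMatrix b δ)ᵀ := by
    ext k l
    rw [transpose_apply, Algebra.leftMulMatrix_eq_repr_mul, e1]
    simp [mul_apply, g, -zsmul_eq_mul]
  have hg0 : g.det ≠ 0 := fun h0 => pow_ne_zero 2 hN0 (by rw [← hg, h0]; simp)
  have hdet : h.det = g.det := by
    have := congrArg det hhg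
    rw [det_mul, det_transpose, ← Algebra.norm_eq_matrix_det, hN, ← hg, sq] at this
    exact mul_right_cancel₀ hg0 this
  let w : M3 ℤ × M3 ℤ :=
    (Matrix.of fun i j => b.repr (c i j) 2, Matrix.of fun i j => b.repr (c i j) 1)
  have hA : h * w.1 = (w0 f).1 * gᵀ := by
    ext k j
    have := congrArg (fun x => b.repr x 2) (e3 k j)
    simpa [mul_apply, w, ht, mul_comm, -zsmul_eq_mul] using this
  have hB' : h * w.2 = (w0 f).2 * gᵀ := by
    ext k j
    have := congrArg (fun x => b.repr x 1) (e3 k j)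
    simpa [mul_apply, w, ht, mul_comm, -zsmul_eq_mul] using this
  refine ⟨fun i => ((bI i : 𝓞 L) : L), w, ?_, fun i j => ⟨b.repr (c i j) 0, ?_⟩, ⟨?_, ?_⟩, ?_⟩
  · rw [← LinearIndependent.iff_fractionRing ℤ ℚ]
    exact (bI.linearIndependent.map' (I.restrictScalars ℤ).subtype (Submodule.ker_subtype _)).map'
      (algebraMap (𝓞 L) L).toIntAlgHom.toLinearMap
      (LinearMap.ker_eq_bot.2 (FaithfulSMul.algebraMap_injective (𝓞 L) L))
  · have a1 := congrArg (algebraMap (𝓞 L) L) (hc i j)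
    have a2 := congrArg (algebraMap (𝓞 L) L) (b.sum_repr (c i j))
    have h0' : algebraMap (𝓞 L) L (b 0) = 1 := h0
    have h1' : algebraMap (𝓞 L) L (b 1) = f 0 * θ := h1
    have h2' : algebraMap (𝓞 L) L (b 2) = f 0 * θ ^ 2 + f 1 * θ := h2
    simp only [map_mul] at a1
    simp only [Fin.sum_univ_three, map_add, zsmul_eq_mul, map_mul, map_intCast, h0', h1', h2',
      mul_one] at a2
    change algebraMap (𝓞 L) L _ * algebraMap (𝓞 L) L _ = algebraMap (𝓞 L) L δ * _
    rw [← a1, ← a2, mul_comm]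
    rfl
  · ext i j
    simp [w, hcs i j]
  · ext i j
    simp [w, hcs i j]
  · refine hB.ext _ _ fun x y => ?_
    rw [hP.pifEv, ← ev_w0, neg_inj]
    have : h * (x • w.1 - y • w.2) = (x • (w0 f).1 - y • (w0 f).2) * gᵀ := by
      rw [Matrix.mul_sub, Matrix.sub_mul, Matrix.mul_smul, Matrix.mul_smul, hA, hB',
        Matrix.smul_mul, Matrix.smul_mul]
    have h4 := congrArg det this
    rw [det_mul, det_mul, det_transpose, hdet, mul_comm] at h4
    exact mul_right_cancel₀ hg0 h4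

end Pool.Agent.Lib.MP_02f36d_nt.CF
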