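import Mathlib

/-! Cubic fields of odd class number: definitions and statements of the steps. -/

set_option autoImplicit false

noncomputable section

namespace Pool.Agent.Lib.MP_02f36d_nt.CF

open Matrix MeasureTheory Filter NumberField
open scoped IntermediateField Pointwise

/-! ### Binary cubic forms -/

section Forms

variable {R : Type*} [CommRing R]

/-- The value of a binary cubic form. -/
def ev (f : Fin 4 → R) (x y : R) : R :=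
  f 0 * x ^ 3 + f 1 * x ^ 2 * y + f 2 * x * y ^ 2 + f 3 * y ^ 3

/-- The discriminant of a binary cubic form. -/
def disc (f : Fin 4 → R) : R :=
  f 1 ^ 2 * f 2 ^ 2 - 4 * f 0 * f 2 ^ 3 - 4 * f 1 ^ 3 * f 3 - 27 * f 0 ^ 2 * f 3 ^ 2 +
    18 * f 0 * f 1 * f 2 * f 3

/-- An integral form read in the ring `R`. -/
def cst (R : Type*) [CommRing R] (f : Fin 4 → ℤ) : Fin 4 → R := fun i => (f i : R)

end Forms

/-- No rational root. -/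
def Irr (f : Fin 4 → ℤ) : Prop := ∀ x y : ℤ, ev f x y = 0 → x = 0 ∧ y = 0

/-- No root modulo `p`. -/
def NoRoot (p : ℕ) (f : Fin 4 → ℤ) : Prop :=
  ∀ x y : ZMod p, ev (cst (ZMod p) f) x y = 0 → x = 0 ∧ y = 0

/-- `g` arises from `f` by an invertible integral substitution. -/
def Eqv (f g : Fin 4 → ℤ) : Prop := ∃ α β γ δ : ℤ, (α * δ - β * γ) ^ 2 = 1 ∧
  ∀ x y : ℤ, ev g x y = ev f (α * x + β * y) (γ * x + δ * y)

/-- The width of the box. -/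
def et : ℝ := 1 / 10000

/-- The modulus. -/
def mm : ℕ := primorial 1000

/-- The box of forms of size `l`. -/
def InBox (l : ℝ) (f : Fin 4 → ℤ) : Prop :=
  (l ≤ f 0 ∧ (f 0 : ℝ) ≤ (1 + et) * l) ∧ (0 ≤ f 1 ∧ (f 1 : ℝ) ≤ l) ∧
    (l ≤ f 2 ∧ (f 2 : ℝ) ≤ 2 * l) ∧ (0 ≤ f 3 ∧ (f 3 : ℝ) ≤ l)

/-- Congruence of forms. -/
def Cong (m : ℕ) (f g : Fin 4 → ℤ) : Prop := ∀ i, (m : ℤ) ∣ f i - g i

/-- The expected number of forms of the box in one residue class. -/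
def NN (l : ℝ) : ℝ := et * l ^ 4 / (mm : ℝ) ^ 4

/-- A double root modulo `p` at which the value is divisible by `p ^ 2`. -/
def Dbl (p : ℕ) (f : Fin 4 → ℤ) : Prop :=
  (∃ r : ℕ, r < p ∧ (p : ℤ) ^ 2 ∣ ev f r 1 ∧ (p : ℤ) ∣ 3 * f 0 * r ^ 2 + 2 * f 1 * r + f 2) ∨
    ((p : ℤ) ^ 2 ∣ f 0 ∧ (p : ℤ) ∣ f 1)

/-- A triple root modulo `p`. -/
def Trip (p : ℕ) (f : Fin 4 → ℤ) : Prop :=
  (∃ r : ℕ, r < p ∧ (p : ℤ) ∣ f 1 + 3 * f 0 * r ∧ (p : ℤ) ∣ f 2 - 3 * f 0 * r ^ 2 ∧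
    (p : ℤ) ∣ f 3 + f 0 * r ^ 3) ∨ ((p : ℤ) ∣ f 0 ∧ (p : ℤ) ∣ f 1 ∧ (p : ℤ) ∣ f 2)

/-! ### Pairs of symmetric matrices -/

abbrev M3 (R : Type*) := Matrix (Fin 3) (Fin 3) R

section Pairs

variable {R : Type*} [CommRing R]

/-- The coefficients of `- det (X A - Y B)`. -/
def pif (w : M3 R × M3 R) : Fin 4 → R :=
  ![-w.1.det, (w.1.adjugate * w.2).trace, -(w.2.adjugate * w.1).trace, w.2.det]

/-- The action on pairs. -/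
def act (g : M3 R) (w : M3 R × M3 R) : M3 R × M3 R := (g * w.1 * gᵀ, g * w.2 * gᵀ)

/-- Both matrices are symmetric. -/
def Sym (w : M3 R × M3 R) : Prop := w.1.IsSymm ∧ w.2.IsSymm

end Pairs

/-- An integral pair read over the reals. -/
def cstW (w : M3 ℤ × M3 ℤ) : M3 ℝ × M3 ℝ :=
  (w.1.map fun x => (x : ℝ), w.2.map fun x => (x : ℝ))

/-- No common rational zero. -/
def IrrW (w : M3 ℤ × M3 ℤ) : Prop :=
  ∀ v : Fin 3 → ℤ, v ⬝ᵥ w.1 *ᵥ v = 0 → v ⬝ᵥ w.2 *ᵥ v = 0 → v = 0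

/-- Equivalence of integral pairs. -/
def EqW (w w' : M3 ℤ × M3 ℤ) : Prop := ∃ g : M3 ℤ, g.det ^ 2 = 1 ∧ w' = act g w

/-- The standard real pair with real root `p 0` and complex root `p 1 + i p 2`. -/
def w1 (p : Fin 3 → ℝ) : M3 ℝ × M3 ℝ :=
  (!![1, 0, 0; 0, 1, 0; 0, 0, -1], !![p 0, 0, 0; 0, p 1, -p 2; 0, -p 2, -p 1])

/-- The lower coefficients of the monic cubic with these roots. -/
def mon (p : Fin 3 → ℝ) : Fin 3 → ℝ :=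
  ![-(p 0 + 2 * p 1), 2 * p 0 * p 1 + p 1 ^ 2 + p 2 ^ 2, -(p 0 * (p 1 ^ 2 + p 2 ^ 2))]

/-- The parameters of the forms of the box. -/
def Pset : Set (Fin 3 → ℝ) :=
  {p | 0 ≤ p 2 ∧ (0 ≤ mon p 0 ∧ mon p 0 ≤ 1) ∧ (1 - et ≤ mon p 1 ∧ mon p 1 ≤ 2) ∧
    (0 ≤ mon p 2 ∧ mon p 2 ≤ 1)}

/-- The pair lies in the real orbit of a standard pair. -/
def Real1 (w : M3 ℤ × M3 ℤ) : Prop :=
  ∃ (h : M3 ℝ) (p : Fin 3 → ℝ), 0 ≤ p 2 ∧ cstW w = act h (w1 p)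

/-- The square of the length of the first row. -/
def d1 (h : M3 ℝ) : ℝ := h 0 ⬝ᵥ h 0

/-- The square of the area spanned by the first two rows. -/
def d2 (h : M3 ℝ) : ℝ := (h 0 ⨯₃ h 1) ⬝ᵥ (h 0 ⨯₃ h 1)

/-- The Siegel set, with signs normalised. -/
def Sieg (h : M3 ℝ) : Prop :=
  (0 ≤ h 0 0 ∧ 0 ≤ h 0 1) ∧ (0 ≤ h 1 ⬝ᵥ h 0 ∧ h 1 ⬝ᵥ h 0 ≤ d1 h / 2) ∧ |h 2 ⬝ᵥ h 0| ≤ d1 h / 2 ∧
    (0 ≤ (h 0 ⨯₃ h 2) ⬝ᵥ (h 0 ⨯₃ h 1) ∧ (h 0 ⨯₃ h 2) ⬝ᵥ (h 0 ⨯₃ h 1) ≤ d2 h / 2) ∧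
    3 * d1 h ^ 2 ≤ 4 * d2 h ∧ 3 * d2 h ^ 2 ≤ 4 * d1 h * h.det ^ 2

/-- The coordinate space of dimension twelve. -/
abbrev EE (R : Type*) := (Fin 3 → Fin 3 → R) × (Fin 3 → R)

/-- The twelve coordinates of a symmetric pair. -/
def pack {R : Type*} (w : M3 R × M3 R) : EE R :=
  (fun i j => if i ≤ j then w.1 i j else w.2 i j, fun i => w.2 i i)

/-- The parametrisation of the real orbits. -/
def Phi (x : EE ℝ) : EE ℝ := pack (act (Matrix.of x.1) (w1 x.2))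

/-- The reduced matrices of determinant about one. -/
def Dset : Set (Fin 3 → Fin 3 → ℝ) :=
  {h | Sieg (Matrix.of h) ∧ 1 ≤ (Matrix.of h).det ^ 2 ∧ (Matrix.of h).det ^ 2 ≤ 1 + et}

/-- An integral point of the coordinate space. -/
def cstE (x : EE ℤ) : EE ℝ := (fun i j => (x.1 i j : ℝ), fun i => (x.2 i : ℝ))

/-- The residue class of an integral point. -/
def redE (m : ℕ) (x : EE ℤ) : EE (ZMod m) :=
  (fun i j => (x.1 i j : ZMod m), fun i => (x.2 i : ZMod m))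

/-- A reduced pair of size `l`, with its data. -/
def RedW (l : ℝ) (w : M3 ℤ × M3 ℤ) (h : M3 ℝ) : Prop :=
  Sym w ∧ IrrW w ∧ Sieg h ∧ (l ≤ h.det ^ 2 ∧ h.det ^ 2 ≤ (1 + et) * l) ∧
    ∃ p ∈ Pset, cstW w = act h (w1 p)

/-! ### Cubic fields -/

/-- `1, a θ, a θ ^ 2 + b θ` is an integral basis of the cubic field `L`. -/
def Bas (L : Type) [Field L] [NumberField L] (θ : L) (f : Fin 4 → ℤ) : Prop :=
  Module.finrank ℚ L = 3 ∧ f 0 ≠ 0 ∧ ev (cst L f) θ 1 = 0 ∧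
    ∀ x : L, IsIntegral ℤ x ↔
      ∃ u v w : ℤ, x = u + v * (f 0 * θ) + w * (f 0 * θ ^ 2 + f 1 * θ)

/-- The complex cubic fields of discriminant at least `- X`, in their real embedding. -/
def AllF (X : ℝ) : Set (IntermediateField ℚ ℝ) :=
  {L | ∃ _ : NumberField L, Module.finrank ℚ L = 3 ∧ discr L < 0 ∧ -X ≤ discr L}

/-- Those with squarefree discriminant, odd class number and `17` inert. -/
def OddF (X : ℝ) : Set (IntermediateField ℚ ℝ) :=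
  {L | ∃ _ : NumberField L, Module.finrank ℚ L = 3 ∧ discr L < 0 ∧ -X ≤ discr L ∧
    Squarefree (discr L) ∧ (Ideal.span {(17 : 𝓞 L)}).IsPrime ∧ Odd (classNumber L)}

/-! ### Statements: forms -/

/-- Elementary facts. -/
structure BasicSt : Prop where
  ext : ∀ f g : Fin 4 → ℤ, (∀ x y : ℤ, ev f x y = ev g x y) → f = g
  refl : ∀ f, Eqv f f
  symm : ∀ f g, Eqv f g → Eqv g f
  trans : ∀ f g k, Eqv f g → Eqv g k → Eqv f k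
  edisc : ∀ f g, Eqv f g → disc g = disc f
  eirr : ∀ f g, Eqv f g → Irr f → Irr g
  irr : ∀ (p : ℕ) f, p.Prime → NoRoot p f → Irr f
  cong : ∀ (p m : ℕ) f g, p ∣ m → Cong m f g → NoRoot p g → NoRoot p f
  box : ∀ (l : ℝ) f, 0 < l → InBox l f → disc f < 0 ∧ -(110 * l ^ 4) ≤ ((disc f : ℤ) : ℝ) ∧
    (f 1 ^ 2 - 3 * f 0 * f 2 < 0 ∧ -(7 * l ^ 2) ≤ ((f 1 ^ 2 - 3 * f 0 * f 2 : ℤ) : ℝ))
  fin : ∀ l : ℝ, {f | InBox l f}.Finite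
  root : ∀ f : Fin 4 → ℤ, f 0 ≠ 0 → disc f < 0 → ∃ (ρ : ℝ) (z : ℂ), 0 < z.im ∧
    (∀ x : ℂ, ev (cst ℂ f) x 1 = f 0 * (x - ρ) * (x - z) * (x - starRingEnd ℂ z)) ∧
    ((disc f : ℤ) : ℝ) = -(4 * (f 0 : ℝ) ^ 4 * z.im ^ 2 * ‖z - ρ‖ ^ 4)

/-- Primes and discriminants. -/
structure ClsSt : Prop where
  cls : ∀ (p : ℕ) f, p.Prime → 5 ≤ p → (p : ℤ) ^ 2 ∣ disc f → Dbl p f ∨ Trip p f
  sep : ∀ (p : ℕ) f, p.Prime → NoRoot p f → ¬ (p : ℤ) ∣ disc f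
  f0 : ∃ f, ∀ p : ℕ, p.Prime → p ≤ 1000 → NoRoot p f

/-- The number of classes of irreducible forms of negative discriminant. -/
def NBSt : Prop := ∃ C : ℝ, 0 ≤ C ∧ ∀ Y : ℝ, 0 ≤ Y → ∃ T : Finset (Fin 4 → ℤ),
  (T.card : ℝ) ≤ C * Y ∧ ∀ f, Irr f → disc f < 0 → -Y ≤ ((disc f : ℤ) : ℝ) → ∃ g ∈ T, Eqv f g

/-- A class meets the box in boundedly many forms. -/
def MultSt : Prop := ∃ C : ℕ, ∀ l : ℝ, 0 < l → ∀ g, {f | InBox l f ∧ Eqv g f}.ncard ≤ C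

/-- The size of a residue class in the box. -/
def LowSt : Prop := ∀ (f0 : Fin 4 → ℤ) (ε : ℝ), 0 < ε → ∀ᶠ l : ℝ in atTop,
  (1 - ε) * NN l ≤ ({f | InBox l f ∧ Cong mm f f0}.ncard : ℝ)

/-- The sieve at small primes. -/
def SmallSt : Prop := ∀ (f0 : Fin 4 → ℤ) (ε : ℝ), 0 < ε → ∀ᶠ l : ℝ in atTop,
  ∀ p : ℕ, p.Prime → 1000 < p → (p : ℝ) ^ 4 ≤ l →
    ({f | InBox l f ∧ Cong mm f f0 ∧ (Dbl p f ∨ Trip p f)}.ncard : ℝ) ≤
      (1 + ε) * (2 * (p + 1) / (p : ℝ) ^ 3) * NN l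

/-- Triple roots at large primes. -/
def TripSt : Prop := ∀ ε : ℝ, 0 < ε → ∀ᶠ l : ℝ in atTop,
  ({f | InBox l f ∧ ∃ p : ℕ, p.Prime ∧ l < (p : ℝ) ^ 4 ∧ Trip p f}.ncard : ℝ) ≤ ε * l ^ 4

/-- Double roots, uniformly in the prime. -/
def DblSt : Prop := ∃ C : ℝ, 0 ≤ C ∧ ∀ l : ℝ, 0 < l → ∀ p : ℕ, p.Prime →
  ({f | InBox l f ∧ Irr f ∧ Dbl p f ∧ ¬ Trip p f}.ncard : ℝ) ≤ C * l ^ 4 / (p : ℝ) ^ 2

/-- Most forms of the class have squarefree discriminant. -/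
def VSt : Prop := ∀ f0 : Fin 4 → ℤ, (∀ p : ℕ, p.Prime → p ≤ 1000 → NoRoot p f0) →
  ∀ᶠ l : ℝ in atTop, 995 / 1000 * NN l ≤
    ({f | InBox l f ∧ Cong mm f f0 ∧ Squarefree (disc f)}.ncard : ℝ)

/-! ### Statements: pairs -/

/-- Elementary facts. -/
structure PairSt : Prop where
  pifEv : ∀ {R : Type} [CommRing R] (w : M3 R × M3 R) (x y : R),
    ev (pif w) x y = -(x • w.1 - y • w.2).det
  pifAct : ∀ {R : Type} [CommRing R] (g : M3 R) (w : M3 R × M3 R),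
    pif (act g w) = g.det ^ 2 • pif w
  pifW1 : ∀ p, pif (w1 p) = ![1, mon p 0, mon p 1, mon p 2]
  pifCst : ∀ w, pif (cstW w) = cst ℝ (pif w)
  actMul : ∀ {R : Type} [CommRing R] (g k : M3 R) (w : M3 R × M3 R),
    act (g * k) w = act g (act k w)
  actCst : ∀ g w, cstW (act g w) = act (g.map fun x => (x : ℝ)) (cstW w)
  actSym : ∀ {R : Type} [CommRing R] (g : M3 R) (w : M3 R × M3 R), Sym w → Sym (act g w)
  packInj : ∀ {R : Type} [CommRing R] (w w' : M3 R × M3 R), Sym w → Sym w' →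
    pack w = pack w' → w = w'
  refl : ∀ w, EqW w w
  symm : ∀ w w', EqW w w' → EqW w' w
  trans : ∀ w w' w'', EqW w w' → EqW w' w'' → EqW w w''
  eirr : ∀ w w', EqW w w' → IrrW w → IrrW w'

/-- Reduction theory. -/
def RedSt : Prop := ∀ h : M3 ℝ, h.det ≠ 0 → ∃ (g : M3 ℤ) (h' : M3 ℝ), g.det ^ 2 = 1 ∧ Sieg h' ∧
  h'.det ^ 2 = h.det ^ 2 ∧
  ∀ p, act h' (w1 p) = act (g.map fun x => (x : ℝ)) (act h (w1 p))

/-- The parameter set. -/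
def MonSt : Prop := IsCompact Pset ∧ (∀ p ∈ Pset, ∀ i, |p i| ≤ 3) ∧
  ∫⁻ p in Pset, ENNReal.ofReal (4 * p 2 * ((p 1 - p 0) ^ 2 + p 2 ^ 2)) ≤ ENNReal.ofReal (1 + et)

/-- The Jacobian of the parametrisation. -/
def JacSt : Prop := ∀ x : EE ℝ, (Matrix.of x.1).det ≠ 0 → ∃ D : EE ℝ →L[ℝ] EE ℝ,
  HasFDerivAt Phi D x ∧
    |D.det| = 32 * |x.2 2| * ((x.2 1 - x.2 0) ^ 2 + x.2 2 ^ 2) * |(Matrix.of x.1).det| ^ 5

/-- The volume of the Siegel set. -/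
def VolSt : Prop := volume Dset ≤ ENNReal.ofReal (2 * Real.pi ^ 2 / 27 * et * (1 + et))

/-- The part of the Siegel set away from the cusp is compact. -/
def CptSt : Prop := ∀ δ : ℝ, 0 < δ → IsCompact {h ∈ Dset | δ ≤ d1 (Matrix.of h) ^ 3}

/-- The volume of the main body. -/
def BodySt : Prop := ∀ D ⊆ Dset, IsCompact D → IsCompact (Phi '' D ×ˢ Pset) ∧
  volume (Phi '' D ×ˢ Pset) ≤ ENNReal.ofReal (16 * Real.pi ^ 2 / 27 * et * (1 + et) ^ 5)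

/-- Integral points of a residue class in dilates of a compact set. -/
def CntSt : Prop := ∀ (K : Set (EE ℝ)) (v : ℝ), IsCompact K → volume K < ENNReal.ofReal v →
  ∀ m : ℕ, m ≠ 0 → ∀ᶠ t : ℝ in atTop, ∀ (r : EE (ZMod m)) (S : Finset (EE ℤ)),
    (∀ x ∈ S, redE m x = r ∧ cstE x ∈ t • K) → (S.card : ℝ) ≤ v * t ^ 12 / (m : ℝ) ^ 12

/-- The cusp. -/
def CuspSt : Prop := ∀ ε : ℝ, 0 < ε → ∃ δ : ℝ, 0 < δ ∧ ∀ l : ℝ, 0 < l →
  ∀ S : Finset (M3 ℤ × M3 ℤ), (∀ w ∈ S, ∃ h, RedW l w h ∧ d1 h ^ 3 < δ * l) →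
    (∀ w ∈ S, ∀ w' ∈ S, EqW w w' → w = w') → (S.card : ℝ) ≤ ε * l ^ 4

/-- The fibre over an irreducible form modulo a prime. -/
def LocSt : Prop := ∀ (p : ℕ) (f : Fin 4 → ℤ), p.Prime → NoRoot p f →
  {w : M3 (ZMod p) × M3 (ZMod p) | Sym w ∧ pif w = cst (ZMod p) f}.ncard ≤
    p ^ 3 * (p ^ 2 - 1) * (p ^ 3 - 1)

/-- The residue classes modulo `mm` over a given form. -/
def LocMSt : Prop := ∀ f0 : Fin 4 → ℤ, (∀ p : ℕ, p.Prime → p ≤ 1000 → NoRoot p f0) →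
  ∃ T : Finset (EE (ZMod mm)), (T.card : ℝ) ≤ 5078 / 10000 * (mm : ℝ) ^ 8 ∧
    ∀ w : M3 ℤ × M3 ℤ, Sym w → Cong mm (pif w) f0 → redE mm (pack w) ∈ T

/-- The number of orbits over the box. -/
def WSt : Prop := ∀ f0 : Fin 4 → ℤ, (∀ p : ℕ, p.Prime → p ≤ 1000 → NoRoot p f0) →
  ∀ᶠ l : ℝ in atTop, ∀ S : Finset (M3 ℤ × M3 ℤ),
    (∀ w ∈ S, Sym w ∧ IrrW w ∧ Real1 w ∧ InBox l (pif w) ∧ Cong mm (pif w) f0) →
    (∀ w ∈ S, ∀ w' ∈ S, EqW w w' → w = w') → (S.card : ℝ) ≤ 2975 / 1000 * NN l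

/-! ### Statements: fields -/

/-- The field of a form of squarefree discriminant. -/
def DF1St : Prop := ∀ (f : Fin 4 → ℤ) (ρ : ℝ), Irr f → ev (cst ℝ f) ρ 1 = 0 →
  Squarefree (disc f) →
    ∃ (_ : NumberField ℚ⟮ρ⟯), Bas ℚ⟮ρ⟯ ⟨ρ, IntermediateField.mem_adjoin_simple_self ℚ ρ⟩ f

/-- The form of a cubic field. -/
def DF2St : Prop := ∀ (L : Type) [Field L] [NumberField L], Module.finrank ℚ L = 3 →
  ∃ θ f, Bas L θ f

/-- Consequences of the basis property. -/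
def DF3St : Prop := ∀ (L : Type) [Field L] [NumberField L] (θ : L) (f : Fin 4 → ℤ), Bas L θ f →
  discr L = disc f ∧ Irr f ∧ (∀ u v w : ℚ, (u : L) + v * θ + w * θ ^ 2 = 0 → u = 0 ∧ v = 0 ∧ w = 0) ∧
    (∀ x : L, ∃ u v w : ℚ, x = u + v * θ + w * θ ^ 2) ∧
    ∃ b : Module.Basis (Fin 3) ℤ (𝓞 L), (b 0 : L) = 1 ∧ (b 1 : L) = f 0 * θ ∧
      (b 2 : L) = f 0 * θ ^ 2 + f 1 * θ

/-- The form is unique up to equivalence. -/
def DF4St : Prop := ∀ (L : Type) [Field L] [NumberField L] (θ θ' : L) (f f' : Fin 4 → ℤ),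
  Bas L θ f → Bas L θ' f' → Eqv f f'

/-- Inert primes. -/
def DF5St : Prop := ∀ (L : Type) [Field L] [NumberField L] (θ : L) (f : Fin 4 → ℤ) (p : ℕ),
  Bas L θ f → p.Prime → NoRoot p f → (Ideal.span {(p : 𝓞 L)}).IsPrime

/-- The field is generated by a root of any equivalent form. -/
def DF6St : Prop := ∀ (L : IntermediateField ℚ ℝ) [NumberField L] (θ : L) (f g : Fin 4 → ℤ),
  Bas L θ f → Eqv f g → ∃ ρ : ℝ, ev (cst ℝ g) ρ 1 = 0 ∧ L = ℚ⟮ρ⟯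

/-- Three independent classes modulo squares. -/
def SelSt : Prop := ∀ (L : Type) [Field L] [NumberField L], Module.finrank ℚ L = 3 →
  discr L < 0 → Even (classNumber L) → ∃ (δ : Fin 3 → 𝓞 L) (I : Fin 3 → Ideal (𝓞 L)),
    (∀ i, I i ≠ ⊥ ∧ I i * I i = Ideal.span {δ i} ∧
      Algebra.norm ℤ (δ i) = (Ideal.absNorm (I i) : ℤ) ^ 2 ∧ ¬ IsSquare (δ i : L)) ∧
    ∀ i j, IsSquare ((δ i : L) * δ j) → i = j

/-- `w` is the pair of the element `δ` in the rational basis `e`. -/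
def IsPair {L : Type} [Field L] (θ : L) (f : Fin 4 → ℤ) (δ : L) (e : Fin 3 → L)
    (w : M3 ℤ × M3 ℤ) : Prop :=
  ∀ i j, ∃ u : ℤ, e i * e j = δ * (u + w.2 i j * (f 0 * θ) + w.1 i j * (f 0 * θ ^ 2 + f 1 * θ))

/-- The pair of a square root of a principal ideal. -/
def ParASt : Prop := ∀ (L : Type) [Field L] [NumberField L] (θ : L) (f : Fin 4 → ℤ),
  Bas L θ f → ∀ (δ : 𝓞 L) (I : Ideal (𝓞 L)), I ≠ ⊥ → I * I = Ideal.span {δ} →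
    Algebra.norm ℤ δ = (Ideal.absNorm I : ℤ) ^ 2 →
    ∃ (e : Fin 3 → L) (w : M3 ℤ × M3 ℤ), LinearIndependent ℚ e ∧ IsPair θ f δ e w ∧ Sym w ∧
      pif w = f

/-- Irreducibility and inequivalence. -/
def ParBSt : Prop := ∀ (L : Type) [Field L] [NumberField L] (θ : L) (f : Fin 4 → ℤ),
  Bas L θ f → ∀ (δ : L) (e : Fin 3 → L) (w : M3 ℤ × M3 ℤ), δ ≠ 0 → LinearIndependent ℚ e →
    IsPair θ f δ e w →
    (IsSquare (Algebra.norm ℚ δ) → ¬ IsSquare δ → IrrW w) ∧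
    ∀ (δ' : L) (e' : Fin 3 → L) (w' : M3 ℤ × M3 ℤ), δ' ≠ 0 → LinearIndependent ℚ e' →
      IsPair θ f δ' e' w' → EqW w w' → IsSquare (δ * δ')

/-- The real orbit. -/
def ParCSt : Prop := ∀ (L : Type) [Field L] [NumberField L] (θ : L) (f : Fin 4 → ℤ),
  Bas L θ f → 0 < f 0 → disc f < 0 → ∀ (δ : L) (e : Fin 3 → L) (w : M3 ℤ × M3 ℤ),
    0 < Algebra.norm ℚ δ → IsPair θ f δ e w → Real1 w

/-- Three orbits over a field of even class number. -/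
def ParSt : Prop := ∀ (L : Type) [Field L] [NumberField L] (θ : L) (f : Fin 4 → ℤ),
  Bas L θ f → 0 < f 0 → disc f < 0 → Even (classNumber L) → ∃ w : Fin 3 → M3 ℤ × M3 ℤ,
    (∀ i, Sym (w i) ∧ IrrW (w i) ∧ Real1 (w i) ∧ pif (w i) = f) ∧
    ∀ i j, EqW (w i) (w j) → i = j

/-- There are at most linearly many complex cubic fields. -/
def UpSt : Prop := ∃ C : ℝ, ∀ X : ℝ, 0 ≤ X → (AllF X).Finite ∧ ((AllF X).ncard : ℝ) ≤ C * X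

/-- Linearly many of them have odd class number and `17` inert. -/
def DensSt : Prop := ∃ c : ℝ, 0 < c ∧ ∀ᶠ X : ℝ in atTop, c * X ≤ ((OddF X).ncard : ℝ)

end Pool.Agent.Lib.MP_02f36d_nt.CF
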